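import Pool.Agent.P8H13.GK.Sharp2
import Pool.Agent.P8H13.PK.APsum
import Pool.Agent.P8H13.PK.Corr
import Pool.Agent.W110.HV.Rama

set_option autoImplicit false

/-!
# Averages over the residue classes modulo `W`: the arithmetic
-/

namespace Pool.Agent.P8H13.GK

open Finset
open Pool.Agent.H807R2.Dav
open Pool.Agent.TH823.PS (rr mem_rr)
open Pool.Agent.P8H13.PK

lemma lift_unit {K D s : ℕ} (hK : 0 < K) (hD : D ∣ K) (hs : s.Coprime D) : ∃ u : ℕ, u ≡ s [MOD D] ∧ u.Coprime K := by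
  have hD0 : 0 < D := Nat.pos_of_dvd_of_pos hD hK
  have : NeZero K := ⟨hK.ne'⟩
  have : NeZero D := ⟨hD0.ne'⟩
  obtain ⟨u, hu⟩ := ZMod.unitsMap_surjective hD (ZMod.unitOfCoprime s hs)
  refine ⟨(u : ZMod K).val, ?_, ZMod.val_coe_unit_coprime u⟩
  have h2 : (((u : ZMod K).val : ℕ) : ZMod D) = (s : ZMod D) := by
    have h3 := congrArg Units.val hu
    rw [ZMod.unitsMap_val, ZMod.coe_unitOfCoprime] at h3
    rw [← h3, ZMod.natCast_val]
  exact (ZMod.natCast_eq_natCast_iff _ _ _).1 h2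

/-- multiplication by a unit permutes the reduced residues -/
lemma sum_rr_mul {M : Type} [AddCommMonoid M] {K u : ℕ} (hK : 0 < K) (hu : u.Coprime K) (F : ℕ → M) :
    ∑ n ∈ rr K, F ((u * n) % K) = ∑ n ∈ rr K, F n := by
  have hmaps : ∀ a ∈ rr K, (u * a) % K ∈ rr K := by
    intro a ha
    rw [mem_rr] at ha ⊢
    refine ⟨Nat.mod_lt _ hK, ?_⟩
    have h1 : (u * a).Coprime K := hu.mul_left ha.2
    unfold Nat.Coprime at h1 ⊢
    rw [← Nat.gcd_rec, Nat.gcd_comm]
    exact h1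
  have hinj : Set.InjOn (fun a => (u * a) % K) (rr K : Set ℕ) := by
    intro a ha b hb hab
    rw [mem_coe, mem_rr] at ha hb
    have h1 : u * a ≡ u * b [MOD K] := hab
    have h2 : a ≡ b [MOD K] := Nat.ModEq.cancel_left_of_coprime (by rw [Nat.gcd_comm]; exact hu) h1
    exact Nat.ModEq.eq_of_lt_of_lt h2 ha.1 hb.1
  have hsurj : Set.SurjOn (fun a => (u * a) % K) (rr K : Set ℕ) (rr K : Set ℕ) :=
    Finset.surjOn_of_injOn_of_card_le _ (fun a ha => hmaps a ha) hinj le_rfl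
  exact sum_nbij (fun a => (u * a) % K) hmaps hinj hsurj (fun a _ => rfl)

lemma ee_modEq {D A n m : ℕ} (hD : 0 < D) (h : n ≡ m [MOD D]) : ee ((n : ℝ) * (A / D)) = ee ((m : ℝ) * (A / D)) := by
  have hD0 : (D : ℝ) ≠ 0 := by exact_mod_cast hD.ne'
  obtain ⟨c, hc⟩ := (Nat.modEq_iff_dvd.1 h.symm)
  have h1 : (n : ℝ) = m + D * c := by
    have : (n : ℤ) = m + D * c := by linarith
    exact_mod_cast this
  have h2 : (n : ℝ) * (A / D) = (m : ℝ) * (A / D) + ((c * (A : ℤ) : ℤ) : ℝ) := by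
    rw [h1]
    push_cast
    field_simp
  rw [h2, ee_add_int]

/-- the Ramanujan sums -/
theorem holder {K D A : ℕ} (hK : 0 < K) (hD : D ∣ K) (hA : A.Coprime D) :
    (D.totient : ℂ) * ∑ n ∈ rr K, ee ((n : ℝ) * (A / D)) =
      (K.totient : ℂ) * ((ArithmeticFunction.moebius D : ℤ) : ℂ) := by
  have hD0 : 0 < D := Nat.pos_of_dvd_of_pos hD hK
  have h1 : ∀ s ∈ rr D, ∑ n ∈ rr K, ee ((n : ℝ) * (A / D)) = ∑ n ∈ rr K, ee (((n * A : ℕ) : ℝ) * (s / D)) := by
    intro s hs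
    rw [mem_rr] at hs
    obtain ⟨u, hu1, hu2⟩ := lift_unit hK hD hs.2
    rw [← sum_rr_mul hK hu2 (fun n => ee ((n : ℝ) * (A / D)))]
    apply sum_congr rfl
    intro n _
    have h2 : (u * n) % K ≡ s * n [MOD D] :=
      ((Nat.mod_modEq _ _).of_dvd hD).trans (hu1.mul_right n)
    rw [ee_modEq hD0 h2]
    congr 1
    push_cast
    ring
  have h2 : (D.totient : ℂ) * ∑ n ∈ rr K, ee ((n : ℝ) * (A / D)) =
      ∑ s ∈ rr D, ∑ n ∈ rr K, ee (((n * A : ℕ) : ℝ) * (s / D)) := by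
    rw [← sum_congr rfl h1, sum_const, card_rr, nsmul_eq_mul]
  rw [h2, sum_comm]
  have h3 : ∀ n ∈ rr K, ∑ s ∈ rr D, ee (((n * A : ℕ) : ℝ) * (s / D)) = ((ArithmeticFunction.moebius D : ℤ) : ℂ) := by
    intro n hn
    rw [mem_rr] at hn
    have h4 : (n * A).Coprime D := (Nat.Coprime.coprime_dvd_right hD hn.2).mul_left hA
    rw [← Pool.Agent.W110.HV.raman_coprime D hD0 ((n * A : ℕ) : ℤ) (by exact_mod_cast Nat.isCoprime_iff_coprime.2 h4)]
    unfold rr
    apply sum_congr rfl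
    intro s _
    rw [ee_same]
    push_cast
    rfl
  rw [sum_congr rfl h3, sum_const, card_rr, nsmul_eq_mul]

/-- incomplete sums of a periodic function -/
lemma per_range (f : ℕ → ℂ) {K : ℕ} (hK : 0 < K) (hper : ∀ n, f (n + K) = f n) {M : ℝ} (hM : ∀ n, ‖f n‖ ≤ M) :
    ∀ n : ℕ, ‖∑ t ∈ range n, f t - (n : ℂ) / K * ∑ t ∈ range K, f t‖ ≤ 2 * K * M := by
  have hM0 : 0 ≤ M := (norm_nonneg _).trans (hM 0)
  have hKr : (0 : ℝ) < K := by exact_mod_cast hK
  have hKc : (K : ℂ) ≠ 0 := by exact_mod_cast hK.ne'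
  have hS : ∀ n : ℕ, ‖∑ t ∈ range n, f t‖ ≤ n * M := by
    intro n
    refine (norm_sum_le _ _).trans ((sum_le_sum fun t _ => hM t).trans ?_)
    rw [sum_const, card_range, nsmul_eq_mul]
  intro n
  induction n using Nat.strong_induction_on with
  | _ n ih =>
    rcases lt_or_ge n K with h | h
    · refine (norm_sub_le _ _).trans ?_
      have h1 := hS n
      have h2 := hS K
      have h3 : (n : ℝ) ≤ K := by exact_mod_cast h.le
      have h4 : ‖(n : ℂ) / K * ∑ t ∈ range K, f t‖ ≤ K * M := by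
        rw [norm_mul, norm_div, Complex.norm_natCast, Complex.norm_natCast]
        calc (n : ℝ) / K * ‖∑ t ∈ range K, f t‖ ≤ 1 * (K * M) := by
              apply mul_le_mul _ h2 (norm_nonneg _) zero_le_one
              rw [div_le_one hKr]; exact h3
          _ = _ := one_mul _
      nlinarith
    · obtain ⟨m, rfl⟩ := Nat.exists_eq_add_of_le h
      have h1 := ih m (by omega)
      have h2 : ∑ t ∈ range (K + m), f t = ∑ t ∈ range K, f t + ∑ t ∈ range m, f t := by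
        rw [sum_range_add]
        congr 1
        apply sum_congr rfl
        intro t _
        rw [add_comm, hper]
      have h3 : ((K + m : ℕ) : ℂ) / K = 1 + m / K := by
        push_cast
        field_simp
      rw [h2, h3]
      have h4 : ∑ t ∈ range K, f t + ∑ t ∈ range m, f t - (1 + (m : ℂ) / K) * ∑ t ∈ range K, f t =
          ∑ t ∈ range m, f t - (m : ℂ) / K * ∑ t ∈ range K, f t := by ring
      rw [h4]
      exact h1

lemma per_Ico (f : ℕ → ℂ) {K : ℕ} (hK : 0 < K) (hper : ∀ n, f (n + K) = f n) {M : ℝ} (hM : ∀ n, ‖f n‖ ≤ M)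
    (lo V : ℕ) : ‖∑ t ∈ Ico lo (lo + V), f t - (V : ℂ) / K * ∑ t ∈ range K, f t‖ ≤ 4 * K * M := by
  have h1 := per_range f hK hper hM (lo + V)
  have h2 := per_range f hK hper hM lo
  rw [sum_Ico_eq_sub _ (Nat.le_add_right lo V)]
  have h3 : ∑ t ∈ range (lo + V), f t - ∑ t ∈ range lo, f t - (V : ℂ) / K * ∑ t ∈ range K, f t =
      (∑ t ∈ range (lo + V), f t - ((lo + V : ℕ) : ℂ) / K * ∑ t ∈ range K, f t) -
      (∑ t ∈ range lo, f t - (lo : ℂ) / K * ∑ t ∈ range K, f t) := by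
    push_cast
    ring
  rw [h3]
  refine (norm_sub_le _ _).trans ?_
  linarith

/-- the main term for the denominator `q` -/
noncomputable def mq (W q n : ℕ) : ℝ := if n.Coprime (q * W) then ((q * W : ℕ) : ℝ) / (q * W).totient else 0

lemma mq_nonneg (W q n : ℕ) : 0 ≤ mq W q n := by
  unfold mq
  split_ifs
  · positivity
  · exact le_rfl

lemma mq_le {W q : ℕ} (n : ℕ) (hK : 0 < q * W) : mq W q n ≤ (q * W : ℕ) := by
  unfold mq
  have h1 : (1 : ℝ) ≤ (q * W).totient := by exact_mod_cast Nat.totient_pos.2 hK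
  split_ifs
  · exact div_le_self (Nat.cast_nonneg _) h1
  · exact Nat.cast_nonneg _

lemma mq_add {W q : ℕ} (n k : ℕ) : mq W q (n + q * W * k) = mq W q n := by
  unfold mq
  have h1 : (n + q * W * k).Coprime (q * W) ↔ n.Coprime (q * W) := Nat.coprime_add_mul_left_left n (q * W) k
  by_cases h : n.Coprime (q * W)
  · rw [if_pos h, if_pos (h1.2 h)]
  · rw [if_neg h, if_neg (fun h' => h (h1.1 h'))]

/-- the main term along an interval -/
lemma main_inc {W q D A : ℕ} (hK : 0 < q * W) (hD : D ∣ q * W) (hA : A.Coprime D) (lo V : ℕ) :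
    ‖∑ n ∈ Ico lo (lo + V), ((mq W q n : ℝ) : ℂ) * ee ((n : ℝ) * (A / D)) -
      ((ArithmeticFunction.moebius D : ℤ) : ℂ) / D.totient * (V : ℂ)‖ ≤ 4 * ((q * W : ℕ) : ℝ) ^ 2 := by
  set K := q * W with hKd
  have hD0 : 0 < D := Nat.pos_of_dvd_of_pos hD hK
  have hKc : (K : ℂ) ≠ 0 := by exact_mod_cast hK.ne'
  have hφ : (K.totient : ℂ) ≠ 0 := by exact_mod_cast (Nat.totient_pos.2 hK).ne'
  have hφD : (D.totient : ℂ) ≠ 0 := by exact_mod_cast (Nat.totient_pos.2 hD0).ne'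
  have h1 := per_Ico (fun n => ((mq W q n : ℝ) : ℂ) * ee ((n : ℝ) * (A / D))) hK (fun n => by
      have e1 : mq W q (n + K) = mq W q n := by
        have := mq_add (W := W) (q := q) n 1
        rwa [mul_one] at this
      rw [e1]
      congr 1
      apply ee_modEq hD0
      exact (Nat.ModEq.of_dvd hD (by unfold Nat.ModEq; simp))) (M := K) (fun n => by
      rw [norm_mul, norm_ee, mul_one, Complex.norm_real, Real.norm_of_nonneg (mq_nonneg _ _ _)]
      exact mq_le n hK) lo V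
  have h2 : ∑ n ∈ range K, ((mq W q n : ℝ) : ℂ) * ee ((n : ℝ) * (A / D)) =
      (K : ℂ) / K.totient * ∑ n ∈ rr K, ee ((n : ℝ) * (A / D)) := by
    unfold rr
    rw [mul_sum, sum_filter]
    apply sum_congr rfl
    intro n _
    unfold mq
    rw [← hKd]
    split_ifs
    · push_cast; rfl
    · simp
  have h3 := holder (A := A) hK hD hA
  have h4 : (V : ℂ) / K * ∑ n ∈ range K, ((mq W q n : ℝ) : ℂ) * ee ((n : ℝ) * (A / D)) =
      ((ArithmeticFunction.moebius D : ℤ) : ℂ) / D.totient * (V : ℂ) := by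
    rw [h2]
    have h5 : ∑ n ∈ rr K, ee ((n : ℝ) * (A / D)) = (K.totient : ℂ) * ((ArithmeticFunction.moebius D : ℤ) : ℂ) / D.totient := by
      rw [eq_div_iff hφD, ← h3, mul_comm]
    rw [h5]
    field_simp
  rw [h4] at h1
  refine h1.trans (le_of_eq ?_)
  ring

/-- Parseval modulo `W` -/
lemma parsW {W : ℕ} (hW : 0 < W) (J : Finset ℕ) (g : ℕ → ℂ) :
    (W : ℝ) * ∑ b ∈ range W, ‖∑ n ∈ J.filter (fun n => n % W = b), g n‖ ^ 2 =
      ∑ j ∈ range W, ‖∑ n ∈ J, g n * ee ((n : ℝ) * ((j : ℝ) / W))‖ ^ 2 := by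
  rw [← pars hW]
  apply sum_congr rfl
  intro j _
  congr 2
  rw [← sum_fiberwise_of_maps_to (s := J) (t := range W) (g := fun n => n % W) (fun n _ => mem_range.2 (Nat.mod_lt _ hW))]
  apply sum_congr rfl
  intro b _
  rw [sum_mul]
  apply sum_congr rfl
  intro n hn
  rw [mem_filter] at hn
  congr 1
  have h1 : b ≡ n [MOD W] := by rw [← hn.2]; exact Nat.mod_modEq _ _
  exact ee_modEq hW h1

/-- a window in the class of `b` -/
lemma window_class {M : Type} [AddCommMonoid M] {W b : ℕ} (hW : 0 < W) (hb : b < W) (t0 t1 : ℕ) (F : ℕ → M) :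
    ∑ n ∈ (Ico (W * t0) (W * t1)).filter (fun n => n % W = b), F n = ∑ t ∈ Ico t0 t1, F (b + W * t) := by
  symm
  apply sum_nbij' (i := fun t => b + W * t) (j := fun n => n / W)
  · intro t ht
    rw [mem_Ico] at ht
    rw [mem_filter, mem_Ico]
    have h1 : W * t0 ≤ W * t := Nat.mul_le_mul_left W ht.1
    have h2 : W * (t + 1) ≤ W * t1 := Nat.mul_le_mul_left W ht.2
    rw [mul_add] at h2
    refine ⟨⟨by omega, by omega⟩, ?_⟩
    rw [Nat.add_mul_mod_self_left, Nat.mod_eq_of_lt hb]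
  · intro n hn
    rw [mem_filter, mem_Ico] at hn
    rw [mem_Ico]
    refine ⟨?_, ?_⟩
    · rw [Nat.le_div_iff_mul_le hW, mul_comm]; exact hn.1.1
    · rw [Nat.div_lt_iff_lt_mul hW, mul_comm]; exact hn.1.2
  · intro t _
    rw [Nat.add_mul_div_left _ _ hW, Nat.div_eq_of_lt hb, zero_add]
  · intro n hn
    rw [mem_filter] at hn
    have := Nat.mod_add_div n W
    rw [hn.2] at this
    exact this
  · intro t _
    rfl

end Pool.Agent.P8H13.GK
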