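import Pool.Agent.P8H13.GK.Cls2
import Pool.Agent.P8H13.GK.AvgA
import Pool.Agent.P8H13.PK.Asm

set_option autoImplicit false

/-!
# Almost all admissible sets, with exceptional residues
-/

namespace Pool.Agent.P8H13.GK

open Finset
open Pool.Agent.P8H13.PK
open Pool.Agent.TH823.PS (rr mem_rr)

open Classical in
/-- the classes without a good translate -/
noncomputable def BC (W k : ℕ) (B : Finset ℕ) : Finset (Fin k → ℕ) :=
  (CL W k).filter (fun α => ¬ ∃ c : ℕ, ∀ i, (c + α i).Coprime W ∧ (c + α i) % W ∉ B)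

open Classical in
lemma mem_CL {W k : ℕ} {α : Fin k → ℕ} : α ∈ CL W k ↔ (∀ i, α i < W) ∧ ∃ c : ℕ, ∀ i, (c + α i).Coprime W := by
  unfold CL
  rw [mem_filter, Fintype.mem_piFinset]
  simp only [mem_range]

open Classical in
lemma mem_BC {W k : ℕ} {B : Finset ℕ} {α : Fin k → ℕ} : α ∈ BC W k B ↔ α ∈ CL W k ∧
    ¬ ∃ c : ℕ, ∀ i, (c + α i).Coprime W ∧ (c + α i) % W ∉ B := by
  unfold BC
  rw [mem_filter]

/-- multiplication of a class by a unit -/
def mm {k : ℕ} (W u : ℕ) (α : Fin k → ℕ) : Fin k → ℕ := fun i => (u * α i) % W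

lemma mm_modEq {k W u : ℕ} (α : Fin k → ℕ) (c : ℕ) (i : Fin k) : u * c + mm W u α i ≡ u * (c + α i) [MOD W] := by
  unfold mm
  rw [mul_add]
  exact Nat.ModEq.add_left _ (Nat.mod_modEq _ _)

lemma mm_CL {k W u : ℕ} (hW : 0 < W) (hu : u.Coprime W) {α : Fin k → ℕ} (hα : α ∈ CL W k) : mm W u α ∈ CL W k := by
  rw [mem_CL] at hα ⊢
  refine ⟨fun i => Nat.mod_lt _ hW, ?_⟩
  obtain ⟨c, hc⟩ := hα.2
  refine ⟨u * c, fun i => ?_⟩
  have h1 := mm_modEq (W := W) (u := u) α c i
  unfold Nat.Coprime
  rw [h1.gcd_eq]
  exact hu.mul_left (hc i)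

open Classical in
/-- **few classes have no good translate** -/
theorem bad_classes {W k : ℕ} (hW : 2 ≤ W) (B : Finset ℕ) :
    W.totient * (BC W k B).card ≤ k * B.card * (CL W k).card := by
  have hW0 : 0 < W := by omega
  -- for each unit
  have h1 : ∀ u ∈ rr W, (BC W k B).card ≤ ((CL W k).filter (fun α => mm W u α ∈ BC W k B)).card := by
    intro u hu
    rw [mem_rr] at hu
    obtain ⟨v, hv⟩ : ∃ v, u * v % W = 1 := by
      obtain ⟨v, hv⟩ := Nat.exists_mul_mod_eq_one_of_coprime hu.2 (by omega)
      exact ⟨v, hv.2⟩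
    have hvc : v.Coprime W := by
      have h2 : (u * v).Coprime W := by
        unfold Nat.Coprime
        rw [Nat.gcd_comm, Nat.gcd_rec, hv]
        exact Nat.gcd_one_left W
      exact Nat.Coprime.coprime_mul_left h2
    have hinv : ∀ β : Fin k → ℕ, (∀ i, β i < W) → mm W u (mm W v β) = β := by
      intro β hβ
      funext i
      unfold mm
      have h3 : u * (v * β i % W) ≡ β i [MOD W] := by
        have h4 : u * (v * β i % W) ≡ u * (v * β i) [MOD W] := Nat.ModEq.mul_left _ (Nat.mod_modEq _ _)
        have h5 : u * (v * β i) = (u * v) * β i := by ring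
        rw [h5] at h4
        have h6 : (u * v) * β i ≡ 1 * β i [MOD W] := by
          apply Nat.ModEq.mul_right
          unfold Nat.ModEq
          rw [hv, Nat.mod_eq_of_lt (by omega)]
        rw [one_mul] at h6
        exact h4.trans h6
      have h7 : (u * (v * β i % W)) % W = β i % W := h3
      rw [h7, Nat.mod_eq_of_lt (hβ i)]
    apply card_le_card_of_injOn (fun β => mm W v β)
    · intro β hβ
      rw [mem_coe] at hβ
      have h8 := (mem_BC.1 hβ).1
      rw [mem_coe, mem_filter]
      refine ⟨mm_CL hW0 hvc h8, ?_⟩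
      rw [hinv β (mem_CL.1 h8).1]
      exact hβ
    · intro β hβ β' hβ' h
      rw [mem_coe] at hβ hβ'
      have h8 := (mem_CL.1 (mem_BC.1 hβ).1).1
      have h9 := (mem_CL.1 (mem_BC.1 hβ').1).1
      rw [← hinv β h8, ← hinv β' h9]
      exact congrArg (mm W u) h
  have h2 : W.totient * (BC W k B).card ≤ ∑ u ∈ rr W, ((CL W k).filter (fun α => mm W u α ∈ BC W k B)).card := by
    refine le_trans (le_of_eq ?_) (sum_le_sum h1)
    rw [sum_const, card_rr, smul_eq_mul]
  refine h2.trans ?_
  have h3 : ∑ u ∈ rr W, ((CL W k).filter (fun α => mm W u α ∈ BC W k B)).card =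
      ∑ α ∈ CL W k, ((rr W).filter (fun u => mm W u α ∈ BC W k B)).card := by
    simp only [card_filter]
    rw [sum_comm]
  rw [h3]
  have h4 : ∀ α ∈ CL W k, ((rr W).filter (fun u => mm W u α ∈ BC W k B)).card ≤ k * B.card := by
    intro α hα
    obtain ⟨c, hc⟩ := (mem_CL.1 hα).2
    have h5 : (rr W).filter (fun u => mm W u α ∈ BC W k B) ⊆
        (univ : Finset (Fin k)).biUnion (fun i => (rr W).filter (fun u => (u * (c + α i)) % W ∈ B)) := by
      intro u hu
      rw [mem_filter] at hu
      have h6 := mem_rr.1 hu.1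
      have h7 := (mem_BC.1 hu.2).2
      rw [mem_biUnion]
      by_contra hcon
      push Not at hcon
      apply h7
      refine ⟨u * c, fun i => ?_⟩
      have h8 := mm_modEq (W := W) (u := u) α c i
      constructor
      · unfold Nat.Coprime
        rw [h8.gcd_eq]
        exact h6.2.mul_left (hc i)
      · have h9 : (u * c + mm W u α i) % W = (u * (c + α i)) % W := h8
        rw [h9]
        intro h10
        exact hcon i (mem_univ _) (mem_filter.2 ⟨hu.1, h10⟩)
    refine (card_le_card h5).trans (card_biUnion_le.trans ?_)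
    have h6 : ∀ i ∈ (univ : Finset (Fin k)), ((rr W).filter (fun u => (u * (c + α i)) % W ∈ B)).card ≤ B.card := by
      intro i _
      apply card_le_card_of_injOn (fun u => (u * (c + α i)) % W)
      · intro u hu
        rw [mem_coe, mem_filter] at hu
        exact hu.2
      · intro u hu u' hu' h
        rw [mem_coe, mem_filter, mem_rr] at hu hu'
        have h7 : u * (c + α i) ≡ u' * (c + α i) [MOD W] := h
        have h8 : u ≡ u' [MOD W] := Nat.ModEq.cancel_right_of_coprime (by rw [Nat.gcd_comm]; exact hc i) h7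
        exact Nat.ModEq.eq_of_lt_of_lt h8 hu.1.1 hu'.1.1
    refine (sum_le_sum h6).trans ?_
    rw [sum_const, card_univ, Fintype.card_fin, smul_eq_mul]
  refine (sum_le_sum h4).trans ?_
  rw [sum_const, smul_eq_mul, mul_comm]

open Classical in
/-- **almost all admissible sets** -/
theorem sets_bound {l κ ε : ℝ} {N W T y0 : ℕ} {B : Finset ℕ} (hH : HypB l N W T y0 κ B)
    (hB : (B.card : ℝ) ≤ W.totient * ε) (hε : 4 * ε * y0 ≤ 1) (hWd : ∀ p, p.Prime → (p ∣ W ↔ p ≤ y0))
    {k : ℕ} (hk : 1 ≤ k) (hky : 11 * k ≤ y0)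
    {y S : ℕ} {τ η : ℝ} (hτ0 : 0 ≤ τ) (hτ : τ ≤ k / y0) (hη0 : 0 ≤ η) (hη : k * η ≤ τ) (hκ : 8 * (k * κ) ≤ τ)
    (hS : 1 ≤ S) (hyS : y + W * (S + 1) ≤ W * T)
    (hyT : (W : ℝ) * T ≤ (1 + η) * (y + 1)) (hWy : (W : ℝ) ≤ η * (y + 1))
    (hS1 : (4 * Real.log (2 * N)) ^ k ≤ τ * S)
    (hS2 : 6 * k * (T * Real.exp (-(l / 4))) * Real.log N ^ (2 * k) ≤ τ * S)
    (hWk : (W : ℝ) * (2 * k ^ 2 + 1) ≤ y + 1) {M : ℝ} (hM : M * Real.log (2 * N) ^ k ≤ S / 6) :
    (((powersetCard k (range (y + 1))).filter (fun A => Adm A ∧ (cnt y A : ℝ) < M)).card : ℝ) ≤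
      322 * (k / y0) * ((powersetCard k (range (y + 1))).filter (fun A => Adm A)).card := by
  have hpar := hH.par
  have hW0 := hpar.W0
  have hWn : 0 < W := by exact_mod_cast hW0
  have hk1 : (1 : ℝ) ≤ k := by exact_mod_cast hk
  have hk0 : (0 : ℝ) < k := by linarith
  have hy0' : (11 : ℝ) * k ≤ y0 := by exact_mod_cast hky
  have hy0pos : (0 : ℝ) < y0 := by linarith
  have hη1 : η ≤ 1 / 11 := by
    have h1 : η ≤ k * η := le_mul_of_one_le_left hη0 hk1
    have h2 : (k : ℝ) / y0 ≤ 1 / 11 := by rw [div_le_div_iff₀ hy0pos (by norm_num)]; linarith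
    linarith
  have hY1 : (1 : ℝ) ≤ (y : ℝ) + 1 := by have : (0 : ℝ) ≤ y := Nat.cast_nonneg _; linarith
  have hWSy : W * S ≤ y := by
    have h1 : ((y + W * (S + 1) : ℕ) : ℝ) ≤ ((W * T : ℕ) : ℝ) := by exact_mod_cast hyS
    push_cast at h1
    have h2 : (W : ℝ) * S + W ≤ η * (y + 1) + 1 := by nlinarith
    have hW1 : (2 : ℝ) ≤ W := by exact_mod_cast hH.hW2
    have h3 : (W : ℝ) * S ≤ y := by nlinarith
    exact_mod_cast h3
  have hyN : y ≤ N := by have := hpar.hT1; omega
  have hlogN : 1 ≤ Real.log N := by linarith [hpar.L1, hpar.hl]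
  have hlog2N : 0 < Real.log (2 * N) := by
    have : Real.log N ≤ Real.log (2 * N) := Real.log_le_log hpar.N0 (by linarith [hpar.N0])
    linarith
  -- the bad tuples
  have hA : (((TT W y k).filter (fun a => (cnt y (univ.image a) : ℝ) < M)).card : ℝ) ≤
      161 * (k / y0) * (TT W y k).card := by
    have e1 := TT_sum (y := y) hWn (fun a : Fin k → ℕ => (cnt y (univ.image a) : ℝ) < M)
    have e2 := TT_sum (y := y) hWn (fun _ : Fin k → ℕ => True)
    rw [filter_true] at e2
    simp only [filter_true] at e2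
    -- the classes without a good translate
    have hbc : ∑ α ∈ BC W k B, ((Fintype.piFinset (fun i => Acl W y (α i))).card : ℝ) ≤
        (k / y0) * ∑ α ∈ CL W k, ((Fintype.piFinset (fun i => Acl W y (α i))).card : ℝ) := by
      set z : ℝ := ((y : ℝ) + 1) / W with hz
      have hzk : 2 * (k : ℝ) ^ 2 + 1 ≤ z := by rw [hz, le_div_iff₀ hW0]; linarith
      have hz1 : 1 < z := by nlinarith
      have hup : ∀ α : Fin k → ℕ, ((Fintype.piFinset (fun i => Acl W y (α i))).card : ℝ) ≤ (z + 1) ^ k := by
        intro α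
        rw [Fintype.card_piFinset]
        push_cast
        have f1 : ∏ i, ((Acl W y (α i)).card : ℝ) ≤ ∏ _i : Fin k, (z + 1) :=
          prod_le_prod (fun i _ => Nat.cast_nonneg _) fun i _ => (card_Acl hWn y (α i)).1
        rwa [prod_const, card_univ, Fintype.card_fin] at f1
      have hlo : ∀ α : Fin k → ℕ, (z - 1) ^ k ≤ ((Fintype.piFinset (fun i => Acl W y (α i))).card : ℝ) := by
        intro α
        rw [Fintype.card_piFinset]
        push_cast
        have f1 : ∏ _i : Fin k, (z - 1) ≤ ∏ i, ((Acl W y (α i)).card : ℝ) :=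
          prod_le_prod (fun i _ => by linarith) fun i _ => (card_Acl hWn y (α i)).2
        rwa [prod_const, card_univ, Fintype.card_fin] at f1
      have hratio : (z + 1) ^ k ≤ 4 * (z - 1) ^ k := by
        have f1 : z + 1 ≤ Real.exp (1 / k) * (z - 1) := by
          have g1 := Real.add_one_le_exp (1 / (k : ℝ))
          have g2 : z + 1 ≤ (1 / (k : ℝ) + 1) * (z - 1) := by
            have g3 : (1 / (k : ℝ) + 1) * (z - 1) = (z - 1) / k + (z - 1) := by field_simp
            rw [g3]
            have g4 : 2 ≤ (z - 1) / k := by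
              rw [le_div_iff₀ hk0]
              nlinarith
            linarith
          exact g2.trans (mul_le_mul_of_nonneg_right g1 (by linarith))
        calc (z + 1) ^ k ≤ (Real.exp (1 / k) * (z - 1)) ^ k := pow_le_pow_left₀ (by linarith) f1 k
          _ = Real.exp 1 * (z - 1) ^ k := by
              rw [mul_pow, ← Real.exp_nat_mul]
              congr 2
              field_simp
          _ ≤ 4 * (z - 1) ^ k := by
              apply mul_le_mul_of_nonneg_right _ (pow_nonneg (by linarith) k)
              linarith [Real.exp_one_lt_d9]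
      have hcount := bad_classes (W := W) (k := k) hH.hW2 B
      have hphi : (0 : ℝ) < W.totient := by exact_mod_cast Nat.totient_pos.2 hWn
      have hcr : ((BC W k B).card : ℝ) ≤ k * ε * (CL W k).card := by
        have g1 : (W.totient : ℝ) * (BC W k B).card ≤ k * B.card * (CL W k).card := by exact_mod_cast hcount
        have g2 : (k : ℝ) * B.card * (CL W k).card ≤ W.totient * (k * ε * (CL W k).card) := by
          calc (k : ℝ) * B.card * (CL W k).card ≤ k * (W.totient * ε) * (CL W k).card := by gcongr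
            _ = _ := by ring
        exact le_of_mul_le_mul_left (g1.trans g2) hphi
      calc ∑ α ∈ BC W k B, ((Fintype.piFinset (fun i => Acl W y (α i))).card : ℝ) ≤ ∑ _α ∈ BC W k B, (z + 1) ^ k :=
            sum_le_sum fun α _ => hup α
        _ = (BC W k B).card * (z + 1) ^ k := by rw [sum_const, nsmul_eq_mul]
        _ ≤ (k * ε * (CL W k).card) * (4 * (z - 1) ^ k) := by
            apply mul_le_mul hcr hratio (by positivity)
            exact (Nat.cast_nonneg _).trans hcr
        _ = (4 * ε * k) * ∑ _α ∈ CL W k, (z - 1) ^ k := by rw [sum_const, nsmul_eq_mul]; ring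
        _ ≤ (4 * ε * k) * ∑ α ∈ CL W k, ((Fintype.piFinset (fun i => Acl W y (α i))).card : ℝ) := by
            apply mul_le_mul_of_nonneg_left (sum_le_sum fun α _ => hlo α)
            have : 0 ≤ ε := by
              have g1 : 0 ≤ W.totient * ε := (Nat.cast_nonneg _).trans hB
              exact nonneg_of_mul_nonneg_right g1 hphi
            positivity
        _ ≤ (k / y0) * ∑ α ∈ CL W k, ((Fintype.piFinset (fun i => Acl W y (α i))).card : ℝ) := by
            apply mul_le_mul_of_nonneg_right _ (sum_nonneg fun _ _ => Nat.cast_nonneg _)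
            rw [le_div_iff₀ hy0pos]
            nlinarith
    have hgc : ∑ α ∈ CL W k \ BC W k B, (((Fintype.piFinset (fun i => Acl W y (α i))).filter (fun a => (cnt y (univ.image a) : ℝ) < M)).card : ℝ) ≤
        160 * (k / y0) * ∑ α ∈ CL W k, ((Fintype.piFinset (fun i => Acl W y (α i))).card : ℝ) := by
      have hsd : ∑ α ∈ CL W k \ BC W k B, ((Fintype.piFinset (fun i => Acl W y (α i))).card : ℝ) ≤
          ∑ α ∈ CL W k, ((Fintype.piFinset (fun i => Acl W y (α i))).card : ℝ) :=
        sum_le_sum_of_subset_of_nonneg sdiff_subset fun _ _ _ => Nat.cast_nonneg _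
      refine le_trans ?_ (mul_le_mul_of_nonneg_left hsd (by positivity))
      rw [mul_sum]
      apply sum_le_sum
      intro α hα
      rw [mem_sdiff] at hα
      have hα2 : ∃ c : ℕ, ∀ i, (c + α i).Coprime W ∧ (c + α i) % W ∉ B := by
        by_contra hcon
        apply hα.2
        unfold BC
        rw [mem_filter]
        exact ⟨hα.1, hcon⟩
      obtain ⟨c, hc⟩ := hα2
      set c' := (c + (W - 1)) % W + 1 with hc'
      have hc'1 : 1 ≤ c' := by omega
      have hc'W : c' ≤ W := by
        have : (c + (W - 1)) % W < W := Nat.mod_lt _ hWn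
        omega
      have hmod : c' ≡ c [MOD W] := by
        have h1 : (c + (W - 1)) % W + 1 ≡ c + (W - 1) + 1 [MOD W] := Nat.ModEq.add_right 1 (Nat.mod_modEq _ _)
        have h2 : c + (W - 1) + 1 = c + W := by omega
        rw [h2] at h1
        exact h1.trans (by unfold Nat.ModEq; simp)
      have hal : ∀ i, (c' + α i).Coprime W := by
        intro i
        have h1 : c' + α i ≡ c + α i [MOD W] := Nat.ModEq.add_right _ hmod
        unfold Nat.Coprime
        rw [h1.gcd_eq]
        exact (hc i).1
      have hgood : ∀ i, (c' + α i) % W ∉ B := by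
        intro i
        have h1 : (c' + α i) % W = (c + α i) % W := Nat.ModEq.add_right _ hmod
        rw [h1]
        exact (hc i).2
      refine le_trans ?_ (class_bound hH hk hky hτ0 hτ hη0 hη hκ hS hc'1 hc'W hyS hyT hWy hS1 hS2 α hal hgood)
      have hsub : (Fintype.piFinset (fun i => Acl W y (α i))).filter (fun a => (cnt y (univ.image a) : ℝ) < M) ⊆
          (Fintype.piFinset (fun i => Acl W y (α i))).filter (fun a => ZZ W S c' a ≤ S / 6) := by
        intro a ha
        rw [mem_filter] at ha ⊢
        refine ⟨ha.1, ?_⟩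
        have h1 : ∀ i, a i ≤ y := fun i => (mem_Acl.1 (Fintype.mem_piFinset.1 ha.1 i)).1
        have h2 := ZZ_le_cnt (a := a) hk hWn hc'1 hc'W hWSy h1 hyN
        refine h2.trans (le_trans ?_ hM)
        exact mul_le_mul_of_nonneg_right ha.2.le (by positivity)
      exact_mod_cast card_le_card hsub
    have hsubBC : BC W k B ⊆ CL W k := by
      intro α hα
      unfold BC at hα
      rw [mem_filter] at hα
      exact hα.1
    rw [e1, e2]
    push_cast
    rw [← sum_sdiff hsubBC]
    have h3 : ∑ α ∈ BC W k B, (((Fintype.piFinset (fun i => Acl W y (α i))).filter (fun a => (cnt y (univ.image a) : ℝ) < M)).card : ℝ) ≤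
        ∑ α ∈ BC W k B, ((Fintype.piFinset (fun i => Acl W y (α i))).card : ℝ) :=
      sum_le_sum fun α _ => by exact_mod_cast card_le_card (filter_subset _ _)
    have h4 := h3.trans hbc
    have h5 : 161 * ((k : ℝ) / y0) * ∑ α ∈ CL W k, ((Fintype.piFinset (fun i => Acl W y (α i))).card : ℝ) =
        160 * (k / y0) * ∑ α ∈ CL W k, ((Fintype.piFinset (fun i => Acl W y (α i))).card : ℝ) +
        (k / y0) * ∑ α ∈ CL W k, ((Fintype.piFinset (fun i => Acl W y (α i))).card : ℝ) := by ring
    rw [h5]
    linarith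
  -- most tuples are injective
  have hB : ((TT W y k).card : ℝ) ≤ 2 * ((TT W y k).filter (fun a => Function.Injective a)).card := by
    have e1 := TT_sum (y := y) hWn (fun a : Fin k → ℕ => ¬ Function.Injective a)
    have e2 := TT_sum (y := y) hWn (fun _ : Fin k → ℕ => True)
    rw [filter_true] at e2
    have h1 : (((TT W y k).filter (fun a => ¬ Function.Injective a)).card : ℝ) ≤ (TT W y k).card / 2 := by
      rw [e1, e2]
      push_cast
      rw [sum_div]
      apply sum_le_sum
      intro α _
      rw [filter_true]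
      have hm : ∀ j, 2 * (k : ℝ) ^ 2 ≤ (Acl W y (α j)).card := by
        intro j
        have h2 := (card_Acl hWn y (α j)).2
        have h3 : 2 * (k : ℝ) ^ 2 + 1 ≤ ((y : ℝ) + 1) / W := by
          rw [le_div_iff₀ hW0]; linarith
        linarith
      have h2 := noninj_card (fun i => Acl W y (α i)) (m := 2 * (k : ℝ) ^ 2) (by positivity) hm
      have hk2 : (0 : ℝ) < (k : ℝ) ^ 2 := by positivity
      rw [le_div_iff₀ (by norm_num)]
      have h3 : (((Fintype.piFinset (fun i => Acl W y (α i))).filter (fun a => ¬ Function.Injective a)).card : ℝ) * 2 * (k : ℝ) ^ 2 ≤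
          (Fintype.piFinset (fun i => Acl W y (α i))).card * (k : ℝ) ^ 2 := by linarith
      exact le_of_mul_le_mul_right h3 hk2
    have h2 := card_filter_add_card_filter_not (s := TT W y k) (fun a => Function.Injective a)
    have h3 : (((TT W y k).filter (fun a => Function.Injective a)).card : ℝ) +
        ((TT W y k).filter (fun a => ¬ Function.Injective a)).card = (TT W y k).card := by exact_mod_cast h2
    linarith
  -- tuples and sets
  have hC : ∀ (Pr : Finset ℕ → Prop) [DecidablePred Pr], ((TT W y k).filter (fun a => Function.Injective a ∧ Pr (univ.image a))).card =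
      k.factorial * ((powersetCard k (range (y + 1))).filter (fun A => Adm A ∧ Pr A)).card := by
    intro Pr _
    rw [← inj_count]
    · congr 1
      ext a
      unfold TT
      rw [mem_filter, mem_filter, mem_filter, mem_filter, mem_powersetCard, Fintype.mem_piFinset]
      have key : Function.Injective a → ((Adm (univ.image a)) ↔ ∃ c : ℕ, ∀ i, (c + a i).Coprime W) := by
        intro hinj
        have hcard : (univ.image a).card = k := by
          rw [card_image_of_injective _ hinj, card_univ, Fintype.card_fin]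
        rw [adm_iff (y0 := y0) (W := W) (by rw [hcard]; omega) hWd hWn.ne']
        constructor
        · rintro ⟨c, hc⟩
          exact ⟨c, fun i => hc _ (mem_image_of_mem _ (mem_univ i))⟩
        · rintro ⟨c, hc⟩
          refine ⟨c, fun b hb => ?_⟩
          rw [mem_image] at hb
          obtain ⟨i, _, rfl⟩ := hb
          exact hc i
      constructor
      · rintro ⟨⟨h1, h2⟩, h3, h4⟩
        refine ⟨h1, h3, ⟨?_, ?_⟩, (key h3).2 h2, h4⟩
        · intro b hb
          rw [mem_image] at hb
          obtain ⟨i, _, rfl⟩ := hb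
          exact h1 i
        · rw [card_image_of_injective _ h3, card_univ, Fintype.card_fin]
      · rintro ⟨h1, h3, _, h5, h6⟩
        exact ⟨⟨h1, (key h3).1 h5⟩, h3, h6⟩
    · intro A hA
      rw [mem_filter, mem_powersetCard] at hA
      exact hA.1
  have hC1 := hC (fun A => (cnt y A : ℝ) < M)
  have hC2 := hC (fun _ => True)
  simp only [and_true] at hC2
  have hfac : (0 : ℝ) < k.factorial := by exact_mod_cast Nat.factorial_pos k
  have h1 : (k.factorial : ℝ) * ((powersetCard k (range (y + 1))).filter (fun A => Adm A ∧ (cnt y A : ℝ) < M)).card ≤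
      k.factorial * (322 * (k / y0) * ((powersetCard k (range (y + 1))).filter (fun A => Adm A)).card) := by
    have e1 : ((k.factorial * ((powersetCard k (range (y + 1))).filter (fun A => Adm A ∧ (cnt y A : ℝ) < M)).card : ℕ) : ℝ) =
        ((TT W y k).filter (fun a => Function.Injective a ∧ (cnt y (univ.image a) : ℝ) < M)).card := by
      exact_mod_cast hC1.symm
    have e2 : ((k.factorial * ((powersetCard k (range (y + 1))).filter (fun A => Adm A)).card : ℕ) : ℝ) =
        ((TT W y k).filter (fun a => Function.Injective a)).card := by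
      exact_mod_cast hC2.symm
    push_cast at e1 e2
    rw [e1]
    have e3 : (k.factorial : ℝ) * (322 * (k / y0) * ((powersetCard k (range (y + 1))).filter (fun A => Adm A)).card) =
        322 * (k / y0) * ((TT W y k).filter (fun a => Function.Injective a)).card := by
      rw [← e2]; ring
    rw [e3]
    have h2 : (((TT W y k).filter (fun a => Function.Injective a ∧ (cnt y (univ.image a) : ℝ) < M)).card : ℝ) ≤
        ((TT W y k).filter (fun a => (cnt y (univ.image a) : ℝ) < M)).card := by
      exact_mod_cast card_le_card (by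
        intro a ha
        rw [mem_filter] at ha ⊢
        exact ⟨ha.1, ha.2.2⟩)
    have h3 : 161 * ((k : ℝ) / y0) * (TT W y k).card ≤ 161 * ((k : ℝ) / y0) * (2 * ((TT W y k).filter (fun a => Function.Injective a)).card) :=
      mul_le_mul_of_nonneg_left hB (by positivity)
    linarith
  exact le_of_mul_le_mul_left h1 hfac

end Pool.Agent.P8H13.GK
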