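import Pool.Agent.P8H13.GK.AvgA

set_option autoImplicit false

/-!
# Averages over the residue classes modulo `W`: from all fractions to the classes
-/

namespace Pool.Agent.P8H13.GK

open Finset
open Pool.Agent.H807R2.Dav
open Pool.Agent.TH823.PS (rr mem_rr)
open Pool.Agent.P8H13.PK

/-- the main term in terms of the local factors -/
lemma mq_prod {W q n : ℕ} (hW : 1 ≤ W) (hq : 1 ≤ q) (hn : n.Coprime W) :
    mq W q n = gW W * ∏ p ∈ q.primeFactors.filter (fun p => ¬ p ∣ W), (if p ∣ n then 0 else (p : ℝ) / (p - 1)) := by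
  unfold mq
  by_cases hcop : n.Coprime q
  · rw [if_pos (Nat.Coprime.mul_right hcop hn)]
    have h1 : ∏ p ∈ q.primeFactors.filter (fun p => ¬ p ∣ W), (if p ∣ n then 0 else (p : ℝ) / (p - 1)) =
        ∏ p ∈ q.primeFactors.filter (fun p => ¬ p ∣ W), ((p : ℝ) / (p - 1)) := by
      apply prod_congr rfl
      intro p hp
      rw [mem_filter] at hp
      have hp' := Nat.prime_of_mem_primeFactors hp.1
      rw [if_neg]
      intro h
      have : p ∣ Nat.gcd n q := Nat.dvd_gcd h (Nat.dvd_of_mem_primeFactors hp.1)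
      rw [hcop] at this
      exact hp'.one_lt.ne' (Nat.dvd_one.mp this)
    rw [h1, ← Pool.Agent.N232.SP.FF.totient_ratio W q hW hq]
    have hphi : (Nat.totient W : ℝ) ≠ 0 := by
      have := Nat.totient_pos.2 (show 0 < W by omega)
      exact_mod_cast this.ne'
    have hW0 : (W : ℝ) ≠ 0 := by exact_mod_cast (show W ≠ 0 by omega)
    rw [mul_comm q W]
    unfold gW
    field_simp
  · obtain ⟨p, hp, hpC, hpd⟩ := Nat.Prime.not_coprime_iff_dvd.1 hcop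
    have hpW : ¬ p ∣ W := by
      intro h
      have h2 : p ∣ Nat.gcd n W := Nat.dvd_gcd hpC h
      rw [hn] at h2
      exact hp.one_lt.ne' (Nat.dvd_one.mp h2)
    rw [if_neg (fun h => hcop (Nat.Coprime.coprime_mul_right_right h))]
    rw [prod_eq_zero (i := p), mul_zero]
    · rw [mem_filter]
      exact ⟨Nat.mem_primeFactors.2 ⟨hp, hpd, by omega⟩, hpW⟩
    · rw [if_pos hpC]

/-- the model against the main term -/
lemma T2_bound {W Q q b : ℕ} (hW : 1 ≤ W) (hq : 1 ≤ q) (hqQ : q ≤ Q) (hb : b.Coprime W) (a : ℕ) {t0 t1 : ℕ} (ht : t0 ≤ t1) :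
    ‖∑ t ∈ Ico t0 t1, ((mq W q (b + W * t) - gW W * mo W Q b t : ℝ) : ℂ) * ee (t * ((a : ℝ) / q))‖ ≤ 4 * W * (Q : ℝ) ^ 3 := by
  have hQ0 : (0 : ℝ) ≤ Q := Nat.cast_nonneg _
  have hqr : (q : ℝ) ≤ Q := by exact_mod_cast hqQ
  have hW0 : (0 : ℝ) ≤ W := Nat.cast_nonneg _
  have hF : ∀ s n : ℕ, s < q → s + q * n ≤ t1 + q →
      |∑ k ∈ range n, (mq W q (b + W * (s + q * k)) - gW W * mo W Q b (s + q * k))| ≤ W * (2 * (Q : ℝ) ^ 2) := by
    intro s n _ _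
    have h1 : ∀ k ∈ range n, mq W q (b + W * (s + q * k)) = mq W q (b + W * s) := by
      intro k _
      rw [show b + W * (s + q * k) = b + W * s + q * W * k by ring, mq_add]
    have hcop : (b + W * s).Coprime W := by
      rw [mul_comm W s]
      exact (Nat.coprime_add_mul_right_left b W s).2 hb
    rw [sum_sub_distrib, sum_congr rfl h1, sum_const, card_range, nsmul_eq_mul, mq_prod hW hq hcop, ← mul_sum]
    have h2 := mo_ap (W := W) (Q := Q) (d := q) b s n hq hqQ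
    set P := ∏ p ∈ q.primeFactors.filter (fun p => ¬ p ∣ W), (if p ∣ b + W * s then 0 else (p : ℝ) / (p - 1)) with hP
    have h3 : (n : ℝ) * (gW W * P) - gW W * ∑ k ∈ range n, mo W Q b (s + q * k) =
        -(gW W * (∑ k ∈ range n, mo W Q b (s + q * k) - n * P)) := by ring
    rw [h3, abs_neg, abs_mul, abs_of_nonneg (gW_nonneg W)]
    exact mul_le_mul (gW_le hW) h2 (abs_nonneg _) hW0
  have e1 := twist_range (fun t => mq W q (b + W * t) - gW W * mo W Q b t) q hq (a : ℤ) (x := t1) hF (y := t1) le_rfl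
  have e2 := twist_range (fun t => mq W q (b + W * t) - gW W * mo W Q b t) q hq (a : ℤ) (x := t1) hF (y := t0) ht
  rw [sum_Ico_eq_sub _ ht]
  refine (norm_sub_le _ _).trans ?_
  have e3 : (q : ℝ) * (W * (2 * (Q : ℝ) ^ 2)) ≤ 2 * W * (Q : ℝ) ^ 3 := by
    calc (q : ℝ) * (W * (2 * (Q : ℝ) ^ 2)) ≤ Q * (W * (2 * (Q : ℝ) ^ 2)) := mul_le_mul_of_nonneg_right hqr (by positivity)
      _ = _ := by ring
  have e4 : (((a : ℤ) : ℝ)) = (a : ℝ) := by push_cast; rfl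
  rw [e4] at e1 e2
  linarith

/-- the reduced denominator of `(a + j q) / (q W)` -/
def dn (W q a j : ℕ) : ℕ := (q * W) / Nat.gcd (a + j * q) (q * W)

/-- the reduced numerator of `(a + j q) / (q W)` -/
def an (W q a j : ℕ) : ℕ := (a + j * q) / Nat.gcd (a + j * q) (q * W)

section
variable {W q a j : ℕ}

lemma gpos (hK : 0 < q * W) : 0 < Nat.gcd (a + j * q) (q * W) := Nat.gcd_pos_of_pos_right _ hK

lemma dn_dvd : dn W q a j ∣ q * W := Nat.div_dvd_of_dvd (Nat.gcd_dvd_right _ _)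

lemma dn_pos (hK : 0 < q * W) : 0 < dn W q a j := Nat.pos_of_dvd_of_pos dn_dvd hK

lemma an_cop (hK : 0 < q * W) : (an W q a j).Coprime (dn W q a j) := Nat.coprime_div_gcd_div_gcd (gpos hK)

lemma dn_mul : dn W q a j * Nat.gcd (a + j * q) (q * W) = q * W := Nat.div_mul_cancel (Nat.gcd_dvd_right _ _)

lemma an_mul : an W q a j * Nat.gcd (a + j * q) (q * W) = a + j * q := Nat.div_mul_cancel (Nat.gcd_dvd_left _ _)

lemma num_lt (ha : a < q) (hj : j < W) : a + j * q < q * W := by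
  have h1 : (j + 1) * q ≤ W * q := Nat.mul_le_mul_right q hj
  have h2 : W * q = q * W := mul_comm _ _
  have h3 : (j + 1) * q = j * q + q := by ring
  omega

lemma an_lt (ha : a < q) (hj : j < W) : an W q a j < dn W q a j := by
  have hK : 0 < q * W := lt_of_le_of_lt (Nat.zero_le _) (num_lt ha hj)
  have h1 := num_lt ha hj
  rw [← an_mul (W := W) (q := q) (a := a) (j := j)] at h1
  conv at h1 => rhs; rw [← dn_mul (W := W) (q := q) (a := a) (j := j)]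
  exact Nat.lt_of_mul_lt_mul_right h1

lemma an_dn (hq : 0 < q) (hW : 0 < W) :
    ((an W q a j : ℕ) : ℝ) / (dn W q a j : ℕ) = (a : ℝ) / (q * W) + (j : ℝ) / W := by
  have hK : 0 < q * W := Nat.mul_pos hq hW
  have hg : (0 : ℝ) < Nat.gcd (a + j * q) (q * W) := by exact_mod_cast gpos hK
  have hd : (0 : ℝ) < dn W q a j := by exact_mod_cast dn_pos hK
  have hq0 : (0 : ℝ) < q := by exact_mod_cast hq
  have hW0 : (0 : ℝ) < W := by exact_mod_cast hW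
  have h1 : ((an W q a j : ℕ) : ℝ) * Nat.gcd (a + j * q) (q * W) = a + j * q := by exact_mod_cast an_mul
  have h2 : ((dn W q a j : ℕ) : ℝ) * Nat.gcd (a + j * q) (q * W) = q * W := by exact_mod_cast dn_mul
  have h3 : (a : ℝ) / (q * W) + (j : ℝ) / W = (a + j * q) / (q * W) := by field_simp
  rw [h3, ← h1, ← h2]
  field_simp

end

/-- the fractions are distinct -/
lemma frac_inj {W q a j q' a' j' : ℕ} (hW : 0 < W) (ha : a < q) (hac : a.Coprime q)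
    (ha' : a' < q') (hac' : a'.Coprime q')
    (h1 : dn W q a j = dn W q' a' j') (h2 : an W q a j = an W q' a' j') : q = q' ∧ a = a' ∧ j = j' := by
  have hq : 0 < q := by omega
  have hq' : 0 < q' := by omega
  have e1 := an_dn (W := W) (q := q) (a := a) (j := j) hq hW
  have e2 := an_dn (W := W) (q := q') (a := a') (j := j') hq' hW
  rw [h1, h2] at e1
  have e3 := e1.symm.trans e2
  have hq0 : (0 : ℝ) < q := by exact_mod_cast hq
  have hq0' : (0 : ℝ) < q' := by exact_mod_cast hq'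
  have hW0 : (0 : ℝ) < W := by exact_mod_cast hW
  have e4 : ((a + j * q : ℕ) : ℝ) * q' = ((a' + j' * q' : ℕ) : ℝ) * q := by
    have f1 : (a : ℝ) / (q * W) + (j : ℝ) / W = (a + j * q) / (q * W) := by field_simp
    have f2 : (a' : ℝ) / (q' * W) + (j' : ℝ) / W = (a' + j' * q') / (q' * W) := by field_simp
    rw [f1, f2, div_eq_div_iff (by positivity) (by positivity)] at e3
    have f3 : (W : ℝ) * (((a : ℝ) + j * q) * q') = W * (((a' : ℝ) + j' * q') * q) := by linear_combination e3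
    have f4 := mul_left_cancel₀ hW0.ne' f3
    push_cast
    exact f4
  have e5 : (a + j * q) * q' = (a' + j' * q') * q := by exact_mod_cast e4
  have c1 : (a + j * q).Coprime q := (Nat.coprime_add_mul_right_left a q j).2 hac
  have c2 : (a' + j' * q').Coprime q' := (Nat.coprime_add_mul_right_left a' q' j').2 hac'
  have d1 : q ∣ q' := by
    have : q ∣ (a + j * q) * q' := by rw [e5]; exact dvd_mul_left _ _
    exact c1.symm.dvd_of_dvd_mul_left this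
  have d2 : q' ∣ q := by
    have : q' ∣ (a' + j' * q') * q := by rw [← e5]; exact dvd_mul_left _ _
    exact c2.symm.dvd_of_dvd_mul_left this
  have e6 : q = q' := Nat.dvd_antisymm d1 d2
  subst e6
  have e7 : a + j * q = a' + j' * q := Nat.eq_of_mul_eq_mul_right hq e5
  have e8 : a = a' := by
    have g1 : (a + j * q) % q = a := by rw [Nat.add_mul_mod_self_right, Nat.mod_eq_of_lt ha]
    have g2 : (a' + j' * q) % q = a' := by rw [Nat.add_mul_mod_self_right, Nat.mod_eq_of_lt ha']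
    rw [← g1, ← g2, e7]
  refine ⟨rfl, e8, ?_⟩
  subst e8
  exact Nat.eq_of_mul_eq_mul_right hq (Nat.add_left_cancel e7)

/-- summing over the fractions -/
lemma frac_sum {Q W : ℕ} (hW : 0 < W) (G : ℕ → ℕ → ℝ) (hG : ∀ D A, 0 ≤ G D A) :
    ∑ q ∈ Icc 1 Q, ∑ a ∈ rr q, ∑ j ∈ range W, G (dn W q a j) (an W q a j) ≤
      ∑ D ∈ Icc 1 (Q * W), ∑ A ∈ rr D, G D A := by
  classical
  set S : Finset (Σ _ : ℕ, ℕ × ℕ) := (Icc 1 Q).sigma (fun q => rr q ×ˢ range W) with hS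
  set T : Finset (Σ _ : ℕ, ℕ) := (Icc 1 (Q * W)).sigma (fun D => rr D) with hT
  have e1 : ∑ q ∈ Icc 1 Q, ∑ a ∈ rr q, ∑ j ∈ range W, G (dn W q a j) (an W q a j) =
      ∑ x ∈ S, G (dn W x.1 x.2.1 x.2.2) (an W x.1 x.2.1 x.2.2) := by
    rw [hS, sum_sigma]
    apply sum_congr rfl
    intro q _
    rw [sum_product]
  have e2 : ∑ D ∈ Icc 1 (Q * W), ∑ A ∈ rr D, G D A = ∑ y ∈ T, G y.1 y.2 := by
    rw [hT, sum_sigma]
  set φ : (Σ _ : ℕ, ℕ × ℕ) → (Σ _ : ℕ, ℕ) := fun x => ⟨dn W x.1 x.2.1 x.2.2, an W x.1 x.2.1 x.2.2⟩ with hφ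
  have hmem : ∀ x ∈ S, (1 ≤ x.1 ∧ x.1 ≤ Q) ∧ (x.2.1 < x.1 ∧ x.2.1.Coprime x.1) ∧ x.2.2 < W := by
    intro x hx
    rw [hS, mem_sigma, mem_product, mem_Icc, mem_rr, mem_range] at hx
    exact ⟨hx.1, hx.2.1, hx.2.2⟩
  have hinj : Set.InjOn φ (S : Set (Σ _ : ℕ, ℕ × ℕ)) := by
    rintro ⟨q, a, j⟩ hx ⟨q', a', j'⟩ hy hxy
    have h1 := hmem _ hx
    have h2 := hmem _ hy
    simp only at h1 h2
    rw [hφ] at hxy
    simp only [Sigma.mk.injEq, heq_eq_eq] at hxy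
    obtain ⟨r1, r2, r3⟩ := frac_inj hW h1.2.1.1 h1.2.1.2 h2.2.1.1 h2.2.1.2 hxy.1 hxy.2
    subst r1; subst r2; subst r3
    rfl
  rw [e1, e2]
  have e3 : ∑ x ∈ S, G (dn W x.1 x.2.1 x.2.2) (an W x.1 x.2.1 x.2.2) = ∑ y ∈ S.image φ, G y.1 y.2 := by
    rw [sum_image hinj]
  rw [e3]
  apply sum_le_sum_of_subset_of_nonneg
  · intro y hy
    rw [mem_image] at hy
    obtain ⟨x, hx, rfl⟩ := hy
    have h1 := hmem x hx
    rw [hT, mem_sigma, mem_Icc, mem_rr, hφ]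
    have hK : 0 < x.1 * W := Nat.mul_pos h1.1.1 hW
    refine ⟨⟨dn_pos hK, ?_⟩, an_lt h1.2.1.1 h1.2.2, an_cop hK⟩
    exact (Nat.le_of_dvd hK dn_dvd).trans (Nat.mul_le_mul_right W h1.1.2)
  · intro y _ _
    exact hG _ _

/-- one window: from the classes modulo `W` to the fractions -/
lemma one_T1 {W q a H x : ℕ} (hW : 0 < W) (hq : 0 < q) (hx : H ≤ x + 1) :
    (W : ℝ) * ∑ b ∈ range W, ‖∑ t ∈ Ico (x + 1 - H) (x + 1), ((th (b + W * t) - mq W q (b + W * t) : ℝ) : ℂ) *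
      ee (t * ((a : ℝ) / q))‖ ^ 2 ≤
    ∑ j ∈ range W, (2 * ‖SS (dn W q a j) (an W q a j) (W * (x + 1 - H)) (W * (x + 1)) -
      ((ArithmeticFunction.moebius (dn W q a j) : ℤ) : ℂ) / (dn W q a j).totient * (((W * H : ℕ) : ℝ) : ℂ)‖ ^ 2 +
      32 * ((q * W : ℕ) : ℝ) ^ 4) := by
  have hK : 0 < q * W := Nat.mul_pos hq hW
  have hq0 : (q : ℝ) ≠ 0 := by exact_mod_cast hq.ne'
  have hW0 : (W : ℝ) ≠ 0 := by exact_mod_cast hW.ne'
  set lo := W * (x + 1 - H) with hlo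
  set hi := W * (x + 1) with hhi
  have hlohi : hi = lo + W * H := by
    rw [hlo, hhi, ← mul_add]
    congr 1
    omega
  set g : ℕ → ℂ := fun n => ((th n - mq W q n : ℝ) : ℂ) * ee (n * ((a : ℝ) / (q * W))) with hg
  have h1 : ∀ b ∈ range W, ‖∑ t ∈ Ico (x + 1 - H) (x + 1), ((th (b + W * t) - mq W q (b + W * t) : ℝ) : ℂ) *
      ee (t * ((a : ℝ) / q))‖ ^ 2 = ‖∑ n ∈ (Ico lo hi).filter (fun n => n % W = b), g n‖ ^ 2 := by
    intro b hb
    rw [mem_range] at hb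
    rw [hlo, hhi, window_class hW hb]
    have h2 : ∑ t ∈ Ico (x + 1 - H) (x + 1), g (b + W * t) = ee (b * ((a : ℝ) / (q * W))) *
        ∑ t ∈ Ico (x + 1 - H) (x + 1), ((th (b + W * t) - mq W q (b + W * t) : ℝ) : ℂ) * ee (t * ((a : ℝ) / q)) := by
      rw [mul_sum]
      apply sum_congr rfl
      intro t _
      rw [hg]
      simp only
      have h3 : ((b + W * t : ℕ) : ℝ) * ((a : ℝ) / (q * W)) = b * ((a : ℝ) / (q * W)) + t * ((a : ℝ) / q) := by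
        push_cast
        field_simp
      rw [h3, ee_add]
      ring
    rw [h2, norm_mul, norm_ee, one_mul]
  rw [sum_congr rfl h1, parsW hW]
  apply sum_le_sum
  intro j _
  set D := dn W q a j with hD
  set A := an W q a j with hA
  have hDd : D ∣ q * W := dn_dvd
  have hAc : A.Coprime D := an_cop hK
  set μ : ℂ := ((ArithmeticFunction.moebius D : ℤ) : ℂ) / D.totient * (((W * H : ℕ) : ℝ) : ℂ) with hμ
  have hfr : (A : ℝ) / D = (a : ℝ) / (q * W) + (j : ℝ) / W := an_dn hq hW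
  have h2 : ∑ n ∈ Ico lo hi, g n * ee ((n : ℝ) * ((j : ℝ) / W)) =
      (SS D A lo hi - μ) - (∑ n ∈ Ico lo (lo + W * H), ((mq W q n : ℝ) : ℂ) * ee ((n : ℝ) * (A / D)) - μ) := by
    rw [sub_sub_sub_cancel_right, ← hlohi]
    unfold SS
    rw [← sum_sub_distrib]
    apply sum_congr rfl
    intro n _
    rw [hg, ee_same]
    simp only
    have h3 : ee ((n : ℝ) * ((A : ℝ) / D)) = ee (n * ((a : ℝ) / (q * W))) * ee ((n : ℝ) * ((j : ℝ) / W)) := by
      rw [hfr, mul_add, ee_add]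
    have h4 : (n : ℝ) * A / D = n * ((A : ℝ) / D) := by ring
    rw [h4, h3]
    push_cast
    ring
  rw [h2]
  have h5 := main_inc (W := W) (q := q) (A := A) hK hDd hAc lo (W * H)
  have h6 : ((ArithmeticFunction.moebius D : ℤ) : ℂ) / D.totient * ((W * H : ℕ) : ℂ) = μ := by
    rw [hμ]
    push_cast
    rfl
  rw [h6] at h5
  have h7 := norm_sub_le (SS D A lo hi - μ) (∑ n ∈ Ico lo (lo + W * H), ((mq W q n : ℝ) : ℂ) * ee ((n : ℝ) * (A / D)) - μ)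
  have h8 : 0 ≤ ‖SS D A lo hi - μ‖ := norm_nonneg _
  set u := ‖SS D A lo hi - μ‖ with hu
  set v := ‖∑ n ∈ Ico lo (lo + W * H), ((mq W q n : ℝ) : ℂ) * ee ((n : ℝ) * (A / D)) - μ‖ with hv
  have h9 : 0 ≤ v := norm_nonneg _
  calc ‖(SS D A lo hi - μ) - (∑ n ∈ Ico lo (lo + W * H), ((mq W q n : ℝ) : ℂ) * ee ((n : ℝ) * (A / D)) - μ)‖ ^ 2 ≤
        (u + v) ^ 2 := pow_le_pow_left₀ (norm_nonneg _) h7 2
    _ ≤ 2 * u ^ 2 + 2 * v ^ 2 := by nlinarith [sq_nonneg (u - v)]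
    _ ≤ 2 * u ^ 2 + 2 * (4 * ((q * W : ℕ) : ℝ) ^ 2) ^ 2 := by
        have := pow_le_pow_left₀ h9 h5 2
        linarith
    _ = _ := by ring

/-- **the average over the classes modulo `W`** -/
theorem avg_classes {W Q H X : ℕ} (hW : 1 ≤ W) (hQ : 1 ≤ Q) (hH : 1 ≤ H) {B : ℝ}
    (hB : ∑ D ∈ Icc 1 (Q * W), ∑ A ∈ rr D, ∑ x ∈ Ico (2 * H) X,
      ‖SS D A (W * (x + 1 - H)) (W * (x + 1)) -
        ((ArithmeticFunction.moebius D : ℤ) : ℂ) / D.totient * (((W * H : ℕ) : ℝ) : ℂ)‖ ^ 2 ≤ B) :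
    ∑ b ∈ (range W).filter (fun b => b.Coprime W), ∑ q ∈ Icc 1 Q, ∑ a ∈ rr q, ∑ x ∈ Ico (2 * H) X,
      ‖∑ t ∈ Ico (x + 1 - H) (x + 1), ((FF W Q b t : ℝ) : ℂ) * ee (t * ((a : ℝ) / q))‖ ^ 2 ≤
      4 / W * B + 96 * (W : ℝ) ^ 4 * (Q : ℝ) ^ 8 * X := by
  have hW0 : (0 : ℝ) < W := by exact_mod_cast hW
  have hW1 : (1 : ℝ) ≤ W := by exact_mod_cast hW
  have hQ1 : (1 : ℝ) ≤ Q := by exact_mod_cast hQ
  have hX0 : (0 : ℝ) ≤ X := Nat.cast_nonneg _
  -- cardinalities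
  have hcard : ∀ c : ℝ, 0 ≤ c → ∑ q ∈ Icc 1 Q, ∑ a ∈ rr q, ∑ x ∈ Ico (2 * H) X, c ≤ (Q : ℝ) ^ 2 * X * c := by
    intro c hc
    have h1 : ∀ q ∈ Icc 1 Q, ∑ a ∈ rr q, ∑ x ∈ Ico (2 * H) X, c ≤ Q * (X * c) := by
      intro q hq
      rw [mem_Icc] at hq
      rw [sum_const, sum_const, nsmul_eq_mul, nsmul_eq_mul, Nat.card_Ico, card_rr]
      have e1 : ((q.totient : ℕ) : ℝ) ≤ Q := by exact_mod_cast (Nat.totient_le q).trans hq.2
      have e2 : ((X - 2 * H : ℕ) : ℝ) ≤ X := by exact_mod_cast Nat.sub_le _ _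
      apply mul_le_mul e1 (mul_le_mul_of_nonneg_right e2 hc) (by positivity) (by positivity)
    refine (sum_le_sum h1).trans ?_
    rw [sum_const, nsmul_eq_mul, Nat.card_Icc]
    have : ((Q + 1 - 1 : ℕ) : ℝ) = Q := by push_cast [Nat.add_sub_cancel]; rfl
    rw [this]
    apply le_of_eq; ring
  -- the first part
  have hT1 : ∑ q ∈ Icc 1 Q, ∑ a ∈ rr q, ∑ x ∈ Ico (2 * H) X, ∑ b ∈ range W,
      ‖∑ t ∈ Ico (x + 1 - H) (x + 1), ((th (b + W * t) - mq W q (b + W * t) : ℝ) : ℂ) * ee (t * ((a : ℝ) / q))‖ ^ 2 ≤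
      1 / W * (2 * B + 32 * (Q : ℝ) ^ 6 * (W : ℝ) ^ 5 * X) := by
    rw [one_div, inv_mul_eq_div, le_div_iff₀ hW0, mul_comm, mul_sum]
    have h1 : ∀ q ∈ Icc 1 Q, (W : ℝ) * ∑ a ∈ rr q, ∑ x ∈ Ico (2 * H) X, ∑ b ∈ range W,
        ‖∑ t ∈ Ico (x + 1 - H) (x + 1), ((th (b + W * t) - mq W q (b + W * t) : ℝ) : ℂ) * ee (t * ((a : ℝ) / q))‖ ^ 2 ≤
        2 * ∑ a ∈ rr q, ∑ j ∈ range W, ∑ x ∈ Ico (2 * H) X,
          ‖SS (dn W q a j) (an W q a j) (W * (x + 1 - H)) (W * (x + 1)) -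
            ((ArithmeticFunction.moebius (dn W q a j) : ℤ) : ℂ) / (dn W q a j).totient * (((W * H : ℕ) : ℝ) : ℂ)‖ ^ 2 +
        ∑ a ∈ rr q, ∑ x ∈ Ico (2 * H) X, W * (32 * ((Q : ℝ) * W) ^ 4) := by
      intro q hq
      rw [mem_Icc] at hq
      rw [mul_sum, mul_sum, ← sum_add_distrib]
      apply sum_le_sum
      intro a _
      rw [mul_sum, sum_comm (s := range W), mul_sum, ← sum_add_distrib]
      apply sum_le_sum
      intro x hx
      rw [mem_Ico] at hx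
      refine (one_T1 (a := a) (H := H) (x := x) (by omega) (show 0 < q by omega) (by omega)).trans ?_
      rw [sum_add_distrib, ← mul_sum, sum_const, card_range, nsmul_eq_mul]
      have hqr : (q : ℝ) ≤ Q := by exact_mod_cast hq.2
      have e1 : ((q * W : ℕ) : ℝ) ^ 4 ≤ ((Q : ℝ) * W) ^ 4 := by
        push_cast
        gcongr
      have e2 : (W : ℝ) * (32 * ((q * W : ℕ) : ℝ) ^ 4) ≤ W * (32 * ((Q : ℝ) * W) ^ 4) := by gcongr
      linarith
    refine (sum_le_sum h1).trans ?_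
    rw [sum_add_distrib, ← mul_sum]
    have h2 := frac_sum (Q := Q) (W := W) (by omega) (fun D A => ∑ x ∈ Ico (2 * H) X,
      ‖SS D A (W * (x + 1 - H)) (W * (x + 1)) -
        ((ArithmeticFunction.moebius D : ℤ) : ℂ) / D.totient * (((W * H : ℕ) : ℝ) : ℂ)‖ ^ 2)
      (fun D A => sum_nonneg fun _ _ => sq_nonneg _)
    have h3 := hcard (W * (32 * ((Q : ℝ) * W) ^ 4)) (by positivity)
    have h4 : (Q : ℝ) ^ 2 * X * (W * (32 * ((Q : ℝ) * W) ^ 4)) = 32 * (Q : ℝ) ^ 6 * (W : ℝ) ^ 5 * X := by ring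
    rw [h4] at h3
    have h5 := h2.trans hB
    linarith
  -- the two parts together
  have h1 : ∀ b ∈ (range W).filter (fun b => b.Coprime W), ∑ q ∈ Icc 1 Q, ∑ a ∈ rr q, ∑ x ∈ Ico (2 * H) X,
      ‖∑ t ∈ Ico (x + 1 - H) (x + 1), ((FF W Q b t : ℝ) : ℂ) * ee (t * ((a : ℝ) / q))‖ ^ 2 ≤
      2 * ∑ q ∈ Icc 1 Q, ∑ a ∈ rr q, ∑ x ∈ Ico (2 * H) X,
        ‖∑ t ∈ Ico (x + 1 - H) (x + 1), ((th (b + W * t) - mq W q (b + W * t) : ℝ) : ℂ) * ee (t * ((a : ℝ) / q))‖ ^ 2 +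
      (Q : ℝ) ^ 2 * X * (32 * (W : ℝ) ^ 2 * (Q : ℝ) ^ 6) := by
    intro b hb
    rw [mem_filter, mem_range] at hb
    refine le_trans ?_ (add_le_add_right (hcard (32 * (W : ℝ) ^ 2 * (Q : ℝ) ^ 6) (by positivity)) _)
    rw [mul_sum, ← sum_add_distrib]
    apply sum_le_sum
    intro q hq
    rw [mem_Icc] at hq
    rw [mul_sum, ← sum_add_distrib]
    apply sum_le_sum
    intro a _
    rw [mul_sum, ← sum_add_distrib]
    apply sum_le_sum
    intro x hx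
    have h2 := T2_bound (Q := Q) hW hq.1 hq.2 hb.2 a (t0 := x + 1 - H) (t1 := x + 1) (Nat.sub_le _ _)
    have h3 : ∑ t ∈ Ico (x + 1 - H) (x + 1), ((FF W Q b t : ℝ) : ℂ) * ee (t * ((a : ℝ) / q)) =
        ∑ t ∈ Ico (x + 1 - H) (x + 1), ((th (b + W * t) - mq W q (b + W * t) : ℝ) : ℂ) * ee (t * ((a : ℝ) / q)) +
        ∑ t ∈ Ico (x + 1 - H) (x + 1), ((mq W q (b + W * t) - gW W * mo W Q b t : ℝ) : ℂ) * ee (t * ((a : ℝ) / q)) := by
      rw [← sum_add_distrib]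
      apply sum_congr rfl
      intro t _
      unfold FF
      push_cast
      ring
    rw [h3]
    set u := ‖∑ t ∈ Ico (x + 1 - H) (x + 1), ((th (b + W * t) - mq W q (b + W * t) : ℝ) : ℂ) * ee (t * ((a : ℝ) / q))‖ with hu
    set v := ‖∑ t ∈ Ico (x + 1 - H) (x + 1), ((mq W q (b + W * t) - gW W * mo W Q b t : ℝ) : ℂ) * ee (t * ((a : ℝ) / q))‖ with hv
    have hv0 : 0 ≤ v := norm_nonneg _
    calc _ ≤ (u + v) ^ 2 := pow_le_pow_left₀ (norm_nonneg _) (norm_add_le _ _) 2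
      _ ≤ 2 * u ^ 2 + 2 * v ^ 2 := by nlinarith [sq_nonneg (u - v)]
      _ ≤ 2 * u ^ 2 + 2 * (4 * W * (Q : ℝ) ^ 3) ^ 2 := by
          have := pow_le_pow_left₀ hv0 h2 2
          linarith
      _ = _ := by ring
  refine (sum_le_sum h1).trans ?_
  rw [sum_add_distrib, ← mul_sum, sum_const, nsmul_eq_mul]
  have h2 : ∑ b ∈ (range W).filter (fun b => b.Coprime W), ∑ q ∈ Icc 1 Q, ∑ a ∈ rr q, ∑ x ∈ Ico (2 * H) X,
        ‖∑ t ∈ Ico (x + 1 - H) (x + 1), ((th (b + W * t) - mq W q (b + W * t) : ℝ) : ℂ) * ee (t * ((a : ℝ) / q))‖ ^ 2 ≤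
      ∑ q ∈ Icc 1 Q, ∑ a ∈ rr q, ∑ x ∈ Ico (2 * H) X, ∑ b ∈ range W,
        ‖∑ t ∈ Ico (x + 1 - H) (x + 1), ((th (b + W * t) - mq W q (b + W * t) : ℝ) : ℂ) * ee (t * ((a : ℝ) / q))‖ ^ 2 := by
    refine (sum_le_sum_of_subset_of_nonneg (filter_subset _ _) (fun _ _ _ => sum_nonneg fun _ _ => sum_nonneg fun _ _ =>
      sum_nonneg fun _ _ => sq_nonneg _)).trans ?_
    rw [sum_comm]
    apply le_of_eq
    apply sum_congr rfl
    intro q _
    rw [sum_comm]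
    apply sum_congr rfl
    intro a _
    rw [sum_comm]
  have h3 : (((range W).filter (fun b => b.Coprime W)).card : ℝ) ≤ W := by
    exact_mod_cast (card_filter_le _ _).trans (by rw [card_range])
  have h4 : (((range W).filter (fun b => b.Coprime W)).card : ℝ) * ((Q : ℝ) ^ 2 * X * (32 * (W : ℝ) ^ 2 * (Q : ℝ) ^ 6)) ≤
      32 * (W : ℝ) ^ 3 * (Q : ℝ) ^ 8 * X := by
    calc _ ≤ (W : ℝ) * ((Q : ℝ) ^ 2 * X * (32 * (W : ℝ) ^ 2 * (Q : ℝ) ^ 6)) := mul_le_mul_of_nonneg_right h3 (by positivity)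
      _ = _ := by ring
  have h5 : 2 * (1 / W * (2 * B + 32 * (Q : ℝ) ^ 6 * (W : ℝ) ^ 5 * X)) = 4 / W * B + 64 * (Q : ℝ) ^ 6 * (W : ℝ) ^ 4 * X := by
    field_simp
    ring
  have h6 : 64 * (Q : ℝ) ^ 6 * (W : ℝ) ^ 4 * X ≤ 64 * (Q : ℝ) ^ 8 * (W : ℝ) ^ 4 * X := by
    have : (Q : ℝ) ^ 6 ≤ (Q : ℝ) ^ 8 := pow_le_pow_right₀ hQ1 (by norm_num)
    gcongr
  have h7 : 32 * (W : ℝ) ^ 3 * (Q : ℝ) ^ 8 * X ≤ 32 * (W : ℝ) ^ 4 * (Q : ℝ) ^ 8 * X := by
    have : (W : ℝ) ^ 3 ≤ (W : ℝ) ^ 4 := pow_le_pow_right₀ hW1 (by norm_num)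
    gcongr
  have h8 := h2.trans hT1
  linarith

end Pool.Agent.P8H13.GK
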