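import Pool.Agent.P8H13.GK.TypeI

set_option autoImplicit false

/-!
# The decomposition of the smoothed sum over primes twisted by a Gauss sum
-/

open Complex Filter Topology Set MeasureTheory Metric
open scoped Real
open scoped ArithmeticFunction.vonMangoldt

namespace Pool.Agent.P8H13.GK

open Pool.Agent.W66 Pool.Agent.W66L
open Pool.Agent.TH823.PS (rr tau mem_rr tau_mul ee_mod)

/-- powers of the primes dividing `q` -/
lemma La_noncop {q N : ℕ} (hq : 0 < q) (hN : 1 ≤ N) :
    ∑ m ∈ (Finset.Ioc 0 N).filter (fun m : ℕ => ¬ m.Coprime q), ArithmeticFunction.vonMangoldt m ≤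
      q * Real.log N := by
  have hlogN : 0 ≤ Real.log N := Real.log_natCast_nonneg N
  set S := (Finset.Ioc 0 N).filter (fun m : ℕ => ¬ m.Coprime q) with hS
  set S' := S.filter (fun m : ℕ => IsPrimePow m) with hS'
  have h1 : ∑ m ∈ S, ArithmeticFunction.vonMangoldt m = ∑ m ∈ S', ArithmeticFunction.vonMangoldt m := by
    symm
    apply Finset.sum_filter_of_ne
    intro m _ hm
    by_contra h
    exact hm (ArithmeticFunction.vonMangoldt_eq_zero_iff.2 h)
  have hmaps : ∀ m ∈ S', m.minFac ∈ q.primeFactors := by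
    intro m hm
    rw [hS', Finset.mem_filter, hS, Finset.mem_filter] at hm
    obtain ⟨⟨_, h2⟩, h3⟩ := hm
    have hm1 : m ≠ 1 := h3.ne_one
    have hp := Nat.minFac_prime hm1
    obtain ⟨r, hr, hrm, hrq⟩ := Nat.Prime.not_coprime_iff_dvd.1 h2
    have h4 : m.minFac = r := by
      obtain ⟨p, k, hp', hk, rfl⟩ := h3
      rw [← Nat.prime_iff] at hp'
      rw [Nat.Prime.pow_minFac hp' (by omega)]
      exact ((Nat.prime_dvd_prime_iff_eq hr hp').1 (hr.dvd_of_dvd_pow hrm)).symm
    rw [h4]
    exact Nat.mem_primeFactors.2 ⟨hr, hrq, hq.ne'⟩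
  rw [h1, ← Finset.sum_fiberwise_of_maps_to hmaps]
  have h2 : ∀ p ∈ q.primeFactors, ∑ m ∈ S'.filter (fun m => m.minFac = p), ArithmeticFunction.vonMangoldt m ≤
      Real.log N := by
    intro p hp
    have hp' := Nat.prime_of_mem_primeFactors hp
    have hlp : 0 < Real.log p := Real.log_pos (by exact_mod_cast hp'.one_lt)
    have hform : ∀ m ∈ S'.filter (fun m => m.minFac = p), ∃ k, 1 ≤ k ∧ k ≤ Nat.log p N ∧ p ^ k = m := by
      intro m hm
      rw [Finset.mem_filter, hS', Finset.mem_filter, hS, Finset.mem_filter, Finset.mem_Ioc] at hm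
      obtain ⟨⟨⟨⟨_, h3⟩, _⟩, p', k, hp'', hk, rfl⟩, h4⟩ := hm
      rw [← Nat.prime_iff] at hp''
      rw [Nat.Prime.pow_minFac hp'' (by omega)] at h4
      subst h4
      exact ⟨k, hk, Nat.le_log_of_pow_le hp''.one_lt h3, rfl⟩
    have hsub : S'.filter (fun m => m.minFac = p) ⊆ (Finset.Icc 1 (Nat.log p N)).image (fun k => p ^ k) := by
      intro m hm
      obtain ⟨k, hk1, hk2, rfl⟩ := hform m hm
      exact Finset.mem_image_of_mem _ (Finset.mem_Icc.2 ⟨hk1, hk2⟩)
    have hval : ∀ m ∈ S'.filter (fun m => m.minFac = p), ArithmeticFunction.vonMangoldt m ≤ Real.log p := by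
      intro m hm
      obtain ⟨k, hk1, _, rfl⟩ := hform m hm
      rw [ArithmeticFunction.vonMangoldt_apply_pow (by omega), ArithmeticFunction.vonMangoldt_apply_prime hp']
    refine (Finset.sum_le_card_nsmul _ _ _ hval).trans ?_
    rw [nsmul_eq_mul]
    have h3 : ((S'.filter (fun m => m.minFac = p)).card : ℝ) ≤ Nat.log p N := by
      have := (Finset.card_le_card hsub).trans Finset.card_image_le
      rw [Nat.card_Icc, Nat.add_sub_cancel] at this
      exact_mod_cast this
    calc _ ≤ (Nat.log p N : ℝ) * Real.log p := mul_le_mul_of_nonneg_right h3 hlp.le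
      _ = Real.log ((p ^ Nat.log p N : ℕ) : ℝ) := by push_cast; rw [Real.log_pow]
      _ ≤ Real.log N := by
          apply Real.log_le_log
          · exact_mod_cast Nat.pow_pos hp'.pos
          · exact_mod_cast Nat.pow_log_le_self p (by omega)
  refine (Finset.sum_le_sum h2).trans ?_
  rw [Finset.sum_const, nsmul_eq_mul]
  apply mul_le_mul_of_nonneg_right _ hlogN
  have h3 : q.primeFactors.card ≤ q := by
    have h4 : q.primeFactors ⊆ Finset.Icc 1 q := by
      intro p hp
      rw [Finset.mem_Icc]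
      exact ⟨(Nat.prime_of_mem_primeFactors hp).one_le, Nat.le_of_dvd hq (Nat.dvd_of_mem_primeFactors hp)⟩
    have := Finset.card_le_card h4
    rwa [Nat.card_Icc, Nat.add_sub_cancel] at this
  exact_mod_cast h3

/-- the trivial bound -/
lemma ggG_triv {G : ℕ → ℂ} {B : ℝ} (hbd : ∀ n, ‖G n‖ ≤ B) (m0 : ℕ) {h : ℝ} (hh : 0 < h) (x : ℝ)
    (w N : ℕ) (hN : 1 ≤ N) :
    ‖ggC h (Finset.Ioc 0 N) (fun l => G (m0 * l) * ((aw w l / l : ℝ) : ℂ)) x‖ ≤
      B * ((1 + Real.log N) ^ 2 / h) := by
  have hB : 0 ≤ B := (norm_nonneg _).trans (hbd 0)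
  unfold ggC
  refine (norm_sum_le _ _).trans ?_
  have h1 : ∀ l ∈ Finset.Ioc 0 N, ‖(G (m0 * l) * ((aw w l / l : ℝ) : ℂ)) * triC h (x - Real.log l)‖ ≤
      B / h * ((l.divisors.card : ℝ) / l) := by
    intro l hl
    have hl0 : (0 : ℝ) < l := by exact_mod_cast (Finset.mem_Ioc.1 hl).1
    unfold triC
    rw [norm_mul, norm_mul, Complex.norm_real, Complex.norm_real, Real.norm_eq_abs, abs_div, abs_of_pos hl0,
      Real.norm_of_nonneg (tri_nonneg hh _)]
    have h2 := aw_abs_le w l
    have h3 := tri_le hh (x - Real.log l)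
    calc ‖G (m0 * l)‖ * (|aw w l| / l) * tri h (x - Real.log l) ≤ B * ((l.divisors.card : ℝ) / l) * (1 / h) := by
          have := hbd (m0 * l)
          have h4 := tri_nonneg hh (x - Real.log l)
          gcongr
      _ = _ := by ring
  refine (Finset.sum_le_sum h1).trans ?_
  rw [← Finset.mul_sum]
  calc B / h * ∑ l ∈ Finset.Ioc 0 N, (l.divisors.card : ℝ) / l ≤ B / h * (1 + Real.log N) ^ 2 :=
        mul_le_mul_of_nonneg_left (tau_sum N hN) (by positivity)
    _ = _ := by ring

/-- the smoothed sum over primes twisted by `G` -/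
noncomputable def TG (G : ℕ → ℂ) (h : ℝ) (N : ℕ) (z : ℝ) : ℂ :=
  ∑ n ∈ Finset.Ioc 0 N, G n * ((Λ n / n : ℝ) : ℂ) * triC h (z - Real.log n)

/-- pointwise decomposition -/
theorem KT_ineqG {q : ℕ} [NeZero q] {χ : DirichletCharacter ℂ q} {G : ℕ → ℂ} {B : ℝ} (T : Tw q χ G B)
    {h z Z : ℝ} (hh : 0 < h) (hh1 : h ≤ 1)
    (w N u0 U : ℕ) (hw : 1 ≤ w) (hz1 : Z ≤ z) (hz2 : z ≤ Z + 1) (hu0 : 1 ≤ u0) (hu : u0 ≤ U)
    (hU : Z + 2 ≤ U) (hN : Real.exp (U + 1) ≤ N) (hZ : Real.log w + u0 + 3 ≤ Z) :
    ‖TG G h N z - ∑ u ∈ Finset.Icc u0 U, FX χ u h N (Finset.Ioc 0 N)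
        (fun l => G l * ((aw w l / l : ℝ) : ℂ)) z‖ ≤
      w * (B * (48 * (z + 2) * (Real.exp (-z) / h ^ 2))) +
      2 * (u0 * (1 + u0) * (w * (B * (48 * 1 * (Real.exp (u0 - Z) / h ^ 2))))) +
      Real.exp (-u0) * (q * Real.log N) * (B * ((1 + Real.log N) ^ 2 / h)) := by
  have hq : 0 < q := Nat.pos_of_ne_zero (NeZero.ne q)
  have hw0 : (0 : ℝ) < w := by exact_mod_cast hw
  have hlw : 0 ≤ Real.log w := Real.log_nonneg (by exact_mod_cast hw)
  have hu0' : (1 : ℝ) ≤ u0 := by exact_mod_cast hu0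
  have hzN : Real.exp (z + h) ≤ N := by
    refine le_trans (Real.exp_le_exp.2 ?_) hN
    linarith
  have hN0 : (0 : ℝ) < N := lt_of_lt_of_le (Real.exp_pos _) hN
  have hNn : 1 ≤ N := by exact_mod_cast (Nat.cast_pos.1 hN0)
  have hwN : w ≤ N := by
    have h1 : (w : ℝ) ≤ N := by
      refine le_trans ?_ hN
      rw [← Real.log_le_iff_le_exp hw0]
      linarith
    exact_mod_cast h1
  set L := Finset.Ioc 0 N with hL
  have hLpos : ∀ l ∈ L, 0 < l := fun l hl => (Finset.mem_Ioc.1 hl).1
  set c : ℕ → ℂ := fun l => G l * ((aw w l / l : ℝ) : ℂ) with hc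
  -- the identity
  have hT : TG G h N z = ∑ d ∈ L, ((muw w d / d : ℝ) : ℂ) * ∑ m ∈ L,
      (G (d * m) * ((ArithmeticFunction.log m / m : ℝ) : ℂ)) * triC h (z - Real.log d - Real.log m) +
      ∑ m ∈ L, ((Λ m / m : ℝ) : ℂ) * ggC h L (fun l => G (m * l) * ((aw w l / l : ℝ) : ℂ)) (z - Real.log m) := by
    have h1 : TG G h N z = ∑ n ∈ L, G n * (((muw w * ArithmeticFunction.log) n / n : ℝ) : ℂ) *
          triC h (z - Real.log n) +
        ∑ n ∈ L, G n * (((ArithmeticFunction.vonMangoldt * aw w) n / n : ℝ) : ℂ) *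
          triC h (z - Real.log n) := by
      unfold TG
      rw [← Finset.sum_add_distrib]
      refine Finset.sum_congr rfl fun n _ => ?_
      conv_lhs => rw [La_identity w]
      rw [ArithmeticFunction.add_apply]
      push_cast
      ring
    rw [h1, conv_sumG G _ _ h z hh N hzN, conv_sumG G _ _ h z hh N hzN]
    rfl
  -- type I
  have hI : ‖∑ d ∈ L, ((muw w d / d : ℝ) : ℂ) * ∑ m ∈ L,
      (G (d * m) * ((ArithmeticFunction.log m / m : ℝ) : ℂ)) *
        triC h (z - Real.log d - Real.log m)‖ ≤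
      w * (B * (48 * (z + 2) * (Real.exp (-z) / h ^ 2))) := by
    rw [muw_sumG w N hwN]
    have h3 := dsumG T.B0 1 T.part (fun v => v) (z := z) (K := z + 2) hh hh1 w N hw (by linarith)
      (by linarith) (by
        intro v hv hv2
        rw [abs_of_nonneg hv]
        exact hv2) (by intro v w; exact le_rfl) hzN
    simp only [one_mul] at h3
    exact h3
  -- the bound for `gg`
  have hgg : ∀ m0 : ℕ, ∀ x : ℝ, Z - u0 ≤ x → x ≤ z → ‖ggC h L (fun l => G (m0 * l) * ((aw w l / l : ℝ) : ℂ)) x‖ ≤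
      w * (B * (48 * 1 * (Real.exp (u0 - Z) / h ^ 2))) := by
    intro m0 x hx1 hx2
    refine (ggG_small T.B0 T.part m0 hh hh1 w N hw (by linarith) (by
      refine le_trans (Real.exp_le_exp.2 ?_) hzN
      linarith)).trans ?_
    have : Real.exp (-x) ≤ Real.exp (u0 - Z) := Real.exp_le_exp.2 (by linarith)
    have hB := T.B0
    gcongr
  have hB := T.B0
  set ε := w * (B * (48 * 1 * (Real.exp (u0 - Z) / h ^ 2))) with hε
  have hε0 : 0 ≤ ε := by positivity
  set Bt := B * ((1 + Real.log N) ^ 2 / h) with hBt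
  have hlogN : 0 ≤ Real.log N := Real.log_natCast_nonneg N
  have hBt0 : 0 ≤ Bt := by positivity
  -- the dyadic pieces
  have hFX : ∑ u ∈ Finset.Icc u0 U, FX χ u h N L c z =
      ∑ m ∈ L, (χ m * ((Λ m / m * rp u0 (Real.log m) : ℝ) : ℂ)) * ggC h L c (z - Real.log m) := by
    unfold FX
    rw [Finset.sum_comm]
    refine Finset.sum_congr rfl fun m _ => ?_
    have h3 : ∑ u ∈ Finset.Icc u0 U, (χ m * ((Λ m / m * hat (u - Real.log m) : ℝ) : ℂ)) *
        ggC h L c (z - Real.log m) =
        (χ m * ((Λ m / m * (∑ u ∈ Finset.Icc u0 U, hat (u - Real.log m)) : ℝ) : ℂ)) *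
          ggC h L c (z - Real.log m) := by
      rw [← Finset.sum_mul, ← Finset.mul_sum, ← Complex.ofReal_sum, ← Finset.mul_sum]
    rw [h3]
    rcases le_or_gt (Real.log m) U with h4 | h4
    · rw [hat_partition_rp u0 U hu h4]
    · rw [ggC_zero hh L c hLpos (by linarith)]
      ring
  -- the difference of the second sums
  have hD : ‖∑ m ∈ L, (((Λ m / m : ℝ) : ℂ) * ggC h L (fun l => G (m * l) * ((aw w l / l : ℝ) : ℂ)) (z - Real.log m) -
      (χ m * ((Λ m / m * rp u0 (Real.log m) : ℝ) : ℂ)) * ggC h L c (z - Real.log m))‖ ≤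
      2 * (u0 * (1 + u0) * ε) + Real.exp (-u0) * (q * Real.log N) * Bt := by
    refine (norm_sum_le _ _).trans ?_
    have h1 : ∀ m ∈ L, ‖((Λ m / m : ℝ) : ℂ) * ggC h L (fun l => G (m * l) * ((aw w l / l : ℝ) : ℂ)) (z - Real.log m) -
        (χ m * ((Λ m / m * rp u0 (Real.log m) : ℝ) : ℂ)) * ggC h L c (z - Real.log m)‖ ≤
        (if Real.log m < u0 then ArithmeticFunction.vonMangoldt m / m else 0) * (2 * ε) +
        (if ¬ m.Coprime q then ArithmeticFunction.vonMangoldt m else 0) * (Real.exp (-u0) * Bt) := by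
      intro m hm
      have hm0 := hLpos m hm
      have hm0r : (0 : ℝ) < m := by exact_mod_cast hm0
      have h2 : 0 ≤ ArithmeticFunction.vonMangoldt m / (m : ℝ) :=
        div_nonneg ArithmeticFunction.vonMangoldt_nonneg (by positivity)
      have h5 : 0 ≤ Real.log m := Real.log_nonneg (by exact_mod_cast hm0)
      have hLa : 0 ≤ ArithmeticFunction.vonMangoldt m := ArithmeticFunction.vonMangoldt_nonneg
      by_cases h3 : Real.log m < u0
      · rw [if_pos h3]
        have h4 := hgg m (z - Real.log m) (by linarith) (by linarith)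
        have h4' := hgg 1 (z - Real.log m) (by linarith) (by linarith)
        simp only [one_mul] at h4'
        have h6 := χ.norm_le_one (m : ZMod q)
        have h7 := rp_nonneg (u0 : ℝ) (Real.log m)
        have h8 := rp_le_one (u0 : ℝ) (Real.log m)
        have h9 : 0 ≤ (if ¬ m.Coprime q then ArithmeticFunction.vonMangoldt m else 0) * (Real.exp (-u0) * Bt) := by
          apply mul_nonneg _ (by positivity)
          split_ifs <;> first | exact hLa | exact le_rfl
        refine (norm_sub_le _ _).trans ?_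
        have e1 : ‖((Λ m / m : ℝ) : ℂ) * ggC h L (fun l => G (m * l) * ((aw w l / l : ℝ) : ℂ)) (z - Real.log m)‖ ≤
            ArithmeticFunction.vonMangoldt m / m * ε := by
          rw [norm_mul, Complex.norm_real, Real.norm_of_nonneg h2]
          exact mul_le_mul_of_nonneg_left h4 h2
        have e2 : ‖(χ m * ((Λ m / m * rp u0 (Real.log m) : ℝ) : ℂ)) * ggC h L c (z - Real.log m)‖ ≤
            ArithmeticFunction.vonMangoldt m / m * ε := by
          rw [norm_mul, norm_mul, Complex.norm_real, Real.norm_of_nonneg (mul_nonneg h2 h7)]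
          calc _ ≤ 1 * (Λ m / m * 1) * ε := by
                apply mul_le_mul _ h4' (norm_nonneg _) (by positivity)
                apply mul_le_mul h6 _ (mul_nonneg h2 h7) zero_le_one
                exact mul_le_mul_of_nonneg_left h8 h2
            _ = _ := by ring
        linarith
      · rw [if_neg h3, zero_mul, zero_add, rp_one (not_lt.1 h3), mul_one]
        by_cases hcop : m.Coprime q
        · rw [if_neg (not_not.2 hcop), zero_mul]
          have h4 : ggC h L (fun l => G (m * l) * ((aw w l / l : ℝ) : ℂ)) (z - Real.log m) =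
              χ m * ggC h L c (z - Real.log m) := by
            unfold ggC
            rw [Finset.mul_sum]
            apply Finset.sum_congr rfl
            intro l _
            simp only [hc]
            rw [T.mul m l hcop]
            ring
          rw [h4]
          apply le_of_eq
          rw [norm_eq_zero]
          ring
        · rw [if_pos hcop]
          have hchi : χ (m : ZMod q) = 0 :=
            MulChar.map_nonunit χ (fun hu => hcop ((ZMod.isUnit_iff_coprime m q).1 hu))
          rw [hchi, zero_mul, zero_mul, sub_zero, norm_mul, Complex.norm_real, Real.norm_of_nonneg h2]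
          have h4 := ggG_triv T.bd m hh (z - Real.log m) w N hNn
          have h6 : ArithmeticFunction.vonMangoldt m / (m : ℝ) ≤ ArithmeticFunction.vonMangoldt m * Real.exp (-u0) := by
            rw [div_eq_mul_inv]
            apply mul_le_mul_of_nonneg_left _ hLa
            rw [Real.exp_neg]
            apply inv_anti₀ (Real.exp_pos _)
            rw [← Real.le_log_iff_exp_le hm0r]
            exact not_lt.1 h3
          calc ArithmeticFunction.vonMangoldt m / (m : ℝ) * ‖ggC h L (fun l => G (m * l) * ((aw w l / l : ℝ) : ℂ)) (z - Real.log m)‖ ≤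
              (ArithmeticFunction.vonMangoldt m * Real.exp (-u0)) * Bt := mul_le_mul h6 h4 (norm_nonneg _) (by positivity)
            _ = _ := by ring
    refine (Finset.sum_le_sum h1).trans ?_
    rw [Finset.sum_add_distrib, ← Finset.sum_mul, ← Finset.sum_mul, ← Finset.sum_filter, ← Finset.sum_filter]
    have h2 := La_sum_le N (u := (u0 : ℝ)) (by positivity)
    have h3 := La_noncop hq hNn
    have h4 := mul_le_mul_of_nonneg_right h2 (show 0 ≤ 2 * ε by positivity)
    have h5 := mul_le_mul_of_nonneg_right h3 (show 0 ≤ Real.exp (-u0) * Bt by positivity)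
    calc _ ≤ u0 * (1 + u0) * (2 * ε) + q * Real.log N * (Real.exp (-u0) * Bt) := add_le_add h4 h5
      _ = _ := by ring
  rw [hT, hFX]
  set I1 := ∑ d ∈ L, ((muw w d / d : ℝ) : ℂ) * ∑ m ∈ L,
      (G (d * m) * ((ArithmeticFunction.log m / m : ℝ) : ℂ)) *
        triC h (z - Real.log d - Real.log m) with hI1
  rw [add_sub_assoc, ← Finset.sum_sub_distrib, add_assoc]
  exact (norm_add_le _ _).trans (add_le_add hI hD)

end Pool.Agent.P8H13.GK
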