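import Pool.Agent.P8H13.GK.Dec
import Pool.Agent.W110.HV.Rama
import Pool.Agent.Helper112.Arith

set_option autoImplicit false

/-!
# The energy of the smoothed sums over primes at the fractions with a given denominator
-/

open Complex Filter Topology Set MeasureTheory Metric
open scoped Real
open scoped ArithmeticFunction.vonMangoldt

namespace Pool.Agent.P8H13.GK

open Pool.Agent.W66 Pool.Agent.W66L
open Pool.Agent.TH823.PS (rr tau mem_rr tau_mul ee_mod gen mean_chars)

/-- the smoothed exponential sum over primes at `a / q` -/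
noncomputable def TA (q a : ℕ) (h : ℝ) (N : ℕ) (z : ℝ) : ℂ :=
  TG (fun n => Pool.Agent.Helper112.ee (n * a / q)) h N z

lemma TG_continuous (G : ℕ → ℂ) (h : ℝ) (N : ℕ) : Continuous (TG G h N) := by
  unfold TG
  apply continuous_finsetSum
  intro n _
  exact continuous_const.mul ((triC_continuous h).comp (by fun_prop))

lemma TG_le (G : ℕ → ℂ) {h z : ℝ} (hh : 0 < h) {N N' : ℕ}
    (hN : Real.exp (z + h) ≤ N) (hNN : N ≤ N') : TG G h N' z = TG G h N z := by
  unfold TG
  symm
  apply Finset.sum_subset (Finset.Ioc_subset_Ioc_right hNN)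
  intro n hn hn2
  rw [Finset.mem_Ioc] at hn hn2
  have h1 : N < n := by omega
  have h2 : z + h ≤ Real.log n := by
    rw [Real.le_log_iff_exp_le (by exact_mod_cast hn.1)]
    refine hN.trans ?_
    exact_mod_cast h1.le
  unfold triC
  rw [tri_zero_of hh, Complex.ofReal_zero, mul_zero]
  rw [abs_of_nonpos (by linarith)]
  linarith

lemma TG_indep (G : ℕ → ℂ) {h z : ℝ} (hh : 0 < h) {N N' : ℕ}
    (hN : Real.exp (z + h) ≤ N) (hN' : Real.exp (z + h) ≤ N') : TG G h N' z = TG G h N z := by
  rcases le_total N N' with h1 | h1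
  · exact TG_le G hh hN h1
  · exact (TG_le G hh hN' h1).symm

lemma TG_lin {q : ℕ} (χ : DirichletCharacter ℂ q) (h : ℝ) (N : ℕ) (z : ℝ) :
    ∑ a ∈ rr q, (starRingEnd ℂ) (χ (a : ZMod q)) * TA q a h N z = TG (tau χ) h N z := by
  unfold TA TG tau
  simp only [Finset.mul_sum, Finset.sum_mul]
  rw [Finset.sum_comm]
  apply Finset.sum_congr rfl
  intro n _
  apply Finset.sum_congr rfl
  intro a _
  ring

lemma card_rr {q : ℕ} : (rr q).card = q.totient := by
  unfold rr
  rw [Nat.totient_eq_card_coprime]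
  congr 1
  ext a
  simp only [Finset.mem_filter]
  rw [Nat.coprime_comm]

open Classical in
/-- from the fractions to the characters -/
lemma parsTA {q : ℕ} [NeZero q] (h : ℝ) (N : ℕ) (z : ℝ) :
    (q.totient : ℝ) * ∑ a ∈ rr q, ‖TA q a h N z - ((ArithmeticFunction.moebius q : ℤ) : ℂ) / q.totient‖ ^ 2 =
      ∑ χ : DirichletCharacter ℂ q, ‖TG (tau χ) h N z -
        (if χ = 1 then ((ArithmeticFunction.moebius q : ℤ) : ℂ) else 0)‖ ^ 2 := by
  have hφ : (q.totient : ℂ) ≠ 0 := by
    have := Nat.totient_pos.2 (Nat.pos_of_ne_zero (NeZero.ne q))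
    exact_mod_cast this.ne'
  rw [← Pool.Agent.TH823.PS.pars]
  apply Finset.sum_congr rfl
  intro χ _
  congr 2
  have h1 : ∑ a ∈ rr q, (starRingEnd ℂ) (χ (a : ZMod q)) *
      (TA q a h N z - ((ArithmeticFunction.moebius q : ℤ) : ℂ) / q.totient) =
      ∑ a ∈ rr q, (starRingEnd ℂ) (χ (a : ZMod q)) * TA q a h N z -
      (∑ a ∈ rr q, (starRingEnd ℂ) (χ (a : ZMod q))) * (((ArithmeticFunction.moebius q : ℤ) : ℂ) / q.totient) := by
    rw [Finset.sum_mul, ← Finset.sum_sub_distrib]
    apply Finset.sum_congr rfl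
    intro a _
    ring
  rw [h1, TG_lin]
  congr 1
  split_ifs with hχ
  · subst hχ
    have h2 : ∀ a ∈ rr q, (starRingEnd ℂ) ((1 : DirichletCharacter ℂ q) (a : ZMod q)) = 1 := by
      intro a ha
      rw [mem_rr] at ha
      rw [MulChar.one_apply ((ZMod.isUnit_iff_coprime a q).2 ha.2), map_one]
    rw [Finset.sum_congr rfl h2, Finset.sum_const, card_rr, nsmul_eq_mul, mul_one]
    field_simp
  · rw [sum_rr_char hχ, zero_mul]

/-- the principal character -/
lemma TG_one {q : ℕ} [NeZero q] {h z Z : ℝ} (hh : 0 < h) (hh1 : h ≤ 1) (hz : Z ≤ z) (N : ℕ) (hN : 1 ≤ N) :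
    ‖TG (tau (1 : DirichletCharacter ℂ q)) h N z - ((ArithmeticFunction.moebius q : ℤ) : ℂ)‖ ≤
      |TT h N z - 1| + 2 * (q : ℝ) ^ 2 * (Real.exp (1 - Z) / h) * Real.log N := by
  have hq : 0 < q := Nat.pos_of_ne_zero (NeZero.ne q)
  have hq1 : (1 : ℝ) ≤ q := by exact_mod_cast hq
  set μ : ℂ := ((ArithmeticFunction.moebius q : ℤ) : ℂ) with hμ
  have hμ1 : ‖μ‖ ≤ 1 := by
    rw [hμ, Complex.norm_intCast]
    exact_mod_cast ArithmeticFunction.abs_moebius_le_one
  have hcop : ∀ n : ℕ, n.Coprime q → tau (1 : DirichletCharacter ℂ q) n = μ := by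
    intro n hn
    rw [hμ, ← Pool.Agent.W110.HV.raman_coprime q hq (n : ℤ) (by exact_mod_cast Nat.isCoprime_iff_coprime.2 hn)]
    unfold tau rr
    apply Finset.sum_congr rfl
    intro a ha
    rw [Finset.mem_filter] at ha
    rw [MulChar.one_apply ((ZMod.isUnit_iff_coprime a q).2 ha.2), map_one, one_mul]
    congr 1
    push_cast
    ring
  have h1 : TG (tau (1 : DirichletCharacter ℂ q)) h N z - μ = μ * ((TT h N z - 1 : ℝ) : ℂ) +
      ∑ n ∈ Finset.Ioc 0 N, (tau (1 : DirichletCharacter ℂ q) n - μ) * ((Λ n / n : ℝ) : ℂ) * triC h (z - Real.log n) := by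
    unfold TG TT triC
    push_cast
    rw [mul_sub, Finset.mul_sum]
    have e1 : ∀ x y w : ℂ, x - μ = (y - μ * 1) + w ↔ x = y + w := by
      intro x y w
      constructor
      · intro h'; linear_combination h'
      · intro h'; linear_combination h'
    rw [e1, ← Finset.sum_add_distrib]
    apply Finset.sum_congr rfl
    intro n _
    ring
  rw [h1]
  refine (norm_add_le _ _).trans (add_le_add ?_ ?_)
  · rw [norm_mul, Complex.norm_real, Real.norm_eq_abs]
    calc ‖μ‖ * |TT h N z - 1| ≤ 1 * |TT h N z - 1| := mul_le_mul_of_nonneg_right hμ1 (abs_nonneg _)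
      _ = _ := one_mul _
  · refine (norm_sum_le _ _).trans ?_
    have h2 : ∀ n ∈ Finset.Ioc 0 N, ‖(tau (1 : DirichletCharacter ℂ q) n - μ) * ((Λ n / n : ℝ) : ℂ) *
        triC h (z - Real.log n)‖ ≤
        (if ¬ n.Coprime q then ArithmeticFunction.vonMangoldt n else 0) * (2 * q * (Real.exp (1 - Z) / h)) := by
      intro n hn
      have hn0 : (0 : ℝ) < n := by exact_mod_cast (Finset.mem_Ioc.1 hn).1
      by_cases hc : n.Coprime q
      · rw [hcop n hc, sub_self, if_neg (not_not.2 hc)]
        simp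
      · rw [if_pos hc]
        have hL : 0 ≤ ArithmeticFunction.vonMangoldt n := ArithmeticFunction.vonMangoldt_nonneg
        have h3 : ‖tau (1 : DirichletCharacter ℂ q) n - μ‖ ≤ 2 * q := by
          refine (norm_sub_le _ _).trans ?_
          have := norm_tau_le (1 : DirichletCharacter ℂ q) n
          linarith
        rcases le_or_gt h |z - Real.log n| with h4 | h4
        · unfold triC
          rw [tri_zero_of hh h4, Complex.ofReal_zero, mul_zero, norm_zero]
          positivity
        · unfold triC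
          rw [norm_mul, norm_mul, Complex.norm_real, Complex.norm_real, Real.norm_of_nonneg (by positivity),
            Real.norm_of_nonneg (tri_nonneg hh _)]
          have h5 := tri_le hh (z - Real.log n)
          have h6 : ArithmeticFunction.vonMangoldt n / (n : ℝ) ≤ ArithmeticFunction.vonMangoldt n * Real.exp (1 - Z) := by
            rw [div_eq_mul_inv]
            apply mul_le_mul_of_nonneg_left _ hL
            have h7 : (1 : ℝ) - Z = -(Z - 1) := by ring
            rw [h7, Real.exp_neg]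
            apply inv_anti₀ (Real.exp_pos _)
            rw [← Real.le_log_iff_exp_le hn0]
            have := (abs_lt.1 h4).2
            linarith
          have h8 := tri_nonneg hh (z - Real.log n)
          calc _ ≤ (2 * q) * (ArithmeticFunction.vonMangoldt n * Real.exp (1 - Z)) * (1 / h) := by gcongr
            _ = _ := by ring
    refine (Finset.sum_le_sum h2).trans ?_
    rw [← Finset.sum_mul, ← Finset.sum_filter]
    have h3 := La_noncop hq hN
    calc _ ≤ (q * Real.log N) * (2 * q * (Real.exp (1 - Z) / h)) := mul_le_mul_of_nonneg_right h3 (by positivity)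
      _ = _ := by ring

/-- the sum of the inverses of the totients -/
lemma sum_inv_phi : ∃ C : ℝ, 0 < C ∧ ∀ F : ℕ, 1 ≤ F →
    ∑ q ∈ Finset.Icc 1 F, 1 / (q.totient : ℝ) ≤ C * (1 + Real.log F) := by
  obtain ⟨C, hC, h⟩ := Pool.Agent.Helper112.sum_ratio_sq
  refine ⟨C, hC, fun F hF => le_trans (Finset.sum_le_sum fun q hq => ?_) (h F hF)⟩
  rw [Finset.mem_Icc] at hq
  have hq0 : (0 : ℝ) < q := by exact_mod_cast hq.1
  have hφ : (0 : ℝ) < q.totient := by exact_mod_cast Nat.totient_pos.2 hq.1
  have h1 : (q.totient : ℝ) ≤ q := by exact_mod_cast Nat.totient_le q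
  have h2 : (1 / (q : ℝ)) * ((q : ℝ) / (q.totient : ℝ)) ^ 2 = (1 / (q.totient : ℝ)) * ((q : ℝ) / q.totient) := by
    field_simp
  rw [h2]
  apply le_mul_of_one_le_right (by positivity)
  rw [le_div_iff₀ hφ, one_mul]
  exact h1

end Pool.Agent.P8H13.GK
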