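import Pool.Agent.P8H13.GK.Good

set_option autoImplicit false

/-!
# Few residue classes are bad
-/

namespace Pool.Agent.P8H13.GK

open Finset
open Pool.Agent.H807R2.Dav
open Pool.Agent.TH823.PS (rr mem_rr)
open Pool.Agent.P8H13.PK

open Classical in
/-- the bad residue classes -/
noncomputable def Bad (l : ℝ) (W T : ℕ) : Finset ℕ := (range W).filter (fun b => b.Coprime W ∧ ¬ GB l W T b)

open Classical in
lemma mem_Bad {l : ℝ} {W T b : ℕ} : b ∈ Bad l W T ↔ b < W ∧ b.Coprime W ∧ ¬ GB l W T b := by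
  unfold Bad
  rw [mem_filter, mem_range]

theorem few_bad {c C : ℝ} (hc : 0 < c) (hc8 : c ≤ 1 / 8) (hC : 0 < C) : ∃ c1 l0 : ℝ, 0 < c1 ∧
    ∀ l : ℝ, l0 ≤ l → ∀ W T : ℕ, Sz l W T → Reg c C (12 * l) → gW W ≤ l →
      Real.log ((W * T : ℕ) : ℝ) ≤ 36 * l ^ 2 →
      l * Real.log (Real.log ((W * T : ℕ) : ℝ)) ≤ c1 * Real.log ((W * T : ℕ) : ℝ) →
      ((Bad l W T).card : ℝ) ≤ W.totient / l ^ 2 := by
  obtain ⟨c0, Z0, hc0, hZ0, hAD⟩ := AD 14 hc hc8 hC
  refine ⟨c0 / 6, Z0, by positivity, fun l hl W T hsz hReg hgl hβ1 hβ2 => ?_⟩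
  have hpar := hsz.par
  have hl0 : 1000 ≤ l := hsz.s5
  have hT0 := hpar.T0
  have hTn : 0 < T := by exact_mod_cast hT0
  have hW0 := hpar.W0
  have hWn : 0 < W := by exact_mod_cast hW0
  have hW1 : (1 : ℝ) ≤ W := by exact_mod_cast hWn
  have hlog := hsz.logN
  have hWe := hpar.hW
  set β := Real.log ((W * T : ℕ) : ℝ) with hβ
  have hβ0 : 0 < β := by linarith
  have hβ1' : 1 ≤ β := by linarith
  have hY0 : (0 : ℝ) < ((W * T : ℕ) : ℝ) := hpar.N0
  have hYexp : Real.exp β = ((W * T : ℕ) : ℝ) := Real.exp_log hY0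
  have hhL : (10 : ℝ) ^ 8 * β ^ 10 ≤ Real.exp (l / 100) := hpar.hL
  set Q := ⌊Real.exp (l / 2)⌋₊ with hQ
  have hQ1 : (Q : ℝ) ≤ Real.exp (l / 2) := Nat.floor_le (Real.exp_pos _).le
  have hQ0 : (0 : ℝ) ≤ Q := Nat.cast_nonneg _
  have hQn : 1 ≤ Q := Nat.floor_pos.2 (Real.one_le_exp (by linarith))
  set H := HH l T with hH
  -- the size of `T`
  have hTbig : Real.exp (98 * l) ≤ T := by
    have f2 := hpar.hN
    have f4 : Real.exp (100 * l) ≤ Real.exp (2 * l) * T := by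
      refine f2.trans ?_
      push_cast
      apply mul_le_mul_of_nonneg_right _ hT0.le
      exact hWe.trans (Real.exp_le_exp.2 (by linarith))
    have f5 : Real.exp (100 * l) = Real.exp (2 * l) * Real.exp (98 * l) := by rw [← Real.exp_add]; ring_nf
    rw [f5] at f4
    exact le_of_mul_le_mul_left f4 (Real.exp_pos _)
  have hx1 : 2 ≤ (T : ℝ) * Real.exp (-(4 * l)) := by
    calc (2 : ℝ) ≤ l + 1 := by linarith
      _ ≤ Real.exp l := Real.add_one_le_exp l
      _ ≤ Real.exp (98 * l + -(4 * l)) := Real.exp_le_exp.2 (by linarith)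
      _ = Real.exp (98 * l) * Real.exp (-(4 * l)) := by rw [Real.exp_add]
      _ ≤ _ := mul_le_mul_of_nonneg_right hTbig (Real.exp_pos _).le
  have hHle : (H : ℝ) ≤ T * Real.exp (-(4 * l)) := HH_le T
  have hHge : (T : ℝ) * Real.exp (-(4 * l)) / 2 ≤ H := by
    have f1 : (T : ℝ) * Real.exp (-(4 * l)) < H + 1 := Nat.lt_floor_add_one _
    linarith
  have hHpos : (0 : ℝ) < H := by linarith
  have hHn : 1 ≤ H := by exact_mod_cast hHpos
  have he4 : Real.exp (-(4 * l)) ≤ 1 / 2 := by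
    have f1 := Real.add_one_le_exp (4 * l)
    rw [Real.exp_neg, inv_eq_one_div]
    exact one_div_le_one_div_of_le (by norm_num) (by linarith)
  have hH2 : 2 * H ≤ T := by
    have f1 : (2 : ℝ) * H ≤ T := by nlinarith
    exact_mod_cast f1
  have hWHge : ((W * T : ℕ) : ℝ) * Real.exp (-(4 * l)) / 2 ≤ ((W * H : ℕ) : ℝ) := by
    push_cast
    have := mul_le_mul_of_nonneg_left hHge hW0.le
    linarith
  -- the parameters of the analytic estimate
  have hFe : ((Q * W : ℕ) : ℝ) ≤ Real.exp (51 * l / 100) := by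
    push_cast
    calc (Q : ℝ) * W ≤ Real.exp (l / 2) * Real.exp (l / 100) := mul_le_mul hQ1 hWe hW0.le (Real.exp_pos _).le
      _ = _ := by rw [← Real.exp_add]; ring_nf
  have had := hAD (12 * l) (6 * l) (Real.exp (-(6 * l))) β W H T hReg (by ring) rfl hWn hHn hH2 hβ
    (by linarith) (by
      rw [show (6 : ℝ) * l = √((6 * l) ^ 2) from (Real.sqrt_sq (by linarith)).symm]
      apply Real.sqrt_le_sqrt
      nlinarith) (by linarith) (by
      have f1 : Real.log (((W * T : ℕ) : ℝ) * Real.exp (-(4 * l)) / 2) ≤ Real.log ((W * H : ℕ) : ℝ) :=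
        Real.log_le_log (by positivity) hWHge
      rw [Real.log_div (by positivity) (by norm_num), Real.log_mul (by positivity) (by positivity), Real.log_exp, ← hβ] at f1
      have := Real.log_two_lt_d9
      linarith) (by
      have f1 : Real.exp (-(6 * l)) * (((W * T : ℕ) : ℝ) * Real.exp (-(4 * l)) / 2) ≤ Real.exp (-(6 * l)) * ((W * H : ℕ) : ℝ) :=
        mul_le_mul_of_nonneg_left hWHge (Real.exp_pos _).le
      refine le_trans ?_ f1
      rw [← hYexp]
      have f2 : Real.exp (-(6 * l)) * (Real.exp β * Real.exp (-(4 * l)) / 2) = Real.exp (β - 10 * l) / 2 := by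
        rw [show β - 10 * l = -(6 * l) + (β + -(4 * l)) by ring, Real.exp_add, Real.exp_add]
        ring
      rw [f2]
      have := Real.add_one_le_exp (β - 10 * l)
      linarith) (Q * W) (Nat.mul_pos hQn hWn) (hFe.trans (Real.exp_le_exp.2 (by linarith)))
  have hav := avg_classes (W := W) (Q := Q) (H := H) (X := T) hWn hQn hHn had
  -- Markov
  have hmk : ((Bad l W T).card : ℝ) * ((1 / β ^ 6) * (H : ℝ) ^ 2 * T) ≤
      ∑ b ∈ (range W).filter (fun b => b.Coprime W), En W Q b H T := by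
    have f1 : Bad l W T ⊆ (range W).filter (fun b => b.Coprime W) := by
      intro b hb
      rw [mem_Bad] at hb
      rw [mem_filter, mem_range]
      exact ⟨hb.1, hb.2.1⟩
    have f2 : ∑ b ∈ Bad l W T, En W Q b H T ≤ ∑ b ∈ (range W).filter (fun b => b.Coprime W), En W Q b H T :=
      sum_le_sum_of_subset_of_nonneg f1 fun _ _ _ => by
        unfold En
        exact sum_nonneg fun _ _ => sum_nonneg fun _ _ => sum_nonneg fun _ _ => sq_nonneg _
    refine le_trans ?_ f2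
    rw [← nsmul_eq_mul, ← sum_const]
    apply sum_le_sum
    intro b hb
    rw [mem_Bad] at hb
    have := hb.2.2
    unfold GB at this
    push Not at this
    exact this.le
  have hav2 : ∑ b ∈ (range W).filter (fun b => b.Coprime W), En W Q b H T ≤
      4 / W * (2 * (((W * H : ℕ) : ℝ) ^ 2 * T) * (2 ^ 14 * (β / β ^ 14)) +
      2 * ((Q * W : ℕ) : ℝ) ^ 2 * T * (20 * Real.exp (-(6 * l)) * ((W * T : ℕ) : ℝ) * Real.log ((9 * (W * T) : ℕ) : ℝ) +
        2 * √((W * T : ℕ) : ℝ) * Real.log ((9 * (W * T) : ℕ) : ℝ)) ^ 2) + 96 * (W : ℝ) ^ 4 * (Q : ℝ) ^ 8 * T := hav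
  set Y : ℝ := ((W * T : ℕ) : ℝ) with hY
  set X1 := 20 * Real.exp (-(6 * l)) * Y * Real.log ((9 * (W * T) : ℕ) : ℝ) +
        2 * √Y * Real.log ((9 * (W * T) : ℕ) : ℝ) with hX1
  have hlog9 : Real.log ((9 * (W * T) : ℕ) : ℝ) ≤ 2 * β := by
    rw [Nat.cast_mul, Real.log_mul (by norm_num) (by positivity), ← hY, ← hβ]
    have : Real.log ((9 : ℕ) : ℝ) ≤ 8 := by
      have := Real.log_le_sub_one_of_pos (show (0 : ℝ) < 9 by norm_num)
      push_cast
      linarith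
    linarith
  have hlog90 : 0 ≤ Real.log ((9 * (W * T) : ℕ) : ℝ) := Real.log_natCast_nonneg _
  have hsqY : √Y ≤ Real.exp (-(6 * l)) * Y := by
    rw [Real.sqrt_le_left (by positivity), mul_pow, ← Real.exp_nat_mul]
    have f1 : 1 ≤ Real.exp ((2 : ℕ) * -(6 * l)) * Y := by
      rw [← hYexp, ← Real.exp_add]
      apply Real.one_le_exp
      push_cast
      linarith
    nlinarith
  have hX10 : 0 ≤ X1 := by positivity
  have hX1le : X1 ≤ 44 * β * (Real.exp (-(6 * l)) * Y) := by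
    have f0 : 0 ≤ Real.exp (-(6 * l)) * Y := by positivity
    calc X1 ≤ 20 * Real.exp (-(6 * l)) * Y * (2 * β) + 2 * (Real.exp (-(6 * l)) * Y) * (2 * β) := by
          rw [hX1]
          gcongr
      _ = 44 * β * (Real.exp (-(6 * l)) * Y) := by ring
  have hX2 : X1 ^ 2 ≤ 1936 * β ^ 2 * (Real.exp (-(12 * l)) * (W : ℝ) ^ 2 * (T : ℝ) ^ 2) := by
    calc X1 ^ 2 ≤ (44 * β * (Real.exp (-(6 * l)) * Y)) ^ 2 := pow_le_pow_left₀ hX10 hX1le 2
      _ = 1936 * β ^ 2 * (Real.exp (-(6 * l)) ^ 2 * Y ^ 2) := by ring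
      _ = _ := by rw [← Real.exp_nat_mul, hY]; push_cast; ring_nf
  -- the three terms
  set P := (1 / β ^ 6) * (H : ℝ) ^ 2 * T with hP
  have hP0 : 0 < P := by positivity
  have hHsq : (T : ℝ) ^ 2 * Real.exp (-(8 * l)) / 4 ≤ (H : ℝ) ^ 2 := by
    calc (T : ℝ) ^ 2 * Real.exp (-(8 * l)) / 4 = (T * Real.exp (-(4 * l)) / 2) ^ 2 := by
          rw [div_pow, mul_pow, ← Real.exp_nat_mul]; push_cast; ring_nf
      _ ≤ _ := pow_le_pow_left₀ (by positivity) hHge 2
  have hphi : (1 : ℝ) ≤ W.totient := by exact_mod_cast Nat.totient_pos.2 hWn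
  have hWphi : (W : ℝ) = gW W * W.totient := by unfold gW; field_simp
  have t1 : 4 / W * (2 * (((W * H : ℕ) : ℝ) ^ 2 * T) * (2 ^ 14 * (β / β ^ 14))) ≤ (W.totient / (2 * l ^ 2)) * P := by
    have f1 : 4 / W * (2 * (((W * H : ℕ) : ℝ) ^ 2 * T) * (2 ^ 14 * (β / β ^ 14))) = P * (W * (2 ^ 17 / β ^ 7)) := by
      rw [hP]
      push_cast
      field_simp
      norm_num
    rw [f1, mul_comm]
    apply mul_le_mul_of_nonneg_right _ hP0.le
    rw [hWphi]
    have f2 : (2 : ℝ) ^ 17 / β ^ 7 * l ≤ 1 / (2 * l ^ 2) := by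
      rw [div_mul_eq_mul_div, div_le_div_iff₀ (by positivity) (by positivity), one_mul]
      have f3 : (100 * l) ^ 7 ≤ β ^ 7 := pow_le_pow_left₀ (by linarith) hlog 7
      have f4 : l ^ 3 ≤ l ^ 7 := pow_le_pow_right₀ (by linarith) (by norm_num)
      have f5 : (100 * l) ^ 7 = 10 ^ 14 * l ^ 7 := by ring
      have f6 : (2 : ℝ) ^ 17 * l * (2 * l ^ 2) = 2 ^ 18 * l ^ 3 := by ring
      rw [f6]
      have f7 : 0 ≤ l ^ 3 := by positivity
      nlinarith
    calc gW W * W.totient * (2 ^ 17 / β ^ 7) ≤ l * W.totient * (2 ^ 17 / β ^ 7) := by gcongr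
      _ = W.totient * (2 ^ 17 / β ^ 7 * l) := by ring
      _ ≤ W.totient * (1 / (2 * l ^ 2)) := mul_le_mul_of_nonneg_left f2 (by linarith)
      _ = _ := by ring
  have hl2 : l ^ 2 ≤ β ^ 2 := pow_le_pow_left₀ (by linarith) (by linarith) 2
  have t2 : 4 / W * (2 * ((Q * W : ℕ) : ℝ) ^ 2 * T * X1 ^ 2) ≤ (1 / (4 * l ^ 2)) * P := by
    have f1 : ((Q * W : ℕ) : ℝ) ^ 2 ≤ Real.exp (51 * l / 50) := by
      calc _ ≤ Real.exp (51 * l / 100) ^ 2 := pow_le_pow_left₀ (Nat.cast_nonneg _) hFe 2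
        _ = _ := by rw [← Real.exp_nat_mul]; push_cast; ring_nf
    have f2 : 4 / W * (2 * ((Q * W : ℕ) : ℝ) ^ 2 * T * X1 ^ 2) ≤
        4 / W * (2 * Real.exp (51 * l / 50) * T * (1936 * β ^ 2 * (Real.exp (-(12 * l)) * (W : ℝ) ^ 2 * (T : ℝ) ^ 2))) := by gcongr
    refine f2.trans ?_
    have f3 : (1 / (4 * l ^ 2)) * ((1 / β ^ 6) * ((T : ℝ) ^ 2 * Real.exp (-(8 * l)) / 4) * T) ≤ (1 / (4 * l ^ 2)) * P := by
      rw [hP]
      gcongr
    refine le_trans ?_ f3
    have f4 : 4 / W * (2 * Real.exp (51 * l / 50) * T * (1936 * β ^ 2 * (Real.exp (-(12 * l)) * (W : ℝ) ^ 2 * (T : ℝ) ^ 2))) =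
        (T : ℝ) ^ 3 * (15488 * (β ^ 2 * W) * (Real.exp (51 * l / 50) * Real.exp (-(12 * l)))) := by
      field_simp
      ring
    have f5 : (1 / (4 * l ^ 2)) * ((1 / β ^ 6) * ((T : ℝ) ^ 2 * Real.exp (-(8 * l)) / 4) * T) =
        (T : ℝ) ^ 3 * (Real.exp (-(8 * l)) / (16 * l ^ 2 * β ^ 6)) := by
      field_simp
      ring
    rw [f4, f5]
    apply mul_le_mul_of_nonneg_left _ (by positivity)
    rw [le_div_iff₀ (by positivity)]
    have f6 : 15488 * (β ^ 2 * W) * (Real.exp (51 * l / 50) * Real.exp (-(12 * l))) * (16 * l ^ 2 * β ^ 6) ≤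
        15488 * (β ^ 2 * Real.exp (l / 100)) * (Real.exp (51 * l / 50) * Real.exp (-(12 * l))) * (16 * β ^ 2 * β ^ 6) := by gcongr
    refine f6.trans ?_
    have f7 : 15488 * (β ^ 2 * Real.exp (l / 100)) * (Real.exp (51 * l / 50) * Real.exp (-(12 * l))) * (16 * β ^ 2 * β ^ 6) =
        (247808 * β ^ 10) * (Real.exp (l / 100) * (Real.exp (51 * l / 50) * Real.exp (-(12 * l)))) := by ring
    have f8 : 247808 * β ^ 10 ≤ Real.exp (l / 100) := by
      have : 0 ≤ β ^ 10 := by positivity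
      linarith
    rw [f7]
    calc _ ≤ Real.exp (l / 100) * (Real.exp (l / 100) * (Real.exp (51 * l / 50) * Real.exp (-(12 * l)))) :=
          mul_le_mul_of_nonneg_right f8 (by positivity)
      _ = Real.exp (l / 100 + (l / 100 + (51 * l / 50 + -(12 * l)))) := by rw [← Real.exp_add, ← Real.exp_add, ← Real.exp_add]
      _ ≤ _ := Real.exp_le_exp.2 (by linarith)
  have t3 : 96 * (W : ℝ) ^ 4 * (Q : ℝ) ^ 8 * T ≤ (1 / (4 * l ^ 2)) * P := by
    have f3 : (1 / (4 * l ^ 2)) * ((1 / β ^ 6) * ((T : ℝ) ^ 2 * Real.exp (-(8 * l)) / 4) * T) ≤ (1 / (4 * l ^ 2)) * P := by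
      rw [hP]
      gcongr
    refine le_trans ?_ f3
    have f5 : (1 / (4 * l ^ 2)) * ((1 / β ^ 6) * ((T : ℝ) ^ 2 * Real.exp (-(8 * l)) / 4) * T) =
        T * ((T : ℝ) ^ 2 * Real.exp (-(8 * l)) / (16 * l ^ 2 * β ^ 6)) := by
      field_simp
      ring
    rw [f5, mul_comm]
    apply mul_le_mul_of_nonneg_left _ hT0.le
    rw [le_div_iff₀ (by positivity)]
    have g1 : (W : ℝ) ^ 4 ≤ Real.exp (l / 25) := by
      calc _ ≤ Real.exp (l / 100) ^ 4 := pow_le_pow_left₀ hW0.le hWe 4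
        _ = _ := by rw [← Real.exp_nat_mul]; push_cast; ring_nf
    have g2 : (Q : ℝ) ^ 8 ≤ Real.exp (4 * l) := by
      calc _ ≤ Real.exp (l / 2) ^ 8 := pow_le_pow_left₀ hQ0 hQ1 8
        _ = _ := by rw [← Real.exp_nat_mul]; push_cast; ring_nf
    have g3 : l ^ 2 * β ^ 6 ≤ β ^ 10 := by
      calc l ^ 2 * β ^ 6 ≤ β ^ 2 * β ^ 6 := mul_le_mul_of_nonneg_right hl2 (by positivity)
        _ = β ^ 8 := by ring
        _ ≤ _ := pow_le_pow_right₀ hβ1' (by norm_num)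
    have g4 : 96 * 16 * (l ^ 2 * β ^ 6) ≤ Real.exp (l / 100) := by
      have : 0 ≤ β ^ 10 := by positivity
      linarith
    calc 96 * (W : ℝ) ^ 4 * (Q : ℝ) ^ 8 * (16 * l ^ 2 * β ^ 6) = (W : ℝ) ^ 4 * (Q : ℝ) ^ 8 * (96 * 16 * (l ^ 2 * β ^ 6)) := by ring
      _ ≤ Real.exp (l / 25) * Real.exp (4 * l) * Real.exp (l / 100) := by gcongr
      _ = Real.exp (l / 25 + 4 * l + l / 100) := by rw [← Real.exp_add, ← Real.exp_add]
      _ ≤ Real.exp ((98 * l) + (98 * l) + -(8 * l)) := Real.exp_le_exp.2 (by linarith)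
      _ = Real.exp (98 * l) * Real.exp (98 * l) * Real.exp (-(8 * l)) := by rw [Real.exp_add, Real.exp_add]
      _ ≤ (T : ℝ) ^ 2 * Real.exp (-(8 * l)) := by
          rw [sq]
          gcongr
  -- the conclusion
  have hfin : ((Bad l W T).card : ℝ) * P ≤ (W.totient / l ^ 2) * P := by
    refine (hmk.trans hav2).trans ?_
    rw [mul_add]
    have e1 : (W.totient : ℝ) / l ^ 2 = W.totient / (2 * l ^ 2) + W.totient / (2 * l ^ 2) := by field_simp; norm_num
    have e2 : 1 / (4 * l ^ 2) + 1 / (4 * l ^ 2) ≤ (W.totient : ℝ) / (2 * l ^ 2) := by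
      have : 1 / (4 * l ^ 2) + 1 / (4 * l ^ 2) = 1 / (2 * l ^ 2) := by field_simp; norm_num
      rw [this]
      gcongr
    rw [e1, add_mul]
    have e3 := mul_le_mul_of_nonneg_right e2 hP0.le
    rw [add_mul] at e3
    linarith
  exact le_of_mul_le_mul_right hfin hP0

end Pool.Agent.P8H13.GK
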