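import Pool.Agent.P8H13.GK.Asm2
import Pool.Agent.P8H13.PK.FinB

set_option autoImplicit false

/-!
# Almost all admissible sets, with exceptional residues: the choice of the parameters
-/

namespace Pool.Agent.P8H13.GK

open Finset
open Pool.Agent.P8H13.PK

open Classical in
/-- the final bound at one scale -/
theorem fin_bound2 : ∃ l0 : ℝ, ∀ l : ℝ, l0 ≤ l → ∀ (y : ℕ) (κ : ℝ), Real.exp (200 * l) ≤ y →
    (10 : ℝ) ^ 8 * Real.log (4 * y) ^ 10 ≤ Real.exp (l / 100) → 8 * κ * l ≤ 1 →
    (∀ T : ℕ, Par l (primorial ⌊l / 140⌋₊ * T) (primorial ⌊l / 140⌋₊) T → y ≤ primorial ⌊l / 140⌋₊ * T →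
      primorial ⌊l / 140⌋₊ * T ≤ 2 * y →
      ∃ B : Finset ℕ, HypB l (primorial ⌊l / 140⌋₊ * T) (primorial ⌊l / 140⌋₊) T ⌊l / 140⌋₊ κ B ∧
        (B.card : ℝ) ≤ (primorial ⌊l / 140⌋₊).totient * (1 / l ^ 2)) →
    ∀ k : ℕ, 1 ≤ k → Real.log (4 * y) ^ (2 * k) ≤ Real.exp (l / 5) →
      (((powersetCard k (range (y + 1))).filter (fun A => Adm A ∧ (cnt y A : ℝ) < y * Real.exp (-l))).card : ℝ) ≤
        48300 * (k / l) * ((powersetCard k (range (y + 1))).filter (fun A => Adm A)).card := by
  obtain ⟨l0, hl0, hbig⟩ := big_exp2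
  refine ⟨l0, fun l hl y κ hy hL hκ hHyp k hk hklog => ?_⟩
  have hl1 : 10000 ≤ l := hl0.trans hl
  obtain ⟨hb1, hb2⟩ := hbig l hl
  set y0 := ⌊l / 140⌋₊ with hy0
  have hy0le : (y0 : ℝ) ≤ l / 140 := Nat.floor_le (by linarith)
  have hy0ge : l / 150 ≤ y0 := by
    have h1 := Nat.lt_floor_add_one (l / 140)
    rw [← hy0] at h1
    linarith
  have hy0pos : (0 : ℝ) < y0 := by linarith
  have hy02 : 2 ≤ y0 := by
    have h1 : (2 : ℝ) ≤ y0 := by linarith
    exact_mod_cast h1
  have hk1 : (1 : ℝ) ≤ k := by exact_mod_cast hk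
  -- the trivial case
  by_cases hky : 11 * k ≤ y0
  swap
  · push Not at hky
    have h1 : (y0 : ℝ) < 11 * k := by exact_mod_cast hky
    have h2 : 1 ≤ 48300 * ((k : ℝ) / l) := by
      rw [mul_div_assoc', le_div_iff₀ (by linarith)]
      linarith
    have h3 : ((powersetCard k (range (y + 1))).filter (fun A => Adm A ∧ (cnt y A : ℝ) < y * Real.exp (-l))).card ≤
        ((powersetCard k (range (y + 1))).filter (fun A => Adm A)).card := card_le_card (by
      intro A hA
      rw [mem_filter] at hA ⊢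
      exact ⟨hA.1, hA.2.1⟩)
    have h4 : (((powersetCard k (range (y + 1))).filter (fun A => Adm A ∧ (cnt y A : ℝ) < y * Real.exp (-l))).card : ℝ) ≤
        ((powersetCard k (range (y + 1))).filter (fun A => Adm A)).card := by exact_mod_cast h3
    exact h4.trans (le_mul_of_one_le_left (Nat.cast_nonneg _) h2)
  set W := primorial y0 with hW
  have hWpos : 0 < W := primorial_pos y0
  have hW0 : (0 : ℝ) < W := by exact_mod_cast hWpos
  have hWe : (W : ℝ) ≤ Real.exp (l / 100) := by
    have h1 : (W : ℝ) ≤ (4 : ℝ) ^ y0 := by exact_mod_cast primorial_le_four_pow y0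
    refine h1.trans ?_
    have h2 : (4 : ℝ) ^ y0 = Real.exp (y0 * Real.log 4) := by
      rw [mul_comm, Real.exp_mul, Real.exp_log (by norm_num), Real.rpow_natCast]
    rw [h2]
    apply Real.exp_le_exp.2
    have h3 : Real.log 4 ≤ 1.4 := by
      have h4 : Real.log 4 = 2 * Real.log 2 := by
        rw [show (4 : ℝ) = 2 ^ 2 by norm_num, Real.log_pow]; norm_num
      have := Real.log_two_lt_d9
      rw [h4]; linarith
    have h4 : 0 ≤ Real.log 4 := Real.log_nonneg (by norm_num)
    nlinarith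
  have hWd : ∀ p, p.Prime → (p ∣ W ↔ p ≤ y0) := fun p hp => primorial_dvd_iff y0 p hp
  have hW2 : 2 ≤ W := Nat.le_of_dvd hWpos ((hWd 2 Nat.prime_two).2 hy02)
  set η := Real.exp (-(l / 60)) with hη
  have hη0 : 0 < η := Real.exp_pos _
  have hη1 : η ≤ 1 := by rw [hη, Real.exp_le_one_iff]; linarith
  have hy0' : (0 : ℝ) < y := (Real.exp_pos _).trans_le hy
  have hyn : 1 ≤ y := by have : 0 < y := by exact_mod_cast hy0'
                         omega
  -- `y η` is large
  have hyη : Real.exp (199 * l) ≤ η * y := by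
    calc Real.exp (199 * l) ≤ Real.exp (-(l / 60) + 200 * l) := Real.exp_le_exp.2 (by linarith)
      _ = η * Real.exp (200 * l) := by rw [Real.exp_add]
      _ ≤ _ := mul_le_mul_of_nonneg_left hy hη0.le
  have hW199 : 100 * (W : ℝ) ≤ Real.exp (199 * l) := by
    have h1 : (100 : ℝ) ≤ Real.exp (198 * l) := by linarith [Real.add_one_le_exp (198 * l)]
    calc 100 * (W : ℝ) ≤ Real.exp (198 * l) * Real.exp (l / 100) := mul_le_mul h1 hWe hW0.le (Real.exp_pos _).le
      _ = Real.exp (198 * l + l / 100) := by rw [Real.exp_add]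
      _ ≤ _ := Real.exp_le_exp.2 (by linarith)
  have hWη : 100 * (W : ℝ) ≤ η * y := hW199.trans hyη
  set T := ⌊(1 + η) * y / W⌋₊ with hT
  have hT1 : (T : ℝ) ≤ (1 + η) * y / W := Nat.floor_le (by positivity)
  have hT2 : (1 + η) * y / W < T + 1 := Nat.lt_floor_add_one _
  have hT1' : (W : ℝ) * T ≤ (1 + η) * y := by
    rw [le_div_iff₀ hW0] at hT1; linarith
  have hT2' : (1 + η) * y < W * T + W := by
    rw [div_lt_iff₀ hW0] at hT2; linarith
  set S := ⌊η * y / (2 * W)⌋₊ with hS
  have hS1 : (S : ℝ) ≤ η * y / (2 * W) := Nat.floor_le (by positivity)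
  have hS2 : η * y / (2 * W) < S + 1 := Nat.lt_floor_add_one _
  have hS1' : (W : ℝ) * S ≤ η * y / 2 := by
    rw [le_div_iff₀ (by positivity)] at hS1; linarith
  have hS3 : η * y / (4 * W) ≤ S := by
    have h1 : η * y / (2 * W) = 2 * (η * y / (4 * W)) := by field_simp; norm_num
    have h2 : 1 ≤ η * y / (4 * W) := by
      rw [le_div_iff₀ (by positivity)]; linarith
    linarith
  have hS4 : (W : ℝ) * S ≥ η * y / 4 := by
    rw [div_le_iff₀ (by positivity)] at hS3; linarith
  set N := W * T with hN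
  have hNr : (N : ℝ) = W * T := by rw [hN]; push_cast; ring
  have hyN : y ≤ N := by
    have h1 : (y : ℝ) ≤ N := by rw [hNr]; nlinarith
    exact_mod_cast h1
  have hN2 : N ≤ 2 * y := by
    have h1 : (N : ℝ) ≤ 2 * y := by rw [hNr]; nlinarith
    exact_mod_cast h1
  have hyNr : (y : ℝ) ≤ N := by exact_mod_cast hyN
  have hN2r : (N : ℝ) ≤ 2 * y := by exact_mod_cast hN2
  have hN0 : (0 : ℝ) < N := by linarith
  have hlog4y : 200 * l ≤ Real.log (4 * y) := by
    rw [Real.le_log_iff_exp_le (by positivity)]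
    linarith
  have hlogN : Real.log N ≤ Real.log (4 * y) := Real.log_le_log hN0 (by linarith)
  have hlogN0 : 0 ≤ Real.log N := Real.log_natCast_nonneg _
  have hlog2N : Real.log (2 * N) ≤ Real.log (4 * y) := Real.log_le_log (by linarith) (by linarith)
  have hlog2N0 : 0 ≤ Real.log (2 * N) := by
    apply Real.log_nonneg
    have : (1 : ℝ) ≤ y := by exact_mod_cast hyn
    linarith
  have hpar : Par l N W T := by
    refine ⟨by linarith, ?_, ?_, hWpos, hWe, le_of_eq hN.symm, by rw [← hN]; omega⟩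
    · exact le_trans (Real.exp_le_exp.2 (by linarith)) (hy.trans hyNr)
    · refine le_trans ?_ hL
      gcongr
  obtain ⟨B, hHy, hBc⟩ := hHyp T (by rw [← hN]; exact hpar) (by rw [← hN]; exact hyN) (by rw [← hN]; exact hN2)
  rw [← hN] at hHy
  have hκ0 := hHy.hκ0
  have hSn : 1 ≤ S := by
    have h2 : 1 ≤ η * y / (4 * W) := by
      rw [le_div_iff₀ (by positivity)]; linarith
    have h3 : (1 : ℝ) ≤ S := h2.trans hS3
    exact_mod_cast h3
  have hkl : (k : ℝ) ≤ l := by
    have h1 : (11 : ℝ) * k ≤ y0 := by exact_mod_cast hky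
    linarith
  have hlogk : Real.log (4 * y) ^ k ≤ Real.exp (l / 5) := by
    refine le_trans (pow_le_pow_right₀ (by linarith) (by omega)) hklog
  have hmain := sets_bound (ε := 1 / l ^ 2) hHy hBc (by
      have f1 : 4 * (1 / l ^ 2) * y0 ≤ 4 * (1 / l ^ 2) * (l / 140) := by gcongr
      refine f1.trans ?_
      rw [show 4 * (1 / l ^ 2) * (l / 140) = 1 / (35 * l) by field_simp; norm_num]
      rw [div_le_one (by linarith)]
      linarith) hWd hk hky (y := y) (S := S) (τ := (k : ℝ) / y0) (η := η) (M := y * Real.exp (-l))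
    (by positivity) le_rfl hη0.le ?_ ?_ hSn ?_ ?_ ?_ ?_ ?_ ?_ ?_
  · refine hmain.trans ?_
    apply mul_le_mul_of_nonneg_right _ (Nat.cast_nonneg _)
    have h1 : (k : ℝ) / y0 ≤ 150 * (k / l) := by
      rw [mul_div_assoc', div_le_div_iff₀ hy0pos (by linarith)]
      nlinarith
    linarith
  · -- `k η ≤ k / y0`
    rw [le_div_iff₀ hy0pos, mul_assoc]
    have h1 : η * y0 ≤ 1 := by
      have h2 : l / 60 + 1 ≤ Real.exp (l / 60) := Real.add_one_le_exp _
      have h3 : η * Real.exp (l / 60) = 1 := by rw [hη, ← Real.exp_add]; simp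
      nlinarith
    nlinarith
  · -- `8 k κ ≤ k / y0`
    rw [le_div_iff₀ hy0pos]
    have h1 : 8 * κ * y0 ≤ 1 := by
      refine le_trans ?_ hκ
      apply mul_le_mul_of_nonneg_left _ (by positivity)
      linarith
    nlinarith
  · -- `y + W (S + 1) ≤ W T`
    have h1 : (y : ℝ) + W * (S + 1) ≤ W * T := by nlinarith
    exact_mod_cast h1
  · refine hT1'.trans ?_
    nlinarith
  · nlinarith
  · -- the diagonal
    have h1 : (4 * Real.log (2 * N)) ^ k ≤ Real.exp (l / 5) := by
      refine le_trans ?_ hklog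
      rw [pow_mul]
      apply pow_le_pow_left₀ (by positivity)
      nlinarith
    refine h1.trans ?_
    rw [div_mul_eq_mul_div, le_div_iff₀ hy0pos]
    have h2 : Real.exp (198 * l) ≤ S := by
      refine le_trans ?_ hS3
      rw [le_div_iff₀ (by positivity)]
      calc Real.exp (198 * l) * (4 * W) ≤ Real.exp (198 * l) * Real.exp l := by
            apply mul_le_mul_of_nonneg_left _ (Real.exp_pos _).le
            have h3 : Real.exp (l / 100) * 4 ≤ Real.exp (l / 100) * Real.exp (99 * l / 100) := by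
              apply mul_le_mul_of_nonneg_left _ (Real.exp_pos _).le
              linarith [Real.add_one_le_exp (99 * l / 100)]
            rw [← Real.exp_add] at h3
            have h4 : l / 100 + 99 * l / 100 = l := by ring
            rw [h4] at h3
            linarith
        _ = Real.exp (199 * l) := by rw [← Real.exp_add]; congr 1; ring
        _ ≤ _ := hyη
    calc Real.exp (l / 5) * y0 ≤ Real.exp (l / 5) * Real.exp (l / 30) := by
          apply mul_le_mul_of_nonneg_left _ (Real.exp_pos _).le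
          linarith
      _ = Real.exp (l / 5 + l / 30) := by rw [Real.exp_add]
      _ ≤ Real.exp (198 * l) := Real.exp_le_exp.2 (by linarith)
      _ ≤ S := h2
      _ ≤ k * S := le_mul_of_one_le_left (Nat.cast_nonneg _) hk1
  · -- the exceptional differences
    have h1 : Real.log N ^ (2 * k) ≤ Real.exp (l / 5) := (pow_le_pow_left₀ hlogN0 hlogN _).trans hklog
    rw [div_mul_eq_mul_div, le_div_iff₀ hy0pos]
    have h2 : (T : ℝ) ≤ 8 * Real.exp (l / 60) * S := by
      have h3 : Real.exp (l / 60) * (η * y) = y := by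
        rw [hη, ← mul_assoc, ← Real.exp_add]; simp
      have h4 : (W : ℝ) * T ≤ W * (8 * Real.exp (l / 60) * S) := by
        calc (W : ℝ) * T ≤ 2 * y := by nlinarith
          _ = 8 * Real.exp (l / 60) * (η * y / 4) := by
              have h6 : 8 * Real.exp (l / 60) * (η * y / 4) = 2 * (Real.exp (l / 60) * (η * y)) := by ring
              rw [h6, h3]
          _ ≤ 8 * Real.exp (l / 60) * (W * S) := mul_le_mul_of_nonneg_left hS4 (by positivity)
          _ = _ := by ring
      exact le_of_mul_le_mul_left h4 hW0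
    have h5 : 48 * (y0 : ℝ) ≤ Real.exp (l / 30) := by linarith
    calc 6 * k * (T * Real.exp (-(l / 4))) * Real.log N ^ (2 * k) * y0 ≤
        6 * k * ((8 * Real.exp (l / 60) * S) * Real.exp (-(l / 4))) * Real.exp (l / 5) * y0 := by gcongr
      _ = k * S * (48 * y0) * (Real.exp (l / 60) * Real.exp (-(l / 4)) * Real.exp (l / 5)) := by ring
      _ ≤ k * S * Real.exp (l / 30) * (Real.exp (l / 60) * Real.exp (-(l / 4)) * Real.exp (l / 5)) := by gcongr
      _ = k * S * (Real.exp (l / 30) * (Real.exp (l / 60) * Real.exp (-(l / 4)) * Real.exp (l / 5))) := by ring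
      _ = k * S * 1 := by
          rw [← Real.exp_add, ← Real.exp_add, ← Real.exp_add]
          have : l / 30 + (l / 60 + -(l / 4) + l / 5) = 0 := by ring
          rw [this, Real.exp_zero]
      _ = _ := by ring
  · -- `W (2 k² + 1) ≤ y + 1`
    have h1 : 2 * (k : ℝ) ^ 2 + 1 ≤ Real.exp l := by
      have : (k : ℝ) ^ 2 ≤ l ^ 2 := pow_le_pow_left₀ (by linarith) hkl 2
      nlinarith
    calc (W : ℝ) * (2 * k ^ 2 + 1) ≤ Real.exp (l / 100) * Real.exp l := by gcongr
      _ = Real.exp (l / 100 + l) := by rw [Real.exp_add]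
      _ ≤ Real.exp (200 * l) := Real.exp_le_exp.2 (by linarith)
      _ ≤ _ := by linarith
  · -- the final count
    have h1 : Real.log (2 * N) ^ k ≤ Real.exp (l / 5) := (pow_le_pow_left₀ hlog2N0 hlog2N _).trans hlogk
    have h2 : Real.exp (-l) * Real.exp (l / 5) * (24 * Real.exp (l / 100)) ≤ η := by
      have h3 : (24 : ℝ) ≤ Real.exp (l / 30) := by linarith
      calc Real.exp (-l) * Real.exp (l / 5) * (24 * Real.exp (l / 100)) ≤
          Real.exp (-l) * Real.exp (l / 5) * (Real.exp (l / 30) * Real.exp (l / 100)) := by gcongr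
        _ = Real.exp (-l + l / 5 + (l / 30 + l / 100)) := by rw [← Real.exp_add, ← Real.exp_add, ← Real.exp_add]
        _ ≤ _ := Real.exp_le_exp.2 (by linarith)
    calc y * Real.exp (-l) * Real.log (2 * N) ^ k ≤ y * Real.exp (-l) * Real.exp (l / 5) := by gcongr
      _ ≤ (η * y / (4 * W)) / 6 := by
          rw [div_div, le_div_iff₀ (by positivity)]
          calc y * Real.exp (-l) * Real.exp (l / 5) * (4 * W * 6) ≤ y * Real.exp (-l) * Real.exp (l / 5) * (4 * Real.exp (l / 100) * 6) := by gcongr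
            _ = y * (Real.exp (-l) * Real.exp (l / 5) * (24 * Real.exp (l / 100))) := by ring
            _ ≤ y * η := mul_le_mul_of_nonneg_left h2 hy0'.le
            _ = _ := by ring
      _ ≤ S / 6 := div_le_div_of_nonneg_right hS3 (by norm_num)

end Pool.Agent.P8H13.GK
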