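import Pool.Agent.P8H13.GK.Split

set_option autoImplicit false

/-!
# Good residue classes
-/

namespace Pool.Agent.P8H13.GK

open Finset
open Pool.Agent.H807R2.Dav
open Pool.Agent.TH823.PS (rr mem_rr)
open Pool.Agent.P8H13.PK

/-- the energy of the class of `b` at the fractions with small denominators -/
noncomputable def En (W Q b H T : ℕ) : ℝ := ∑ q ∈ Icc 1 Q, ∑ a ∈ rr q, ∑ x ∈ Ico (2 * H) T,
  ‖∑ t ∈ Ico (x + 1 - H) (x + 1), ((FF W Q b t : ℝ) : ℂ) * ee (t * ((a : ℝ) / q))‖ ^ 2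

/-- the length of the windows -/
noncomputable def HH (l : ℝ) (T : ℕ) : ℕ := ⌊(T : ℝ) * Real.exp (-(4 * l))⌋₊

/-- the class of `b` is good -/
def GB (l : ℝ) (W T b : ℕ) : Prop :=
  En W ⌊Real.exp (l / 2)⌋₊ b (HH l T) T ≤ (1 / Real.log ((W * T : ℕ) : ℝ) ^ 6) * ((HH l T : ℕ) : ℝ) ^ 2 * T

lemma ps_eq {W b b' z : ℕ} (hb1 : 1 ≤ b) (hb : b < W) (hbb : b' ≡ b [MOD W]) :
    ps W b' z = ∑ t ∈ range ((z + W - b) / W), th (b + W * t) := by
  have hW : 0 < W := by omega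
  unfold ps
  apply sum_nbij' (i := fun n => n / W) (j := fun t => b + W * t)
  · intro n hn
    rw [mem_filter, mem_Icc] at hn
    have h1 : n % W = b := by
      have h2 : n ≡ b [MOD W] := hn.2.trans hbb
      unfold Nat.ModEq at h2
      rw [h2, Nat.mod_eq_of_lt hb]
    have h3 := Nat.mod_add_div n W
    rw [mem_range, Nat.lt_div_iff_mul_lt hW]
    rw [h1] at h3
    have h4 : n / W * W = W * (n / W) := mul_comm _ _
    rw [← h4] at h3
    omega
  · intro t ht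
    rw [mem_range, Nat.lt_div_iff_mul_lt hW] at ht
    rw [mem_filter, mem_Icc]
    have h4 : t * W = W * t := mul_comm _ _
    refine ⟨⟨by omega, by omega⟩, ?_⟩
    refine Nat.ModEq.trans ?_ hbb.symm
    unfold Nat.ModEq
    rw [Nat.add_mul_mod_self_left]
  · intro n hn
    rw [mem_filter, mem_Icc] at hn
    have h1 : n % W = b := by
      have h2 : n ≡ b [MOD W] := hn.2.trans hbb
      unfold Nat.ModEq at h2
      rw [h2, Nat.mod_eq_of_lt hb]
    have h3 := Nat.mod_add_div n W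
    rw [h1] at h3
    exact h3
  · intro t _
    rw [Nat.add_mul_div_left _ _ hW, Nat.div_eq_of_lt hb, zero_add]
  · intro n hn
    rw [mem_filter, mem_Icc] at hn
    have h1 : n % W = b := by
      have h2 : n ≡ b [MOD W] := hn.2.trans hbb
      unfold Nat.ModEq at h2
      rw [h2, Nat.mod_eq_of_lt hb]
    have h3 := Nat.mod_add_div n W
    rw [h1] at h3
    rw [h3]

lemma abs_mo_le (W Q b t : ℕ) : |mo W Q b t| ≤ Q := by
  unfold mo
  refine (abs_sum_le_sum_abs _ _).trans ((sum_le_sum fun r _ => abs_hr_le r _).trans ?_)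
  rw [sum_const, nsmul_eq_mul, mul_one]
  exact_mod_cast card_RQ W Q

/-- the sizes of the parameters -/
structure Sz (l : ℝ) (W T : ℕ) : Prop where
  par : Par l (W * T) W T
  s1 : 6 * (Real.log ((W * T : ℕ) : ℝ) + W * ((⌊Real.exp (l / 2)⌋₊ : ℕ) : ℝ)) ^ 2 * ((⌊Real.exp (l / 2)⌋₊ : ℕ) : ℝ) ^ 2 *
    Real.exp (-(4 * l)) * (2 * Real.log ((W * T : ℕ) : ℝ) ^ 6) ≤ 1
  s2 : 9 * l ^ 2 * ((Real.log ((W * T : ℕ) : ℝ) + W * ((⌊Real.exp (l / 2)⌋₊ : ℕ) : ℝ)) * Real.exp (-(4 * l))) ≤ 1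
  s3 : 3 * l ^ 2 * (2 * ((⌊Real.exp (l / 2)⌋₊ : ℕ) : ℝ) ^ 2 + 1) ≤ T
  s4 : 4 * l ^ 2 * Real.exp (-(l / 20)) ≤ 1
  s5 : 1000 ≤ l

section
variable {l : ℝ} {W T : ℕ}

lemma Sz.logN (h : Sz l W T) : 100 * l ≤ Real.log ((W * T : ℕ) : ℝ) := h.par.L1

lemma HH_le (T : ℕ) : ((HH l T : ℕ) : ℝ) ≤ T * Real.exp (-(4 * l)) := Nat.floor_le (by positivity)

lemma FF_bound (h : Sz l W T) {b t : ℕ} (hb : b < W) (ht : t < T) :
    |FF W ⌊Real.exp (l / 2)⌋₊ b t| ≤ Real.log ((W * T : ℕ) : ℝ) + W * ((⌊Real.exp (l / 2)⌋₊ : ℕ) : ℝ) := by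
  unfold FF
  refine (abs_sub _ _).trans (add_le_add ?_ ?_)
  · rw [abs_of_nonneg (th_nonneg _)]
    apply th_le_of_le
    have h1 : W * (t + 1) ≤ W * T := Nat.mul_le_mul_left W ht
    rw [mul_add] at h1
    omega
  · rw [abs_mul, abs_of_nonneg (gW_nonneg W)]
    exact mul_le_mul (gW_le h.par.hW1) (abs_mo_le _ _ _ _) (abs_nonneg _) (Nat.cast_nonneg _)

/-- the primes in a good class -/
theorem good_P1 (h : Sz l W T) {b : ℕ} (hb1 : 1 ≤ b) (hb : b < W) (hg : GB l W T b) {b' z : ℕ}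
    (hbb : b' ≡ b [MOD W]) (hz : z ≤ W * T) :
    |ps W b' z - z / (Nat.totient W : ℝ)| ≤ (1 / l ^ 2) * ((W * T : ℕ) / (Nat.totient W : ℝ)) := by
  have hW0 : (0 : ℝ) < W := h.par.W0
  have hW : 0 < W := by exact_mod_cast hW0
  have hT0 := h.par.T0
  have hTn : 0 < T := by exact_mod_cast hT0
  have hφ : (0 : ℝ) < Nat.totient W := by exact_mod_cast Nat.totient_pos.2 hW
  have hl0 : 1000 ≤ l := h.s5
  have hlog := h.logN
  set L := Real.log ((W * T : ℕ) : ℝ) with hL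
  have hL0 : 0 < L := by linarith
  set Q := ⌊Real.exp (l / 2)⌋₊ with hQ
  have hQ1 : 1 ≤ Q := Nat.floor_pos.2 (Real.one_le_exp (by linarith))
  have hQ0 : (0 : ℝ) ≤ Q := Nat.cast_nonneg _
  set H := HH l T with hH
  set M := L + W * (Q : ℝ) with hMd
  have hM0 : 0 ≤ M := by positivity
  set n := (z + W - b) / W with hn
  have hnT : n ≤ T := by
    rw [hn]
    have h1 : (z + W - b) / W ≤ (W * T + W - 1) / W := Nat.div_le_div_right (by omega)
    have h2 : (W * T + W - 1) / W < T + 1 := by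
      rw [Nat.div_lt_iff_lt_mul hW]
      have : (T + 1) * W = W * T + W := by ring
      omega
    omega
  have hn1 : W * n ≤ z + W - b := by rw [hn]; exact Nat.mul_div_le _ _
  have hn2 : z + W - b < W * n + W := by
    have h1 := Nat.lt_mul_div_succ (z + W - b) hW
    rw [← hn] at h1
    have : W * (n + 1) = W * n + W := by ring
    omega
  have hn3 : |(n : ℝ) - z / W| ≤ 1 := by
    have e1 : ((W * n : ℕ) : ℝ) ≤ ((z + W : ℕ) : ℝ) := by exact_mod_cast (show W * n ≤ z + W by omega)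
    have e2 : ((z : ℕ) : ℝ) ≤ ((W * n + W : ℕ) : ℝ) := by exact_mod_cast (show z ≤ W * n + W by omega)
    push_cast at e1 e2
    have e3 : (n : ℝ) - z / W = (W * n - z) / W := by field_simp
    rw [e3, abs_div, abs_of_pos hW0, div_le_one hW0, abs_le]
    constructor <;> linarith
  rw [ps_eq hb1 hb hbb, ← hn]
  -- the difference
  have h1 : ∑ t ∈ range n, th (b + W * t) = ∑ t ∈ range n, FF W Q b t + gW W * ∑ t ∈ range n, mo W Q b t := by
    rw [mul_sum, ← sum_add_distrib]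
    apply sum_congr rfl
    intro t _
    unfold FF
    ring
  have h2 : |∑ t ∈ range n, mo W Q b t - n| ≤ 2 * (Q : ℝ) ^ 2 := by
    have h3 := mo_ap (W := W) (Q := Q) (d := 1) b 0 n le_rfl hQ1
    simp only [zero_add, one_mul, Nat.primeFactors_one, filter_empty, prod_empty, mul_one] at h3
    exact h3
  have h3 : |∑ t ∈ range n, FF W Q b t| ≤ (1 / L ^ 3) * T + 3 * (H : ℝ) * M := by
    have e1 := win_sum (FF W Q b) (M := M) (H := H) (n := n) hM0 (fun t ht => FF_bound h hb (by omega))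
    have hHpos : (0 : ℝ) < H := by
      have f1 : 1 ≤ (T : ℝ) * Real.exp (-(4 * l)) := by
        have f2 := h.par.hN
        have f3 := h.par.hW
        have f4 : Real.exp (100 * l) ≤ Real.exp (l / 100) * T := by
          refine f2.trans ?_
          push_cast
          exact mul_le_mul_of_nonneg_right f3 hT0.le
        have f5 : Real.exp (4 * l) ≤ T := by
          have f6 : Real.exp (l / 100) * Real.exp (4 * l) ≤ Real.exp (l / 100) * T := by
            refine le_trans ?_ f4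
            rw [← Real.exp_add]
            exact Real.exp_le_exp.2 (by linarith)
          exact le_of_mul_le_mul_left f6 (Real.exp_pos _)
        calc (1 : ℝ) = Real.exp (4 * l) * Real.exp (-(4 * l)) := by rw [← Real.exp_add]; simp
          _ ≤ _ := mul_le_mul_of_nonneg_right f5 (Real.exp_pos _).le
      have f2 : 0 < H := by rw [hH]; exact Nat.floor_pos.2 f1
      exact_mod_cast f2
    -- the windows
    set w : ℕ → ℝ := fun x => ∑ t ∈ Ico (x + 1 - H) (x + 1), FF W Q b t with hw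
    have e2 : ∑ x ∈ Ico (2 * H) T, w x ^ 2 ≤ (1 / L ^ 6) * (H : ℝ) ^ 2 * T := by
      refine le_trans ?_ hg
      unfold En
      rw [← hQ, ← hH]
      have f1 : ∑ a ∈ rr 1, ∑ x ∈ Ico (2 * H) T, ‖∑ t ∈ Ico (x + 1 - H) (x + 1), ((FF W Q b t : ℝ) : ℂ) * ee (t * ((a : ℝ) / (1 : ℕ)))‖ ^ 2 ≤
          ∑ q ∈ Icc 1 Q, ∑ a ∈ rr q, ∑ x ∈ Ico (2 * H) T, ‖∑ t ∈ Ico (x + 1 - H) (x + 1), ((FF W Q b t : ℝ) : ℂ) * ee (t * ((a : ℝ) / q))‖ ^ 2 :=
        single_le_sum (f := fun q : ℕ => ∑ a ∈ rr q, ∑ x ∈ Ico (2 * H) T, ‖∑ t ∈ Ico (x + 1 - H) (x + 1), ((FF W Q b t : ℝ) : ℂ) * ee (t * ((a : ℝ) / q))‖ ^ 2)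
          (fun _ _ => sum_nonneg fun _ _ => sum_nonneg fun _ _ => sq_nonneg _) (mem_Icc.2 ⟨le_rfl, hQ1⟩)
      refine le_trans ?_ f1
      have f2 : ∑ x ∈ Ico (2 * H) T, ‖∑ t ∈ Ico (x + 1 - H) (x + 1), ((FF W Q b t : ℝ) : ℂ) * ee (t * (((0 : ℕ) : ℝ) / (1 : ℕ)))‖ ^ 2 ≤
          ∑ a ∈ rr 1, ∑ x ∈ Ico (2 * H) T, ‖∑ t ∈ Ico (x + 1 - H) (x + 1), ((FF W Q b t : ℝ) : ℂ) * ee (t * ((a : ℝ) / (1 : ℕ)))‖ ^ 2 :=
        single_le_sum (f := fun a : ℕ => ∑ x ∈ Ico (2 * H) T, ‖∑ t ∈ Ico (x + 1 - H) (x + 1), ((FF W Q b t : ℝ) : ℂ) * ee (t * ((a : ℝ) / (1 : ℕ)))‖ ^ 2)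
          (fun _ _ => sum_nonneg fun _ _ => sq_nonneg _) (mem_rr.2 ⟨by norm_num, by norm_num⟩)
      refine le_trans (le_of_eq ?_) f2
      apply sum_congr rfl
      intro x _
      have f3 : ∑ t ∈ Ico (x + 1 - H) (x + 1), ((FF W Q b t : ℝ) : ℂ) * ee (t * (((0 : ℕ) : ℝ) / (1 : ℕ))) = ((w x : ℝ) : ℂ) := by
        rw [hw]
        push_cast
        apply sum_congr rfl
        intro t _
        have : ee ((t : ℝ) * (0 / 1)) = 1 := by
          rw [zero_div, mul_zero]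
          have := ee_int 0
          simpa using this
        rw [this, mul_one]
      rw [f3, Complex.norm_real, Real.norm_eq_abs, sq_abs]
    have e3 : (∑ x ∈ Ico (2 * H) n, w x) ^ 2 ≤ ((1 / L ^ 3) * H * T) ^ 2 := by
      have f1 := sq_sum_le_card_mul_sum_sq (s := Ico (2 * H) n) (f := w)
      have f2 : ((Ico (2 * H) n).card : ℝ) ≤ T := by
        rw [Nat.card_Ico]
        exact_mod_cast (Nat.sub_le _ _).trans hnT
      have f3 : ∑ x ∈ Ico (2 * H) n, w x ^ 2 ≤ ∑ x ∈ Ico (2 * H) T, w x ^ 2 := by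
        apply sum_le_sum_of_subset_of_nonneg
        · intro x hx
          rw [mem_Ico] at hx ⊢
          omega
        · intro _ _ _
          positivity
      calc _ ≤ _ := f1
        _ ≤ (T : ℝ) * ((1 / L ^ 6) * (H : ℝ) ^ 2 * T) := mul_le_mul f2 (f3.trans e2) (sum_nonneg fun _ _ => sq_nonneg _) hT0.le
        _ = _ := by field_simp
    have e4 : |∑ x ∈ Ico (2 * H) n, w x| ≤ (1 / L ^ 3) * H * T := by
      apply abs_le_of_sq_le_sq e3 (by positivity)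
    have e5 : (H : ℝ) * |∑ t ∈ range n, FF W Q b t| ≤ H * ((1 / L ^ 3) * T + 3 * (H : ℝ) * M) := by
      calc _ ≤ _ := e1
        _ ≤ (1 / L ^ 3) * H * T + 3 * (H : ℝ) ^ 2 * M := by linarith
        _ = _ := by ring
    exact le_of_mul_le_mul_left e5 hHpos
  have hg1 : 1 ≤ gW W := by
    unfold gW
    rw [le_div_iff₀ hφ, one_mul]
    exact_mod_cast Nat.totient_le W
  have h4 : (z : ℝ) / Nat.totient W = gW W * (z / W) := by unfold gW; field_simp
  have h5 : ((W * T : ℕ) : ℝ) / (Nat.totient W : ℝ) = gW W * T := by unfold gW; push_cast; field_simp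
  rw [h1, h4, h5]
  have h6 : ∑ t ∈ range n, FF W Q b t + gW W * ∑ t ∈ range n, mo W Q b t - gW W * ((z : ℝ) / W) =
      ∑ t ∈ range n, FF W Q b t + gW W * ((∑ t ∈ range n, mo W Q b t - n) + (n - (z : ℝ) / W)) := by ring
  rw [h6]
  refine (abs_add_le _ _).trans ?_
  rw [abs_mul, abs_of_nonneg (gW_nonneg W)]
  have h7 : |(∑ t ∈ range n, mo W Q b t - n) + (n - (z : ℝ) / W)| ≤ 2 * (Q : ℝ) ^ 2 + 1 :=
    (abs_add_le _ _).trans (add_le_add h2 hn3)
  have h8 : gW W * |(∑ t ∈ range n, mo W Q b t - n) + (n - (z : ℝ) / W)| ≤ gW W * (2 * (Q : ℝ) ^ 2 + 1) :=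
    mul_le_mul_of_nonneg_left h7 (gW_nonneg W)
  -- the three contributions
  have c1 : (1 / L ^ 3) * T ≤ (1 / (3 * l ^ 2)) * T := by
    apply mul_le_mul_of_nonneg_right _ hT0.le
    apply one_div_le_one_div_of_le (by positivity)
    have : (100 * l) ^ 3 ≤ L ^ 3 := pow_le_pow_left₀ (by linarith) hlog 3
    nlinarith [sq_nonneg l]
  have c2 : 3 * (H : ℝ) * M ≤ (1 / (3 * l ^ 2)) * T := by
    have f1 : (H : ℝ) ≤ T * Real.exp (-(4 * l)) := HH_le T
    have f2 := h.s2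
    rw [← hL, ← hQ, ← hMd] at f2
    rw [one_div, inv_mul_eq_div, le_div_iff₀ (by positivity)]
    calc 3 * (H : ℝ) * M * (3 * l ^ 2) ≤ 3 * (T * Real.exp (-(4 * l))) * M * (3 * l ^ 2) := by gcongr
      _ = T * (9 * l ^ 2 * (M * Real.exp (-(4 * l)))) := by ring
      _ ≤ T * 1 := mul_le_mul_of_nonneg_left f2 hT0.le
      _ = T := mul_one _
  have c3 : 2 * (Q : ℝ) ^ 2 + 1 ≤ (1 / (3 * l ^ 2)) * T := by
    have f2 := h.s3
    rw [← hQ] at f2
    rw [one_div, inv_mul_eq_div, le_div_iff₀ (by positivity)]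
    linarith
  have c4 : (1 / l ^ 2) * (gW W * T) = 3 * ((1 / (3 * l ^ 2)) * T * gW W) := by field_simp
  rw [c4]
  have c5 : 0 ≤ (1 / (3 * l ^ 2)) * T := by positivity
  have c6 : gW W * (2 * (Q : ℝ) ^ 2 + 1) ≤ gW W * ((1 / (3 * l ^ 2)) * T) := mul_le_mul_of_nonneg_left c3 (gW_nonneg W)
  nlinarith

end

end Pool.Agent.P8H13.GK
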