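import Pool.Agent.P8H13.GK.Good

set_option autoImplicit false

/-!
# Pairs of primes in a good residue class
-/

namespace Pool.Agent.P8H13.GK

open Finset
open Pool.Agent.H807R2.Dav
open Pool.Agent.TH823.PS (rr mem_rr)
open Pool.Agent.P8H13.PK

section
variable {l : ℝ} {W T : ℕ}

lemma HH_pos (h : Sz l W T) : 1 ≤ HH l T := by
  have hT0 := h.par.T0
  have hl0 : 1000 ≤ l := h.s5
  apply Nat.floor_pos.2
  have f2 := h.par.hN
  have f3 := h.par.hW
  have f4 : Real.exp (100 * l) ≤ Real.exp (l / 100) * T := by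
    refine f2.trans ?_
    push_cast
    exact mul_le_mul_of_nonneg_right f3 hT0.le
  have f5 : Real.exp (4 * l) ≤ T := by
    have f6 : Real.exp (l / 100) * Real.exp (4 * l) ≤ Real.exp (l / 100) * T := by
      refine le_trans ?_ f4
      rw [← Real.exp_add]
      exact Real.exp_le_exp.2 (by linarith)
    exact le_of_mul_le_mul_left f6 (Real.exp_pos _)
  calc (1 : ℝ) = Real.exp (4 * l) * Real.exp (-(4 * l)) := by rw [← Real.exp_add]; simp
    _ ≤ _ := mul_le_mul_of_nonneg_right f5 (Real.exp_pos _).le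

lemma HH_leT (h : Sz l W T) : HH l T ≤ T := by
  have hT0 := h.par.T0
  have hl0 : 1000 ≤ l := h.s5
  have h1 := HH_le (l := l) T
  have h2 : Real.exp (-(4 * l)) ≤ 1 := by rw [Real.exp_le_one_iff]; linarith
  have h3 : ((HH l T : ℕ) : ℝ) ≤ T := by nlinarith
  exact_mod_cast h3

open Classical in
/-- the energy of the major frequencies in a good class -/
lemma good_energy (h : Sz l W T) {b : ℕ} (hb : b < W) (hg : GB l W T b) :
    ∑ k ∈ (range (2 * T)).filter (fun k : ℕ => Maj ⌊Real.exp (l / 2)⌋₊ (HH l T) ((k : ℝ) / (2 * T : ℕ))),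
      ‖∑ t ∈ range T, ((FF W ⌊Real.exp (l / 2)⌋₊ b t : ℝ) : ℂ) * ee (t * ((k : ℝ) / (2 * T : ℕ)))‖ ^ 2 ≤
      (2 * T) * ((5 / 2) / Real.log ((W * T : ℕ) : ℝ) ^ 3 * √(T : ℝ)) ^ 2 := by
  have hT0 := h.par.T0
  have hTn : 0 < T := by exact_mod_cast hT0
  have hl0 : 1000 ≤ l := h.s5
  have hlog := h.logN
  set L := Real.log ((W * T : ℕ) : ℝ) with hL
  have hL0 : 0 < L := by linarith
  set Q := ⌊Real.exp (l / 2)⌋₊ with hQ
  have hH1 := HH_pos h
  have hHT := HH_leT h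
  set H := HH l T with hH
  have hH0 : (0 : ℝ) < H := by exact_mod_cast hH1
  set M := L + W * (Q : ℝ) with hMd
  have hM0 : 0 ≤ M := by positivity
  have h1 := major_energy (Q := Q) hTn hH1 hHT (fun t => ((FF W Q b t : ℝ) : ℂ)) hM0 (fun t ht => by
    rw [Complex.norm_real, Real.norm_eq_abs]
    exact FF_bound h hb ht)
  set S := ∑ k ∈ (range (2 * T)).filter (fun k : ℕ => Maj Q H ((k : ℝ) / (2 * T : ℕ))),
      ‖∑ t ∈ range T, ((FF W Q b t : ℝ) : ℂ) * ee (t * ((k : ℝ) / (2 * T : ℕ)))‖ ^ 2 with hS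
  have h2 : ∑ q ∈ Icc 1 Q, ∑ a ∈ rr q, ∑ x ∈ Ico (2 * H) T,
      ‖∑ t ∈ Ico (x + 1 - H) (x + 1), ((FF W Q b t : ℝ) : ℂ) * ee (t * ((a : ℝ) / q))‖ ^ 2 ≤ (1 / L ^ 6) * (H : ℝ) ^ 2 * T := by
    have := hg
    unfold GB En at this
    rw [← hQ, ← hH, ← hL] at this
    exact this
  have h3 : 3 * (Q : ℝ) ^ 2 * (H : ℝ) ^ 3 * M ^ 2 ≤ (1 / 4) * ((1 / L ^ 6) * (H : ℝ) ^ 2 * T) := by
    have f1 : (H : ℝ) ≤ T * Real.exp (-(4 * l)) := HH_le T
    have f2 := h.s1
    rw [← hL, ← hQ, ← hMd] at f2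
    have f3 : (1 / 4) * ((1 / L ^ 6) * (H : ℝ) ^ 2 * T) = (H : ℝ) ^ 2 * T / (4 * L ^ 6) := by field_simp
    rw [f3, le_div_iff₀ (by positivity)]
    calc 3 * (Q : ℝ) ^ 2 * (H : ℝ) ^ 3 * M ^ 2 * (4 * L ^ 6) = (H : ℝ) ^ 2 * H * (12 * M ^ 2 * (Q : ℝ) ^ 2 * L ^ 6) := by ring
      _ ≤ (H : ℝ) ^ 2 * (T * Real.exp (-(4 * l))) * (12 * M ^ 2 * (Q : ℝ) ^ 2 * L ^ 6) := by gcongr
      _ = (H : ℝ) ^ 2 * T * (6 * M ^ 2 * (Q : ℝ) ^ 2 * Real.exp (-(4 * l)) * (2 * L ^ 6)) := by ring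
      _ ≤ (H : ℝ) ^ 2 * T * 1 := mul_le_mul_of_nonneg_left f2 (by positivity)
      _ = _ := mul_one _
  have h4 : (H : ℝ) ^ 2 * S ≤ (H : ℝ) ^ 2 * ((2 * T) * ((5 / 2) / L ^ 3 * √(T : ℝ)) ^ 2) := by
    refine h1.trans ?_
    have f1 : ((5 / 2) / L ^ 3 * √(T : ℝ)) ^ 2 = (25 / 4) * (1 / L ^ 6) * T := by
      rw [mul_pow, Real.sq_sqrt hT0.le, div_pow, ← pow_mul]
      ring
    rw [f1]
    have f2 : 8 * (T : ℝ) * ((1 / L ^ 6) * (H : ℝ) ^ 2 * T + (1 / 4) * ((1 / L ^ 6) * (H : ℝ) ^ 2 * T)) ≤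
        (H : ℝ) ^ 2 * (2 * T * ((25 / 4) * (1 / L ^ 6) * T)) := by
      have : 0 ≤ (T : ℝ) * ((1 / L ^ 6) * (H : ℝ) ^ 2 * T) := by positivity
      nlinarith
    refine le_trans ?_ f2
    apply mul_le_mul_of_nonneg_left _ (by positivity)
    exact add_le_add h2 h3
  exact le_of_mul_le_mul_left h4 (by positivity)

end

/-- **pairs of primes in a good class** -/
theorem good_P2 : ∃ l0 : ℝ, ∀ l : ℝ, l0 ≤ l → ∀ W T : ℕ, Sz l W T →
    ∀ b : ℕ, 1 ≤ b → b < W → b.Coprime W → GB l W T b → ∃ X : Finset ℕ, (X.card : ℝ) ≤ T * Real.exp (-(l / 4)) ∧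
      ∀ h : ℕ, h < T → h ∉ X → rb W b T h ≤
        T * gW W ^ 2 * (∏ p ∈ (Icc 1 ⌊Real.exp (l / 2)⌋₊).filter (fun p => p.Prime ∧ ¬ p ∣ W), (1 + xp p h) +
          1 / l ^ 2) := by
  obtain ⟨C, hC, hmo⟩ := mo_sq
  obtain ⟨l1, hl1⟩ : ∃ l1 : ℝ, ∀ l : ℝ, l1 ≤ l → C * (1 + l) + 3 ≤ Real.exp (l / 200) := by
    have h1 := Real.tendsto_pow_mul_exp_neg_atTop_nhds_zero 1
    have h2 : Filter.Tendsto (fun l : ℝ => l / 200) Filter.atTop Filter.atTop :=
      Filter.tendsto_id.atTop_div_const (by norm_num)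
    have h3 := (h1.comp h2).eventually (gt_mem_nhds (show (0 : ℝ) < 1 / (200 * (C + C + 3)) by positivity))
    obtain ⟨l1, hl1⟩ := Filter.eventually_atTop.1 h3
    refine ⟨max l1 1, fun l hl => ?_⟩
    have h4 := hl1 l ((le_max_left _ _).trans hl)
    have h5 : 1 ≤ l := (le_max_right _ _).trans hl
    simp only [Function.comp_apply, pow_one] at h4
    rw [Real.exp_neg, ← div_eq_mul_inv, div_lt_div_iff₀ (Real.exp_pos _) (by positivity)] at h4
    nlinarith
  refine ⟨max l1 (C + 2), fun l hl W T hsz b hb1 hb hbW hg => ?_⟩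
  have hll1 : l1 ≤ l := (le_max_left _ _).trans hl
  have hlC : C + 2 ≤ l := (le_max_right _ _).trans hl
  have hpoly := hl1 l hll1
  have h := hsz.par
  set N := W * T with hN
  have hl10 := h.hl
  have hl1000 : 1000 ≤ l := hsz.s5
  have hT0 := h.T0
  have hTn : 0 < T := by exact_mod_cast hT0
  have hN0 := h.N0
  have hL2 := h.L2
  have hNT := h.NT
  have hWe := h.hW
  have hW0 := h.W0
  have hlog : 100 * l ≤ Real.log (N : ℝ) := hsz.logN
  set L := Real.log (N : ℝ) with hL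
  have hL0 : 0 < L := by linarith
  set Q := ⌊Real.exp (l / 2)⌋₊ with hQ
  have hQ1 : (Q : ℝ) ≤ Real.exp (l / 2) := Nat.floor_le (Real.exp_pos _).le
  have hQ0 : (0 : ℝ) ≤ Q := Nat.cast_nonneg _
  have hQn : 1 ≤ Q := Nat.floor_pos.2 (Real.one_le_exp (by linarith))
  have hQ4 : (Q : ℝ) ^ 4 ≤ Real.exp (2 * l) := by
    calc (Q : ℝ) ^ 4 ≤ Real.exp (l / 2) ^ 4 := pow_le_pow_left₀ hQ0 hQ1 4
      _ = _ := by rw [← Real.exp_nat_mul]; congr 1; push_cast; ring
  have hTbig : Real.exp (90 * l) ≤ T := by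
    have h1 := h.hN
    have e2 := exp_big (l := l) (c := 1) hl10 (by norm_num)
    rw [one_mul] at e2
    have h2 : Real.exp (100 * l) ≤ Real.exp (2 * l) * T := by
      refine (h1.trans hNT).trans ?_
      apply mul_le_mul_of_nonneg_right _ hT0.le
      calc 2 * Real.exp (l / 100) ≤ Real.exp l * Real.exp l := by
            apply mul_le_mul (by linarith) (Real.exp_le_exp.2 (by linarith)) (Real.exp_pos _).le (Real.exp_pos _).le
        _ = Real.exp (2 * l) := by rw [← Real.exp_add]; ring_nf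
    have h3 : Real.exp (100 * l) = Real.exp (2 * l) * Real.exp (98 * l) := by rw [← Real.exp_add]; ring_nf
    rw [h3] at h2
    have h4 := le_of_mul_le_mul_left h2 (Real.exp_pos _)
    exact (Real.exp_le_exp.2 (by linarith)).trans h4
  set D := T * Real.exp (-(l / 5)) with hD
  have hD0 : 0 ≤ D := by positivity
  have hH1 := HH_pos hsz
  set H := HH l T with hH
  -- the minor frequencies
  have hsup : ∀ α : ℝ, ¬ Maj Q H α → ‖∑ t ∈ range T, ((FF W Q b t : ℝ) : ℂ) * ee (t * α)‖ ≤ D := by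
    intro α hα
    apply minor_FF h hb
    apply minor_of_not_maj (H := H) _ hα
    have f1 : (H : ℝ) ≤ T * Real.exp (-(4 * l)) := HH_le T
    have hpi := Real.pi_lt_four
    have hpi0 := Real.pi_pos
    have f2 : (H : ℝ) * (7 * W * Real.exp (3 * l) / N) ≤ 7 * Real.exp (-l) := by
      rw [mul_div_assoc', div_le_iff₀ hN0]
      calc (H : ℝ) * (7 * W * Real.exp (3 * l)) ≤ (T * Real.exp (-(4 * l))) * (7 * W * Real.exp (3 * l)) := by gcongr
        _ = 7 * (Real.exp (-(4 * l)) * Real.exp (3 * l)) * (W * T) := by ring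
        _ = 7 * Real.exp (-l) * (W * T) := by rw [← Real.exp_add]; ring_nf
        _ = _ := by rw [hN]; push_cast; ring
    have f3 : Real.exp (-l) ≤ 1 / 100 := by
      have := exp_big (l := l) (c := 1) hl10 (by norm_num)
      rw [one_mul] at this
      rw [Real.exp_neg, inv_eq_one_div]
      exact one_div_le_one_div_of_le (by norm_num) this
    have f4 : 0 ≤ (H : ℝ) * (7 * W * Real.exp (3 * l) / N) := by positivity
    calc Real.pi * H * (7 * W * Real.exp (3 * l) / N) = Real.pi * (H * (7 * W * Real.exp (3 * l) / N)) := by ring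
      _ ≤ 4 * (7 * (1 / 100)) := by nlinarith
      _ ≤ 1 := by norm_num
  have hg0 := gW_nonneg W
  have hgW := gW_le h.hW1
  have hg1 : 1 ≤ gW W := by
    unfold gW
    have : (0 : ℝ) < Nat.totient W := by exact_mod_cast Nat.totient_pos.2 (show 0 < W by exact h.hW1)
    rw [le_div_iff₀ this, one_mul]
    exact_mod_cast Nat.totient_le W
  have hgW2 : gW W ^ 2 ≤ Real.exp (l / 50) := by
    calc gW W ^ 2 ≤ Real.exp (l / 100) ^ 2 := pow_le_pow_left₀ hg0 (hgW.trans hWe) 2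
      _ = _ := by rw [← Real.exp_nat_mul]; congr 1; push_cast; ring
  -- the energies
  have hen := good_energy hsz hb hg
  rw [← hQ, ← hH, ← hN, ← hL] at hen
  set A := (5 / 2) / L ^ 3 * √(T : ℝ) with hA
  have hA0 : 0 ≤ A := by positivity
  have hthle : ∀ t ∈ range T, th (b + W * t) ≤ L := by
    intro t ht
    rw [mem_range] at ht
    have h3 : b + W * t ≤ N := by
      have h4 : W * (t + 1) ≤ W * T := Nat.mul_le_mul_left W ht
      rw [mul_add] at h4
      omega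
    exact th_le_of_le h3
  have hth2 : ∑ t ∈ range T, ‖((th (b + W * t) : ℝ) : ℂ)‖ ^ 2 ≤ (L * √(T : ℝ)) ^ 2 := by
    have h2 : ∀ t ∈ range T, ‖((th (b + W * t) : ℝ) : ℂ)‖ ^ 2 ≤ L ^ 2 := by
      intro t ht
      rw [Complex.norm_real, Real.norm_of_nonneg (th_nonneg _)]
      exact pow_le_pow_left₀ (th_nonneg _) (hthle t ht) 2
    refine (sum_le_sum h2).trans ?_
    rw [sum_const, card_range, nsmul_eq_mul, mul_pow, Real.sq_sqrt hT0.le]
    apply le_of_eq; ring
  have hlogQ : Real.log Q ≤ l := by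
    rw [Real.log_le_iff_le_exp (by exact_mod_cast hQn)]
    exact hQ1.trans (Real.exp_le_exp.2 (by linarith))
  have hmo1 : ∑ t ∈ range T, mo W Q b t ^ 2 ≤ T * (C * (1 + l) + 2) := by
    refine (hmo W Q b T hQn).trans ?_
    have a1 : 2 * (Q : ℝ) ^ 4 ≤ T * 2 := by
      have : Real.exp (2 * l) ≤ T := (Real.exp_le_exp.2 (by linarith)).trans hTbig
      linarith
    have a2 : C * (1 + Real.log Q) ≤ C * (1 + l) := mul_le_mul_of_nonneg_left (by linarith) hC.le
    calc (T : ℝ) * (C * (1 + Real.log Q)) + 2 * (Q : ℝ) ^ 4 ≤ T * (C * (1 + l)) + T * 2 :=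
          add_le_add (mul_le_mul_of_nonneg_left a2 hT0.le) a1
      _ = T * (C * (1 + l) + 2) := by ring
  have hmo2 : ∑ t ∈ range T, ‖((gW W * mo W Q b t : ℝ) : ℂ)‖ ^ 2 ≤ (gW W * L * √(T : ℝ)) ^ 2 := by
    have h2 : ∀ t ∈ range T, ‖((gW W * mo W Q b t : ℝ) : ℂ)‖ ^ 2 = gW W ^ 2 * mo W Q b t ^ 2 := by
      intro t _
      rw [Complex.norm_real, Real.norm_eq_abs, sq_abs, mul_pow]
    rw [sum_congr rfl h2, ← mul_sum, mul_pow, mul_pow, Real.sq_sqrt hT0.le, mul_assoc]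
    apply mul_le_mul_of_nonneg_left _ (by positivity)
    refine hmo1.trans ?_
    rw [mul_comm]
    apply mul_le_mul_of_nonneg_right _ hT0.le
    have f1 : (100 * l) ^ 2 ≤ L ^ 2 := pow_le_pow_left₀ (by linarith) hlog 2
    nlinarith
  -- the two error terms
  set E1 : ℕ → ℝ := fun h => ∑ t ∈ range (T - h), FF W Q b t * th (b + W * (t + h)) with hE1
  set E2 : ℕ → ℝ := fun h => ∑ t ∈ range (T - h), (gW W * mo W Q b t) * FF W Q b (t + h) with hE2
  have hdec : ∀ h, rb W b T h = E1 h + E2 h + gW W ^ 2 * ∑ t ∈ range (T - h), mo W Q b t * mo W Q b (t + h) := by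
    intro h
    rw [hE1, hE2]
    unfold rb
    simp only
    rw [mul_sum, ← sum_add_distrib, ← sum_add_distrib]
    apply sum_congr rfl
    intro t _
    unfold FF
    ring
  have hs1 := corr_split hTn (fun t => ((FF W Q b t : ℝ) : ℂ)) (fun t => ((th (b + W * t) : ℝ) : ℂ))
    (fun t => ((th (b + W * t) : ℝ) : ℂ)) (fun k : ℕ => Maj Q H ((k : ℝ) / (2 * T : ℕ))) (D := D) (μ := A * (L * √(T : ℝ)))
    (fun k hk => mul_le_mul_of_nonneg_right (hsup _ hk) (norm_nonneg _))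
    (major_cs hTn (fun t => ((FF W Q b t : ℝ) : ℂ)) (fun t => ((th (b + W * t) : ℝ) : ℂ)) _ hA0 (by positivity) hen hth2)
  have hcs2 := major_cs hTn (fun t => ((FF W Q b t : ℝ) : ℂ)) (fun t => ((gW W * mo W Q b t : ℝ) : ℂ))
    (fun k : ℕ => Maj Q H ((k : ℝ) / (2 * T : ℕ))) hA0 (show 0 ≤ gW W * L * √(T : ℝ) by positivity) hen hmo2
  have hs2 := corr_split hTn (fun t => ((gW W * mo W Q b t : ℝ) : ℂ)) (fun t => ((FF W Q b t : ℝ) : ℂ))
    (fun t => ((gW W * mo W Q b t : ℝ) : ℂ)) (fun k : ℕ => Maj Q H ((k : ℝ) / (2 * T : ℕ))) (D := D) (μ := A * (gW W * L * √(T : ℝ)))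
    (fun k hk => by
      rw [mul_comm]
      exact mul_le_mul_of_nonneg_right (hsup _ hk) (norm_nonneg _))
    (by
      refine le_trans (le_of_eq ?_) hcs2
      apply sum_congr rfl
      intro k _
      rw [mul_comm])
  obtain ⟨R1, hR10, hR1, hR1'⟩ := hs1
  obtain ⟨R2, hR20, hR2, hR2'⟩ := hs2
  have e1 : ∑ h ∈ range T, R1 h ^ 2 ≤ D ^ 2 * (T * Real.exp (l / 50)) := by
    refine hR1.trans ?_
    apply mul_le_mul_of_nonneg_left _ (by positivity)
    refine hth2.trans ?_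
    rw [mul_pow, Real.sq_sqrt hT0.le, mul_comm]
    apply mul_le_mul_of_nonneg_left _ hT0.le
    calc L ^ 2 ≤ Real.exp (l / 100) ^ 2 := pow_le_pow_left₀ hL0.le hL2 2
      _ = _ := by rw [← Real.exp_nat_mul]; congr 1; push_cast; ring
  have e2 : ∑ h ∈ range T, R2 h ^ 2 ≤ D ^ 2 * (T * Real.exp (l / 40)) := by
    refine hR2.trans ?_
    apply mul_le_mul_of_nonneg_left _ (by positivity)
    have h2 : ∀ t ∈ range T, ‖((gW W * mo W Q b t : ℝ) : ℂ)‖ ^ 2 = gW W ^ 2 * mo W Q b t ^ 2 := by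
      intro t _
      rw [Complex.norm_real, Real.norm_eq_abs, sq_abs, mul_pow]
    rw [sum_congr rfl h2, ← mul_sum]
    have h5 : (T : ℝ) * (C * (1 + l) + 2) ≤ T * Real.exp (l / 200) :=
      mul_le_mul_of_nonneg_left (by linarith) hT0.le
    calc gW W ^ 2 * ∑ t ∈ range T, mo W Q b t ^ 2 ≤ Real.exp (l / 50) * (T * Real.exp (l / 200)) :=
          mul_le_mul hgW2 (hmo1.trans h5) (sum_nonneg fun _ _ => sq_nonneg _) (Real.exp_pos _).le
      _ = T * Real.exp (l / 40) := by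
          rw [mul_left_comm, ← Real.exp_add]; ring_nf
  set δ := T * Real.exp (-(l / 20)) / 2 with hδ
  have hδ0 : 0 < δ := by positivity
  refine ⟨(range T).filter (fun h => δ < |R1 h|) ∪ (range T).filter (fun h => δ < |R2 h|), ?_, ?_⟩
  · have h1 := card_big hδ0 e1
    have h2 := card_big hδ0 e2
    have h3 : (((range T).filter (fun h => δ < |R1 h|) ∪ (range T).filter (fun h => δ < |R2 h|)).card : ℝ) ≤
        ((range T).filter (fun h => δ < |R1 h|)).card + ((range T).filter (fun h => δ < |R2 h|)).card := by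
      exact_mod_cast card_union_le _ _
    have h4 : (((range T).filter (fun h => δ < |R1 h|)).card + ((range T).filter (fun h => δ < |R2 h|)).card : ℝ) * δ ^ 2 ≤
        D ^ 2 * (T * (2 * Real.exp (l / 40))) := by
      have : Real.exp (l / 50) ≤ Real.exp (l / 40) := Real.exp_le_exp.2 (by linarith)
      have h5 : D ^ 2 * (T * Real.exp (l / 50)) ≤ D ^ 2 * (T * Real.exp (l / 40)) := by gcongr
      linarith
    have h5 : D ^ 2 * (T * (2 * Real.exp (l / 40))) = (T * (8 * Real.exp (-(11 * l / 40)))) * δ ^ 2 := by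
      rw [hD, hδ]
      have x1 : Real.exp (-(l / 5)) ^ 2 * Real.exp (l / 40) = Real.exp (-(11 * l / 40)) * Real.exp (-(l / 20)) ^ 2 := by
        rw [← Real.exp_nat_mul, ← Real.exp_nat_mul, ← Real.exp_add, ← Real.exp_add]
        congr 1
        push_cast
        ring
      calc (T * Real.exp (-(l / 5))) ^ 2 * (T * (2 * Real.exp (l / 40))) = 2 * T ^ 3 * (Real.exp (-(l / 5)) ^ 2 * Real.exp (l / 40)) := by ring
        _ = 2 * T ^ 3 * (Real.exp (-(11 * l / 40)) * Real.exp (-(l / 20)) ^ 2) := by rw [x1]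
        _ = _ := by ring
    rw [h5] at h4
    have h6 := le_of_mul_le_mul_right h4 (by positivity)
    have h7 : 8 * Real.exp (-(11 * l / 40)) ≤ Real.exp (-(l / 4)) := by
      have x1 : Real.exp (-(l / 4)) = Real.exp (-(11 * l / 40)) * Real.exp (l / 40) := by rw [← Real.exp_add]; ring_nf
      rw [x1]
      have x2 : 8 ≤ Real.exp (l / 40) := by linarith [Real.add_one_le_exp (l / 40)]
      have x3 := Real.exp_pos (-(11 * l / 40))
      nlinarith
    have h8 := mul_le_mul_of_nonneg_left h7 hT0.le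
    linarith
  · intro h' hh' hX
    rw [mem_union, mem_filter, mem_filter] at hX
    push Not at hX
    have x1 := hX.1 (mem_range.2 hh')
    have x2 := hX.2 (mem_range.2 hh')
    have x3 := (le_abs_self _).trans x1
    have x4 := (le_abs_self _).trans x2
    rw [hdec]
    have x5 := mo_corr (W := W) (Q := Q) b h' (T - h')
    have hPnn : 0 ≤ ∏ p ∈ (Icc 1 Q).filter (fun p => p.Prime ∧ ¬ p ∣ W), (1 + xp p h') := by
      apply prod_nonneg
      intro p hp
      rw [mem_filter] at hp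
      have := xp_nonneg hp.2.1 h'
      linarith
    have x6 : ((T - h' : ℕ) : ℝ) ≤ T := by exact_mod_cast Nat.sub_le _ _
    have x7 : ∑ t ∈ range (T - h'), mo W Q b t * mo W Q b (t + h') ≤
        T * (∏ p ∈ (Icc 1 Q).filter (fun p => p.Prime ∧ ¬ p ∣ W), (1 + xp p h') + Real.exp (-(l / 20))) := by
      refine x5.trans ?_
      have y1 := mul_le_mul_of_nonneg_right x6 hPnn
      have y2 : 2 * (Q : ℝ) ^ 4 ≤ T * Real.exp (-(l / 20)) := by
        have e2 := exp_big (l := l) (c := 1) hl10 (by norm_num)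
        rw [one_mul] at e2
        calc 2 * (Q : ℝ) ^ 4 ≤ Real.exp l * Real.exp (2 * l) := by
              apply mul_le_mul (by linarith) hQ4 (by positivity) (Real.exp_pos _).le
          _ ≤ Real.exp (90 * l) * Real.exp (-(l / 20)) := by
              rw [← Real.exp_add, ← Real.exp_add]; exact Real.exp_le_exp.2 (by linarith)
          _ ≤ _ := mul_le_mul_of_nonneg_right hTbig (Real.exp_pos _).le
      linarith
    have x8 := mul_le_mul_of_nonneg_left x7 (sq_nonneg (gW W))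
    -- the two correlations
    have y1 : E1 h' ≤ A * (L * √(T : ℝ)) + δ := by
      have z1 := hR1' h' hh'
      have z2 : ∑ t ∈ range (T - h'), (starRingEnd ℂ) ((FF W Q b t : ℝ) : ℂ) * ((th (b + W * (t + h')) : ℝ) : ℂ) = ((E1 h' : ℝ) : ℂ) := by
        rw [hE1]
        simp only [Complex.conj_ofReal]
        push_cast
        rfl
      rw [z2, Complex.norm_real, Real.norm_eq_abs] at z1
      have := le_abs_self (E1 h')
      linarith
    have y2 : E2 h' ≤ A * (gW W * L * √(T : ℝ)) + δ := by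
      have z1 := hR2' h' hh'
      have z2 : ∑ t ∈ range (T - h'), (starRingEnd ℂ) ((gW W * mo W Q b t : ℝ) : ℂ) * ((FF W Q b (t + h') : ℝ) : ℂ) = ((E2 h' : ℝ) : ℂ) := by
        rw [hE2]
        simp only [Complex.conj_ofReal]
        push_cast
        rfl
      rw [z2, Complex.norm_real, Real.norm_eq_abs] at z1
      have := le_abs_self (E2 h')
      linarith
    have hss : √(T : ℝ) * √(T : ℝ) = T := Real.mul_self_sqrt hT0.le
    have y3 : A * (L * √(T : ℝ)) = (5 / 2) / L ^ 2 * T := by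
      have z1 : A * (L * √(T : ℝ)) = (5 / 2) / L ^ 2 * (√(T : ℝ) * √(T : ℝ)) := by
        rw [hA]
        field_simp
      rw [z1, hss]
    have y4 : A * (gW W * L * √(T : ℝ)) = gW W * ((5 / 2) / L ^ 2 * T) := by
      have z1 : A * (gW W * L * √(T : ℝ)) = gW W * ((5 / 2) / L ^ 2 * (√(T : ℝ) * √(T : ℝ))) := by
        rw [hA]
        field_simp
      rw [z1, hss]
    have y5 : (5 / 2) / L ^ 2 * T ≤ T * (1 / (4000 * l ^ 2)) := by
      rw [mul_comm]
      apply mul_le_mul_of_nonneg_left _ hT0.le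
      rw [div_le_div_iff₀ (by positivity) (by positivity)]
      have f1 : (100 * l) ^ 2 ≤ L ^ 2 := pow_le_pow_left₀ (by linarith) hlog 2
      nlinarith
    have hgg : gW W ≤ gW W ^ 2 := by nlinarith
    have hgg1 : 1 ≤ gW W ^ 2 := one_le_pow₀ hg1
    have y6 : 4 * Real.exp (-(l / 20)) ≤ 1 / l ^ 2 := by
      rw [le_div_iff₀ (by positivity)]
      have := hsz.s4
      linarith
    have y7 : E1 h' + E2 h' ≤ gW W ^ 2 * (T * (2 * (1 / (4000 * l ^ 2)) + Real.exp (-(l / 20)))) := by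
      have z0 : 0 ≤ T * (1 / (4000 * l ^ 2)) := by positivity
      have z1 : A * (L * √(T : ℝ)) ≤ gW W ^ 2 * (T * (1 / (4000 * l ^ 2))) := by
        rw [y3]
        nlinarith
      have z2 : A * (gW W * L * √(T : ℝ)) ≤ gW W ^ 2 * (T * (1 / (4000 * l ^ 2))) := by
        rw [y4]
        calc gW W * ((5 / 2) / L ^ 2 * T) ≤ gW W * (T * (1 / (4000 * l ^ 2))) := mul_le_mul_of_nonneg_left y5 hg0
          _ ≤ _ := mul_le_mul_of_nonneg_right hgg z0
      have z3 : T * Real.exp (-(l / 20)) ≤ gW W ^ 2 * (T * Real.exp (-(l / 20))) :=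
        le_mul_of_one_le_left (by positivity) hgg1
      have z4 : δ + δ = T * Real.exp (-(l / 20)) := by rw [hδ]; ring
      linarith
    have y8 : 2 * (1 / (4000 * l ^ 2)) + Real.exp (-(l / 20)) + Real.exp (-(l / 20)) ≤ 1 / l ^ 2 := by
      have z1 : 2 * (1 / (4000 * l ^ 2)) = (1 / 2000) * (1 / l ^ 2) := by field_simp; norm_num
      have z2 : 0 ≤ 1 / l ^ 2 := by positivity
      rw [z1]
      linarith
    have y9 : gW W ^ 2 * (T * (2 * (1 / (4000 * l ^ 2)) + Real.exp (-(l / 20)) + Real.exp (-(l / 20)))) ≤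
        gW W ^ 2 * (T * (1 / l ^ 2)) := by gcongr
    linarith

end Pool.Agent.P8H13.GK
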