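import Pool.Agent.P8H13.GK.AvgB

set_option autoImplicit false

/-!
# The energy of the major frequencies
-/

namespace Pool.Agent.P8H13.GK

open Finset
open Pool.Agent.H807R2.Dav
open Pool.Agent.TH823.PS (rr mem_rr)
open Pool.Agent.P8H13.PK

/-- counting windows -/
lemma win_count {M : Type} [AddCommGroup M] (f : ℕ → M) (H n : ℕ) :
    ∑ x ∈ range (n + H), ∑ t ∈ (range n).filter (fun t => x + 1 - H ≤ t ∧ t < x + 1), f t = H • ∑ t ∈ range n, f t := by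
  rw [sum_comm' (t' := range n) (s' := fun t => Ico t (t + H))]
  · rw [smul_sum]
    apply sum_congr rfl
    intro t _
    rw [sum_const, Nat.card_Ico, Nat.add_sub_cancel_left]
  · intro x t
    simp only [mem_range, mem_filter, mem_Ico]
    omega

/-- from windows to initial segments -/
lemma win_sum (f : ℕ → ℝ) {M : ℝ} {H n : ℕ} (hM0 : 0 ≤ M) (hM : ∀ t, t < n → |f t| ≤ M) :
    H * |∑ t ∈ range n, f t| ≤ |∑ x ∈ Ico (2 * H) n, ∑ t ∈ Ico (x + 1 - H) (x + 1), f t| + 3 * (H : ℝ) ^ 2 * M := by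
  have h1 := win_count f H n
  rw [nsmul_eq_mul] at h1
  have h2 : H * |∑ t ∈ range n, f t| = |∑ x ∈ range (n + H), ∑ t ∈ (range n).filter (fun t => x + 1 - H ≤ t ∧ t < x + 1), f t| := by
    rw [h1, abs_mul, abs_of_nonneg (show (0 : ℝ) ≤ (H : ℝ) from Nat.cast_nonneg H)]
  rw [h2]
  have hsub : Ico (2 * H) n ⊆ range (n + H) := by
    intro x hx
    rw [mem_Ico] at hx
    rw [mem_range]
    omega
  rw [← sum_sdiff hsub]
  refine (abs_add_le _ _).trans ?_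
  have h3 : ∑ x ∈ Ico (2 * H) n, ∑ t ∈ (range n).filter (fun t => x + 1 - H ≤ t ∧ t < x + 1), f t =
      ∑ x ∈ Ico (2 * H) n, ∑ t ∈ Ico (x + 1 - H) (x + 1), f t := by
    apply sum_congr rfl
    intro x hx
    rw [mem_Ico] at hx
    apply sum_congr _ fun _ _ => rfl
    ext t
    rw [mem_filter, mem_range, mem_Ico]
    omega
  rw [h3, add_comm]
  apply add_le_add_right
  refine (abs_sum_le_sum_abs _ _).trans ?_
  have h4 : ∀ x ∈ range (n + H) \ Ico (2 * H) n, |∑ t ∈ (range n).filter (fun t => x + 1 - H ≤ t ∧ t < x + 1), f t| ≤ H * M := by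
    intro x _
    refine (abs_sum_le_sum_abs _ _).trans ?_
    have h5 : ∀ t ∈ (range n).filter (fun t => x + 1 - H ≤ t ∧ t < x + 1), |f t| ≤ M := by
      intro t ht
      rw [mem_filter, mem_range] at ht
      exact hM t ht.1
    refine (sum_le_sum h5).trans ?_
    rw [sum_const, nsmul_eq_mul]
    apply mul_le_mul_of_nonneg_right _ hM0
    have h6 : (range n).filter (fun t => x + 1 - H ≤ t ∧ t < x + 1) ⊆ Ico (x + 1 - H) (x + 1) := by
      intro t ht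
      rw [mem_filter] at ht
      rw [mem_Ico]
      exact ht.2
    have h7 := card_le_card h6
    rw [Nat.card_Ico] at h7
    exact_mod_cast h7.trans (by omega)
  refine (sum_le_sum h4).trans ?_
  rw [sum_const, nsmul_eq_mul]
  have h5 : (range (n + H) \ Ico (2 * H) n) ⊆ range (2 * H) ∪ Ico n (n + H) := by
    intro x hx
    rw [mem_sdiff, mem_range, mem_Ico] at hx
    rw [mem_union, mem_range, mem_Ico]
    omega
  have h6 := (card_le_card h5).trans (card_union_le _ _)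
  rw [card_range, Nat.card_Ico] at h6
  have h7 : ((range (n + H) \ Ico (2 * H) n).card : ℝ) ≤ 3 * H := by
    have : (range (n + H) \ Ico (2 * H) n).card ≤ 3 * H := h6.trans (by omega)
    exact_mod_cast this
  calc ((range (n + H) \ Ico (2 * H) n).card : ℝ) * (H * M) ≤ (3 * H) * (H * M) := mul_le_mul_of_nonneg_right h7 (by positivity)
    _ = _ := by ring

/-- the kernel -/
noncomputable def kr (H : ℕ) (θ : ℝ) : ℂ := ∑ s ∈ range H, ee (s * θ)

lemma kr_ge (H : ℕ) {θ : ℝ} (h : 4 * Real.pi * H * |θ| ≤ 1) : (H : ℝ) / 2 ≤ ‖kr H θ‖ := by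
  have h1 : (H : ℂ) - kr H θ = ∑ s ∈ range H, (1 - ee (s * θ)) := by
    unfold kr
    rw [sum_sub_distrib, sum_const, card_range, nsmul_eq_mul, mul_one]
  have h2 : ‖(H : ℂ) - kr H θ‖ ≤ H / 2 := by
    rw [h1]
    refine (norm_sum_le _ _).trans ?_
    have h3 : ∀ s ∈ range H, ‖1 - ee (s * θ)‖ ≤ 1 / 2 := by
      intro s hs
      rw [mem_range] at hs
      have h4 := dd_le (s * θ)
      unfold dd at h4
      refine h4.trans ?_
      rw [abs_mul, abs_of_nonneg (Nat.cast_nonneg s)]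
      have h5 : (s : ℝ) ≤ H := by exact_mod_cast hs.le
      have h6 : (s : ℝ) * |θ| ≤ H * |θ| := mul_le_mul_of_nonneg_right h5 (abs_nonneg _)
      have hpi := Real.pi_pos
      nlinarith
    refine (sum_le_sum h3).trans ?_
    rw [sum_const, card_range, nsmul_eq_mul]
    apply le_of_eq; ring
  have h3 : ‖(H : ℂ)‖ ≤ ‖(H : ℂ) - kr H θ‖ + ‖kr H θ‖ := by
    have := norm_add_le ((H : ℂ) - kr H θ) (kr H θ)
    rwa [sub_add_cancel] at this
  rw [Complex.norm_natCast] at h3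
  linarith

lemma kr_add_int (H : ℕ) (θ : ℝ) (m : ℤ) : kr H (θ + m) = kr H θ := by
  unfold kr
  apply sum_congr rfl
  intro s _
  have : (s : ℝ) * (θ + m) = s * θ + (((s : ℤ) * m : ℤ) : ℝ) := by push_cast; ring
  rw [this, ee_add_int]

/-- a frequency near a fraction with a small denominator -/
def Maj (Q H : ℕ) (α : ℝ) : Prop := ∃ q ∈ Icc 1 Q, ∃ a ∈ rr q, (H : ℝ) / 2 ≤ ‖kr H (α - a / q)‖

lemma nearest (x : ℝ) : ∃ a : ℤ, 4 * |x - a| ≤ dd x := by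
  set t := Int.fract x with ht
  have ht0 : 0 ≤ t := Int.fract_nonneg _
  have ht1 : t < 1 := Int.fract_lt_one _
  have hdt : dd x = dd t := by
    have : x = t + ((⌊x⌋ : ℤ) : ℝ) := by rw [ht]; exact (Int.fract_add_floor _).symm
    conv_lhs => rw [this, dd_add_int]
  have hmin := dd_ge ht0 ht1.le
  rcases le_total t (1 - t) with h | h
  · refine ⟨⌊x⌋, ?_⟩
    rw [min_eq_left h] at hmin
    have : x - (⌊x⌋ : ℤ) = t := rfl
    rw [this, abs_of_nonneg ht0, hdt]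
    exact hmin
  · refine ⟨⌊x⌋ + 1, ?_⟩
    rw [min_eq_right h] at hmin
    have : x - ((⌊x⌋ + 1 : ℤ) : ℝ) = -(1 - t) := by
      rw [ht, Int.fract]; push_cast; ring
    rw [this, abs_neg, abs_of_nonneg (by linarith), hdt]
    exact hmin

/-- the frequencies that are not near such a fraction -/
lemma minor_of_not_maj {Q H : ℕ} {α ρ : ℝ} (hρ : Real.pi * H * ρ ≤ 1) (h : ¬ Maj Q H α) :
    ∀ r : ℕ, 1 ≤ r → r ≤ Q → ρ ≤ dd (r * α) := by
  intro r hr1 hrQ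
  by_contra hcon
  push Not at hcon
  apply h
  have hr0 : (0 : ℝ) < r := by exact_mod_cast hr1
  have hr1' : (1 : ℝ) ≤ r := by exact_mod_cast hr1
  obtain ⟨m, hm⟩ := nearest ((r : ℝ) * α)
  have hm2 : |(r : ℝ) * α - m| < ρ / 4 := by linarith
  -- the reduced fraction
  set m' : ℕ := (m % (r : ℤ)).toNat with hm'
  have hrz : (0 : ℤ) < r := by exact_mod_cast hr1
  have e1 : ((m' : ℕ) : ℤ) = m % (r : ℤ) := Int.toNat_of_nonneg (Int.emod_nonneg _ hrz.ne')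
  have e2 : m' < r := by
    have := Int.emod_lt_of_pos m hrz
    omega
  set g := Nat.gcd m' r with hg
  have hg0 : 0 < g := Nat.gcd_pos_of_pos_right _ hr1
  set q := r / g with hq
  set a := m' / g with ha
  have hqg : q * g = r := Nat.div_mul_cancel (Nat.gcd_dvd_right _ _)
  have hag : a * g = m' := Nat.div_mul_cancel (Nat.gcd_dvd_left _ _)
  have hq0 : 0 < q := by
    rcases Nat.eq_zero_or_pos q with h0 | h0
    · rw [h0, zero_mul] at hqg; omega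
    · exact h0
  have hqr : q ≤ r := Nat.div_le_self _ _
  refine ⟨q, mem_Icc.2 ⟨hq0, hqr.trans hrQ⟩, a, mem_rr.2 ⟨?_, Nat.coprime_div_gcd_div_gcd hg0⟩, ?_⟩
  · have : a * g < q * g := by rw [hag, hqg]; exact e2
    exact Nat.lt_of_mul_lt_mul_right this
  · have e3 : (m : ℤ) = m' + r * (m / r) := by rw [e1]; exact (Int.emod_add_mul_ediv m r).symm
    have e4 : ((a : ℕ) : ℝ) / q = m' / r := by
      have f1 : ((q : ℕ) : ℝ) * g = r := by exact_mod_cast hqg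
      have f2 : ((a : ℕ) : ℝ) * g = m' := by exact_mod_cast hag
      have f3 : (0 : ℝ) < q := by exact_mod_cast hq0
      have f4 : (0 : ℝ) < g := by exact_mod_cast hg0
      rw [← f1, ← f2]
      field_simp
    have e5 : α - (a : ℝ) / q = (α - m / r) + ((m / (r : ℤ) : ℤ) : ℝ) := by
      rw [e4]
      have f1 : (m : ℝ) = m' + r * ((m / (r : ℤ) : ℤ) : ℝ) := by exact_mod_cast e3
      rw [f1]
      field_simp
      ring
    rw [e5, kr_add_int]
    apply kr_ge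
    have e6 : |α - (m : ℝ) / r| ≤ ρ / 4 := by
      have f1 : (r : ℝ) * α - m = r * (α - m / r) := by field_simp
      rw [f1, abs_mul, abs_of_pos hr0] at hm2
      have f2 : 0 ≤ |α - (m : ℝ) / r| := abs_nonneg _
      nlinarith
    have hpi := Real.pi_pos
    have hH0 : (0 : ℝ) ≤ H := Nat.cast_nonneg _
    calc 4 * Real.pi * H * |α - (m : ℝ) / r| ≤ 4 * Real.pi * H * (ρ / 4) := mul_le_mul_of_nonneg_left e6 (by positivity)
      _ = Real.pi * H * ρ := by ring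
      _ ≤ 1 := hρ

/-- Parseval for one fraction -/
lemma one_frac {T H : ℕ} (hT : 0 < T) (hH : H ≤ T) (F : ℕ → ℂ) (β : ℝ) :
    ∑ k ∈ range (2 * T), ‖∑ t ∈ range T, F t * ee (t * ((k : ℝ) / (2 * T : ℕ)))‖ ^ 2 * ‖kr H ((k : ℝ) / (2 * T : ℕ) - β)‖ ^ 2 =
      (2 * T : ℕ) * ∑ x ∈ range (2 * T), ‖∑ t ∈ (range T).filter (fun t => x + 1 - H ≤ t ∧ t < x + 1), F t * ee (t * β)‖ ^ 2 := by
  have hX : 0 < 2 * T := by omega
  set G : ℕ → ℂ := fun x => ∑ t ∈ (range T).filter (fun t => x + 1 - H ≤ t ∧ t < x + 1), F t * ee (-((x - t : ℕ) * β)) with hG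
  have h1 : ∀ x ∈ range (2 * T), ‖∑ t ∈ (range T).filter (fun t => x + 1 - H ≤ t ∧ t < x + 1), F t * ee (t * β)‖ ^ 2 = ‖G x‖ ^ 2 := by
    intro x _
    have h2 : G x = ee (-(x * β)) * ∑ t ∈ (range T).filter (fun t => x + 1 - H ≤ t ∧ t < x + 1), F t * ee (t * β) := by
      rw [hG, mul_sum]
      apply sum_congr rfl
      intro t ht
      rw [mem_filter] at ht
      have h3 : -(((x - t : ℕ) : ℝ) * β) = -(x * β) + t * β := by
        rw [Nat.cast_sub (by omega)]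
        ring
      rw [h3, ee_add]
      ring
    rw [h2, norm_mul, norm_ee, one_mul]
  rw [sum_congr rfl h1, ← pars hX G]
  apply sum_congr rfl
  intro k _
  rw [← mul_pow, ← norm_mul]
  congr 2
  rw [hG]
  simp only
  have h2 : ∀ x ∈ range (2 * T), (∑ t ∈ (range T).filter (fun t => x + 1 - H ≤ t ∧ t < x + 1), F t * ee (-((x - t : ℕ) * β))) *
      ee (x * ((k : ℝ) / (2 * T : ℕ))) = ∑ t ∈ (range T).filter (fun t => x + 1 - H ≤ t ∧ t < x + 1),
        F t * ee (-((x - t : ℕ) * β)) * ee (x * ((k : ℝ) / (2 * T : ℕ))) := fun x _ => sum_mul _ _ _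
  rw [sum_congr rfl h2]
  rw [sum_comm' (t' := range T) (s' := fun t => Ico t (t + H))]
  · rw [sum_mul]
    apply sum_congr rfl
    intro t _
    rw [sum_Ico_eq_sum_range, Nat.add_sub_cancel_left]
    unfold kr
    rw [mul_sum]
    apply sum_congr rfl
    intro s _
    rw [Nat.add_sub_cancel_left]
    have h3 : ee (((t + s : ℕ) : ℝ) * ((k : ℝ) / (2 * T : ℕ))) = ee (t * ((k : ℝ) / (2 * T : ℕ))) * ee (s * ((k : ℝ) / (2 * T : ℕ))) := by
      rw [← ee_add]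
      congr 1
      push_cast
      ring
    have h4 : ee (s * ((k : ℝ) / (2 * T : ℕ) - β)) = ee (-(s * β)) * ee (s * ((k : ℝ) / (2 * T : ℕ))) := by
      rw [← ee_add]
      congr 1
      ring
    rw [h3, h4]
    ring
  · intro x t
    simp only [mem_range, mem_filter, mem_Ico]
    omega

/-- the windows at the edges -/
lemma edges {T H : ℕ} (hH : H ≤ T) (F : ℕ → ℂ) {M : ℝ} (hM0 : 0 ≤ M) (hM : ∀ t, t < T → ‖F t‖ ≤ M) (β : ℝ) :
    ∑ x ∈ range (2 * T), ‖∑ t ∈ (range T).filter (fun t => x + 1 - H ≤ t ∧ t < x + 1), F t * ee (t * β)‖ ^ 2 ≤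
      ∑ x ∈ Ico (2 * H) T, ‖∑ t ∈ Ico (x + 1 - H) (x + 1), F t * ee (t * β)‖ ^ 2 + 3 * (H : ℝ) ^ 3 * M ^ 2 := by
  have hsub : Ico (2 * H) T ⊆ range (2 * T) := by
    intro x hx
    rw [mem_Ico] at hx
    rw [mem_range]
    omega
  rw [← sum_sdiff hsub, add_comm]
  have h3 : ∑ x ∈ Ico (2 * H) T, ‖∑ t ∈ (range T).filter (fun t => x + 1 - H ≤ t ∧ t < x + 1), F t * ee (t * β)‖ ^ 2 =
      ∑ x ∈ Ico (2 * H) T, ‖∑ t ∈ Ico (x + 1 - H) (x + 1), F t * ee (t * β)‖ ^ 2 := by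
    apply sum_congr rfl
    intro x hx
    rw [mem_Ico] at hx
    congr 2
    apply sum_congr _ fun _ _ => rfl
    ext t
    rw [mem_filter, mem_range, mem_Ico]
    omega
  rw [h3]
  apply add_le_add_right
  have h4 : ∀ x ∈ range (2 * T) \ Ico (2 * H) T, ‖∑ t ∈ (range T).filter (fun t => x + 1 - H ≤ t ∧ t < x + 1), F t * ee (t * β)‖ ^ 2 ≤
      if x ∈ range (2 * H) ∪ Ico T (T + H) then (H * M) ^ 2 else 0 := by
    intro x hx
    rw [mem_sdiff, mem_range, mem_Ico] at hx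
    split_ifs with hx2
    · apply pow_le_pow_left₀ (norm_nonneg _)
      refine (norm_sum_le _ _).trans ?_
      have h5 : ∀ t ∈ (range T).filter (fun t => x + 1 - H ≤ t ∧ t < x + 1), ‖F t * ee (t * β)‖ ≤ M := by
        intro t ht
        rw [mem_filter, mem_range] at ht
        rw [norm_mul, norm_ee, mul_one]
        exact hM t ht.1
      refine (sum_le_sum h5).trans ?_
      rw [sum_const, nsmul_eq_mul]
      apply mul_le_mul_of_nonneg_right _ hM0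
      have h6 : (range T).filter (fun t => x + 1 - H ≤ t ∧ t < x + 1) ⊆ Ico (x + 1 - H) (x + 1) := by
        intro t ht
        rw [mem_filter] at ht
        rw [mem_Ico]
        exact ht.2
      have h7 := card_le_card h6
      rw [Nat.card_Ico] at h7
      exact_mod_cast h7.trans (by omega)
    · rw [mem_union, mem_range, mem_Ico] at hx2
      have h5 : (range T).filter (fun t => x + 1 - H ≤ t ∧ t < x + 1) = ∅ := by
        rw [filter_eq_empty_iff]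
        intro t ht
        rw [mem_range] at ht
        omega
      rw [h5, sum_empty, norm_zero]
      norm_num
  refine (sum_le_sum h4).trans ?_
  rw [← sum_filter, sum_const, nsmul_eq_mul]
  have h5 : (((range (2 * T) \ Ico (2 * H) T)).filter (fun x => x ∈ range (2 * H) ∪ Ico T (T + H))) ⊆ range (2 * H) ∪ Ico T (T + H) := by
    intro x hx
    rw [mem_filter] at hx
    exact hx.2
  have h6 := (card_le_card h5).trans (card_union_le _ _)
  rw [card_range, Nat.card_Ico] at h6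
  have h7 : ((((range (2 * T) \ Ico (2 * H) T)).filter (fun x => x ∈ range (2 * H) ∪ Ico T (T + H))).card : ℝ) ≤ 3 * H := by
    exact_mod_cast h6.trans (by omega)
  calc _ ≤ (3 * (H : ℝ)) * (H * M) ^ 2 := mul_le_mul_of_nonneg_right h7 (by positivity)
    _ = _ := by ring

open Classical in
/-- **the energy of the major frequencies** -/
theorem major_energy {T H Q : ℕ} (hT : 0 < T) (hH1 : 1 ≤ H) (hH : H ≤ T) (F : ℕ → ℂ) {M : ℝ} (hM0 : 0 ≤ M)
    (hM : ∀ t, t < T → ‖F t‖ ≤ M) :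
    (H : ℝ) ^ 2 * ∑ k ∈ (range (2 * T)).filter (fun k : ℕ => Maj Q H ((k : ℝ) / (2 * T : ℕ))), ‖∑ t ∈ range T, F t * ee (t * ((k : ℝ) / (2 * T : ℕ)))‖ ^ 2 ≤
      8 * T * (∑ q ∈ Icc 1 Q, ∑ a ∈ rr q, ∑ x ∈ Ico (2 * H) T, ‖∑ t ∈ Ico (x + 1 - H) (x + 1), F t * ee (t * ((a : ℝ) / q))‖ ^ 2 +
        3 * (Q : ℝ) ^ 2 * (H : ℝ) ^ 3 * M ^ 2) := by
  have hH0 : (0 : ℝ) < H := by exact_mod_cast hH1
  set Fh : ℕ → ℝ := fun k => ‖∑ t ∈ range T, F t * ee (t * ((k : ℝ) / (2 * T : ℕ)))‖ ^ 2 with hFh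
  -- each frequency
  have h1 : ∀ k ∈ (range (2 * T)).filter (fun k : ℕ => Maj Q H ((k : ℝ) / (2 * T : ℕ))), (H : ℝ) ^ 2 * Fh k ≤
      4 * ∑ q ∈ Icc 1 Q, ∑ a ∈ rr q, Fh k * ‖kr H ((k : ℝ) / (2 * T : ℕ) - a / q)‖ ^ 2 := by
    intro k hk
    rw [mem_filter] at hk
    obtain ⟨q, hq, a, ha, hk2⟩ := hk.2
    have h2 : Fh k * ‖kr H ((k : ℝ) / (2 * T : ℕ) - a / q)‖ ^ 2 ≤
        ∑ q ∈ Icc 1 Q, ∑ a ∈ rr q, Fh k * ‖kr H ((k : ℝ) / (2 * T : ℕ) - a / q)‖ ^ 2 := by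
      refine le_trans ?_ (single_le_sum (f := fun q => ∑ a ∈ rr q, Fh k * ‖kr H ((k : ℝ) / (2 * T : ℕ) - a / q)‖ ^ 2)
        (fun _ _ => sum_nonneg fun _ _ => by positivity) hq)
      exact single_le_sum (f := fun a : ℕ => Fh k * ‖kr H ((k : ℝ) / (2 * T : ℕ) - a / q)‖ ^ 2) (fun _ _ => by positivity) ha
    have h3 : ((H : ℝ) / 2) ^ 2 ≤ ‖kr H ((k : ℝ) / (2 * T : ℕ) - a / q)‖ ^ 2 := pow_le_pow_left₀ (by positivity) hk2 2
    have h4 : 0 ≤ Fh k := by positivity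
    nlinarith
  rw [mul_sum]
  refine (sum_le_sum h1).trans ?_
  have h2 : ∑ k ∈ (range (2 * T)).filter (fun k : ℕ => Maj Q H ((k : ℝ) / (2 * T : ℕ))),
      4 * ∑ q ∈ Icc 1 Q, ∑ a ∈ rr q, Fh k * ‖kr H ((k : ℝ) / (2 * T : ℕ) - a / q)‖ ^ 2 ≤
      ∑ k ∈ range (2 * T), 4 * ∑ q ∈ Icc 1 Q, ∑ a ∈ rr q, Fh k * ‖kr H ((k : ℝ) / (2 * T : ℕ) - a / q)‖ ^ 2 :=
    sum_le_sum_of_subset_of_nonneg (filter_subset _ _) fun _ _ _ => by positivity
  refine h2.trans ?_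
  rw [← mul_sum, sum_comm]
  have h3 : ∀ q ∈ Icc 1 Q, ∑ k ∈ range (2 * T), ∑ a ∈ rr q, Fh k * ‖kr H ((k : ℝ) / (2 * T : ℕ) - a / q)‖ ^ 2 ≤
      ∑ a ∈ rr q, (2 * T : ℕ) * (∑ x ∈ Ico (2 * H) T, ‖∑ t ∈ Ico (x + 1 - H) (x + 1), F t * ee (t * ((a : ℝ) / q))‖ ^ 2 +
        3 * (H : ℝ) ^ 3 * M ^ 2) := by
    intro q _
    rw [sum_comm]
    apply sum_le_sum
    intro a _
    rw [hFh]
    simp only
    rw [one_frac hT hH F ((a : ℝ) / q)]
    exact mul_le_mul_of_nonneg_left (edges hH F hM0 hM _) (Nat.cast_nonneg _)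
  have h4 : ∑ q ∈ Icc 1 Q, ∑ a ∈ rr q, ((2 * T : ℕ) : ℝ) * (∑ x ∈ Ico (2 * H) T, ‖∑ t ∈ Ico (x + 1 - H) (x + 1), F t * ee (t * ((a : ℝ) / q))‖ ^ 2 +
        3 * (H : ℝ) ^ 3 * M ^ 2) ≤ (2 * T) * (∑ q ∈ Icc 1 Q, ∑ a ∈ rr q, ∑ x ∈ Ico (2 * H) T, ‖∑ t ∈ Ico (x + 1 - H) (x + 1), F t * ee (t * ((a : ℝ) / q))‖ ^ 2 +
        3 * (Q : ℝ) ^ 2 * (H : ℝ) ^ 3 * M ^ 2) := by
    rw [mul_add, mul_sum, ← sub_le_iff_le_add', ← sum_sub_distrib]
    have h5 : ∀ q ∈ Icc 1 Q, ∑ a ∈ rr q, ((2 * T : ℕ) : ℝ) * (∑ x ∈ Ico (2 * H) T, ‖∑ t ∈ Ico (x + 1 - H) (x + 1), F t * ee (t * ((a : ℝ) / q))‖ ^ 2 +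
        3 * (H : ℝ) ^ 3 * M ^ 2) - 2 * T * ∑ a ∈ rr q, ∑ x ∈ Ico (2 * H) T, ‖∑ t ∈ Ico (x + 1 - H) (x + 1), F t * ee (t * ((a : ℝ) / q))‖ ^ 2 ≤
        Q * (2 * T * (3 * (H : ℝ) ^ 3 * M ^ 2)) := by
      intro q hq
      rw [mem_Icc] at hq
      rw [mul_sum, ← sum_sub_distrib]
      have h6 : ∀ a ∈ rr q, ((2 * T : ℕ) : ℝ) * (∑ x ∈ Ico (2 * H) T, ‖∑ t ∈ Ico (x + 1 - H) (x + 1), F t * ee (t * ((a : ℝ) / q))‖ ^ 2 +
        3 * (H : ℝ) ^ 3 * M ^ 2) - 2 * T * ∑ x ∈ Ico (2 * H) T, ‖∑ t ∈ Ico (x + 1 - H) (x + 1), F t * ee (t * ((a : ℝ) / q))‖ ^ 2 =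
          2 * T * (3 * (H : ℝ) ^ 3 * M ^ 2) := by
        intro a _
        push_cast
        ring
      rw [sum_congr rfl h6, sum_const, card_rr, nsmul_eq_mul]
      apply mul_le_mul_of_nonneg_right _ (by positivity)
      exact_mod_cast (Nat.totient_le q).trans hq.2
    refine (sum_le_sum h5).trans ?_
    rw [sum_const, nsmul_eq_mul, Nat.card_Icc, Nat.add_sub_cancel]
    apply le_of_eq; ring
  have h5 := (sum_le_sum h3).trans h4
  linarith

end Pool.Agent.P8H13.GK
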