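import Pool.Agent.P8H13.GK.PXb

set_option autoImplicit false

/-!
# Uniform bound of the transform of the window of primes
-/

open Complex Filter Topology Set MeasureTheory Metric
open scoped Real FourierTransform
open scoped ArithmeticFunction.vonMangoldt

namespace Pool.Agent.P8H13.GK

open Pool.Agent.W66 Pool.Agent.W66L

/-- uniform bound of the transform -/
theorem M_boundR (D : ℕ) {c C : ℝ} (hc : 0 < c) (hc8 : c ≤ 1 / 8) (hC : 0 < C) :
    ∃ C0 K : ℝ, 0 < C0 ∧ 0 < K ∧ ∀ R lam Z h u : ℝ, Reg c C R → R = 2 * lam → ∀ (Q : ℕ) [NeZero Q],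
    (Q : ℝ) ≤ Real.exp R → ∀ (χ : DirichletCharacter ℂ Q), χ ≠ 1 → 20 ≤ Z →
    11 * (Z ^ D * Real.exp (-√Z)) ≤ 1 → √Z ≤ lam → R ≤ Z → h = Real.exp (-lam) →
    1 ≤ u → C0 * R * Real.log Z ≤ u → u ≤ Z + 4 → ∀ ξ : ℝ,
    ‖PX χ u (2 * π * ξ)‖ * ‖𝓕 (boxC h) ξ‖ ≤ K * (Z ^ 2 / Z ^ D) := by
  obtain ⟨C1, hC1, hPE⟩ := PXR_bound hc hc8 hC
  refine ⟨D / c + 1, C1 * 13 + 2, by positivity, by positivity,
    fun R lam Z h u hReg hR Q _ hQ χ hχ hZ hZD hlam1 hRZ hh hu1 hu2 hu3 ξ => ?_⟩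
  have hZ0 : 0 < Z := by linarith
  have hh0 : 0 < h := by rw [hh]; exact Real.exp_pos _
  have hsq1 : 1 ≤ √Z := by rw [Real.one_le_sqrt]; linarith
  have hlam0 : 1 ≤ lam := hsq1.trans hlam1
  have hR1 : 1 ≤ R := by linarith
  have hR0 : 0 < R := by linarith
  have hZD0 : 0 < Z ^ D := by positivity
  have hZD1 : 1 ≤ Z ^ D := one_le_pow₀ (by linarith)
  rcases le_or_gt |ξ| (Z ^ D / h) with hξ | hξ
  · have hpi := Real.pi_lt_d2
    have hpi0 := Real.pi_pos
    have hξR : |2 * π * ξ| + Z ^ D ≤ Real.exp R := by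
      have e1 : |2 * π * ξ| + Z ^ D ≤ 11 * Z ^ D * Real.exp lam := by
        have e2 : |2 * π * ξ| ≤ 7 * (Z ^ D * Real.exp lam) := by
          rw [abs_mul, abs_of_pos (by positivity : 0 < 2 * π)]
          have e3 : Z ^ D / h = Z ^ D * Real.exp lam := by
            rw [hh, Real.exp_neg]; field_simp
          rw [e3] at hξ
          have h0 : 0 ≤ |ξ| := abs_nonneg _
          have h7 : 2 * π ≤ 7 := by linarith only [hpi]
          exact mul_le_mul h7 hξ h0 (by norm_num)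
        have e4 : 1 ≤ Real.exp lam := Real.one_le_exp (by linarith)
        have e5 : Z ^ D ≤ Z ^ D * Real.exp lam := le_mul_of_one_le_right hZD0.le e4
        linarith
      have e2 : 11 * Z ^ D ≤ Real.exp lam := by
        have e3 : 11 * Z ^ D ≤ Real.exp (√Z) := by
          rw [Real.exp_neg, ← div_eq_mul_inv, ← mul_div_assoc, div_le_one (Real.exp_pos _)] at hZD
          exact hZD
        exact e3.trans (Real.exp_le_exp.2 hlam1)
      refine e1.trans ?_
      calc 11 * Z ^ D * Real.exp lam ≤ Real.exp lam * Real.exp lam := by gcongr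
        _ = Real.exp R := by rw [← Real.exp_add, hR]; congr 1; ring
    have h1 := hPE R hR1 hReg Q hQ χ hχ u (2 * π * ξ) (Z ^ D) hu1 hZD1 hξR
    have hexp : Real.exp (-(c * u / R)) ≤ 1 / Z ^ D := by
      have e1 : (D : ℝ) * Real.log Z ≤ c * u / R := by
        rw [le_div_iff₀ (by linarith)]
        have hlZ : 0 ≤ Real.log Z := Real.log_nonneg (by linarith)
        calc (D : ℝ) * Real.log Z * R = c * ((D / c) * R * Real.log Z) := by field_simp
          _ ≤ c * ((D / c + 1) * R * Real.log Z) := by gcongr; linarith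
          _ ≤ c * u := by gcongr
      have e2 : 1 / Z ^ D = Real.exp (-((D : ℝ) * Real.log Z)) := by
        rw [Real.exp_neg, Real.exp_nat_mul, Real.exp_log hZ0, one_div]
      rw [e2]
      exact Real.exp_le_exp.2 (by linarith)
    have hℓsq : R ^ 2 ≤ Z ^ 2 := by gcongr
    have h2 : R ^ 2 * Real.exp (-(c * u / R)) + R ^ 2 / (Z ^ D) ^ 2 + u / Z ^ D ≤
        13 * (Z ^ 2 / Z ^ D) := by
      have e1 : R ^ 2 * Real.exp (-(c * u / R)) ≤ Z ^ 2 * (1 / Z ^ D) := by gcongr
      have e2 : R ^ 2 / (Z ^ D) ^ 2 ≤ Z ^ 2 / Z ^ D := by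
        have : Z ^ D ≤ (Z ^ D) ^ 2 := by
          rw [sq]
          exact le_mul_of_one_le_left hZD0.le hZD1
        gcongr
      have e3 : u / Z ^ D ≤ 5 * Z ^ 2 / Z ^ D := by
        gcongr
        have h20 : 20 * Z ≤ Z * Z := mul_le_mul_of_nonneg_right hZ hZ0.le
        rw [sq]
        linarith only [h20, hu3, hZ]
      have e4 : 0 ≤ Z ^ 2 / Z ^ D := by positivity
      calc _ ≤ Z ^ 2 * (1 / Z ^ D) + Z ^ 2 / Z ^ D + 5 * Z ^ 2 / Z ^ D := by linarith
        _ = 7 * (Z ^ 2 / Z ^ D) := by ring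
        _ ≤ _ := by linarith
    have h3 := norm_four_box_le_one hh0 ξ
    have h4 : 0 ≤ Z ^ 2 / Z ^ D := by positivity
    calc ‖PX χ u (2 * π * ξ)‖ * ‖𝓕 (boxC h) ξ‖ ≤
          (C1 * (13 * (Z ^ 2 / Z ^ D))) * 1 := by
          apply mul_le_mul _ h3 (norm_nonneg _) (by positivity)
          refine h1.trans ?_
          gcongr
      _ = C1 * 13 * (Z ^ 2 / Z ^ D) := by ring
      _ ≤ _ := by
          apply mul_le_mul_of_nonneg_right _ h4
          linarith
  · have hξ0 : ξ ≠ 0 := by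
      intro h0
      rw [h0, abs_zero] at hξ
      have : 0 < Z ^ D / h := by positivity
      linarith
    have h1 := norm_four_box_le hh0 hξ0
    have h2 : 1 / (h * |ξ|) ≤ 1 / Z ^ D := by
      apply one_div_le_one_div_of_le hZD0
      rw [div_lt_iff₀ hh0] at hξ
      linarith
    have h3 := PX_triv χ hu1 ξ
    have h4 : (u + 1) * (u + 2) ≤ 2 * Z ^ 2 := by
      have h20 : 20 * Z ≤ Z * Z := mul_le_mul_of_nonneg_right hZ hZ0.le
      calc (u + 1) * (u + 2) ≤ (Z + 5) * (Z + 6) :=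
            mul_le_mul (by linarith only [hu3]) (by linarith only [hu3]) (by linarith only [hu1])
              (by linarith only [hZ])
        _ = Z * Z + 11 * Z + 30 := by ring
        _ ≤ 2 * (Z * Z) := by linarith only [h20, hZ]
        _ = _ := by ring
    have h5 : 0 ≤ Z ^ 2 / Z ^ D := by positivity
    calc ‖PX χ u (2 * π * ξ)‖ * ‖𝓕 (boxC h) ξ‖ ≤ (2 * Z ^ 2) * (1 / Z ^ D) := by
          apply mul_le_mul (h3.trans h4) (h1.trans h2) (norm_nonneg _) (by positivity)
      _ = 2 * (Z ^ 2 / Z ^ D) := by ring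
      _ ≤ _ := by
          apply mul_le_mul_of_nonneg_right _ h5
          have : 0 < C1 * 13 := by positivity
          linarith

end Pool.Agent.P8H13.GK
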