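import Pool.Agent.P8H13.GK.Zero
import Pool.Agent.P8H13.GK.Fin2
import Pool.Agent.P8H13.GK.Few
import Pool.Agent.P8H13.GK.GoodB

set_option autoImplicit false

/-!
# Almost all admissible sets at one scale
-/

namespace Pool.Agent.P8H13.GK

open Finset
open Pool.Agent.P8H13.PK

lemma primorial_step (n : ℕ) : primorial (n + 1) = if (n + 1).Prime then (n + 1) * primorial n else primorial n := by
  unfold primorial
  rw [range_add_one (n := n + 1), filter_insert]
  split_ifs with h
  · rw [prod_insert]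
    intro h2
    rw [mem_filter, mem_range] at h2
    omega
  · rfl

/-- the product of `p / (p - 1)` -/
lemma gW_primorial (n : ℕ) : gW (primorial n) ≤ max (n : ℝ) 1 := by
  induction n with
  | zero =>
    unfold gW
    have : primorial 0 = 1 := by decide
    rw [this]
    simp
  | succ n ih =>
    rw [primorial_step]
    split_ifs with hp
    · have hn1 : 1 ≤ n := by
        have := hp.two_le
        omega
      have hnr : (0 : ℝ) < n := by exact_mod_cast hn1
      have hcop : (n + 1).Coprime (primorial n) := by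
        rw [Nat.Prime.coprime_iff_not_dvd hp]
        intro h
        have := (primorial_dvd_iff n (n + 1) hp).1 h
        omega
      have hphi : (0 : ℝ) < (primorial n).totient := by exact_mod_cast Nat.totient_pos.2 (primorial_pos n)
      unfold gW at ih ⊢
      rw [Nat.totient_mul hcop, Nat.totient_prime hp, Nat.add_sub_cancel]
      push_cast
      have h2 : (max (n : ℝ) 1) = n := max_eq_left (by exact_mod_cast hn1)
      rw [h2] at ih
      calc _ = ((n : ℝ) + 1) / n * ((primorial n : ℝ) / ((primorial n).totient : ℝ)) := by field_simp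
        _ ≤ ((n : ℝ) + 1) / n * n := mul_le_mul_of_nonneg_left ih (by positivity)
        _ = (n : ℝ) + 1 := by field_simp
        _ ≤ _ := le_max_left _ _
    · refine ih.trans ?_
      push_cast
      exact max_le_max (by linarith) le_rfl

/-- the sizes -/
lemma sz_of {l : ℝ} {W T : ℕ} (hl : 10000 ≤ l) (hpar : Par l (W * T) W T) : Sz l W T := by
  have hT0 := hpar.T0
  have hW0 := hpar.W0
  have hWe := hpar.hW
  have hL2 := hpar.L2
  have hL1 := hpar.L1
  have hhL := hpar.hL
  set L := Real.log ((W * T : ℕ) : ℝ) with hL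
  have hL0 : 0 < L := by linarith
  set Q := ⌊Real.exp (l / 2)⌋₊ with hQ
  have hQ1 : (Q : ℝ) ≤ Real.exp (l / 2) := Nat.floor_le (Real.exp_pos _).le
  have hQ0 : (0 : ℝ) ≤ Q := Nat.cast_nonneg _
  have hTbig : Real.exp (98 * l) ≤ T := by
    have f2 := hpar.hN
    have f4 : Real.exp (100 * l) ≤ Real.exp (2 * l) * T := by
      refine f2.trans ?_
      push_cast
      apply mul_le_mul_of_nonneg_right _ hT0.le
      exact hWe.trans (Real.exp_le_exp.2 (by linarith))
    have f5 : Real.exp (100 * l) = Real.exp (2 * l) * Real.exp (98 * l) := by rw [← Real.exp_add]; ring_nf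
    rw [f5] at f4
    exact le_of_mul_le_mul_left f4 (Real.exp_pos _)
  have hM : L + W * (Q : ℝ) ≤ 2 * Real.exp (51 * l / 100) := by
    have f1 : (W : ℝ) * Q ≤ Real.exp (51 * l / 100) := by
      calc (W : ℝ) * Q ≤ Real.exp (l / 100) * Real.exp (l / 2) := mul_le_mul hWe hQ1 hQ0 (Real.exp_pos _).le
        _ = _ := by rw [← Real.exp_add]; ring_nf
    have f2 : L ≤ Real.exp (51 * l / 100) := hL2.trans (Real.exp_le_exp.2 (by linarith))
    linarith
  have hM0 : 0 ≤ L + W * (Q : ℝ) := by positivity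
  have hQ2 : (Q : ℝ) ^ 2 ≤ Real.exp l := by
    calc (Q : ℝ) ^ 2 ≤ Real.exp (l / 2) ^ 2 := pow_le_pow_left₀ hQ0 hQ1 2
      _ = _ := by rw [← Real.exp_nat_mul]; push_cast; ring_nf
  have hex : 100 * l ^ 2 ≤ Real.exp (l / 20) := by
    have f1 : l / 100 ≤ Real.exp (l / 100) := by linarith [Real.add_one_le_exp (l / 100)]
    have f2 : (l / 100) ^ 5 ≤ Real.exp (l / 100) ^ 5 := pow_le_pow_left₀ (by linarith) f1 5
    rw [← Real.exp_nat_mul] at f2
    have f3 : ((5 : ℕ) : ℝ) * (l / 100) = l / 20 := by push_cast; ring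
    rw [f3] at f2
    refine le_trans ?_ f2
    have f4 : (l / 100) ^ 5 = l ^ 2 * (l ^ 3 / 10 ^ 10) := by ring
    have f5 : (100 : ℝ) ≤ l ^ 3 / 10 ^ 10 := by
      rw [le_div_iff₀ (by norm_num)]
      have : (10000 : ℝ) ^ 3 ≤ l ^ 3 := pow_le_pow_left₀ (by norm_num) hl 3
      linarith
    rw [f4]
    have : 0 ≤ l ^ 2 := by positivity
    nlinarith
  refine ⟨hpar, ?_, ?_, ?_, ?_, by linarith⟩
  · -- s1
    rw [← hL, ← hQ]
    have f1 : (L + W * (Q : ℝ)) ^ 2 ≤ 4 * Real.exp (51 * l / 50) := by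
      calc _ ≤ (2 * Real.exp (51 * l / 100)) ^ 2 := pow_le_pow_left₀ hM0 hM 2
        _ = _ := by rw [mul_pow, ← Real.exp_nat_mul]; push_cast; ring_nf
    have f2 : 48 * L ^ 6 ≤ Real.exp (l / 100) := by
      have g1 : L ^ 6 ≤ L ^ 10 := pow_le_pow_right₀ (by linarith) (by norm_num)
      have g2 : 0 ≤ L ^ 10 := by positivity
      linarith
    calc 6 * (L + W * (Q : ℝ)) ^ 2 * (Q : ℝ) ^ 2 * Real.exp (-(4 * l)) * (2 * L ^ 6) ≤
          6 * (4 * Real.exp (51 * l / 50)) * Real.exp l * Real.exp (-(4 * l)) * (2 * L ^ 6) := by gcongr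
      _ = (48 * L ^ 6) * (Real.exp (51 * l / 50) * Real.exp l * Real.exp (-(4 * l))) := by ring
      _ ≤ Real.exp (l / 100) * (Real.exp (51 * l / 50) * Real.exp l * Real.exp (-(4 * l))) :=
          mul_le_mul_of_nonneg_right f2 (by positivity)
      _ = Real.exp (l / 100 + (51 * l / 50 + l + -(4 * l))) := by rw [Real.exp_add, Real.exp_add, Real.exp_add]
      _ ≤ 1 := by rw [Real.exp_le_one_iff]; linarith
  · -- s2
    rw [← hL, ← hQ]
    calc 9 * l ^ 2 * ((L + W * (Q : ℝ)) * Real.exp (-(4 * l))) ≤ 9 * l ^ 2 * ((2 * Real.exp (51 * l / 100)) * Real.exp (-(4 * l))) := by gcongr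
      _ = (18 * l ^ 2) * (Real.exp (51 * l / 100) * Real.exp (-(4 * l))) := by ring
      _ ≤ Real.exp (l / 20) * (Real.exp (51 * l / 100) * Real.exp (-(4 * l))) := by
          apply mul_le_mul_of_nonneg_right _ (by positivity)
          have : 0 ≤ l ^ 2 := by positivity
          linarith
      _ = Real.exp (l / 20 + (51 * l / 100 + -(4 * l))) := by rw [Real.exp_add, Real.exp_add]
      _ ≤ 1 := by rw [Real.exp_le_one_iff]; linarith
  · -- s3
    rw [← hQ]
    have f1 : 2 * (Q : ℝ) ^ 2 + 1 ≤ 3 * Real.exp l := by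
      have : 1 ≤ Real.exp l := Real.one_le_exp (by linarith)
      linarith
    calc 3 * l ^ 2 * (2 * (Q : ℝ) ^ 2 + 1) ≤ 3 * l ^ 2 * (3 * Real.exp l) := by gcongr
      _ = (9 * l ^ 2) * Real.exp l := by ring
      _ ≤ Real.exp (l / 20) * Real.exp l := by
          apply mul_le_mul_of_nonneg_right _ (Real.exp_pos _).le
          have : 0 ≤ l ^ 2 := by positivity
          linarith
      _ = Real.exp (l / 20 + l) := by rw [Real.exp_add]
      _ ≤ Real.exp (98 * l) := Real.exp_le_exp.2 (by linarith)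
      _ ≤ T := hTbig
  · -- s4
    rw [Real.exp_neg, ← div_eq_mul_inv, div_le_one (Real.exp_pos _)]
    have : 0 ≤ l ^ 2 := by positivity
    linarith

open Classical in
/-- **almost all admissible sets at one scale** -/
theorem one_scale : ∃ c1 : ℝ, 0 < c1 ∧ ∀ L0 : ℝ, ∃ l : ℝ, L0 ≤ l ∧ ∀ y : ℕ, Real.exp (200 * l) ≤ y →
    (10 : ℝ) ^ 8 * Real.log (4 * y) ^ 10 ≤ Real.exp (l / 100) → Real.log (2 * y) ≤ 36 * l ^ 2 →
    l * Real.log (Real.log (2 * y)) ≤ c1 * Real.log y →
    ∀ k : ℕ, 1 ≤ k → Real.log (4 * y) ^ (2 * k) ≤ Real.exp (l / 5) →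
      (((powersetCard k (range (y + 1))).filter (fun A => Adm A ∧ (cnt y A : ℝ) < y * Real.exp (-l))).card : ℝ) ≤
        48300 * (k / l) * ((powersetCard k (range (y + 1))).filter (fun A => Adm A)).card := by
  obtain ⟨c, C, hc, hc8, hC, hreg⟩ := region
  obtain ⟨c1, l1, hc1, hfew⟩ := few_bad hc hc8 hC
  obtain ⟨l2, hP2⟩ := good_P2
  obtain ⟨l3, hfin⟩ := fin_bound2
  refine ⟨c1, hc1, fun L0 => ?_⟩
  obtain ⟨r, hr, hr4, hrz⟩ := hreg (12 * max (max L0 10000) (max l1 (max l2 l3)))
  have hrl : max (max L0 10000) (max l1 (max l2 l3)) ≤ r / 12 := by linarith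
  set l := r / 12 with hl
  have hl0 : L0 ≤ l := (le_max_left _ _).trans ((le_max_left _ _).trans hrl)
  have hl10 : 10000 ≤ l := (le_max_right _ _).trans ((le_max_left _ _).trans hrl)
  have hl1 : l1 ≤ l := (le_max_left _ _).trans ((le_max_right _ _).trans hrl)
  have hl2 : l2 ≤ l := (le_max_left _ _).trans ((le_max_right _ _).trans ((le_max_right _ _).trans hrl))
  have hl3 : l3 ≤ l := (le_max_right _ _).trans ((le_max_right _ _).trans ((le_max_right _ _).trans hrl))
  have hR : Reg c C (12 * l) := by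
    have : 12 * l = r := by rw [hl]; ring
    rw [this]
    exact hrz
  refine ⟨l, hl0, fun y hy hL hL36 hll k hk hkl => ?_⟩
  have hy0 : (0 : ℝ) < y := (Real.exp_pos _).trans_le hy
  have hlogy : 200 * l ≤ Real.log y := by rw [Real.le_log_iff_exp_le hy0]; exact hy
  apply hfin l hl3 y (1 / l ^ 2) hy hL _ _ k hk hkl
  · have : 8 * (1 / l ^ 2) * l = 8 / l := by field_simp
    rw [this, div_le_one (by linarith)]
    linarith
  intro T hpar hyN hN2
  set W := primorial ⌊l / 140⌋₊ with hW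
  have hyNr : (y : ℝ) ≤ ((W * T : ℕ) : ℝ) := by exact_mod_cast hyN
  have hN2r : ((W * T : ℕ) : ℝ) ≤ 2 * y := by exact_mod_cast hN2
  have hsz : Sz l W T := sz_of hl10 hpar
  have h2y : 2 ≤ ⌊l / 140⌋₊ := Nat.le_floor (by push_cast; linarith)
  have hWpos : 0 < W := primorial_pos _
  have hW2 : 2 ≤ W := Nat.le_of_dvd hWpos ((primorial_dvd_iff _ 2 Nat.prime_two).2 h2y)
  have hgl : gW W ≤ l := by
    refine (gW_primorial _).trans ?_
    apply max_le _ (by linarith)
    exact (Nat.floor_le (by linarith)).trans (by linarith)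
  have hlogN1 : Real.log y ≤ Real.log ((W * T : ℕ) : ℝ) := Real.log_le_log hy0 hyNr
  have hlogN2 : Real.log ((W * T : ℕ) : ℝ) ≤ Real.log (2 * y) := Real.log_le_log (by linarith) hN2r
  have hB := hfew l hl1 W T hsz hR hgl (hlogN2.trans hL36) (by
    have f1 : Real.log (Real.log ((W * T : ℕ) : ℝ)) ≤ Real.log (Real.log (2 * y)) :=
      Real.log_le_log (by linarith) hlogN2
    calc l * Real.log (Real.log ((W * T : ℕ) : ℝ)) ≤ l * Real.log (Real.log (2 * y)) :=
          mul_le_mul_of_nonneg_left f1 (by linarith)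
      _ ≤ c1 * Real.log y := hll
      _ ≤ _ := mul_le_mul_of_nonneg_left hlogN1 hc1.le)
  refine ⟨Bad l W T, ⟨hpar, h2y, hW2, ?_, by positivity, ?_, ?_⟩, ?_⟩
  · intro p hp hpd
    by_contra hcon
    exact hpd ((primorial_dvd_iff _ p hp).2 (not_lt.1 hcon))
  · intro b z hb hbB hz
    have h1 : (b % W).Coprime W := by
      unfold Nat.Coprime
      rw [← Nat.gcd_rec, Nat.gcd_comm]
      exact hb
    have h2 : 1 ≤ b % W := by
      rw [Nat.one_le_iff_ne_zero]
      intro h0
      rw [h0, Nat.coprime_zero_left] at h1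
      omega
    have h3 : b % W < W := Nat.mod_lt _ hWpos
    have h4 : GB l W T (b % W) := by
      by_contra hcon
      exact hbB (mem_Bad.2 ⟨h3, h1, hcon⟩)
    exact good_P1 hsz h2 h3 h4 (Nat.mod_modEq _ _).symm hz
  · intro b hb1 hb hbW hbB
    have h4 : GB l W T b := by
      by_contra hcon
      exact hbB (mem_Bad.2 ⟨hb, hbW, hcon⟩)
    exact hP2 l hl2 W T hsz b hb1 hb hbW h4
  · rw [mul_one_div]
    exact hB

end Pool.Agent.P8H13.GK
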