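import Pool.Agent.P8H13.GK.Ener

set_option autoImplicit false

/-!
# The non principal characters modulo `q`
-/

open Complex Filter Topology Set MeasureTheory Metric
open scoped Real FourierTransform
open scoped ArithmeticFunction.vonMangoldt

namespace Pool.Agent.P8H13.GK

open Pool.Agent.W66 Pool.Agent.W66L
open Pool.Agent.TH823.PS (rr tau mem_rr tau_mul ee_mod gen mean_chars bbC_sq_integrable)

open Classical in
/-- the non principal characters modulo `q` -/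
lemma perq {q : ℕ} [NeZero q] {h Z : ℝ} (hh : 0 < h) (hh1 : h ≤ 1) (w N' u0 U : ℕ) (hw : 1 ≤ w)
    (hu0 : 1 ≤ u0) (hu0U : u0 ≤ U) (hU : Z + 2 ≤ U) (hN'1 : Real.exp ((U : ℝ) + 1) ≤ N')
    (hZ : Real.log w + u0 + 3 ≤ Z) {E M : ℝ} (hE0 : 0 ≤ E) (hM0 : 0 ≤ M)
    (hE : ∀ z, Z ≤ z → z ≤ Z + 1 → w * ((q : ℝ) ^ 2 * (48 * (z + 2) * (Real.exp (-z) / h ^ 2))) +
      2 * (u0 * (1 + u0) * (w * ((q : ℝ) ^ 2 * (48 * 1 * (Real.exp (u0 - Z) / h ^ 2))))) +
      Real.exp (-u0) * (q * Real.log N') * ((q : ℝ) ^ 2 * ((1 + Real.log N') ^ 2 / h)) ≤ E)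
    (hM : ∀ χ : DirichletCharacter ℂ q, χ ≠ 1 → ∀ u ∈ Finset.Icc u0 U, ∀ ξ : ℝ,
      ‖PX χ u (2 * π * ξ)‖ * ‖𝓕 (boxC h) ξ‖ ≤ M) :
    ∑ χ ∈ (Finset.univ : Finset (DirichletCharacter ℂ q)).filter (fun χ => χ ≠ 1),
      ∫ z in Z..(Z + 1), ‖TG (tau χ) h N' z‖ ^ 2 ≤
      q.totient * (2 * E ^ 2 + 2 * (((Finset.Icc u0 U).card : ℝ) * (((Finset.Icc u0 U).card : ℝ) * (M ^ 2 *
        ∑ a ∈ rr q, ∫ x, ‖bbC h (Finset.Ioc 0 N')
          (fun l => ((aw w l / l : ℝ) : ℂ) * Pool.Agent.Helper112.ee (l * a / q)) x‖ ^ 2)))) := by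
  set cU : ℝ := ((Finset.Icc u0 U).card : ℝ) with hcU
  set L := Finset.Ioc 0 N' with hL
  set c : (χ : DirichletCharacter ℂ q) → ℕ → ℂ := fun χ l => tau χ l * ((aw w l / l : ℝ) : ℂ) with hc
  set F : DirichletCharacter ℂ q → ℝ → ℂ := fun χ z => ∑ u ∈ Finset.Icc u0 U,
    FX χ u h N' L (c χ) z with hF
  have hpt : ∀ χ : DirichletCharacter ℂ q, χ ≠ 1 → ∀ z, Z ≤ z → z ≤ Z + 1 → ‖TG (tau χ) h N' z - F χ z‖ ≤ E := by
    intro χ hχ z hz1 hz2
    exact (KT_ineqG (tau_tw hχ) hh hh1 w N' u0 U hw hz1 hz2 hu0 hu0U hU hN'1 hZ).trans (hE z hz1 hz2)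
  have hFc : ∀ χ, Continuous (F χ) := by
    intro χ
    apply continuous_finsetSum
    intro u _
    exact FX_continuous χ h u N' _ _
  have hdom : ∀ χ, Integrable fun z => cU * ∑ u ∈ Finset.Icc u0 U,
        ‖FX χ u h N' L (c χ) z‖ ^ 2 := fun χ =>
      (integrable_finsetSum _ fun (u : ℕ) _ => FX_sq_integrable χ hh u N' _ _).const_mul _
  have hFint : ∀ χ, Integrable fun z => ‖F χ z‖ ^ 2 := by
    intro χ
    refine (hdom χ).mono' ((hFc χ).norm.pow 2).aestronglyMeasurable (Eventually.of_forall fun z => ?_)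
    rw [Real.norm_of_nonneg (by positivity)]
    exact norm_sum_sq_le _ _
  have hFsq : ∀ χ : DirichletCharacter ℂ q, χ ≠ 1 → ∫ z, ‖F χ z‖ ^ 2 ≤ cU * (cU * (M ^ 2 *
      ∫ x, ‖bbC h L (c χ) x‖ ^ 2)) := by
    intro χ hχ
    have h2 : ∫ z, ‖F χ z‖ ^ 2 ≤ ∫ z, cU * ∑ u ∈ Finset.Icc u0 U, ‖FX χ u h N' L (c χ) z‖ ^ 2 := by
      apply integral_mono (hFint χ) (hdom χ)
      intro z
      exact norm_sum_sq_le _ _
    refine h2.trans ?_
    rw [integral_const_mul, integral_finsetSum _ fun (u : ℕ) _ => FX_sq_integrable χ hh u N' _ _]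
    apply mul_le_mul_of_nonneg_left _ (Nat.cast_nonneg _)
    have h3 : ∀ u ∈ Finset.Icc u0 U, ∫ x, ‖FX χ u h N' L (c χ) x‖ ^ 2 ≤ M ^ 2 * ∫ x, ‖bbC h L (c χ) x‖ ^ 2 := by
      intro u hu
      have hu' := hu
      rw [Finset.mem_Icc] at hu'
      have hu2 : (u : ℝ) ≤ U := by exact_mod_cast hu'.2
      exact dispersionX χ (u := (u : ℝ)) hh N' (by
        refine le_trans (Real.exp_le_exp.2 ?_) hN'1
        linarith) L (c χ) hM0 (hM χ hχ u hu)
    refine (Finset.sum_le_sum h3).trans (le_of_eq ?_)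
    rw [Finset.sum_const, nsmul_eq_mul]
  have h1 : ∀ χ : DirichletCharacter ℂ q, χ ≠ 1 → ∫ z in Z..(Z + 1), ‖TG (tau χ) h N' z‖ ^ 2 ≤
      2 * E ^ 2 + 2 * (cU * (cU * (M ^ 2 * ∫ x, ‖bbC h L (c χ) x‖ ^ 2))) := by
    intro χ hχ
    have hTc := TG_continuous (tau χ) h N'
    have h1 : ∫ z in Z..(Z + 1), ‖TG (tau χ) h N' z‖ ^ 2 ≤
        ∫ z in Z..(Z + 1), (2 * E ^ 2 + 2 * ‖F χ z‖ ^ 2) := by
      apply intervalIntegral.integral_mono_on (by linarith)
      · exact (hTc.norm.pow 2).intervalIntegrable _ _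
      · exact (intervalIntegrable_const).add (((hFint χ).const_mul 2).intervalIntegrable)
      · intro z hz
        have h2 := hpt χ hχ z hz.1 hz.2
        have h3 : ‖TG (tau χ) h N' z‖ ≤ E + ‖F χ z‖ := by
          have : TG (tau χ) h N' z = (TG (tau χ) h N' z - F χ z) + F χ z := by ring
          rw [this]
          exact (norm_add_le _ _).trans (add_le_add h2 le_rfl)
        have h4 : ‖TG (tau χ) h N' z‖ ^ 2 ≤ (E + ‖F χ z‖) ^ 2 := by gcongr
        have h5 : (E + ‖F χ z‖) ^ 2 = 2 * E ^ 2 + 2 * ‖F χ z‖ ^ 2 - (E - ‖F χ z‖) ^ 2 := by ring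
        have h6 := sq_nonneg (E - ‖F χ z‖)
        rw [h5] at h4
        linarith only [h4, h6]
    refine h1.trans ?_
    rw [intervalIntegral.integral_add intervalIntegrable_const
      (((hFint χ).const_mul 2).intervalIntegrable),
      intervalIntegral.integral_const, intervalIntegral.integral_const_mul, smul_eq_mul]
    have h2 : ∫ z in Z..(Z + 1), ‖F χ z‖ ^ 2 ≤ ∫ z, ‖F χ z‖ ^ 2 := by
      rw [intervalIntegral.integral_of_le (by linarith)]
      exact setIntegral_le_integral (hFint χ) (Eventually.of_forall fun z => by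
        simp only [Pi.zero_apply]; positivity)
    have e : (Z + 1 - Z) * (2 * E ^ 2) = 2 * E ^ 2 := by ring
    rw [e]
    have h3 := hFsq χ hχ
    linarith
  have hmean := mean_chars (q := q) (boxC h) L (fun l => ((aw w l / l : ℝ) : ℂ)) (fun c' => bbC_sq_integrable h L c')
  have hmean' : ∑ χ : DirichletCharacter ℂ q, ∫ x, ‖bbC h L (c χ) x‖ ^ 2 = (q.totient : ℝ) *
      ∑ a ∈ rr q, ∫ x, ‖bbC h L
          (fun l => ((aw w l / l : ℝ) : ℂ) * Pool.Agent.Helper112.ee (l * a / q)) x‖ ^ 2 := by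
    have e1 : ∀ χ : DirichletCharacter ℂ q, c χ = fun n => ((aw w n / n : ℝ) : ℂ) * tau χ n := by
      intro χ
      funext n
      simp only [hc]
      ring
    simp only [e1]
    exact hmean.symm
  have hcard : (((Finset.univ : Finset (DirichletCharacter ℂ q)).filter (fun χ => χ ≠ 1)).card : ℝ) ≤ q.totient := by
    have h2 : ((Finset.univ : Finset (DirichletCharacter ℂ q)).filter (fun χ => χ ≠ 1)).card ≤
        Fintype.card (DirichletCharacter ℂ q) := Finset.card_le_univ _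
    rw [← Nat.card_eq_fintype_card,
        DirichletCharacter.card_eq_totient_of_hasEnoughRootsOfUnity ℂ q] at h2
    exact_mod_cast h2
  calc ∑ χ ∈ (Finset.univ : Finset (DirichletCharacter ℂ q)).filter (fun χ => χ ≠ 1),
      ∫ z in Z..(Z + 1), ‖TG (tau χ) h N' z‖ ^ 2 ≤
      ∑ χ ∈ (Finset.univ : Finset (DirichletCharacter ℂ q)).filter (fun χ => χ ≠ 1),
        (2 * E ^ 2 + 2 * (cU * (cU * (M ^ 2 * ∫ x, ‖bbC h L (c χ) x‖ ^ 2)))) := by
        apply Finset.sum_le_sum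
        intro χ hχ
        rw [Finset.mem_filter] at hχ
        exact h1 χ hχ.2
    _ = (((Finset.univ : Finset (DirichletCharacter ℂ q)).filter (fun χ => χ ≠ 1)).card : ℝ) * (2 * E ^ 2) +
        2 * (cU * (cU * (M ^ 2 * ∑ χ ∈ (Finset.univ : Finset (DirichletCharacter ℂ q)).filter (fun χ => χ ≠ 1),
          ∫ x, ‖bbC h L (c χ) x‖ ^ 2))) := by
        rw [Finset.sum_add_distrib, Finset.sum_const, nsmul_eq_mul]
        simp only [Finset.mul_sum]
    _ ≤ q.totient * (2 * E ^ 2) + 2 * (cU * (cU * (M ^ 2 * ∑ χ : DirichletCharacter ℂ q,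
          ∫ x, ‖bbC h L (c χ) x‖ ^ 2))) := by
        have e1 : ∑ χ ∈ (Finset.univ : Finset (DirichletCharacter ℂ q)).filter (fun χ => χ ≠ 1),
            ∫ x, ‖bbC h L (c χ) x‖ ^ 2 ≤ ∑ χ : DirichletCharacter ℂ q, ∫ x, ‖bbC h L (c χ) x‖ ^ 2 :=
          Finset.sum_le_sum_of_subset_of_nonneg (Finset.filter_subset _ _) fun χ _ _ =>
            integral_nonneg fun x => by positivity
        have e2 : (0 : ℝ) ≤ cU := Nat.cast_nonneg _
        gcongr
    _ = _ := by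
        rw [hmean']
        ring

end Pool.Agent.P8H13.GK
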