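import Pool.Agent.P8H13.GK.PerQ

set_option autoImplicit false

/-!
# The smoothed sums over primes at all fractions with small denominators, in mean square
-/

open Complex Filter Topology Set MeasureTheory Metric
open scoped Real FourierTransform
open scoped ArithmeticFunction.vonMangoldt

namespace Pool.Agent.P8H13.GK

open Pool.Agent.W66 Pool.Agent.W66L
open Pool.Agent.TH823.PS (rr tau mem_rr tau_mul ee_mod gen mean_chars bbC_sq_integrable ls_bb)

lemma poly_exp (m : ℕ) {K : ℝ} (hK : 0 < K) : ∀ᶠ Z : ℝ in atTop, K * (Z ^ m * Real.exp (-√Z)) ≤ 1 := by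
  have h1 := (Real.tendsto_pow_mul_exp_neg_atTop_nhds_zero (2 * m)).comp Real.tendsto_sqrt_atTop
  have h2 : ∀ᶠ Z : ℝ in atTop, (√Z) ^ (2 * m) * Real.exp (-√Z) < 1 / K :=
    h1.eventually_lt_const (by positivity)
  filter_upwards [h2, eventually_ge_atTop 0] with Z h3 h4
  rw [pow_mul, Real.sq_sqrt h4, lt_div_iff₀ hK] at h3
  linarith

open Classical in
/-- **the primes at the fractions with small denominators** -/
theorem SAD (A : ℕ) {c C : ℝ} (hc : 0 < c) (hc8 : c ≤ 1 / 8) (hC : 0 < C) : ∃ c0 Z0 : ℝ, 0 < c0 ∧ 1 ≤ Z0 ∧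
    ∀ R lam Z h : ℝ, Z0 ≤ Z → Reg c C R → R = 2 * lam → h = Real.exp (-lam) → √Z ≤ lam →
    lam * Real.log Z ≤ c0 * Z → ∀ F : ℕ, 1 ≤ F → (F : ℝ) ≤ Real.exp lam → ∀ N : ℕ, Real.exp (Z + 2) ≤ N →
    ∑ q ∈ Finset.Icc 1 F, ∑ a ∈ rr q, ∫ z in Z..(Z + 1),
      ‖TA q a h N z - ((ArithmeticFunction.moebius q : ℤ) : ℂ) / q.totient‖ ^ 2 ≤ 1 / Z ^ A := by
  set D := A + 6 with hD
  obtain ⟨C0, K, hC0, hK, hM⟩ := M_boundR D hc hc8 hC
  obtain ⟨ck, Zk, hck, hZk, hKT⟩ := KT (A + 4)
  obtain ⟨Cφ, hCφ, hphi⟩ := sum_inv_phi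
  set C0' := C0 + 10 with hC0'
  set K3 : ℝ := 4 * Cφ + 12288 * K ^ 2 + 1 with hK3
  obtain ⟨Z1, hZ1⟩ := ((poly_exp D (K := 11) (by norm_num)).and
    (poly_exp (A + 7) (K := 40000) (by norm_num))).exists_forall_of_atTop
  refine ⟨min (1 / 200) (min ck (1 / (8 * C0'))), max (max (max Z1 Zk) K3) 20, by positivity, by
    refine le_trans ?_ (le_max_right _ _); norm_num, fun R lam Z h hZ hReg hR hh hlam1 hlam2 F hF1 hF N hN => ?_⟩
  have hZ20 : 20 ≤ Z := (le_max_right _ _).trans hZ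
  have hZK : K3 ≤ Z := ((le_max_right _ _).trans (le_max_left _ _)).trans hZ
  have hZZk : Zk ≤ Z := ((le_max_right _ _).trans ((le_max_left _ _).trans (le_max_left _ _))).trans hZ
  obtain ⟨hE1, hE2⟩ := hZ1 Z (((le_max_left _ _).trans ((le_max_left _ _).trans (le_max_left _ _))).trans hZ)
  have hZ0 : 0 < Z := by linarith
  have hZD0 : 0 < Z ^ D := by positivity
  have hh0 : 0 < h := by rw [hh]; exact Real.exp_pos _
  have hsq1 : 1 ≤ √Z := by rw [Real.one_le_sqrt]; linarith
  have hlam0 : 1 ≤ lam := hsq1.trans hlam1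
  have hh1 : h ≤ 1 := by rw [hh]; exact Real.exp_le_one_iff.2 (by linarith)
  have hlogZ : 1 ≤ Real.log Z := by
    rw [Real.le_log_iff_exp_le hZ0]
    linarith [Real.exp_one_lt_d9]
  have hlamlog : lam ≤ lam * Real.log Z := le_mul_of_one_le_right (by linarith only [hlam0]) hlogZ
  have hlam200 : lam ≤ Z / 200 := by
    calc lam ≤ lam * Real.log Z := hlamlog
      _ ≤ min (1 / 200) (min ck (1 / (8 * C0'))) * Z := hlam2
      _ ≤ 1 / 200 * Z := by gcongr; exact min_le_left _ _
      _ = _ := by ring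
  have hlamck : lam * Real.log Z ≤ ck * Z := by
    refine hlam2.trans ?_
    gcongr
    exact (min_le_right _ _).trans (min_le_left _ _)
  have hC0'0 : 0 < C0' := by positivity
  have hlamC : C0' * R * Real.log Z ≤ Z / 4 := by
    calc C0' * R * Real.log Z = 2 * C0' * (lam * Real.log Z) := by rw [hR]; ring
      _ ≤ 2 * C0' * (min (1 / 200) (min ck (1 / (8 * C0'))) * Z) := by gcongr
      _ ≤ 2 * C0' * (1 / (8 * C0') * Z) := by
          gcongr
          exact (min_le_right _ _).trans (min_le_right _ _)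
      _ = _ := by field_simp; norm_num
  have hFr1 : (1 : ℝ) ≤ F := by exact_mod_cast hF1
  -- parameters
  have hinvh : 1 / h = Real.exp lam := by rw [hh, Real.exp_neg, one_div, inv_inv]
  have hinvh2 : ∀ x : ℝ, x / h ^ 2 = x * Real.exp (2 * lam) := by
    intro x
    have e1 : (h ^ 2)⁻¹ = Real.exp (2 * lam) := by
      rw [hh, ← Real.exp_nat_mul, ← Real.exp_neg]
      congr 1
      push_cast
      ring
    rw [div_eq_mul_inv, e1]
  have hF2 : (F : ℝ) ^ 2 ≤ Real.exp (2 * lam) := by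
    calc (F : ℝ) ^ 2 ≤ Real.exp lam ^ 2 := by gcongr
      _ = _ := by rw [← Real.exp_nat_mul]; push_cast; rfl
  have hel1 : 1 ≤ Real.exp (2 * lam) := Real.one_le_exp (by linarith)
  set w := ⌈(1 + (F : ℝ) ^ 2) / h⌉₊ with hw
  have hw1 : (1 + (F : ℝ) ^ 2) / h ≤ w := Nat.le_ceil _
  have hwbig : 1 ≤ (1 + (F : ℝ) ^ 2) / h := by
    rw [le_div_iff₀ hh0, one_mul]
    have : (0 : ℝ) ≤ (F : ℝ) ^ 2 := by positivity
    linarith
  have hw2 : (w : ℝ) ≤ 4 * Real.exp (3 * lam) := by
    have h1 : (w : ℝ) < (1 + (F : ℝ) ^ 2) / h + 1 := Nat.ceil_lt_add_one (by positivity)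
    have h2 : (1 + (F : ℝ) ^ 2) / h ≤ 2 * Real.exp (3 * lam) := by
      calc (1 + (F : ℝ) ^ 2) / h = (1 + (F : ℝ) ^ 2) * (1 / h) := by ring
        _ ≤ (2 * Real.exp (2 * lam)) * Real.exp lam := by
            rw [hinvh]
            apply mul_le_mul_of_nonneg_right _ (Real.exp_pos _).le
            linarith
        _ = 2 * Real.exp (3 * lam) := by rw [mul_assoc, ← Real.exp_add]; ring_nf
    linarith
  have hw0 : (0 : ℝ) < w := by linarith
  have hwn : 1 ≤ w := by exact_mod_cast hw0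
  have hlw2 : Real.log w ≤ Z / 6 := by
    have h1 : Real.log w ≤ Real.log (4 * Real.exp (3 * lam)) := Real.log_le_log hw0 hw2
    rw [Real.log_mul (by norm_num) (Real.exp_pos _).ne', Real.log_exp] at h1
    have h2 : Real.log 4 ≤ 2 := by
      have : Real.log 4 = 2 * Real.log 2 := by
        rw [show (4 : ℝ) = 2 ^ 2 by norm_num, Real.log_pow]; norm_num
      rw [this]
      linarith [Real.log_two_lt_d9]
    linarith
  set u0 := ⌈C0' * R * Real.log Z⌉₊ with hu0
  have hR1 : 1 ≤ R := by linarith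
  have hu0a : C0' * R * Real.log Z ≤ u0 := Nat.le_ceil _
  have hu0pos : 0 < C0' * R * Real.log Z := by positivity
  have hu0b : (u0 : ℝ) ≤ Z / 4 + 1 := by
    have h1 : (u0 : ℝ) < C0' * R * Real.log Z + 1 := Nat.ceil_lt_add_one hu0pos.le
    linarith
  have hu0c : 20 * lam ≤ u0 := by
    refine le_trans ?_ hu0a
    have h1 : 0 ≤ C0 * R * Real.log Z := by positivity
    have h2 : C0' * R * Real.log Z = C0 * R * Real.log Z + 20 * (lam * Real.log Z) := by rw [hC0', hR]; ring
    rw [h2]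
    linarith
  have hu0d : C0 * R * Real.log Z ≤ u0 := by
    refine le_trans ?_ hu0a
    gcongr
    linarith
  have hu01 : 1 ≤ u0 := Nat.ceil_pos.2 hu0pos
  set U := ⌈Z + 2⌉₊ with hU
  have hU1 : Z + 2 ≤ U := Nat.le_ceil _
  have hU2 : (U : ℝ) ≤ Z + 3 := by
    have := Nat.ceil_lt_add_one (show 0 ≤ Z + 2 by linarith)
    linarith
  have hu0U : u0 ≤ U := by
    have : (u0 : ℝ) ≤ U := by linarith
    exact_mod_cast this
  set N' := ⌈Real.exp ((U : ℝ) + 1)⌉₊ with hN'
  have hN'1 : Real.exp ((U : ℝ) + 1) ≤ N' := Nat.le_ceil _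
  have hN'0 : (0 : ℝ) < N' := lt_of_lt_of_le (Real.exp_pos _) hN'1
  have hN'n : 1 ≤ N' := by exact_mod_cast (Nat.ceil_pos.2 (Real.exp_pos _))
  have hN'2 : Real.log N' ≤ Z + 5 := by
    rw [Real.log_le_iff_le_exp hN'0]
    have h1 : (N' : ℝ) < Real.exp ((U : ℝ) + 1) + 1 := Nat.ceil_lt_add_one (Real.exp_pos _).le
    have h2 : Real.exp ((U : ℝ) + 1) ≤ Real.exp (Z + 4) := Real.exp_le_exp.2 (by linarith)
    have h3 : Real.exp (Z + 5) = Real.exp (Z + 4) * Real.exp 1 := by
      rw [← Real.exp_add]; congr 1; ring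
    have h4 : 1 ≤ Real.exp (Z + 4) := Real.one_le_exp (by linarith)
    have h5 : (2 : ℝ) ≤ Real.exp 1 := by linarith [Real.exp_one_gt_d9]
    have h6 := mul_le_mul_of_nonneg_left h5 (Real.exp_pos (Z + 4)).le
    rw [h3]
    linarith
  have hlogN'0 : 0 ≤ Real.log N' := Real.log_natCast_nonneg _
  set E : ℝ := 100 * (Z ^ 3 * Real.exp (-(10 * lam))) with hE
  have hE0 : 0 ≤ E := by positivity
  set M : ℝ := K * (Z ^ 2 / Z ^ D) with hMd
  have hM0 : 0 ≤ M := by positivity
  set cU : ℝ := ((Finset.Icc u0 U).card : ℝ) with hcU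
  have hcU2 : cU ≤ 2 * Z := by
    rw [hcU, Nat.card_Icc]
    have h4 : ((U + 1 - u0 : ℕ) : ℝ) ≤ ((U : ℕ) : ℝ) := by
      exact_mod_cast (by omega : U + 1 - u0 ≤ U)
    linarith
  have hcU0 : 0 ≤ cU := Nat.cast_nonneg _
  -- the pointwise errors
  have hB : ∀ q : ℕ, q ≤ F → (q : ℝ) ^ 2 ≤ Real.exp (2 * lam) := by
    intro q hq
    refine le_trans ?_ hF2
    have : (q : ℝ) ≤ F := by exact_mod_cast hq
    gcongr
  have hEq : ∀ q : ℕ, q ≤ F → ∀ z, Z ≤ z → z ≤ Z + 1 →
      w * ((q : ℝ) ^ 2 * (48 * (z + 2) * (Real.exp (-z) / h ^ 2))) +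
      2 * (u0 * (1 + u0) * (w * ((q : ℝ) ^ 2 * (48 * 1 * (Real.exp (u0 - Z) / h ^ 2))))) +
      Real.exp (-u0) * (q * Real.log N') * ((q : ℝ) ^ 2 * ((1 + Real.log N') ^ 2 / h)) ≤ E := by
    intro q hq z hz1 hz2
    have hq2 := hB q hq
    have hq1 : (q : ℝ) ≤ Real.exp lam := le_trans (by exact_mod_cast hq) hF
    have hx : ∀ a b : ℝ, a ≤ b → Real.exp a ≤ Real.exp b := fun a b hab => Real.exp_le_exp.2 hab
    rw [hinvh2, hinvh2]
    have t1 : w * ((q : ℝ) ^ 2 * (48 * (z + 2) * (Real.exp (-z) * Real.exp (2 * lam)))) ≤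
        Z ^ 3 * Real.exp (-(10 * lam)) := by
      calc w * ((q : ℝ) ^ 2 * (48 * (z + 2) * (Real.exp (-z) * Real.exp (2 * lam)))) ≤
          (4 * Real.exp (3 * lam)) * (Real.exp (2 * lam) * (48 * (2 * Z) * (Real.exp (-Z) * Real.exp (2 * lam)))) := by
            have h1 : z + 2 ≤ 2 * Z := by linarith
            have h2 : 0 ≤ z + 2 := by linarith
            have h3 : Real.exp (-z) ≤ Real.exp (-Z) := hx _ _ (by linarith)
            gcongr
        _ = 384 * Z * Real.exp (3 * lam + (2 * lam + (-Z + 2 * lam))) := by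
            rw [Real.exp_add, Real.exp_add, Real.exp_add]; ring
        _ ≤ 384 * Z * Real.exp (-(10 * lam)) := by
            apply mul_le_mul_of_nonneg_left (hx _ _ (by linarith)) (by positivity)
        _ ≤ Z ^ 3 * Real.exp (-(10 * lam)) := by
            apply mul_le_mul_of_nonneg_right _ (Real.exp_pos _).le
            nlinarith
    have hu0sq : (u0 : ℝ) * (1 + u0) ≤ Z ^ 2 := by
      rw [sq]
      exact mul_le_mul (by linarith) (by linarith) (by positivity) hZ0.le
    have t2 : 2 * (u0 * (1 + u0) * (w * ((q : ℝ) ^ 2 * (48 * 1 * (Real.exp (u0 - Z) * Real.exp (2 * lam)))))) ≤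
        60 * (Z ^ 3 * Real.exp (-(10 * lam))) := by
      calc 2 * (u0 * (1 + u0) * (w * ((q : ℝ) ^ 2 * (48 * 1 * (Real.exp (u0 - Z) * Real.exp (2 * lam)))))) ≤
          2 * (Z ^ 2 * ((4 * Real.exp (3 * lam)) * (Real.exp (2 * lam) * (48 * 1 * (Real.exp (u0 - Z) * Real.exp (2 * lam)))))) := by
            gcongr
        _ = 384 * Z ^ 2 * Real.exp (3 * lam + (2 * lam + ((u0 - Z) + 2 * lam))) := by
            rw [Real.exp_add, Real.exp_add, Real.exp_add]; ring
        _ ≤ 384 * Z ^ 2 * Real.exp (1 + -(10 * lam)) := by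
            apply mul_le_mul_of_nonneg_left (hx _ _ (by linarith)) (by positivity)
        _ = 384 * Real.exp 1 * (Z ^ 2 * Real.exp (-(10 * lam))) := by rw [Real.exp_add]; ring
        _ ≤ 1200 * (Z ^ 2 * Real.exp (-(10 * lam))) := by
            apply mul_le_mul_of_nonneg_right _ (by positivity)
            linarith [Real.exp_one_lt_d9]
        _ = (1200 * Z ^ 2) * Real.exp (-(10 * lam)) := by ring
        _ ≤ (60 * Z ^ 3) * Real.exp (-(10 * lam)) := by
            apply mul_le_mul_of_nonneg_right _ (Real.exp_pos _).le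
            nlinarith [sq_nonneg Z]
        _ = _ := by ring
    have t3 : Real.exp (-u0) * (q * Real.log N') * ((q : ℝ) ^ 2 * ((1 + Real.log N') ^ 2 / h)) ≤
        8 * (Z ^ 3 * Real.exp (-(10 * lam))) := by
      have e0 : (1 + Real.log N') ^ 2 / h = (1 + Real.log N') ^ 2 * Real.exp lam := by
        rw [← hinvh]; ring
      rw [e0]
      calc Real.exp (-u0) * (q * Real.log N') * ((q : ℝ) ^ 2 * ((1 + Real.log N') ^ 2 * Real.exp lam)) ≤
          Real.exp (-(20 * lam)) * (Real.exp lam * (2 * Z)) * (Real.exp (2 * lam) * ((2 * Z) ^ 2 * Real.exp lam)) := by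
            have h1 : Real.log N' ≤ 2 * Z := by linarith
            have h2 : 1 + Real.log N' ≤ 2 * Z := by linarith
            have h3 : Real.exp (-(u0 : ℝ)) ≤ Real.exp (-(20 * lam)) := hx _ _ (by linarith)
            gcongr
        _ = 8 * Z ^ 3 * Real.exp (-(20 * lam) + (lam + (2 * lam + lam))) := by
            rw [Real.exp_add, Real.exp_add, Real.exp_add]; ring
        _ ≤ 8 * Z ^ 3 * Real.exp (-(10 * lam)) := by
            apply mul_le_mul_of_nonneg_left (hx _ _ (by linarith)) (by positivity)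
        _ = _ := by ring
    have h0 : 0 ≤ Z ^ 3 * Real.exp (-(10 * lam)) := by positivity
    rw [hE]
    linarith
  have hEp : ∀ q : ℕ, q ≤ F → 2 * (q : ℝ) ^ 2 * (Real.exp (1 - Z) / h) * Real.log N' ≤ E := by
    intro q hq
    have hq2 := hB q hq
    have e0 : Real.exp (1 - Z) / h = Real.exp (1 - Z) * Real.exp lam := by rw [← hinvh]; ring
    rw [e0]
    calc 2 * (q : ℝ) ^ 2 * (Real.exp (1 - Z) * Real.exp lam) * Real.log N' ≤
        2 * Real.exp (2 * lam) * (Real.exp (1 - Z) * Real.exp lam) * (2 * Z) := by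
          have h1 : Real.log N' ≤ 2 * Z := by linarith
          gcongr
      _ = 4 * Z * Real.exp (2 * lam + ((1 - Z) + lam)) := by
          rw [Real.exp_add, Real.exp_add]; ring
      _ ≤ 4 * Z * Real.exp (-(10 * lam)) := by
          apply mul_le_mul_of_nonneg_left _ (by positivity)
          exact Real.exp_le_exp.2 (by linarith)
      _ ≤ (100 * Z ^ 3) * Real.exp (-(10 * lam)) := by
          apply mul_le_mul_of_nonneg_right _ (Real.exp_pos _).le
          nlinarith
      _ = _ := by rw [hE]; ring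
  -- the denominator `q`
  have hKTZ := hKT Z lam h hZZk hh hlam1 hlamck N' (by
    refine le_trans (Real.exp_le_exp.2 ?_) hN'1
    linarith)
  set bbq : ℕ → ℝ := fun q => ∑ a ∈ rr q, ∫ x, ‖bbC h (Finset.Ioc 0 N')
          (fun l => ((aw w l / l : ℝ) : ℂ) * Pool.Agent.Helper112.ee (l * a / q)) x‖ ^ 2 with hbbq
  have hq : ∀ q ∈ Finset.Icc 1 F, ∑ a ∈ rr q, ∫ z in Z..(Z + 1),
      ‖TA q a h N z - ((ArithmeticFunction.moebius q : ℤ) : ℂ) / q.totient‖ ^ 2 ≤
      1 / (q.totient : ℝ) * (2 * (1 / Z ^ (A + 4))) + 4 * E ^ 2 + 2 * (cU * (cU * (M ^ 2 * bbq q))) := by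
    intro q hq
    rw [Finset.mem_Icc] at hq
    have hNZ : NeZero q := ⟨by omega⟩
    have hφn : 0 < q.totient := Nat.totient_pos.2 hq.1
    have hφ : (0 : ℝ) < q.totient := by exact_mod_cast hφn
    have hφ1 : (1 : ℝ) ≤ q.totient := by exact_mod_cast hφn
    have hqR : (q : ℝ) ≤ Real.exp R := by
      have h1 : (q : ℝ) ≤ Real.exp lam := le_trans (by exact_mod_cast hq.2) hF
      exact h1.trans (Real.exp_le_exp.2 (by linarith))
    -- change `N` to `N'`
    have e1 : ∑ a ∈ rr q, ∫ z in Z..(Z + 1),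
        ‖TA q a h N z - ((ArithmeticFunction.moebius q : ℤ) : ℂ) / q.totient‖ ^ 2 =
        ∫ z in Z..(Z + 1), ∑ a ∈ rr q,
        ‖TA q a h N' z - ((ArithmeticFunction.moebius q : ℤ) : ℂ) / q.totient‖ ^ 2 := by
      rw [intervalIntegral.integral_finset_sum]
      · apply Finset.sum_congr rfl
        intro a _
        apply intervalIntegral.integral_congr
        intro z hz
        rw [uIcc_of_le (by linarith)] at hz
        simp only
        have h1 : TA q a h N z = TA q a h N' z := by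
          unfold TA
          exact (TG_indep _ hh0 (le_trans (Real.exp_le_exp.2 (by linarith [hz.2])) hN)
            (le_trans (Real.exp_le_exp.2 (by linarith [hz.2])) hN'1)).symm
        rw [h1]
      · intro a _
        apply Continuous.intervalIntegrable
        have := TG_continuous (fun n => Pool.Agent.Helper112.ee (n * a / q)) h N'
        unfold TA
        fun_prop
    rw [e1]
    have e2 : (q.totient : ℝ) * ∫ z in Z..(Z + 1), ∑ a ∈ rr q,
        ‖TA q a h N' z - ((ArithmeticFunction.moebius q : ℤ) : ℂ) / q.totient‖ ^ 2 =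
        (∫ z in Z..(Z + 1), ‖TG (tau (1 : DirichletCharacter ℂ q)) h N' z -
          ((ArithmeticFunction.moebius q : ℤ) : ℂ)‖ ^ 2) +
        ∑ χ ∈ (Finset.univ : Finset (DirichletCharacter ℂ q)).filter (fun χ => χ ≠ 1),
          ∫ z in Z..(Z + 1), ‖TG (tau χ) h N' z‖ ^ 2 := by
      rw [← intervalIntegral.integral_const_mul]
      have e3 : ∀ z, (q.totient : ℝ) * ∑ a ∈ rr q,
          ‖TA q a h N' z - ((ArithmeticFunction.moebius q : ℤ) : ℂ) / q.totient‖ ^ 2 =
          ‖TG (tau (1 : DirichletCharacter ℂ q)) h N' z - ((ArithmeticFunction.moebius q : ℤ) : ℂ)‖ ^ 2 +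
          ∑ χ ∈ (Finset.univ : Finset (DirichletCharacter ℂ q)).filter (fun χ => χ ≠ 1),
            ‖TG (tau χ) h N' z‖ ^ 2 := by
        intro z
        rw [parsTA, ← Finset.add_sum_erase _ _ (Finset.mem_univ (1 : DirichletCharacter ℂ q)), if_pos rfl]
        congr 1
        apply Finset.sum_congr
        · ext χ
          simp
        · intro χ hχ
          rw [Finset.mem_filter] at hχ
          rw [if_neg hχ.2, sub_zero]
      simp only [e3]
      rw [intervalIntegral.integral_add, intervalIntegral.integral_finset_sum]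
      · intro χ _
        apply Continuous.intervalIntegrable
        have := TG_continuous (tau χ) h N'
        fun_prop
      · apply Continuous.intervalIntegrable
        have := TG_continuous (tau (1 : DirichletCharacter ℂ q)) h N'
        fun_prop
      · apply Continuous.intervalIntegrable
        apply continuous_finsetSum
        intro χ _
        have := TG_continuous (tau χ) h N'
        fun_prop
    have e3 : ∫ z in Z..(Z + 1), ‖TG (tau (1 : DirichletCharacter ℂ q)) h N' z -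
          ((ArithmeticFunction.moebius q : ℤ) : ℂ)‖ ^ 2 ≤ 2 * (1 / Z ^ (A + 4)) + 2 * E ^ 2 := by
      have h1 : ∫ z in Z..(Z + 1), ‖TG (tau (1 : DirichletCharacter ℂ q)) h N' z -
          ((ArithmeticFunction.moebius q : ℤ) : ℂ)‖ ^ 2 ≤
          ∫ z in Z..(Z + 1), (2 * E ^ 2 + 2 * (TT h N' z - 1) ^ 2) := by
        apply intervalIntegral.integral_mono_on (by linarith)
        · apply Continuous.intervalIntegrable
          have := TG_continuous (tau (1 : DirichletCharacter ℂ q)) h N'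
          fun_prop
        · apply Continuous.intervalIntegrable
          have := TT_continuous h N'
          fun_prop
        · intro z hz
          have h2 := TG_one (q := q) hh0 hh1 hz.1 N' hN'n
          have h3 := h2.trans (add_le_add (le_refl |TT h N' z - 1|) (hEp q hq.2))
          have h4 : ‖TG (tau (1 : DirichletCharacter ℂ q)) h N' z - ((ArithmeticFunction.moebius q : ℤ) : ℂ)‖ ^ 2 ≤
              (|TT h N' z - 1| + E) ^ 2 := by gcongr
          have h5 : (|TT h N' z - 1| + E) ^ 2 = 2 * E ^ 2 + 2 * |TT h N' z - 1| ^ 2 - (E - |TT h N' z - 1|) ^ 2 := by ring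
          have h6 := sq_nonneg (E - |TT h N' z - 1|)
          rw [h5, sq_abs] at h4
          linarith only [h4, h6]
      refine h1.trans ?_
      rw [intervalIntegral.integral_add intervalIntegrable_const (by
        apply Continuous.intervalIntegrable
        have := TT_continuous h N'
        fun_prop), intervalIntegral.integral_const, intervalIntegral.integral_const_mul, smul_eq_mul]
      have e : (Z + 1 - Z) * (2 * E ^ 2) = 2 * E ^ 2 := by ring
      rw [e]
      linarith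
    have e4 := perq (q := q) hh0 hh1 w N' u0 U hwn hu01 hu0U hU1 hN'1 (by linarith) hE0 hM0 (hEq q hq.2) (by
      intro χ hχ u hu ξ
      rw [Finset.mem_Icc] at hu
      have hu1 : (u0 : ℝ) ≤ u := by exact_mod_cast hu.1
      have hu2 : (u : ℝ) ≤ U := by exact_mod_cast hu.2
      have hu3 : (1 : ℝ) ≤ u := by exact_mod_cast hu01.trans hu.1
      exact hM R lam Z h u hReg hR q hqR χ hχ hZ20 hE1 hlam1 (by linarith) hh hu3 (hu0d.trans hu1) (by linarith) ξ)
    have e5 : (q.totient : ℝ) * (∫ z in Z..(Z + 1), ∑ a ∈ rr q,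
        ‖TA q a h N' z - ((ArithmeticFunction.moebius q : ℤ) : ℂ) / q.totient‖ ^ 2) ≤
        q.totient * (1 / (q.totient : ℝ) * (2 * (1 / Z ^ (A + 4))) + 4 * E ^ 2 + 2 * (cU * (cU * (M ^ 2 * bbq q)))) := by
      rw [e2]
      refine (add_le_add e3 e4).trans ?_
      have e6 : (q.totient : ℝ) * (1 / (q.totient : ℝ) * (2 * (1 / Z ^ (A + 4))) + 4 * E ^ 2 + 2 * (cU * (cU * (M ^ 2 * bbq q)))) =
          2 * (1 / Z ^ (A + 4)) + q.totient * (4 * E ^ 2 + 2 * (cU * (cU * (M ^ 2 * bbq q)))) := by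
        field_simp
        ring
      rw [e6]
      have e7 : 0 ≤ E ^ 2 := sq_nonneg E
      have e8 : 2 * E ^ 2 ≤ q.totient * (2 * E ^ 2) := le_mul_of_one_le_left (by positivity) hφ1
      simp only [hbbq, hcU]
      linarith
    exact le_of_mul_le_mul_left e5 hφ
  -- the sum over `q`
  refine (Finset.sum_le_sum hq).trans ?_
  rw [Finset.sum_add_distrib, Finset.sum_add_distrib, ← Finset.sum_mul, Finset.sum_const, Nat.card_Icc,
    Nat.add_sub_cancel, nsmul_eq_mul]
  have s1 : (∑ q ∈ Finset.Icc 1 F, 1 / (q.totient : ℝ)) * (2 * (1 / Z ^ (A + 4))) ≤ 4 * Cφ * (1 / Z ^ (A + 1)) := by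
    have h1 := hphi F hF1
    have h2 : Real.log F ≤ lam := by
      rw [Real.log_le_iff_le_exp (by linarith)]; exact hF
    have h3 : Cφ * (1 + Real.log F) ≤ Cφ * (2 * Z) := by
      apply mul_le_mul_of_nonneg_left _ hCφ.le
      linarith
    calc (∑ q ∈ Finset.Icc 1 F, 1 / (q.totient : ℝ)) * (2 * (1 / Z ^ (A + 4))) ≤
        (Cφ * (2 * Z)) * (2 * (1 / Z ^ (A + 4))) := mul_le_mul_of_nonneg_right (h1.trans h3) (by positivity)
      _ = 4 * Cφ * (1 / Z ^ (A + 3)) := by
          rw [pow_succ Z (A + 3)]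
          field_simp
          norm_num
      _ ≤ 4 * Cφ * (1 / Z ^ (A + 1)) := by
          apply mul_le_mul_of_nonneg_left _ (by positivity)
          apply one_div_le_one_div_of_le (by positivity)
          exact pow_le_pow_right₀ (by linarith) (by omega)
  have s2 : (F : ℝ) * (4 * E ^ 2) ≤ 1 / Z ^ (A + 1) := by
    have h1 : (F : ℝ) * (4 * E ^ 2) ≤ 40000 * (Z ^ 6 * Real.exp (-√Z)) := by
      calc (F : ℝ) * (4 * E ^ 2) ≤ Real.exp lam * (4 * E ^ 2) := mul_le_mul_of_nonneg_right hF (by positivity)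
        _ = 40000 * (Z ^ 6 * Real.exp (lam + (-(10 * lam) + -(10 * lam)))) := by
            rw [hE, Real.exp_add, Real.exp_add]; ring
        _ ≤ _ := by
            apply mul_le_mul_of_nonneg_left _ (by norm_num)
            apply mul_le_mul_of_nonneg_left _ (by positivity)
            exact Real.exp_le_exp.2 (by linarith)
    refine h1.trans ?_
    rw [le_div_iff₀ (by positivity)]
    refine le_trans (le_of_eq ?_) hE2
    rw [show A + 7 = 6 + (A + 1) by ring, pow_add Z 6 (A + 1)]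
    ring
  have s3 : ∑ q ∈ Finset.Icc 1 F, 2 * (cU * (cU * (M ^ 2 * bbq q))) ≤ 12288 * K ^ 2 * (1 / Z ^ (A + 1)) := by
    have h1 : ∑ q ∈ Finset.Icc 1 F, 2 * (cU * (cU * (M ^ 2 * bbq q))) =
        2 * (cU * (cU * (M ^ 2 * ∑ q ∈ Finset.Icc 1 F, bbq q))) := by
      simp only [Finset.mul_sum]
    rw [h1]
    have h2 : ∑ q ∈ Finset.Icc 1 F, bbq q ≤ 96 * (2 * Z) ^ 4 := by
      have h3 := ls_bb F (Finset.Ioc 0 N') (fun n hn => (Finset.mem_Ioc.1 hn).1) (fun l => ((aw w l / l : ℝ) : ℂ)) hh0 hh1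
      refine h3.trans ?_
      have h4 : ∀ n ∈ Finset.Ioc 0 N', 6 * (15 * (n : ℝ) + (1 + (F : ℝ) ^ 2) / h) * ‖((aw w n / n : ℝ) : ℂ)‖ ^ 2 ≤
          96 * ((n : ℝ) * (aw w n / n) ^ 2) := by
        intro n hn
        rw [Complex.norm_real, Real.norm_eq_abs, sq_abs]
        have hn0 := (Finset.mem_Ioc.1 hn).1
        by_cases hnw : n ≤ w
        · rw [aw_zero_of hn0 hnw]
          simp
        · push Not at hnw
          have h5 : (1 + (F : ℝ) ^ 2) / h ≤ n := hw1.trans (by exact_mod_cast hnw.le)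
          have h6 : 0 ≤ (aw w n / (n : ℝ)) ^ 2 := sq_nonneg _
          nlinarith
      refine (Finset.sum_le_sum h4).trans ?_
      rw [← Finset.mul_sum]
      apply mul_le_mul_of_nonneg_left _ (by norm_num)
      refine (aw_sum w N' hN'n).trans ?_
      have h5 : 1 + Real.log N' ≤ 2 * Z := by linarith
      gcongr
    have h3 : 0 ≤ ∑ q ∈ Finset.Icc 1 F, bbq q :=
      Finset.sum_nonneg fun q _ => Finset.sum_nonneg fun a _ => integral_nonneg fun x => by positivity
    calc 2 * (cU * (cU * (M ^ 2 * ∑ q ∈ Finset.Icc 1 F, bbq q))) ≤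
        2 * ((2 * Z) * ((2 * Z) * (M ^ 2 * (96 * (2 * Z) ^ 4)))) := by gcongr
      _ = 12288 * K ^ 2 * (Z ^ 10 / (Z ^ D) ^ 2) := by rw [hMd]; field_simp; ring
      _ ≤ 12288 * K ^ 2 * (1 / Z ^ (A + 1)) := by
          apply mul_le_mul_of_nonneg_left _ (by positivity)
          rw [div_le_div_iff₀ (by positivity) (by positivity), one_mul, ← pow_add, ← pow_mul]
          exact pow_le_pow_right₀ (by linarith) (by omega)
  calc _ ≤ 4 * Cφ * (1 / Z ^ (A + 1)) + 1 / Z ^ (A + 1) + 12288 * K ^ 2 * (1 / Z ^ (A + 1)) :=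
        add_le_add (add_le_add s1 s2) s3
    _ = K3 * (1 / Z ^ (A + 1)) := by rw [hK3]; ring
    _ ≤ Z * (1 / Z ^ (A + 1)) := mul_le_mul_of_nonneg_right hZK (by positivity)
    _ = 1 / Z ^ A := by rw [pow_succ]; field_simp

end Pool.Agent.P8H13.GK
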