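import Pool.Agent.P8H13.GK.SAD

set_option autoImplicit false

/-!
# From the smoothed sums to the sums over intervals
-/

open Complex Filter Topology Set MeasureTheory Metric
open scoped Real
open scoped ArithmeticFunction.vonMangoldt

namespace Pool.Agent.P8H13.GK

open Pool.Agent.W66 Pool.Agent.W66L

/-- the mass of the window -/
noncomputable def IW (h : ℝ) (lo hi n : ℕ) : ℝ := ∫ z in (Real.log lo)..(Real.log hi), tri h (z - Real.log n)

/-- the weighted mass of the window -/
noncomputable def KW (h : ℝ) (lo hi n : ℕ) : ℝ :=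
  ∫ z in (Real.log lo)..(Real.log hi), Real.exp z / n * tri h (z - Real.log n)

lemma trish_continuous (h a : ℝ) : Continuous fun z => tri h (z - a) := (tri_continuous h).comp (by fun_prop)

lemma exp_h_bounds {h : ℝ} (hh : 0 < h) (hh1 : h ≤ 1) : Real.exp h ≤ 1 + 2 * h ∧ 1 - 2 * h ≤ Real.exp (-h) := by
  constructor
  · have h1 := Real.abs_exp_sub_one_le (x := h) (by rw [abs_of_pos hh]; exact hh1)
    rw [abs_of_pos hh] at h1
    have := (abs_le.1 h1).2
    linarith
  · have := Real.add_one_le_exp (-h)
    linarith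

lemma IW_bounds {h : ℝ} (hh : 0 < h) {lo hi n : ℕ} (hlo : 1 ≤ lo) (hlh : lo ≤ hi) : 0 ≤ IW h lo hi n ∧ IW h lo hi n ≤ 1 := by
  have hle : Real.log lo ≤ Real.log hi := Real.log_le_log (by exact_mod_cast hlo) (by exact_mod_cast hlh)
  constructor
  · unfold IW
    exact intervalIntegral.integral_nonneg hle fun z _ => tri_nonneg hh _
  · unfold IW
    have h1 : ∫ z, tri h (z - Real.log n) = 1 := by
      rw [integral_sub_right_eq_self (fun z => tri h z), integral_tri hh]
    rw [← h1, intervalIntegral.integral_of_le hle]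
    exact setIntegral_le_integral ((tri_integrable hh).comp_sub_right _)
      (Eventually.of_forall fun z => tri_nonneg hh _)

lemma KW_near {h : ℝ} (hh : 0 < h) (hh1 : h ≤ 1) {lo hi n : ℕ} (hlo : 1 ≤ lo) (hlh : lo ≤ hi) (hn : 0 < n) :
    |KW h lo hi n - IW h lo hi n| ≤ 2 * h * IW h lo hi n := by
  have hle : Real.log lo ≤ Real.log hi := Real.log_le_log (by exact_mod_cast hlo) (by exact_mod_cast hlh)
  have hn0 : (0 : ℝ) < n := by exact_mod_cast hn
  have hc := trish_continuous h (Real.log n)
  obtain ⟨e1, e2⟩ := exp_h_bounds hh hh1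
  have key : ∀ z : ℝ, (1 - 2 * h) * tri h (z - Real.log n) ≤ Real.exp z / n * tri h (z - Real.log n) ∧
      Real.exp z / n * tri h (z - Real.log n) ≤ (1 + 2 * h) * tri h (z - Real.log n) := by
    intro z
    have ht := tri_nonneg hh (z - Real.log n)
    rcases le_or_gt h |z - Real.log n| with h1 | h1
    · rw [tri_zero_of hh h1]
      simp
    · have h2 : Real.exp z / n = Real.exp (z - Real.log n) := by
        rw [Real.exp_sub, Real.exp_log hn0]
      rw [h2]
      rw [abs_lt] at h1
      constructor
      · apply mul_le_mul_of_nonneg_right _ ht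
        exact e2.trans (Real.exp_le_exp.2 h1.1.le)
      · apply mul_le_mul_of_nonneg_right _ ht
        exact (Real.exp_le_exp.2 h1.2.le).trans e1
  have hi1 : IntervalIntegrable (fun z => Real.exp z / n * tri h (z - Real.log n)) volume (Real.log lo) (Real.log hi) := by
    apply Continuous.intervalIntegrable
    fun_prop
  have hi2 : ∀ c : ℝ, IntervalIntegrable (fun z => c * tri h (z - Real.log n)) volume (Real.log lo) (Real.log hi) := by
    intro c
    apply Continuous.intervalIntegrable
    fun_prop
  have a1 := intervalIntegral.integral_mono_on hle (hi2 (1 - 2 * h)) hi1 fun z _ => (key z).1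
  have a2 := intervalIntegral.integral_mono_on hle hi1 (hi2 (1 + 2 * h)) fun z _ => (key z).2
  rw [intervalIntegral.integral_const_mul] at a1 a2
  change (1 - 2 * h) * IW h lo hi n ≤ KW h lo hi n at a1
  change KW h lo hi n ≤ (1 + 2 * h) * IW h lo hi n at a2
  rw [abs_le]
  constructor <;> linarith

open Classical in
lemma IW_near {h : ℝ} (hh : 0 < h) {lo hi n : ℕ} (hlo : 1 ≤ lo) (hlh : lo ≤ hi) (hn : 0 < n) :
    |IW h lo hi n - (if lo ≤ n ∧ n < hi then 1 else 0)| ≤
      (if |Real.log lo - Real.log n| < h then 1 else 0) + (if |Real.log hi - Real.log n| < h then 1 else 0) := by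
  have hle : Real.log lo ≤ Real.log hi := Real.log_le_log (by exact_mod_cast hlo) (by exact_mod_cast hlh)
  have hn0 : (0 : ℝ) < n := by exact_mod_cast hn
  have hlo0 : (0 : ℝ) < lo := by exact_mod_cast hlo
  have hhi0 : (0 : ℝ) < hi := by exact_mod_cast (by omega : 0 < hi)
  obtain ⟨b1, b2⟩ := IW_bounds (n := n) hh hlo hlh
  have triv : |IW h lo hi n - (if lo ≤ n ∧ n < hi then 1 else 0)| ≤ 1 := by
    rw [abs_le]
    split_ifs <;> constructor <;> linarith
  by_cases h1 : |Real.log lo - Real.log n| < h
  · rw [if_pos h1]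
    split_ifs at triv ⊢ <;> linarith
  by_cases h2 : |Real.log hi - Real.log n| < h
  · rw [if_pos h2]
    split_ifs at triv ⊢ <;> linarith
  rw [if_neg h1, if_neg h2, add_zero]
  rw [not_lt] at h1 h2
  -- the three cases
  have hzero : (∀ z ∈ Set.Icc (Real.log lo) (Real.log hi), h ≤ |z - Real.log n|) → IW h lo hi n = 0 := by
    intro hz
    unfold IW
    rw [intervalIntegral.integral_congr (g := fun _ => (0 : ℝ))]
    · simp
    · intro z hz'
      rw [uIcc_of_le hle] at hz'
      exact tri_zero_of hh (hz z hz')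
  rcases le_total (Real.log n) (Real.log lo) with h3 | h3
  · -- `n` below
    have h4 : Real.log n ≤ Real.log lo - h := by
      rw [abs_of_nonneg (by linarith)] at h1
      linarith
    have h5 : n < lo := by
      have : (n : ℝ) < lo := (Real.log_lt_log_iff hn0 hlo0).1 (by linarith)
      exact_mod_cast this
    rw [if_neg (by omega), sub_zero, hzero]
    · simp
    · intro z hz
      rw [abs_of_nonneg (by linarith [hz.1])]
      linarith [hz.1]
  · rw [abs_of_nonpos (by linarith)] at h1
    rcases le_total (Real.log n) (Real.log hi) with h4 | h4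
    · rw [abs_of_nonneg (by linarith)] at h2
      have h5 : lo ≤ n := by
        have : (lo : ℝ) < n := (Real.log_lt_log_iff hlo0 hn0).1 (by linarith)
        exact_mod_cast this.le
      have h6 : n < hi := by
        have : (n : ℝ) < hi := (Real.log_lt_log_iff hn0 hhi0).1 (by linarith)
        exact_mod_cast this
      rw [if_pos ⟨h5, h6⟩]
      have h7 : IW h lo hi n = 1 := by
        unfold IW
        rw [intervalIntegral.integral_eq_integral_of_support_subset, integral_sub_right_eq_self (fun z => tri h z),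
          integral_tri hh]
        intro z hz
        rw [Function.mem_support] at hz
        have h8 : |z - Real.log n| < h := by
          by_contra hc
          exact hz (tri_zero_of hh (not_lt.1 hc))
        rw [abs_lt] at h8
        constructor <;> linarith
      rw [h7]
      simp
    · rw [abs_of_nonpos (by linarith)] at h2
      have h5 : hi < n := by
        have : (hi : ℝ) < n := (Real.log_lt_log_iff hhi0 hn0).1 (by linarith)
        exact_mod_cast this
      rw [if_neg (by omega), sub_zero, hzero]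
      · simp
      · intro z hz
        rw [abs_of_nonpos (by linarith [hz.2])]
        linarith [hz.2]

open Classical in
/-- **the sum over an interval from the smoothed sums** -/
theorem sharp_one {h : ℝ} (hh : 0 < h) (hh1 : h ≤ 1) {lo hi Nn : ℕ} (hlo : 1 ≤ h * lo) (hlh : lo ≤ hi)
    (hN : 3 * hi ≤ Nn) (v : ℕ → ℂ) (hv : ∀ n, ‖v n‖ ≤ 1) :
    ‖(∫ z in (Real.log lo)..(Real.log hi), ((Real.exp z : ℝ) : ℂ) * TG v h Nn z) -
      ∑ n ∈ Finset.Ico lo hi, v n * ((Λ n : ℝ) : ℂ)‖ ≤ 20 * h * hi * Real.log Nn := by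
  have hlo1 : 1 ≤ lo := by
    by_contra hc
    have : lo = 0 := by omega
    rw [this] at hlo
    norm_num at hlo
  have hhi1 : 1 ≤ hi := hlo1.trans hlh
  have hhi0 : (0 : ℝ) < hi := by exact_mod_cast hhi1
  have hhih : 1 ≤ h * hi := hlo.trans (mul_le_mul_of_nonneg_left (by exact_mod_cast hlh) hh.le)
  have hle : Real.log lo ≤ Real.log hi := Real.log_le_log (by exact_mod_cast hlo1) (by exact_mod_cast hlh)
  have hLg : 0 ≤ Real.log Nn := Real.log_natCast_nonneg _
  -- the integral
  have h1 : ∫ z in (Real.log lo)..(Real.log hi), ((Real.exp z : ℝ) : ℂ) * TG v h Nn z =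
      ∑ n ∈ Finset.Ioc 0 Nn, v n * ((Λ n * KW h lo hi n : ℝ) : ℂ) := by
    have e1 : ∀ z, ((Real.exp z : ℝ) : ℂ) * TG v h Nn z =
        ∑ n ∈ Finset.Ioc 0 Nn, (v n * ((Λ n : ℝ) : ℂ)) * ((Real.exp z / n * tri h (z - Real.log n) : ℝ) : ℂ) := by
      intro z
      unfold TG triC
      rw [Finset.mul_sum]
      apply Finset.sum_congr rfl
      intro n _
      push_cast
      ring
    simp only [e1]
    rw [intervalIntegral.integral_finset_sum]
    · apply Finset.sum_congr rfl
      intro n _
      rw [intervalIntegral.integral_const_mul]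
      unfold KW
      rw [intervalIntegral.integral_ofReal]
      push_cast
      ring
    · intro n _
      apply Continuous.intervalIntegrable
      have := trish_continuous h (Real.log n)
      fun_prop
  have h2 : ∑ n ∈ Finset.Ico lo hi, v n * ((Λ n : ℝ) : ℂ) =
      ∑ n ∈ Finset.Ioc 0 Nn, v n * ((Λ n * (if lo ≤ n ∧ n < hi then 1 else 0) : ℝ) : ℂ) := by
    have e1 : Finset.Ico lo hi = (Finset.Ioc 0 Nn).filter (fun n => lo ≤ n ∧ n < hi) := by
      ext n
      rw [Finset.mem_Ico, Finset.mem_filter, Finset.mem_Ioc]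
      constructor
      · intro h; exact ⟨⟨by omega, by omega⟩, h⟩
      · intro h; exact h.2
    rw [e1, Finset.sum_filter]
    apply Finset.sum_congr rfl
    intro n _
    split_ifs <;> simp
  rw [h1, h2, ← Finset.sum_sub_distrib]
  refine (norm_sum_le _ _).trans ?_
  have h3 : ∀ n ∈ Finset.Ioc 0 Nn, ‖v n * ((Λ n * KW h lo hi n : ℝ) : ℂ) -
      v n * ((Λ n * (if lo ≤ n ∧ n < hi then 1 else 0) : ℝ) : ℂ)‖ ≤
      Real.log Nn * ((if n ∈ Finset.Ioc 0 (3 * hi) then 2 * h else 0) +
        ((if |Real.log lo - Real.log n| < h then 1 else 0) + (if |Real.log hi - Real.log n| < h then 1 else 0))) := by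
    intro n hn
    rw [Finset.mem_Ioc] at hn
    have hn0 : (0 : ℝ) < n := by exact_mod_cast hn.1
    have hL : 0 ≤ ArithmeticFunction.vonMangoldt n := ArithmeticFunction.vonMangoldt_nonneg
    have hL2 : ArithmeticFunction.vonMangoldt n ≤ Real.log Nn :=
      ArithmeticFunction.vonMangoldt_le_log.trans (Real.log_le_log hn0 (by exact_mod_cast hn.2))
    rw [← mul_sub, ← Complex.ofReal_sub, ← mul_sub, norm_mul, Complex.norm_real, Real.norm_eq_abs, abs_mul,
      abs_of_nonneg hL]
    have k1 := KW_near hh hh1 hlo1 hlh hn.1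
    have k2 := IW_near hh hlo1 hlh hn.1
    obtain ⟨b1, b2⟩ := IW_bounds (n := n) hh hlo1 hlh
    have k3 : 2 * h * IW h lo hi n ≤ (if n ∈ Finset.Ioc 0 (3 * hi) then 2 * h else 0) := by
      split_ifs with h4
      · nlinarith
      · have h5 : 3 * hi < n := by
          rw [Finset.mem_Ioc] at h4
          omega
        have h6 : IW h lo hi n = 0 := by
          unfold IW
          rw [intervalIntegral.integral_congr (g := fun _ => (0 : ℝ))]
          · simp
          · intro z hz'
            rw [uIcc_of_le hle] at hz'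
            apply tri_zero_of hh
            have h7 : Real.log hi + 1 ≤ Real.log n := by
              rw [Real.le_log_iff_exp_le hn0, Real.exp_add, Real.exp_log hhi0]
              have h8 : Real.exp 1 ≤ 3 := by linarith [Real.exp_one_lt_d9]
              have h9 : (3 : ℝ) * hi ≤ n := by exact_mod_cast h5.le
              nlinarith
            rw [abs_of_nonpos (by linarith [hz'.2])]
            linarith [hz'.2]
        rw [h6, mul_zero]
    have k4 : |KW h lo hi n - (if lo ≤ n ∧ n < hi then 1 else 0)| ≤
        (if n ∈ Finset.Ioc 0 (3 * hi) then 2 * h else 0) +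
        ((if |Real.log lo - Real.log n| < h then 1 else 0) + (if |Real.log hi - Real.log n| < h then 1 else 0)) := by
      have e : KW h lo hi n - (if lo ≤ n ∧ n < hi then 1 else 0) =
          (KW h lo hi n - IW h lo hi n) + (IW h lo hi n - (if lo ≤ n ∧ n < hi then 1 else 0)) := by ring
      rw [e]
      exact (abs_add_le _ _).trans (add_le_add (k1.trans k3) k2)
    calc ‖v n‖ * (ArithmeticFunction.vonMangoldt n * |KW h lo hi n - (if lo ≤ n ∧ n < hi then 1 else 0)|) ≤
        1 * (Real.log Nn * ((if n ∈ Finset.Ioc 0 (3 * hi) then 2 * h else 0) +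
        ((if |Real.log lo - Real.log n| < h then 1 else 0) + (if |Real.log hi - Real.log n| < h then 1 else 0)))) := by
          apply mul_le_mul (hv n) _ (by positivity) zero_le_one
          exact mul_le_mul hL2 k4 (abs_nonneg _) hLg
      _ = _ := one_mul _
  refine (Finset.sum_le_sum h3).trans ?_
  rw [← Finset.mul_sum, Finset.sum_add_distrib, Finset.sum_add_distrib]
  have c1 : ∑ n ∈ Finset.Ioc 0 Nn, (if n ∈ Finset.Ioc 0 (3 * hi) then 2 * h else 0) ≤ 6 * (h * hi) := by
    rw [← Finset.sum_filter, Finset.sum_const, nsmul_eq_mul]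
    have : ((Finset.Ioc 0 Nn).filter (fun n => n ∈ Finset.Ioc 0 (3 * hi))).card ≤ 3 * hi := by
      have h4 : (Finset.Ioc 0 Nn).filter (fun n => n ∈ Finset.Ioc 0 (3 * hi)) ⊆ Finset.Ioc 0 (3 * hi) := by
        intro n hn
        exact (Finset.mem_filter.1 hn).2
      have h5 := Finset.card_le_card h4
      rwa [Nat.card_Ioc, Nat.sub_zero] at h5
    have h6 : (((Finset.Ioc 0 Nn).filter (fun n => n ∈ Finset.Ioc 0 (3 * hi))).card : ℝ) ≤ 3 * hi := by
      exact_mod_cast this
    nlinarith
  have c2 : ∑ n ∈ Finset.Ioc 0 Nn, (if |Real.log lo - Real.log n| < h then (1 : ℝ) else 0) ≤ 7 * (h * lo) := by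
    rw [← Finset.sum_filter, Finset.sum_const, nsmul_eq_mul, mul_one]
    exact card_window hh hh1 (Finset.Ioc 0 Nn) lo hlo1 (fun m hm => (Finset.mem_Ioc.1 hm).1) hlo
  have c3 : ∑ n ∈ Finset.Ioc 0 Nn, (if |Real.log hi - Real.log n| < h then (1 : ℝ) else 0) ≤ 7 * (h * hi) := by
    rw [← Finset.sum_filter, Finset.sum_const, nsmul_eq_mul, mul_one]
    exact card_window hh hh1 (Finset.Ioc 0 Nn) hi hhi1 (fun m hm => (Finset.mem_Ioc.1 hm).1) hhih
  have c4 : h * lo ≤ h * hi := mul_le_mul_of_nonneg_left (by exact_mod_cast hlh) hh.le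
  calc Real.log Nn * _ ≤ Real.log Nn * (20 * (h * hi)) := by
        apply mul_le_mul_of_nonneg_left _ hLg
        linarith
    _ = _ := by ring

end Pool.Agent.P8H13.GK
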