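import Pool.Agent.P8H13.GK.Sharp
import Pool.Agent.P8H13.PK.Sup

set_option autoImplicit false

/-!
# The primes in intervals at all fractions, in mean square
-/

open Complex Filter Topology Set MeasureTheory Metric
open scoped Real
open scoped ArithmeticFunction.vonMangoldt

namespace Pool.Agent.P8H13.GK

open Pool.Agent.W66 Pool.Agent.W66L
open Pool.Agent.TH823.PS (rr mem_rr)
open Pool.Agent.P8H13.PK (th th_nonneg th_le sum_La_sub_th)

/-- the exponential sum over primes in an interval -/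
noncomputable def SS (q a lo hi : ℕ) : ℂ :=
  ∑ n ∈ Finset.Ico lo hi, Pool.Agent.Helper112.ee (n * a / q) * ((th n : ℝ) : ℂ)

/-- adding up the windows -/
lemma sum_windows {f : ℝ → ℝ} (hf : Continuous f) (hf0 : ∀ z, 0 ≤ f z) {W H X : ℕ} (hW : 1 ≤ W) (hH : 1 ≤ H)
    (hX : 2 * H ≤ X) :
    ∑ x ∈ Finset.Ico (2 * H) X, ∫ z in (Real.log ((W * (x + 1 - H) : ℕ) : ℝ))..(Real.log ((W * (x + 1) : ℕ) : ℝ)), f z ≤
      H * ∫ z in (Real.log ((W * H : ℕ) : ℝ))..(Real.log ((W * X : ℕ) : ℝ)), f z := by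
  set a : ℕ → ℝ := fun k => Real.log ((W * k : ℕ) : ℝ) with ha
  set φ : ℕ → ℝ := fun y => ∫ z in (a y)..(a (y + 1)), f z with hφ
  have hφ0 : ∀ y, 1 ≤ y → 0 ≤ φ y := by
    intro y hy
    apply intervalIntegral.integral_nonneg
    · apply Real.log_le_log
      · exact_mod_cast Nat.mul_pos hW hy
      · exact_mod_cast Nat.mul_le_mul_left W (Nat.le_succ y)
    · intro z _
      exact hf0 z
  have h1 : ∀ x ∈ Finset.Ico (2 * H) X, ∫ z in (Real.log ((W * (x + 1 - H) : ℕ) : ℝ))..(Real.log ((W * (x + 1) : ℕ) : ℝ)), f z =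
      ∑ y ∈ Finset.Ico (x + 1 - H) (x + 1), φ y := by
    intro x hx
    exact (intervalIntegral.sum_integral_adjacent_intervals_Ico (f := f) (μ := volume) (a := a) (m := x + 1 - H) (n := x + 1)
      (by omega) (fun k _ => hf.intervalIntegrable _ _)).symm
  have h2 : ∫ z in (Real.log ((W * H : ℕ) : ℝ))..(Real.log ((W * X : ℕ) : ℝ)), f z = ∑ y ∈ Finset.Ico H X, φ y :=
    (intervalIntegral.sum_integral_adjacent_intervals_Ico (f := f) (μ := volume) (a := a) (m := H) (n := X)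
      (by omega) (fun k _ => hf.intervalIntegrable _ _)).symm
  rw [Finset.sum_congr rfl h1, h2, Finset.mul_sum]
  rw [Finset.sum_comm' (t' := Finset.Ico H X)
    (s' := fun y => (Finset.Ico (2 * H) X).filter (fun x => x + 1 - H ≤ y ∧ y < x + 1))]
  · apply Finset.sum_le_sum
    intro y hy
    rw [Finset.mem_Ico] at hy
    rw [Finset.sum_const, nsmul_eq_mul]
    apply mul_le_mul_of_nonneg_right _ (hφ0 y (by omega))
    have h3 : (Finset.Ico (2 * H) X).filter (fun x => x + 1 - H ≤ y ∧ y < x + 1) ⊆ Finset.Ico y (y + H) := by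
      intro x hx
      rw [Finset.mem_filter, Finset.mem_Ico] at hx
      rw [Finset.mem_Ico]
      omega
    have h4 := Finset.card_le_card h3
    rw [Nat.card_Ico, Nat.add_sub_cancel_left] at h4
    exact_mod_cast h4
  · intro x y
    simp only [Finset.mem_Ico, Finset.mem_filter]
    omega

/-- the inequality of Cauchy and Schwarz -/
lemma cs_exp {D : ℝ → ℂ} (hD : Continuous D) {lo hi : ℕ} (hlo : 1 ≤ lo) (hlh : lo < hi) :
    ‖∫ z in (Real.log lo)..(Real.log hi), ((Real.exp z : ℝ) : ℂ) * D z‖ ^ 2 ≤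
      ((hi : ℝ) - lo) * ∫ z in (Real.log lo)..(Real.log hi), Real.exp z * ‖D z‖ ^ 2 := by
  have hlo0 : (0 : ℝ) < lo := by exact_mod_cast hlo
  have hhi0 : (0 : ℝ) < hi := by exact_mod_cast (by omega : 0 < hi)
  have hlh' : (lo : ℝ) < hi := by exact_mod_cast hlh
  have hle : Real.log lo ≤ Real.log hi := Real.log_le_log hlo0 hlh'.le
  set A := ∫ z in (Real.log lo)..(Real.log hi), Real.exp z * ‖D z‖ with hA
  set B := ∫ z in (Real.log lo)..(Real.log hi), Real.exp z * ‖D z‖ ^ 2 with hB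
  set V := (hi : ℝ) - lo with hV
  have hV0 : 0 < V := by rw [hV]; linarith
  have hVi : ∫ z in (Real.log lo)..(Real.log hi), Real.exp z = V := by
    rw [integral_exp, Real.exp_log hhi0, Real.exp_log hlo0]
  have h1 : ‖∫ z in (Real.log lo)..(Real.log hi), ((Real.exp z : ℝ) : ℂ) * D z‖ ≤ A := by
    refine (intervalIntegral.norm_integral_le_integral_norm hle).trans (le_of_eq ?_)
    rw [hA]
    congr 1
    ext z
    rw [norm_mul, Complex.norm_real, Real.norm_of_nonneg (Real.exp_pos z).le]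
  have hA0 : 0 ≤ A := (norm_nonneg _).trans h1
  set s := A / V with hs
  have h2 : 0 ≤ ∫ z in (Real.log lo)..(Real.log hi), Real.exp z * (‖D z‖ - s) ^ 2 :=
    intervalIntegral.integral_nonneg hle fun z _ => by positivity
  have h3 : ∫ z in (Real.log lo)..(Real.log hi), Real.exp z * (‖D z‖ - s) ^ 2 = B - 2 * s * A + s ^ 2 * V := by
    have e1 : ∀ z, Real.exp z * (‖D z‖ - s) ^ 2 =
        Real.exp z * ‖D z‖ ^ 2 - 2 * s * (Real.exp z * ‖D z‖) + s ^ 2 * Real.exp z := by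
      intro z; ring
    simp only [e1]
    rw [intervalIntegral.integral_add, intervalIntegral.integral_sub, intervalIntegral.integral_const_mul,
      intervalIntegral.integral_const_mul, hVi]
    · apply Continuous.intervalIntegrable; fun_prop
    · apply Continuous.intervalIntegrable; fun_prop
    · apply Continuous.intervalIntegrable; fun_prop
    · apply Continuous.intervalIntegrable; fun_prop
  rw [h3] at h2
  have h4 : A ^ 2 ≤ V * B := by
    have e1 : B - 2 * s * A + s ^ 2 * V = (V * B - A ^ 2) / V := by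
      rw [hs]; field_simp; ring
    rw [e1] at h2
    have := (div_nonneg_iff.1 h2)
    rcases this with h | h
    · linarith [h.1]
    · linarith [h.2]
  calc _ ≤ A ^ 2 := by gcongr
    _ ≤ _ := h4

/-- one interval -/
lemma one_window {h : ℝ} (hh : 0 < h) (hh1 : h ≤ 1) {lo hi Nn : ℕ} (hlo : 1 ≤ h * lo) (hlh : lo < hi)
    (hN : 3 * hi ≤ Nn) (q a : ℕ) (m : ℂ) {Y : ℝ} (hY : (hi : ℝ) ≤ Y) :
    ‖SS q a lo hi - m * ((hi : ℝ) - lo)‖ ^ 2 ≤
      2 * (((hi : ℝ) - lo) * ∫ z in (Real.log lo)..(Real.log hi), Real.exp z * ‖TA q a h Nn z - m‖ ^ 2) +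
      2 * (20 * h * Y * Real.log Nn + 2 * √Y * Real.log Nn) ^ 2 := by
  have hlo1 : 1 ≤ lo := by
    by_contra hc
    have : lo = 0 := by omega
    rw [this] at hlo
    norm_num at hlo
  have hlo0 : (0 : ℝ) < lo := by exact_mod_cast hlo1
  have hhi0 : (0 : ℝ) < hi := by exact_mod_cast (by omega : 0 < hi)
  have hLg : 0 ≤ Real.log Nn := Real.log_natCast_nonneg _
  have hle : Real.log lo ≤ Real.log hi := Real.log_le_log hlo0 (by exact_mod_cast hlh.le)
  set v : ℕ → ℂ := fun n => Pool.Agent.Helper112.ee (n * a / q) with hv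
  have hv1 : ∀ n, ‖v n‖ ≤ 1 := fun n => (Pool.Agent.Helper112.ls_norm_ee _).le
  have h1 := sharp_one hh hh1 hlo hlh.le hN v hv1
  have hTc := TG_continuous v h Nn
  have h2 : ∫ z in (Real.log lo)..(Real.log hi), ((Real.exp z : ℝ) : ℂ) * (TA q a h Nn z - m) =
      (∫ z in (Real.log lo)..(Real.log hi), ((Real.exp z : ℝ) : ℂ) * TG v h Nn z) - m * ((hi : ℝ) - lo) := by
    have e1 : ∀ z, ((Real.exp z : ℝ) : ℂ) * (TA q a h Nn z - m) =
        ((Real.exp z : ℝ) : ℂ) * TG v h Nn z - m * ((Real.exp z : ℝ) : ℂ) := by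
      intro z
      unfold TA
      ring
    simp only [e1]
    rw [intervalIntegral.integral_sub, intervalIntegral.integral_const_mul, intervalIntegral.integral_ofReal,
      integral_exp, Real.exp_log hhi0, Real.exp_log hlo0]
    · push_cast; ring
    · apply Continuous.intervalIntegrable; fun_prop
    · apply Continuous.intervalIntegrable; fun_prop
  have h3 : ‖SS q a lo hi - ∑ n ∈ Finset.Ico lo hi, v n * ((Λ n : ℝ) : ℂ)‖ ≤ 2 * √Y * Real.log Nn := by
    unfold SS
    rw [← Finset.sum_sub_distrib]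
    refine (norm_sum_le _ _).trans ?_
    have e1 : ∀ n ∈ Finset.Ico lo hi, ‖Pool.Agent.Helper112.ee (n * a / q) * ((th n : ℝ) : ℂ) - v n * ((Λ n : ℝ) : ℂ)‖ ≤
        ArithmeticFunction.vonMangoldt n - th n := by
      intro n _
      rw [← mul_sub, norm_mul, Pool.Agent.Helper112.ls_norm_ee, one_mul, ← Complex.ofReal_sub, Complex.norm_real,
        Real.norm_eq_abs, abs_sub_comm, abs_of_nonneg (by linarith [th_le n])]
    refine (Finset.sum_le_sum e1).trans ?_
    have e2 : ∑ n ∈ Finset.Ico lo hi, (ArithmeticFunction.vonMangoldt n - th n) ≤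
        ∑ n ∈ Finset.Icc 1 hi, (ArithmeticFunction.vonMangoldt n - th n) := by
      apply Finset.sum_le_sum_of_subset_of_nonneg
      · intro n hn
        rw [Finset.mem_Ico] at hn
        rw [Finset.mem_Icc]
        omega
      · intro n _ _
        linarith [th_le n]
    refine e2.trans ((sum_La_sub_th (by omega)).trans ?_)
    have e3 : √(hi : ℝ) ≤ √Y := Real.sqrt_le_sqrt hY
    have e4 : Real.log hi ≤ Real.log Nn := Real.log_le_log hhi0 (by exact_mod_cast (by omega : hi ≤ Nn))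
    have e5 : 0 ≤ Real.log hi := Real.log_natCast_nonneg _
    gcongr
  have h4 : ‖SS q a lo hi - m * ((hi : ℝ) - lo)‖ ≤
      ‖∫ z in (Real.log lo)..(Real.log hi), ((Real.exp z : ℝ) : ℂ) * (TA q a h Nn z - m)‖ +
      (20 * h * Y * Real.log Nn + 2 * √Y * Real.log Nn) := by
    have e1 : SS q a lo hi - m * ((hi : ℝ) - lo) =
        (∫ z in (Real.log lo)..(Real.log hi), ((Real.exp z : ℝ) : ℂ) * (TA q a h Nn z - m)) +
        ((SS q a lo hi - ∑ n ∈ Finset.Ico lo hi, v n * ((Λ n : ℝ) : ℂ)) -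
        ((∫ z in (Real.log lo)..(Real.log hi), ((Real.exp z : ℝ) : ℂ) * TG v h Nn z) -
          ∑ n ∈ Finset.Ico lo hi, v n * ((Λ n : ℝ) : ℂ))) := by
      rw [h2]; ring
    rw [e1]
    refine (norm_add_le _ _).trans (add_le_add le_rfl ?_)
    refine (norm_sub_le _ _).trans ?_
    have e2 : 20 * h * hi * Real.log Nn ≤ 20 * h * Y * Real.log Nn := by gcongr
    linarith
  have h5 := cs_exp (D := fun z => TA q a h Nn z - m) (by
    unfold TA
    fun_prop) hlo1 hlh
  set I := ‖∫ z in (Real.log lo)..(Real.log hi), ((Real.exp z : ℝ) : ℂ) * (TA q a h Nn z - m)‖ with hI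
  set Er := 20 * h * Y * Real.log Nn + 2 * √Y * Real.log Nn with hEr
  have h6 : ‖SS q a lo hi - m * ((hi : ℝ) - lo)‖ ^ 2 ≤ (I + Er) ^ 2 := by gcongr
  have h7 : (I + Er) ^ 2 = 2 * I ^ 2 + 2 * Er ^ 2 - (I - Er) ^ 2 := by ring
  have h8 := sq_nonneg (I - Er)
  rw [h7] at h6
  linarith

/-- the number of the fractions -/
lemma card_fracs (F : ℕ) : ∑ q ∈ Finset.Icc 1 F, ((rr q).card : ℝ) ≤ (F : ℝ) ^ 2 := by
  have h1 : ∀ q ∈ Finset.Icc 1 F, ((rr q).card : ℝ) ≤ F := by
    intro q hq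
    rw [Finset.mem_Icc] at hq
    exact_mod_cast (card_rr_le q).trans hq.2
  refine (Finset.sum_le_sum h1).trans (le_of_eq ?_)
  rw [Finset.sum_const, Nat.card_Icc, Nat.add_sub_cancel, nsmul_eq_mul]
  ring

/-- **the primes in intervals at all fractions with small denominators, in mean square** -/
theorem AD (A : ℕ) {c C : ℝ} (hc : 0 < c) (hc8 : c ≤ 1 / 8) (hC : 0 < C) : ∃ c0 Z0 : ℝ, 0 < c0 ∧ 1 ≤ Z0 ∧
    ∀ (R lam h β : ℝ) (W H X : ℕ), Reg c C R → R = 2 * lam → h = Real.exp (-lam) → 1 ≤ W → 1 ≤ H → 2 * H ≤ X →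
    β = Real.log ((W * X : ℕ) : ℝ) → Z0 ≤ β → √β ≤ lam → lam * Real.log β ≤ c0 * β →
    β / 2 + 1 ≤ Real.log ((W * H : ℕ) : ℝ) → 1 ≤ h * ((W * H : ℕ) : ℝ) →
    ∀ F : ℕ, 1 ≤ F → (F : ℝ) ≤ Real.exp lam →
    ∑ q ∈ Finset.Icc 1 F, ∑ a ∈ rr q, ∑ x ∈ Finset.Ico (2 * H) X,
      ‖SS q a (W * (x + 1 - H)) (W * (x + 1)) -
        ((ArithmeticFunction.moebius q : ℤ) : ℂ) / q.totient * ((W * H : ℕ) : ℝ)‖ ^ 2 ≤
      2 * (((W * H : ℕ) : ℝ) ^ 2 * X) * (2 ^ A * (β / β ^ A)) +
      2 * (F : ℝ) ^ 2 * X * (20 * h * ((W * X : ℕ) : ℝ) * Real.log ((9 * (W * X) : ℕ) : ℝ) +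
        2 * √((W * X : ℕ) : ℝ) * Real.log ((9 * (W * X) : ℕ) : ℝ)) ^ 2 := by
  obtain ⟨c0, Z0, hc0, hZ0, hS⟩ := SAD A hc hc8 hC
  refine ⟨c0 / 2, max (2 * Z0) 4, by positivity, by
    refine le_trans ?_ (le_max_right _ _); norm_num,
    fun R lam h β W H X hReg hR hh hW hH hX hβ hβZ hlam1 hlam2 hαβ hhV F hF1 hF => ?_⟩
  have hβ4 : 4 ≤ β := (le_max_right _ _).trans hβZ
  have hβZ0 : 2 * Z0 ≤ β := (le_max_left _ _).trans hβZ
  have hβ0 : 0 < β := by linarith
  have hh0 : 0 < h := by rw [hh]; exact Real.exp_pos _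
  have hlam0 : 0 ≤ lam := (Real.sqrt_nonneg _).trans hlam1
  have hh1 : h ≤ 1 := by rw [hh]; exact Real.exp_le_one_iff.2 (by linarith)
  set V : ℕ := W * H with hV
  set Y : ℕ := W * X with hY
  set Nn : ℕ := 9 * Y with hNn
  have hV1 : 1 ≤ V := Nat.mul_pos hW hH
  have hX1 : 1 ≤ X := by omega
  have hY1 : 1 ≤ Y := Nat.mul_pos hW hX1
  have hY0 : (0 : ℝ) < Y := by exact_mod_cast hY1
  have hVY : V ≤ Y := Nat.mul_le_mul_left W (by omega)
  have hexpβ : Real.exp β = Y := by rw [hβ, Real.exp_log hY0]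
  set α := Real.log (V : ℝ) with hα
  have hαβ' : α ≤ β := by
    rw [hβ]; exact Real.log_le_log (by exact_mod_cast hV1) (by exact_mod_cast hVY)
  set Er := 20 * h * (Y : ℝ) * Real.log (Nn : ℝ) + 2 * √(Y : ℝ) * Real.log (Nn : ℝ) with hEr
  set mq : ℕ → ℂ := fun q => ((ArithmeticFunction.moebius q : ℤ) : ℂ) / q.totient with hmq
  set f : ℕ → ℕ → ℝ → ℝ := fun q a z => Real.exp z * ‖TA q a h Nn z - mq q‖ ^ 2 with hf
  have hfc : ∀ q a, Continuous (f q a) := by
    intro q a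
    have := TG_continuous (fun n => Pool.Agent.Helper112.ee (n * a / q)) h Nn
    simp only [hf]
    unfold TA
    fun_prop
  have hf0 : ∀ q a z, 0 ≤ f q a z := fun q a z => by simp only [hf]; positivity
  -- one fraction
  have h1 : ∀ q a : ℕ, ∑ x ∈ Finset.Ico (2 * H) X, ‖SS q a (W * (x + 1 - H)) (W * (x + 1)) - mq q * (V : ℝ)‖ ^ 2 ≤
      2 * (V * (H * ∫ z in α..β, f q a z)) + X * (2 * Er ^ 2) := by
    intro q a
    have e1 : ∀ x ∈ Finset.Ico (2 * H) X, ‖SS q a (W * (x + 1 - H)) (W * (x + 1)) - mq q * (V : ℝ)‖ ^ 2 ≤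
        2 * (V * ∫ z in (Real.log ((W * (x + 1 - H) : ℕ) : ℝ))..(Real.log ((W * (x + 1) : ℕ) : ℝ)), f q a z) + 2 * Er ^ 2 := by
      intro x hx
      rw [Finset.mem_Ico] at hx
      have a1 : H ≤ x + 1 - H := by omega
      have a2 : W * H ≤ W * (x + 1 - H) := Nat.mul_le_mul_left W a1
      have a3 : W * (x + 1) ≤ W * X := Nat.mul_le_mul_left W (by omega)
      have a4 : W * (x + 1) = W * (x + 1 - H) + W * H := by
        rw [← mul_add]; congr 1; omega
      have a5 := one_window hh0 hh1 (lo := W * (x + 1 - H)) (hi := W * (x + 1)) (Nn := Nn)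
        (hhV.trans (mul_le_mul_of_nonneg_left (by exact_mod_cast a2) hh0.le)) (by omega) (by omega) q a (mq q)
        (Y := (Y : ℝ)) (by exact_mod_cast a3)
      have a6 : (((W * (x + 1) : ℕ) : ℝ)) - ((W * (x + 1 - H) : ℕ) : ℝ) = (V : ℝ) := by
        rw [a4]; push_cast [hV]; ring
      have a6' : (((W * (x + 1) : ℕ) : ℝ) : ℂ) - ((W * (x + 1 - H) : ℕ) : ℂ) = ((V : ℝ) : ℂ) := by
        have a7 : ((W * (x + 1) : ℕ) : ℂ) = ((W * (x + 1 - H) : ℕ) : ℂ) + ((W * H : ℕ) : ℂ) := by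
          rw [← Nat.cast_add, ← a4]
        rw [hV, Complex.ofReal_natCast, Complex.ofReal_natCast, a7]
        ring
      rw [a6, a6'] at a5
      exact a5
    refine (Finset.sum_le_sum e1).trans ?_
    rw [Finset.sum_add_distrib, Finset.sum_const, Nat.card_Ico, nsmul_eq_mul, ← Finset.mul_sum, ← Finset.mul_sum]
    have e2 := sum_windows (hfc q a) (hf0 q a) hW hH hX
    have e3 : ((X - 2 * H : ℕ) : ℝ) ≤ X := by exact_mod_cast Nat.sub_le _ _
    have e4 : ((X - 2 * H : ℕ) : ℝ) * (2 * Er ^ 2) ≤ X * (2 * Er ^ 2) := mul_le_mul_of_nonneg_right e3 (by positivity)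
    have e5 : (V : ℝ) * ∑ x ∈ Finset.Ico (2 * H) X, ∫ z in (Real.log ((W * (x + 1 - H) : ℕ) : ℝ))..(Real.log ((W * (x + 1) : ℕ) : ℝ)), f q a z ≤
        V * (H * ∫ z in α..β, f q a z) := by
      apply mul_le_mul_of_nonneg_left _ (Nat.cast_nonneg _)
      rw [hβ, hα]
      exact e2
    linarith
  -- the unit windows
  set n := ⌈β - α⌉₊ with hn
  have hn1 : β - α ≤ n := Nat.le_ceil _
  have hn2 : (n : ℝ) < β - α + 1 := Nat.ceil_lt_add_one (by linarith)
  have h2 : ∀ q a : ℕ, ∫ z in α..β, f q a z ≤ ∑ j ∈ Finset.range n,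
      Y * ∫ z in (β - (j + 1))..(β - (j + 1) + 1), ‖TA q a h Nn z - mq q‖ ^ 2 := by
    intro q a
    have e1 : ∫ z in α..β, f q a z ≤ ∫ z in (β - n)..β, f q a z := by
      apply intervalIntegral.integral_mono_interval (by linarith) hαβ' le_rfl
      · exact Eventually.of_forall fun z => hf0 q a z
      · exact (hfc q a).intervalIntegrable _ _
    refine e1.trans ?_
    have e2 : ∀ m : ℕ, ∫ z in (β - m)..β, f q a z = ∑ j ∈ Finset.range m, ∫ z in (β - (j + 1))..(β - (j + 1) + 1), f q a z := by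
      intro m
      induction m with
      | zero => simp
      | succ m ih =>
        have e3 : β - (m + 1) + 1 = β - (m : ℝ) := by ring
        have e4 := intervalIntegral.integral_add_adjacent_intervals (μ := volume)
          ((hfc q a).intervalIntegrable (β - ((m : ℝ) + 1)) (β - m))
          ((hfc q a).intervalIntegrable (β - (m : ℝ)) β)
        rw [Finset.sum_range_succ, ← ih, e3]
        push_cast
        rw [← e4]
        ring
    rw [e2]
    apply Finset.sum_le_sum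
    intro j _
    rw [← intervalIntegral.integral_const_mul]
    apply intervalIntegral.integral_mono_on (by linarith)
    · exact (hfc q a).intervalIntegrable _ _
    · apply Continuous.intervalIntegrable
      have := TG_continuous (fun n => Pool.Agent.Helper112.ee (n * a / q)) h Nn
      unfold TA
      fun_prop
    · intro z hz
      simp only [hf]
      apply mul_le_mul_of_nonneg_right _ (by positivity)
      rw [← hexpβ]
      apply Real.exp_le_exp.2
      have : (0 : ℝ) ≤ j := Nat.cast_nonneg _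
      linarith [hz.2]
  -- the sum over the fractions
  have h3 : ∀ j ∈ Finset.range n, ∑ q ∈ Finset.Icc 1 F, ∑ a ∈ rr q,
      ∫ z in (β - (j + 1))..(β - (j + 1) + 1), ‖TA q a h Nn z - mq q‖ ^ 2 ≤ 2 ^ A / β ^ A := by
    intro j hj
    rw [Finset.mem_range] at hj
    have hj' : (j : ℝ) + 1 ≤ n := by exact_mod_cast hj
    have hj0 : (0 : ℝ) ≤ j := Nat.cast_nonneg _
    set Zj := β - (j + 1) with hZj
    have hZj1 : β / 2 ≤ Zj := by linarith
    have hZj2 : Zj ≤ β := by linarith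
    have hZj0 : 0 < Zj := by linarith
    have e1 := hS R lam Zj h (by linarith) hReg hR hh (le_trans (Real.sqrt_le_sqrt hZj2) hlam1) (by
      have e2 : Real.log Zj ≤ Real.log β := Real.log_le_log hZj0 hZj2
      have e3 : lam * Real.log Zj ≤ lam * Real.log β := mul_le_mul_of_nonneg_left e2 hlam0
      have e4 : c0 / 2 * β ≤ c0 * Zj := by nlinarith
      linarith) F hF1 hF Nn (by
      have e2 : Real.exp (Zj + 2) ≤ Real.exp (β + 1) := Real.exp_le_exp.2 (by linarith)
      rw [Real.exp_add β 1, hexpβ] at e2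
      have e3 : Real.exp 1 ≤ 9 := by linarith [Real.exp_one_lt_d9]
      have e4 : (Nn : ℝ) = 9 * Y := by rw [hNn]; push_cast; ring
      rw [e4]
      nlinarith)
    refine e1.trans ?_
    rw [div_le_div_iff₀ (by positivity) (by positivity), one_mul]
    calc β ^ A ≤ (2 * Zj) ^ A := by
          gcongr
          linarith
      _ = 2 ^ A * Zj ^ A := mul_pow _ _ _
  have h4 : ∑ q ∈ Finset.Icc 1 F, ∑ a ∈ rr q, ∫ z in α..β, f q a z ≤ Y * (β * (2 ^ A / β ^ A)) := by
    calc ∑ q ∈ Finset.Icc 1 F, ∑ a ∈ rr q, ∫ z in α..β, f q a z ≤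
        ∑ q ∈ Finset.Icc 1 F, ∑ a ∈ rr q, ∑ j ∈ Finset.range n,
          Y * ∫ z in (β - (j + 1))..(β - (j + 1) + 1), ‖TA q a h Nn z - mq q‖ ^ 2 :=
          Finset.sum_le_sum fun q _ => Finset.sum_le_sum fun a _ => h2 q a
      _ = ∑ j ∈ Finset.range n, Y * ∑ q ∈ Finset.Icc 1 F, ∑ a ∈ rr q,
          ∫ z in (β - (j + 1))..(β - (j + 1) + 1), ‖TA q a h Nn z - mq q‖ ^ 2 := by
          simp only [Finset.mul_sum]
          rw [Finset.sum_comm]
          simp_rw [Finset.sum_comm (s := rr _)]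
      _ ≤ ∑ j ∈ Finset.range n, Y * (2 ^ A / β ^ A) :=
          Finset.sum_le_sum fun j hj => mul_le_mul_of_nonneg_left (h3 j hj) hY0.le
      _ = n * (Y * (2 ^ A / β ^ A)) := by rw [Finset.sum_const, Finset.card_range, nsmul_eq_mul]
      _ ≤ β * (Y * (2 ^ A / β ^ A)) := by
          apply mul_le_mul_of_nonneg_right _ (by positivity)
          linarith
      _ = _ := by ring
  have hVH : (V : ℝ) = W * H := by rw [hV]; push_cast; ring
  have hYX : (Y : ℝ) = W * X := by rw [hY]; push_cast; ring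
  calc _ ≤ ∑ q ∈ Finset.Icc 1 F, ∑ a ∈ rr q, (2 * (V * (H * ∫ z in α..β, f q a z)) + X * (2 * Er ^ 2)) :=
        Finset.sum_le_sum fun q _ => Finset.sum_le_sum fun a _ => h1 q a
    _ = 2 * (V * (H * ∑ q ∈ Finset.Icc 1 F, ∑ a ∈ rr q, ∫ z in α..β, f q a z)) +
        (∑ q ∈ Finset.Icc 1 F, ((rr q).card : ℝ)) * (X * (2 * Er ^ 2)) := by
        simp only [Finset.sum_add_distrib, Finset.sum_const, nsmul_eq_mul, Finset.mul_sum, Finset.sum_mul]
    _ ≤ 2 * (V * (H * (Y * (β * (2 ^ A / β ^ A))))) + (F : ℝ) ^ 2 * (X * (2 * Er ^ 2)) := by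
        have := card_fracs F
        gcongr
    _ = _ := by
        rw [hVH, hYX]
        ring

end Pool.Agent.P8H13.GK
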