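import Pool.Agent.P8H13.GK.MajE
import Pool.Agent.P8H13.PK.Pair

set_option autoImplicit false

/-!
# Splitting the correlations into the major and the minor frequencies
-/

namespace Pool.Agent.P8H13.GK

open Finset
open Pool.Agent.H807R2.Dav
open Pool.Agent.TH823.PS (rr mem_rr)
open Pool.Agent.P8H13.PK

lemma pars_neg {X : ℕ} (hX : 0 < X) (G : ℕ → ℂ) :
    ∑ h ∈ range X, ‖∑ k ∈ range X, G k * ee (-(h * ((k : ℝ) / X)))‖ ^ 2 = X * ∑ k ∈ range X, ‖G k‖ ^ 2 := by
  have h1 := pars hX (fun k => (starRingEnd ℂ) (G k))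
  have h2 : ∀ k ∈ range X, ‖(starRingEnd ℂ) (G k)‖ ^ 2 = ‖G k‖ ^ 2 := by
    intro k _
    rw [RCLike.norm_conj]
  rw [sum_congr rfl h2] at h1
  rw [← h1]
  apply sum_congr rfl
  intro h _
  congr 1
  rw [← RCLike.norm_conj, map_sum]
  congr 1
  apply sum_congr rfl
  intro k _
  rw [map_mul, conj_ee, neg_neg]
  congr 2
  ring

lemma pars_half {T : ℕ} (hT : 0 < T) (w : ℕ → ℂ) :
    ∑ k ∈ range (2 * T), ‖∑ s ∈ range T, w s * ee (s * ((k : ℝ) / (2 * T : ℕ)))‖ ^ 2 = (2 * T : ℕ) * ∑ t ∈ range T, ‖w t‖ ^ 2 := by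
  set X := 2 * T with hX
  have hX0 : 0 < X := by omega
  have h5 := pars hX0 (fun t => if t < T then w t else 0)
  have h6 : ∀ k ∈ range X, ‖∑ s ∈ range T, w s * ee (s * ((k : ℝ) / X))‖ ^ 2 =
      ‖∑ t ∈ range X, (if t < T then w t else 0) * ee (t * ((k : ℝ) / X))‖ ^ 2 := by
    intro k _
    congr 2
    have h7 : ∀ t ∈ range X, (if t < T then w t else 0) * ee (t * ((k : ℝ) / X)) =
        if t < T then w t * ee (t * ((k : ℝ) / X)) else 0 := by
      intro t _
      split_ifs <;> simp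
    rw [sum_congr rfl h7, ← sum_filter]
    apply sum_congr _ fun _ _ => rfl
    ext t
    rw [mem_filter, mem_range, mem_range]
    omega
  rw [sum_congr rfl h6, h5]
  congr 1
  have h7 : ∀ t ∈ range X, ‖(if t < T then w t else 0)‖ ^ 2 = if t < T then ‖w t‖ ^ 2 else 0 := by
    intro t _
    split_ifs <;> simp
  rw [sum_congr rfl h7, ← sum_filter]
  apply sum_congr _ fun _ _ => rfl
  ext t
  rw [mem_filter, mem_range, mem_range]
  omega

open Classical in
/-- **the correlations, split** -/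
theorem corr_split {T : ℕ} (hT : 0 < T) (u v w : ℕ → ℂ) (P : ℕ → Prop) {D μ : ℝ}
    (hm : ∀ k : ℕ, ¬ P k → ‖∑ t ∈ range T, u t * ee (t * ((k : ℝ) / (2 * T : ℕ)))‖ *
      ‖∑ s ∈ range T, v s * ee (s * ((k : ℝ) / (2 * T : ℕ)))‖ ≤
      D * ‖∑ s ∈ range T, w s * ee (s * ((k : ℝ) / (2 * T : ℕ)))‖)
    (hM : ∑ k ∈ (range (2 * T)).filter P, ‖∑ t ∈ range T, u t * ee (t * ((k : ℝ) / (2 * T : ℕ)))‖ *
      ‖∑ s ∈ range T, v s * ee (s * ((k : ℝ) / (2 * T : ℕ)))‖ ≤ (2 * T : ℕ) * μ) :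
    ∃ E : ℕ → ℝ, (∀ h, 0 ≤ E h) ∧ ∑ h ∈ range T, E h ^ 2 ≤ D ^ 2 * ∑ t ∈ range T, ‖w t‖ ^ 2 ∧
      ∀ h < T, ‖∑ t ∈ range (T - h), (starRingEnd ℂ) (u t) * v (t + h)‖ ≤ μ + E h := by
  set X := 2 * T with hX
  have hX0 : 0 < X := by omega
  have hXr : (0 : ℝ) < X := by exact_mod_cast hX0
  set G : ℕ → ℂ := fun k => (starRingEnd ℂ) (∑ t ∈ range T, u t * ee (t * ((k : ℝ) / X))) *
        (∑ s ∈ range T, v s * ee (s * ((k : ℝ) / X))) with hG
  set G' : ℕ → ℂ := fun k => if P k then 0 else G k with hG'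
  refine ⟨fun h => (1 / X) * ‖∑ k ∈ range X, G' k * ee (-(h * ((k : ℝ) / X)))‖, fun h => by positivity, ?_, ?_⟩
  · have h1 : ∑ h ∈ range T, ((1 / (X : ℝ)) * ‖∑ k ∈ range X, G' k * ee (-(h * ((k : ℝ) / X)))‖) ^ 2 ≤
        ∑ h ∈ range X, ((1 / (X : ℝ)) * ‖∑ k ∈ range X, G' k * ee (-(h * ((k : ℝ) / X)))‖) ^ 2 := by
      apply sum_le_sum_of_subset_of_nonneg
      · intro x hx
        rw [mem_range] at hx ⊢
        omega
      · intro _ _ _
        positivity
    refine h1.trans ?_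
    have h2 : ∑ h ∈ range X, ((1 / (X : ℝ)) * ‖∑ k ∈ range X, G' k * ee (-(h * ((k : ℝ) / X)))‖) ^ 2 =
        (1 / (X : ℝ)) * ∑ k ∈ range X, ‖G' k‖ ^ 2 := by
      simp only [mul_pow]
      rw [← mul_sum, pars_neg hX0]
      field_simp
    rw [h2]
    have h3 : ∑ k ∈ range X, ‖G' k‖ ^ 2 ≤ ∑ k ∈ range X, D ^ 2 * ‖∑ s ∈ range T, w s * ee (s * ((k : ℝ) / X))‖ ^ 2 := by
      apply sum_le_sum
      intro k _
      rw [hG']
      simp only
      split_ifs with hP
      · rw [norm_zero, zero_pow two_ne_zero]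
        positivity
      · rw [hG]
        simp only
        rw [norm_mul, RCLike.norm_conj, ← mul_pow]
        exact pow_le_pow_left₀ (by positivity) (hm k hP) 2
    rw [← mul_sum, pars_half hT] at h3
    calc (1 / (X : ℝ)) * ∑ k ∈ range X, ‖G' k‖ ^ 2 ≤ (1 / (X : ℝ)) * (D ^ 2 * ((X : ℕ) * ∑ t ∈ range T, ‖w t‖ ^ 2)) :=
          mul_le_mul_of_nonneg_left h3 (by positivity)
      _ = _ := by field_simp
  · intro h hh
    have h1 := corr_four hT u v hh
    rw [← hX] at h1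
    have h2 : ∑ k ∈ range X, ((starRingEnd ℂ) (∑ t ∈ range T, u t * ee (t * ((k : ℝ) / X))) *
        (∑ s ∈ range T, v s * ee (s * ((k : ℝ) / X)))) * ee (-(h * ((k : ℝ) / X))) =
        ∑ k ∈ (range X).filter P, G k * ee (-(h * ((k : ℝ) / X))) + ∑ k ∈ range X, G' k * ee (-(h * ((k : ℝ) / X))) := by
      rw [sum_filter, ← sum_add_distrib]
      apply sum_congr rfl
      intro k _
      rw [hG']
      simp only
      split_ifs <;> simp [hG]
    rw [h2] at h1
    have h3 : (X : ℝ) * ‖∑ t ∈ range (T - h), (starRingEnd ℂ) (u t) * v (t + h)‖ ≤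
        X * μ + ‖∑ k ∈ range X, G' k * ee (-(h * ((k : ℝ) / X)))‖ := by
      have h4 := congrArg norm h1
      rw [norm_mul, Complex.norm_natCast] at h4
      rw [h4]
      refine (norm_add_le _ _).trans ?_
      apply add_le_add_left
      refine (norm_sum_le _ _).trans ?_
      refine le_trans (le_of_eq ?_) hM
      apply sum_congr rfl
      intro k _
      rw [norm_mul, norm_ee, mul_one, hG]
      simp only
      rw [norm_mul, RCLike.norm_conj]
    have h5 : (X : ℝ) * (μ + (1 / X) * ‖∑ k ∈ range X, G' k * ee (-(h * ((k : ℝ) / X)))‖) =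
        X * μ + ‖∑ k ∈ range X, G' k * ee (-(h * ((k : ℝ) / X)))‖ := by field_simp
    rw [← h5] at h3
    exact le_of_mul_le_mul_left h3 hXr

open Classical in
/-- Cauchy-Schwarz on the major frequencies -/
lemma major_cs {T : ℕ} (hT : 0 < T) (u v : ℕ → ℂ) (P : ℕ → Prop) {A B : ℝ} (hA0 : 0 ≤ A) (hB0 : 0 ≤ B)
    (hA : ∑ k ∈ (range (2 * T)).filter P, ‖∑ t ∈ range T, u t * ee (t * ((k : ℝ) / (2 * T : ℕ)))‖ ^ 2 ≤ (2 * T) * A ^ 2)
    (hB : ∑ t ∈ range T, ‖v t‖ ^ 2 ≤ B ^ 2) :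
    ∑ k ∈ (range (2 * T)).filter P, ‖∑ t ∈ range T, u t * ee (t * ((k : ℝ) / (2 * T : ℕ)))‖ *
      ‖∑ s ∈ range T, v s * ee (s * ((k : ℝ) / (2 * T : ℕ)))‖ ≤ (2 * T : ℕ) * (A * B) := by
  have h1 := sum_mul_sq_le_sq_mul_sq ((range (2 * T)).filter P)
    (fun k : ℕ => ‖∑ t ∈ range T, u t * ee (t * ((k : ℝ) / (2 * T : ℕ)))‖)
    (fun k : ℕ => ‖∑ s ∈ range T, v s * ee (s * ((k : ℝ) / (2 * T : ℕ)))‖)
  have h2 : ∑ k ∈ (range (2 * T)).filter P, ‖∑ s ∈ range T, v s * ee (s * ((k : ℝ) / (2 * T : ℕ)))‖ ^ 2 ≤ (2 * T) * B ^ 2 := by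
    refine (sum_le_sum_of_subset_of_nonneg (filter_subset _ _) fun _ _ _ => sq_nonneg _).trans ?_
    rw [pars_half hT]
    push_cast
    exact mul_le_mul_of_nonneg_left hB (by positivity)
  apply le_of_sq_le_sq _ (by positivity)
  refine h1.trans ?_
  calc _ ≤ ((2 * T) * A ^ 2) * ((2 * T) * B ^ 2) := mul_le_mul hA h2 (sum_nonneg fun _ _ => sq_nonneg _) (by positivity)
    _ = _ := by push_cast; ring

variable {l : ℝ} {N W T : ℕ}

/-- the difference on the minor arcs -/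
theorem minor_FF (h : Par l N W T) {b : ℕ} (hb : b < W) {α : ℝ}
    (hmaj : ∀ r : ℕ, 1 ≤ r → r ≤ ⌊Real.exp (l / 2)⌋₊ → 7 * W * Real.exp (3 * l) / N ≤ dd (r * α)) :
    ‖∑ t ∈ range T, ((FF W ⌊Real.exp (l / 2)⌋₊ b t : ℝ) : ℂ) * ee (t * α)‖ ≤ T * Real.exp (-(l / 5)) := by
  have hl := h.hl
  have hN0 := h.N0
  have hW0 := h.W0
  have hT0 := h.T0
  have hL1 := h.L1
  have hL2 := h.L2
  have hNT := h.NT
  have hWe := h.hW
  have hNn : 1 ≤ N := by exact_mod_cast (Nat.cast_pos.1 hN0)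
  set Q := ⌊Real.exp (l / 2)⌋₊ with hQ
  have hQ1 : (Q : ℝ) ≤ Real.exp (l / 2) := Nat.floor_le (Real.exp_pos _).le
  have hQ0 : (0 : ℝ) ≤ Q := Nat.cast_nonneg _
  have hQQ : (Q : ℝ) ^ 2 ≤ Real.exp l := by
    calc (Q : ℝ) ^ 2 ≤ Real.exp (l / 2) ^ 2 := pow_le_pow_left₀ hQ0 hQ1 2
      _ = Real.exp l := by rw [← Real.exp_nat_mul]; congr 1; push_cast; ring
  set ρ := 7 * W * Real.exp (3 * l) / N with hρ
  have hρ0 : 0 < ρ := by positivity
  have h1 := prim_minor h hb (α := α) (fun r hr1 hr2 => hmaj r hr1 hr2)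
  have h2 := mo_minor (W := W) (Q := Q) b T (α := α) hρ0 (fun r hr1 hr2 => hmaj r hr1 hr2)
  have h3 : ∑ t ∈ range T, ((FF W Q b t : ℝ) : ℂ) * ee (t * α) =
      ∑ t ∈ range T, ((th (b + W * t) : ℝ) : ℂ) * ee (t * α) -
      (gW W : ℂ) * ∑ t ∈ range T, ((mo W Q b t : ℝ) : ℂ) * ee (t * α) := by
    rw [mul_sum, ← sum_sub_distrib]
    apply sum_congr rfl
    intro t _
    unfold FF
    push_cast
    ring
  rw [h3]
  refine (norm_sub_le _ _).trans ?_
  rw [norm_mul, Complex.norm_real, Real.norm_of_nonneg (gW_nonneg W)]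
  -- the three contributions
  have c1 : N * Real.exp (-(6 * l / 25)) ≤ T * (2 * Real.exp (-(23 * l / 100))) := by
    calc N * Real.exp (-(6 * l / 25)) ≤ (2 * Real.exp (l / 100) * T) * Real.exp (-(6 * l / 25)) :=
          mul_le_mul_of_nonneg_right hNT (Real.exp_pos _).le
      _ = T * (2 * (Real.exp (l / 100) * Real.exp (-(6 * l / 25)))) := by ring
      _ = _ := by rw [← Real.exp_add]; ring_nf
  have c2 : 2 * √(N : ℝ) * Real.log N ≤ T * (2 * Real.exp (-(23 * l / 100))) := by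
    have e1 : √(N : ℝ) ≤ N * Real.exp (-(50 * l)) := by
      have a1 : Real.exp (50 * l) ≤ √(N : ℝ) := by
        rw [show Real.exp (50 * l) = √(Real.exp (50 * l) ^ 2) by rw [Real.sqrt_sq (Real.exp_pos _).le]]
        apply Real.sqrt_le_sqrt
        rw [← Real.exp_nat_mul]
        refine le_trans (Real.exp_le_exp.2 ?_) h.hN
        push_cast
        linarith
      have a2 : √(N : ℝ) * √(N : ℝ) = N := Real.mul_self_sqrt hN0.le
      have a3 : Real.exp (50 * l) * Real.exp (-(50 * l)) = 1 := by rw [← Real.exp_add]; simp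
      have a4 : 0 < Real.exp (-(50 * l)) := Real.exp_pos _
      have a5 : 0 ≤ √(N : ℝ) := Real.sqrt_nonneg _
      calc √(N : ℝ) = √(N : ℝ) * (Real.exp (50 * l) * Real.exp (-(50 * l))) := by rw [a3, mul_one]
        _ ≤ √(N : ℝ) * (√(N : ℝ) * Real.exp (-(50 * l))) := by
            apply mul_le_mul_of_nonneg_left _ a5
            exact mul_le_mul_of_nonneg_right a1 a4.le
        _ = _ := by rw [← mul_assoc, a2]
    calc 2 * √(N : ℝ) * Real.log N ≤ 2 * (N * Real.exp (-(50 * l))) * Real.exp (l / 100) := by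
          apply mul_le_mul (by linarith) hL2 (by linarith) (by positivity)
      _ ≤ 2 * ((2 * Real.exp (l / 100) * T) * Real.exp (-(50 * l))) * Real.exp (l / 100) := by
          apply mul_le_mul_of_nonneg_right _ (Real.exp_pos _).le
          apply mul_le_mul_of_nonneg_left _ (by norm_num)
          exact mul_le_mul_of_nonneg_right hNT (Real.exp_pos _).le
      _ = T * (2 * (2 * (Real.exp (l / 100) * Real.exp (-(50 * l)) * Real.exp (l / 100)))) := by ring
      _ ≤ T * (2 * Real.exp (-(23 * l / 100))) := by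
          apply mul_le_mul_of_nonneg_left _ hT0.le
          apply mul_le_mul_of_nonneg_left _ (by norm_num)
          have e2 := exp_big (l := l) (c := 1) hl (by norm_num)
          rw [one_mul] at e2
          calc 2 * (Real.exp (l / 100) * Real.exp (-(50 * l)) * Real.exp (l / 100)) ≤
              Real.exp l * (Real.exp (l / 100) * Real.exp (-(50 * l)) * Real.exp (l / 100)) :=
                mul_le_mul_of_nonneg_right (by linarith) (by positivity)
            _ ≤ _ := by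
              rw [← Real.exp_add, ← Real.exp_add, ← Real.exp_add]
              exact Real.exp_le_exp.2 (by linarith)
  have c3 : gW W * ‖∑ t ∈ range T, ((mo W Q b t : ℝ) : ℂ) * ee (t * α)‖ ≤ T * (2 * Real.exp (-(23 * l / 100))) := by
    calc gW W * ‖∑ t ∈ range T, ((mo W Q b t : ℝ) : ℂ) * ee (t * α)‖ ≤ W * (2 * (Q : ℝ) ^ 2 / ρ) :=
          mul_le_mul (gW_le h.hW1) h2 (norm_nonneg _) hW0.le
      _ = 2 / 7 * (Q : ℝ) ^ 2 * N / Real.exp (3 * l) := by rw [hρ]; field_simp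
      _ = 2 / 7 * (Q : ℝ) ^ 2 * N * Real.exp (-(3 * l)) := by rw [Real.exp_neg]; rfl
      _ ≤ 2 / 7 * Real.exp l * (2 * Real.exp (l / 100) * T) * Real.exp (-(3 * l)) := by
          apply mul_le_mul_of_nonneg_right _ (Real.exp_pos _).le
          apply mul_le_mul (by linarith) hNT hN0.le (by positivity)
      _ = T * (4 / 7 * (Real.exp l * Real.exp (l / 100) * Real.exp (-(3 * l)))) := by ring
      _ ≤ T * (2 * Real.exp (-(23 * l / 100))) := by
          apply mul_le_mul_of_nonneg_left _ hT0.le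
          rw [← Real.exp_add, ← Real.exp_add]
          have e1 : Real.exp (l + l / 100 + -(3 * l)) ≤ Real.exp (-(23 * l / 100)) := Real.exp_le_exp.2 (by linarith)
          have e2 := Real.exp_pos (-(23 * l / 100))
          linarith
  have c4 : 6 * Real.exp (-(23 * l / 100)) ≤ Real.exp (-(l / 5)) := by
    have e1 : Real.exp (-(l / 5)) = Real.exp (-(23 * l / 100)) * Real.exp (3 * l / 100) := by rw [← Real.exp_add]; ring_nf
    rw [e1]
    have e2 : 6 ≤ Real.exp (3 * l / 100) := by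
      -- from the size condition
      have a1 : (1 : ℝ) ≤ Real.log N ^ 10 := one_le_pow₀ (by linarith)
      have a2 : (10 : ℝ) ^ 8 ≤ Real.exp (l / 100) := by
        have := h.hL
        nlinarith
      have a3 : Real.exp (l / 100) ≤ Real.exp (3 * l / 100) := Real.exp_le_exp.2 (by linarith)
      linarith
    have e3 := Real.exp_pos (-(23 * l / 100))
    nlinarith
  have c5 : T * (6 * Real.exp (-(23 * l / 100))) ≤ T * Real.exp (-(l / 5)) := mul_le_mul_of_nonneg_left c4 hT0.le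
  linarith

end Pool.Agent.P8H13.GK
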