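import Pool.Agent.P8H13.GK.Mb
import Pool.Agent.TH823.PS.LSall
import Pool.Agent.P8H13.PK.Corr

set_option autoImplicit false

/-!
# Type one sums twisted by a Gauss sum
-/

open Complex Filter Topology Set MeasureTheory Metric
open scoped Real
open scoped ArithmeticFunction.vonMangoldt

namespace Pool.Agent.P8H13.GK

open Pool.Agent.W66 Pool.Agent.W66L
open Pool.Agent.TH823.PS (rr tau mem_rr tau_mul ee_mod)

lemma ee_same (x : ℝ) : Pool.Agent.Helper112.ee x = Pool.Agent.H807R2.Dav.ee x := by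
  unfold Pool.Agent.Helper112.ee Pool.Agent.H807R2.Dav.ee
  congr 1
  ring

/-- the data of a twist -/
structure Tw (q : ℕ) (χ : DirichletCharacter ℂ q) (G : ℕ → ℂ) (B : ℝ) : Prop where
  B0 : 0 ≤ B
  part : ∀ d m : ℕ, ‖∑ k ∈ Finset.Ioc 0 m, G (d * k)‖ ≤ B
  bd : ∀ n, ‖G n‖ ≤ B
  mul : ∀ p n : ℕ, p.Coprime q → G (p * n) = χ p * G n

lemma sum_rr_char {q : ℕ} [NeZero q] {χ : DirichletCharacter ℂ q} (hχ : χ ≠ 1) :
    ∑ a ∈ rr q, (starRingEnd ℂ) (χ (a : ZMod q)) = 0 := by
  have hq : 0 < q := Nat.pos_of_ne_zero (NeZero.ne q)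
  rw [← map_sum]
  have h1 : ∑ a ∈ rr q, χ (a : ZMod q) = 0 := by
    have h2 : ∑ a ∈ rr q, χ (a : ZMod q) = ∑ a ∈ Finset.range q, χ (a : ZMod q) := by
      unfold rr
      rw [Finset.sum_filter]
      apply Finset.sum_congr rfl
      intro a _
      split_ifs with h
      · rfl
      · exact (MulChar.map_nonunit χ (fun hu => h ((ZMod.isUnit_iff_coprime a q).1 hu))).symm
    have h3 : ∑ a ∈ Finset.range q, χ (a : ZMod q) = ∑ x : ZMod q, χ x := by
      symm
      apply Finset.sum_nbij' (i := fun x : ZMod q => x.val) (j := fun k : ℕ => (k : ZMod q))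
      · intro x _
        exact Finset.mem_range.2 (ZMod.val_lt x)
      · intro k _
        exact Finset.mem_univ _
      · intro x _
        exact ZMod.natCast_zmod_val x
      · intro k hk
        exact ZMod.val_cast_of_lt (Finset.mem_range.1 hk)
      · intro x _
        rw [ZMod.natCast_zmod_val]
    rw [h2, h3]
    exact MulChar.sum_eq_zero_of_ne_one hχ
  rw [h1, map_zero]

lemma card_rr_le (q : ℕ) : (rr q).card ≤ q := by
  unfold rr
  exact (Finset.card_filter_le _ _).trans (by simp)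

lemma norm_tau_le {q : ℕ} (χ : DirichletCharacter ℂ q) (n : ℕ) : ‖tau χ n‖ ≤ q := by
  unfold tau
  refine (norm_sum_le _ _).trans ?_
  have h1 : ∀ a ∈ rr q, ‖(starRingEnd ℂ) (χ (a : ZMod q)) * Pool.Agent.Helper112.ee (n * a / q)‖ ≤ 1 := by
    intro a _
    rw [norm_mul, RCLike.norm_conj, Pool.Agent.Helper112.ls_norm_ee, mul_one]
    exact χ.norm_le_one _
  refine (Finset.sum_le_sum h1).trans ?_
  rw [Finset.sum_const, nsmul_eq_mul, mul_one]
  exact_mod_cast card_rr_le q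

lemma tau_part {q : ℕ} [NeZero q] {χ : DirichletCharacter ℂ q} (hχ : χ ≠ 1) (d m : ℕ) :
    ‖∑ k ∈ Finset.Ioc 0 m, tau χ (d * k)‖ ≤ (q : ℝ) ^ 2 := by
  have hq : 0 < q := Nat.pos_of_ne_zero (NeZero.ne q)
  have hq0 : (0 : ℝ) < q := by exact_mod_cast hq
  have hqc : (q : ℂ) ≠ 0 := by exact_mod_cast hq.ne'
  set f : ZMod q → ℂ := fun x => tau χ (d * x.val) / q with hf
  have hval : ∀ k : ℕ, tau χ (d * (k : ZMod q).val) = tau χ (d * k) := by
    intro k
    unfold tau
    apply Finset.sum_congr rfl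
    intro a _
    congr 1
    rw [ZMod.val_natCast]
    have e1 : (((d * (k % q) : ℕ) : ℝ)) * a / q = ((d * a : ℕ) : ℝ) * ((k % q : ℕ) : ℝ) / q := by push_cast; ring
    have e2 : (((d * k : ℕ) : ℝ)) * a / q = ((d * a : ℕ) : ℝ) * (k : ℝ) / q := by push_cast; ring
    rw [e1, e2, ee_mod hq]
  have hsum : ∑ x : ZMod q, f x = 0 := by
    have h3 : ∑ x : ZMod q, f x = ∑ k ∈ Finset.range q, tau χ (d * k) / q := by
      apply Finset.sum_nbij' (i := fun x : ZMod q => x.val) (j := fun k : ℕ => (k : ZMod q))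
      · intro x _
        exact Finset.mem_range.2 (ZMod.val_lt x)
      · intro k _
        exact Finset.mem_univ _
      · intro x _
        exact ZMod.natCast_zmod_val x
      · intro k hk
        exact ZMod.val_cast_of_lt (Finset.mem_range.1 hk)
      · intro x _
        rfl
    rw [h3, ← Finset.sum_div]
    unfold tau
    rw [Finset.sum_comm]
    have h4 : ∀ a ∈ rr q, ∑ k ∈ Finset.range q, (starRingEnd ℂ) (χ (a : ZMod q)) *
        Pool.Agent.Helper112.ee (((d * k : ℕ) : ℝ) * a / q) =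
        (starRingEnd ℂ) (χ (a : ZMod q)) * (if q ∣ d then (q : ℂ) else 0) := by
      intro a ha
      rw [mem_rr] at ha
      rw [← Finset.mul_sum]
      congr 1
      have h5 := Pool.Agent.P8H13.PK.orth hq (((d * a : ℕ) : ℤ))
      have h6 : ∀ k ∈ Finset.range q, Pool.Agent.Helper112.ee (((d * k : ℕ) : ℝ) * a / q) =
          Pool.Agent.H807R2.Dav.ee ((k : ℝ) * ((((d * a : ℕ) : ℤ) : ℝ) / q)) := by
        intro k _
        rw [ee_same]
        congr 1
        push_cast
        ring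
      rw [Finset.sum_congr rfl h6, h5]
      have h7 : ((q : ℤ) ∣ ((d * a : ℕ) : ℤ)) ↔ q ∣ d := by
        rw [Int.natCast_dvd_natCast]
        constructor
        · intro h
          exact (Nat.Coprime.dvd_of_dvd_mul_right (Nat.coprime_comm.1 ha.2) h)
        · intro h
          exact dvd_mul_of_dvd_left h a
      by_cases h8 : q ∣ d
      · rw [if_pos (h7.2 h8), if_pos h8]
      · rw [if_neg (fun h => h8 (h7.1 h)), if_neg h8]
    rw [Finset.sum_congr rfl h4, ← Finset.sum_mul, sum_rr_char hχ, zero_mul, zero_div]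
  have hnorm : ∀ x, ‖f x‖ ≤ 1 := by
    intro x
    rw [hf]
    simp only
    rw [norm_div, Complex.norm_natCast, div_le_one hq0]
    exact norm_tau_le χ _
  have h1 := H307R2.sum_Ioc_block f hsum hnorm 0 m
  rw [zero_add] at h1
  have h2 : ∑ k ∈ Finset.Ioc 0 m, tau χ (d * k) = q * ∑ k ∈ Finset.Ioc 0 m, f (k : ZMod q) := by
    rw [Finset.mul_sum]
    apply Finset.sum_congr rfl
    intro k _
    rw [hf]
    simp only
    rw [hval, mul_div_cancel₀ _ hqc]
  rw [h2, norm_mul, Complex.norm_natCast, sq]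
  exact mul_le_mul_of_nonneg_left h1 hq0.le

lemma tau_tw {q : ℕ} [NeZero q] {χ : DirichletCharacter ℂ q} (hχ : χ ≠ 1) : Tw q χ (tau χ) ((q : ℝ) ^ 2) where
  B0 := by positivity
  part := tau_part hχ
  bd := fun n => by
    refine (norm_tau_le χ n).trans ?_
    have h1 : (1 : ℝ) ≤ q := by exact_mod_cast Nat.pos_of_ne_zero (NeZero.ne q)
    nlinarith
  mul := fun p n hp => tau_mul (Nat.pos_of_ne_zero (NeZero.ne q)) χ hp n

/-- Abel summation -/
lemma abelG {g : ℕ → ℂ} {B : ℝ} (hg : ∀ m, ‖∑ k ∈ Finset.Ioc 0 m, g k‖ ≤ B) (F : ℕ → ℝ) (N : ℕ)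
    (hF : F (N + 1) = 0) :
    ‖∑ m ∈ Finset.Ioc 0 N, g m * (F m : ℂ)‖ ≤ B * ∑ m ∈ Finset.Ioc 0 N, |F m - F (m + 1)| := by
  have key : ∀ N : ℕ, ∑ m ∈ Finset.Ioc 0 N, g m * (F m : ℂ) =
      ∑ m ∈ Finset.Ioc 0 N, (∑ k ∈ Finset.Ioc 0 m, g k) * ((F m - F (m + 1) : ℝ) : ℂ) +
        (∑ k ∈ Finset.Ioc 0 N, g k) * (F (N + 1) : ℂ) := by
    intro N
    induction N with
    | zero => simp
    | succ n ih =>
      rw [Finset.sum_Ioc_succ_top (by omega), Finset.sum_Ioc_succ_top (by omega), ih,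
        Finset.sum_Ioc_succ_top (by omega) g]
      push_cast
      ring
  rw [key, hF, Complex.ofReal_zero, mul_zero, add_zero, Finset.mul_sum]
  refine (norm_sum_le _ _).trans (Finset.sum_le_sum fun m _ => ?_)
  rw [norm_mul, Complex.norm_real, Real.norm_eq_abs]
  exact mul_le_mul_of_nonneg_right (hg m) (abs_nonneg _)

/-- smooth character sums are small -/
theorem charsumG {g : ℕ → ℂ} {B : ℝ} (hB : 0 ≤ B) (hg : ∀ m, ‖∑ k ∈ Finset.Ioc 0 m, g k‖ ≤ B)
    (ω : ℝ → ℝ) {h x K : ℝ} (hh : 0 < h)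
    (hh1 : h ≤ 1) (hx : 2 ≤ x) (hK : 1 ≤ K) (hω : ∀ v, 0 ≤ v → v ≤ x + 2 → |ω v| ≤ K)
    (hω2 : ∀ v w, |ω v - ω w| ≤ |v - w|) (N : ℕ) (hN : Real.exp (x + h) ≤ N) :
    ‖∑ m ∈ Finset.Ioc 0 N, g m * ((ω (Real.log m) / m * tri h (x - Real.log m) : ℝ) : ℂ)‖ ≤
      B * (48 * K * (Real.exp (-x) / h ^ 2)) := by
  set F : ℕ → ℝ := fun m => ω (Real.log m) / m * tri h (x - Real.log m) with hF
  have hN0 : (0 : ℝ) < N := lt_of_lt_of_le (Real.exp_pos _) hN
  have hlogN : x + h ≤ Real.log ((N + 1 : ℕ) : ℝ) := by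
    rw [Real.le_log_iff_exp_le (by positivity)]
    refine hN.trans ?_
    push_cast
    linarith
  have hFN : F (N + 1) = 0 := by
    simp only [hF]
    rw [tri_zero_of hh, mul_zero]
    rw [abs_of_nonpos (by linarith)]
    linarith
  refine (abelG hg F N hFN).trans ?_
  apply mul_le_mul_of_nonneg_left _ hB
  have h1 : ∀ m ∈ Finset.Ioc 0 N, |F m - F (m + 1)| ≤
      if x - h < Real.log ((m + 1 : ℕ) : ℝ) then 3 * K / h ^ 2 * ((m : ℝ) ^ 2)⁻¹ else 0 := by
    intro m hm
    rw [Finset.mem_Ioc] at hm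
    have hm0 : (0 : ℝ) < m := by exact_mod_cast hm.1
    have hm1 : (1 : ℝ) ≤ m := by exact_mod_cast hm.1
    obtain ⟨g1, g2, -⟩ := log_gap hm.1
    set a := Real.log m with ha
    set b := Real.log ((m + 1 : ℕ) : ℝ) with hb
    have ha0 : 0 ≤ a := Real.log_nonneg hm1
    have hFm : F m = ω a / m * tri h (x - a) := rfl
    have hFm1 : F (m + 1) = ω b / ((m + 1 : ℕ) : ℝ) * tri h (x - b) := rfl
    rw [hFm, hFm1]
    split_ifs with hc
    · rcases le_or_gt (x + h) a with h2 | h2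
      · rw [tri_zero_of hh (show h ≤ |x - a| by rw [abs_of_nonpos (by linarith)]; linarith),
          tri_zero_of hh (show h ≤ |x - b| by rw [abs_of_nonpos (by linarith)]; linarith)]
        simp only [mul_zero, sub_zero, abs_zero]
        positivity
      · have hb2 : b ≤ x + 2 := by
          have : (1 : ℝ) / m ≤ 1 := by
            rw [div_le_one hm0]; exact hm1
          linarith
        have t1 := tri_le hh (x - a)
        have t2 := tri_lip hh (x - a) (x - b)
        have t3 : |x - a - (x - b)| ≤ 1 / m := by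
          rw [show x - a - (x - b) = b - a by ring, abs_of_nonneg g1]
          exact g2
        have t4 := tri_nonneg hh (x - a)
        have w1 := hω a ha0 (by linarith)
        have w2 := hω b (by linarith) hb2
        have w3 : |ω b - ω a| ≤ 1 / m := by
          refine (hω2 b a).trans ?_
          rw [abs_of_nonneg g1]
          exact g2
        have hh2 : 1 / h ≤ 1 / h ^ 2 := by
          apply one_div_le_one_div_of_le (by positivity)
          nlinarith
        have e : ω a / m * tri h (x - a) - ω b / ((m + 1 : ℕ) : ℝ) * tri h (x - b) =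
            ω a * tri h (x - a) * (1 / m - 1 / ((m + 1 : ℕ) : ℝ)) +
            (-(ω b - ω a)) * tri h (x - a) * (1 / ((m + 1 : ℕ) : ℝ)) +
            ω b * (tri h (x - a) - tri h (x - b)) * (1 / ((m + 1 : ℕ) : ℝ)) := by
          ring
        rw [e]
        have hm1' : (1 : ℝ) / ((m + 1 : ℕ) : ℝ) ≤ 1 / m := by
          apply one_div_le_one_div_of_le hm0
          push_cast
          linarith
        have d1 : 0 ≤ (1 : ℝ) / m - 1 / ((m + 1 : ℕ) : ℝ) := by linarith
        have d2 : (1 : ℝ) / m - 1 / ((m + 1 : ℕ) : ℝ) ≤ 1 / (m : ℝ) ^ 2 := by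
          have e2 : (1 : ℝ) / m - 1 / ((m + 1 : ℕ) : ℝ) = 1 / (m * (m + 1)) := by
            push_cast
            field_simp
            ring
          rw [e2]
          apply one_div_le_one_div_of_le (by positivity)
          nlinarith
        have p1 : |ω a * tri h (x - a) * (1 / m - 1 / ((m + 1 : ℕ) : ℝ))| ≤
            K * (1 / h ^ 2) * (1 / (m : ℝ) ^ 2) := by
          rw [abs_mul, abs_mul, abs_of_nonneg t4, abs_of_nonneg d1]
          gcongr
          linarith
        have p2 : |(-(ω b - ω a)) * tri h (x - a) * (1 / ((m + 1 : ℕ) : ℝ))| ≤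
            (1 / m) * (1 / h ^ 2) * (1 / m) := by
          rw [abs_mul, abs_mul, abs_neg, abs_of_nonneg t4,
            abs_of_nonneg (by positivity : (0 : ℝ) ≤ 1 / ((m + 1 : ℕ) : ℝ))]
          gcongr
          linarith
        have p3 : |ω b * (tri h (x - a) - tri h (x - b)) * (1 / ((m + 1 : ℕ) : ℝ))| ≤
            K * (1 / h ^ 2 * (1 / m)) * (1 / m) := by
          rw [abs_mul, abs_mul, abs_of_nonneg (by positivity : (0 : ℝ) ≤ 1 / ((m + 1 : ℕ) : ℝ))]
          gcongr
          refine t2.trans ?_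
          gcongr
        refine (abs_add_three _ _ _).trans ?_
        have e3 : (1 / (m : ℝ)) * (1 / h ^ 2) * (1 / m) ≤ K * (1 / h ^ 2) * (1 / (m : ℝ) ^ 2) := by
          have : (1 / (m : ℝ)) * (1 / h ^ 2) * (1 / m) = 1 * (1 / h ^ 2) * (1 / (m : ℝ) ^ 2) := by
            field_simp
          rw [this]
          gcongr
        have e4 : K * (1 / h ^ 2 * (1 / (m : ℝ))) * (1 / m) = K * (1 / h ^ 2) * (1 / (m : ℝ) ^ 2) := by
          field_simp
        have e5 : 3 * K / h ^ 2 * ((m : ℝ) ^ 2)⁻¹ = 3 * (K * (1 / h ^ 2) * (1 / (m : ℝ) ^ 2)) := by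
          field_simp
        rw [e5]
        linarith
    · rw [not_lt] at hc
      rw [tri_zero_of hh (show h ≤ |x - a| by rw [abs_of_nonneg (by linarith)]; linarith),
        tri_zero_of hh (show h ≤ |x - b| by rw [abs_of_nonneg (by linarith)]; linarith)]
      simp
  refine (Finset.sum_le_sum h1).trans ?_
  rw [← Finset.sum_filter, ← Finset.mul_sum]
  have h2 := inv_sq_window hh1 hx N
  calc 3 * K / h ^ 2 * _ ≤ 3 * K / h ^ 2 * (16 * Real.exp (-x)) := by gcongr
    _ = _ := by ring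

/-- the convolution rearrangement -/
lemma conv_sumG (G : ℕ → ℂ) (f g : ArithmeticFunction ℝ) (h z : ℝ) (hh : 0 < h)
    (N : ℕ) (hN : Real.exp (z + h) ≤ N) :
    ∑ n ∈ Finset.Ioc 0 N, G n * (((f * g) n / n : ℝ) : ℂ) * triC h (z - Real.log n) =
      ∑ m ∈ Finset.Ioc 0 N, ((f m / m : ℝ) : ℂ) *
        ∑ l ∈ Finset.Ioc 0 N, (G (m * l) * ((g l / l : ℝ) : ℂ)) *
          triC h (z - Real.log m - Real.log l) := by
  have h1 : ∀ n ∈ Finset.Ioc 0 N, G n * (((f * g) n / n : ℝ) : ℂ) * triC h (z - Real.log n) =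
      ∑ p ∈ n.divisorsAntidiagonal, ((f p.1 / p.1 : ℝ) : ℂ) *
        ((G (p.1 * p.2) * ((g p.2 / p.2 : ℝ) : ℂ)) * triC h (z - Real.log p.1 - Real.log p.2)) := by
    intro n hn
    rw [Finset.mem_Ioc] at hn
    rw [ArithmeticFunction.mul_apply, Finset.sum_div, Complex.ofReal_sum, Finset.mul_sum,
      Finset.sum_mul]
    refine Finset.sum_congr rfl fun p hp => ?_
    rw [Nat.mem_divisorsAntidiagonal] at hp
    have h2 : (p.1 : ℝ) ≠ 0 := by
      have : p.1 ≠ 0 := by
        rintro h0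
        rw [h0, zero_mul] at hp
        omega
      exact_mod_cast this
    have h3 : (p.2 : ℝ) ≠ 0 := by
      have : p.2 ≠ 0 := by
        rintro h0
        rw [h0, mul_zero] at hp
        omega
      exact_mod_cast this
    have h5 : Real.log n = Real.log p.1 + Real.log p.2 := by
      rw [← Real.log_mul h2 h3, ← hp.1]
      push_cast
      rfl
    have h6 : f p.1 * g p.2 / (n : ℝ) = (f p.1 / p.1) * (g p.2 / p.2) := by
      rw [← hp.1]
      push_cast
      field_simp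
    rw [hp.1, h5, h6, sub_sub]
    push_cast
    ring
  rw [Finset.sum_congr rfl h1,
    hyperC (fun a b => ((f a / a : ℝ) : ℂ) *
        ((G (a * b) * ((g b / b : ℝ) : ℂ)) * triC h (z - Real.log a - Real.log b)))]
  · refine Finset.sum_congr rfl fun m _ => ?_
    rw [Finset.mul_sum]
  · intro a b ha hb hab
    have ha0 : (a : ℝ) ≠ 0 := by exact_mod_cast ha.ne'
    have hb0 : (b : ℝ) ≠ 0 := by exact_mod_cast hb.ne'
    have h2 : z + h ≤ Real.log a + Real.log b := by
      rw [← Real.log_mul ha0 hb0, Real.le_log_iff_exp_le (by positivity)]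
      refine hN.trans ?_
      exact_mod_cast hab.le
    unfold triC
    rw [tri_zero_of hh, Complex.ofReal_zero, mul_zero, mul_zero]
    rw [abs_of_nonpos (by linarith)]
    linarith

lemma muw_sumG (w N : ℕ) (hwN : w ≤ N) (X : ℕ → ℂ) :
    ∑ d ∈ Finset.Ioc 0 N, ((muw w d / d : ℝ) : ℂ) * X d =
      ∑ d ∈ Finset.Ioc 0 w, ((((ArithmeticFunction.moebius d : ℤ) : ℝ) / d : ℝ) : ℂ) * X d := by
  have h1 : Finset.Ioc 0 w ⊆ Finset.Ioc 0 N := Finset.Ioc_subset_Ioc_right hwN
  rw [← Finset.sum_subset h1]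
  · refine Finset.sum_congr rfl fun d hd => ?_
    rw [Finset.mem_Ioc] at hd
    rw [muw_apply, if_pos hd.2]
  · intro d hd hd2
    rw [Finset.mem_Ioc] at hd hd2
    rw [muw_apply, if_neg (by omega), zero_div, Complex.ofReal_zero, zero_mul]

/-- sums over `d ≤ w` -/
lemma dsumG {G : ℕ → ℂ} {B : ℝ} (hB : 0 ≤ B) (m0 : ℕ) (hG : ∀ d m, ‖∑ k ∈ Finset.Ioc 0 m, G (d * k)‖ ≤ B)
    (ω : ℝ → ℝ) {h z K : ℝ} (hh : 0 < h)
    (hh1 : h ≤ 1) (w N : ℕ) (hw : 1 ≤ w) (hz : Real.log w + 2 ≤ z) (hK : 1 ≤ K)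
    (hω : ∀ v, 0 ≤ v → v ≤ z + 2 → |ω v| ≤ K)
    (hω2 : ∀ v w, |ω v - ω w| ≤ |v - w|) (hN : Real.exp (z + h) ≤ N) :
    ‖∑ d ∈ Finset.Ioc 0 w, ((((ArithmeticFunction.moebius d : ℤ) : ℝ) / d : ℝ) : ℂ) *
      ∑ m ∈ Finset.Ioc 0 N, (G (m0 * (d * m)) * ((ω (Real.log m) / m : ℝ) : ℂ)) *
        triC h (z - Real.log d - Real.log m)‖ ≤
      w * (B * (48 * K * (Real.exp (-z) / h ^ 2))) := by
  have hw0 : (0 : ℝ) < w := by exact_mod_cast hw
  refine (norm_sum_le _ _).trans ?_
  have h3 : ∀ d ∈ Finset.Ioc 0 w,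
      ‖((((ArithmeticFunction.moebius d : ℤ) : ℝ) / d : ℝ) : ℂ) *
      ∑ m ∈ Finset.Ioc 0 N, (G (m0 * (d * m)) * ((ω (Real.log m) / m : ℝ) : ℂ)) *
        triC h (z - Real.log d - Real.log m)‖ ≤ B * (48 * K * (Real.exp (-z) / h ^ 2)) := by
    intro d hd
    rw [Finset.mem_Ioc] at hd
    have hd0 : (0 : ℝ) < d := by exact_mod_cast hd.1
    have hd1 : (1 : ℝ) ≤ d := by exact_mod_cast hd.1
    have hld : Real.log d ≤ Real.log w := Real.log_le_log hd0 (by exact_mod_cast hd.2)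
    have hld0 : 0 ≤ Real.log d := Real.log_nonneg hd1
    have hg : ∀ m, ‖∑ k ∈ Finset.Ioc 0 m, (fun k => G (m0 * (d * k))) k‖ ≤ B := by
      intro m
      have := hG (m0 * d) m
      simp only [mul_assoc] at this
      exact this
    have h3 := charsumG hB hg ω hh hh1 (x := z - Real.log d) (by linarith) hK
      (fun v hv hv2 => hω v hv (by linarith)) hω2 N (by
      refine le_trans (Real.exp_le_exp.2 ?_) hN
      linarith)
    have e1 : ∑ m ∈ Finset.Ioc 0 N, (G (m0 * (d * m)) * ((ω (Real.log m) / m : ℝ) : ℂ)) *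
        triC h (z - Real.log d - Real.log m) = ∑ m ∈ Finset.Ioc 0 N, (fun k => G (m0 * (d * k))) m *
        ((ω (Real.log m) / m * tri h (z - Real.log d - Real.log m) : ℝ) : ℂ) := by
      refine Finset.sum_congr rfl fun m _ => ?_
      unfold triC
      push_cast
      ring
    rw [e1, norm_mul, Complex.norm_real, Real.norm_eq_abs, abs_div, abs_of_pos hd0]
    have h4 := mu_abs d
    have h5 : Real.exp (-(z - Real.log d)) = d * Real.exp (-z) := by
      rw [neg_sub, sub_eq_add_neg, Real.exp_add, Real.exp_log hd0]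
    rw [h5] at h3
    calc _ ≤ (1 / (d : ℝ)) * (B * (48 * K * (d * Real.exp (-z) / h ^ 2))) := by gcongr
      _ = _ := by field_simp
  refine (Finset.sum_le_sum h3).trans ?_
  rw [Finset.sum_const, Nat.card_Ioc, nsmul_eq_mul, Nat.sub_zero]

/-- the smoothed sum of the second factor is small -/
theorem ggG_small {G : ℕ → ℂ} {B : ℝ} (hB : 0 ≤ B) (hG : ∀ d m, ‖∑ k ∈ Finset.Ioc 0 m, G (d * k)‖ ≤ B)
    (m0 : ℕ) {h x : ℝ} (hh : 0 < h) (hh1 : h ≤ 1)
    (w N : ℕ) (hw : 1 ≤ w) (hx : Real.log w + 2 ≤ x) (hN : Real.exp (x + h) ≤ N) :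
    ‖ggC h (Finset.Ioc 0 N) (fun l => G (m0 * l) * ((aw w l / l : ℝ) : ℂ)) x‖ ≤
      w * (B * (48 * 1 * (Real.exp (-x) / h ^ 2))) := by
  have hw0 : (0 : ℝ) < w := by exact_mod_cast hw
  have hlw : 0 ≤ Real.log w := Real.log_nonneg (by exact_mod_cast hw)
  have hwN : w ≤ N := by
    have h1 : (w : ℝ) ≤ N := by
      refine le_trans ?_ hN
      rw [← Real.log_le_iff_le_exp hw0]
      linarith
    exact_mod_cast h1
  have h0 : ggC h (Finset.Ioc 0 N) (fun l => G (m0 * l) * ((aw w l / l : ℝ) : ℂ)) x =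
      ∑ l ∈ Finset.Ioc 0 N, G (m0 * l) * (((if l = 1 then (1 : ℝ) else 0) / l : ℝ) : ℂ) *
        triC h (x - Real.log l) -
      ∑ l ∈ Finset.Ioc 0 N, G (m0 * l) * (((muw w * ((ArithmeticFunction.zeta : ArithmeticFunction ℕ) :
        ArithmeticFunction ℝ)) l / l : ℝ) : ℂ) * triC h (x - Real.log l) := by
    unfold ggC
    rw [← Finset.sum_sub_distrib]
    refine Finset.sum_congr rfl fun l _ => ?_
    simp only []
    rw [aw_apply, ArithmeticFunction.coe_mul_zeta_apply]
    push_cast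
    ring
  have h1 : ∑ l ∈ Finset.Ioc 0 N, G (m0 * l) * (((if l = 1 then (1 : ℝ) else 0) / l : ℝ) : ℂ) *
        triC h (x - Real.log l) = 0 := by
    apply Finset.sum_eq_zero
    intro l _
    split_ifs with h2
    · rw [h2]
      simp only [Nat.cast_one, Real.log_one, sub_zero]
      unfold triC
      rw [tri_zero_of hh, Complex.ofReal_zero, mul_zero]
      rw [abs_of_nonneg (by linarith)]
      linarith
    · simp
  rw [h0, h1, zero_sub, norm_neg, conv_sumG (fun n => G (m0 * n)) _ _ h x hh N hN, muw_sumG w N hwN]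
  have h3 := dsumG hB m0 hG (fun _ => (1 : ℝ)) hh hh1 w N hw hx le_rfl (by intro v _ _; simp)
    (by intro v w; simp) hN
  refine le_trans (le_of_eq ?_) h3
  congr 1
  refine Finset.sum_congr rfl fun d _ => ?_
  congr 1
  refine Finset.sum_congr rfl fun l hl => ?_
  rw [Finset.mem_Ioc] at hl
  rw [ArithmeticFunction.natCoe_apply, ArithmeticFunction.zeta_apply, if_neg (by omega)]
  simp

end Pool.Agent.P8H13.GK
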