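import Pool.Agent.Y568.FK.LD
import Pool.Agent.Y960.FK.Zfr
import Pool.Agent.W66.LC

/-!
# Landau's theorem on the real zeros of two real characters, and scales without exceptional zeros
-/

set_option autoImplicit false

namespace Pool.Agent.P8H13.GK

open Complex Filter Topology Set Metric
open Pool.Agent.Y755.FK Pool.Agent.Y960.FK
open scoped ArithmeticFunction.vonMangoldt

section

variable {q : ℕ} [NeZero q]

/-- `(1 + χ)(1 + ψ) ≥ 0` -/
theorem comb4 {χ ψ : DirichletCharacter ℂ q} (h2 : χ ^ 2 = 1) (h3 : ψ ^ 2 = 1) {σ : ℝ} (hσ : 1 < σ) :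
    0 ≤ FF (1 : DirichletCharacter ℂ q) (σ + (0 : ℝ) * I) + FF χ (σ + (0 : ℝ) * I) +
      FF ψ (σ + (0 : ℝ) * I) + FF (χ * ψ) (σ + (0 : ℝ) * I) := by
  have hre : 1 < ((σ : ℂ) + (0 : ℝ) * I).re := by simpa using hσ
  rw [FF_eq _ hre, FF_eq _ hre, FF_eq _ hre, FF_eq _ hre,
    ← (cf_re_sum (1 : DirichletCharacter ℂ q) hre).tsum_add (cf_re_sum χ hre),
    ← ((cf_re_sum (1 : DirichletCharacter ℂ q) hre).add (cf_re_sum χ hre)).tsum_add (cf_re_sum ψ hre),
    ← (((cf_re_sum (1 : DirichletCharacter ℂ q) hre).add (cf_re_sum χ hre)).add (cf_re_sum ψ hre)).tsum_add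
      (cf_re_sum (χ * ψ) hre)]
  refine tsum_nonneg fun n => ?_
  rcases eq_or_ne n 0 with rfl | hn
  · simp
  rw [term_eq _ _ _ hn, term_eq _ _ _ hn, term_eq _ _ _ hn, term_eq _ _ _ hn, re_ofReal_mul, re_ofReal_mul,
    re_ofReal_mul, re_ofReal_mul, ← mul_add, ← mul_add, ← mul_add]
  refine mul_nonneg (AA_nonneg σ n) ?_
  have e1 : (n : ℂ) ^ ((0 : ℝ) * I) = 1 := by simp
  rw [e1, div_one, div_one, div_one, div_one, MulChar.mul_apply]
  rcases val_sq h2 n with ⟨h4, h5⟩ | ⟨h4, h5⟩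
  · rw [h4, h5]
    rcases val_sq h3 n with ⟨h6, _⟩ | ⟨_, h7⟩
    · rw [h6]; simp
    · rw [h5] at h7
      exact absurd h7 (by norm_num)
  · rcases val_sq h3 n with ⟨_, h7⟩ | ⟨h6, _⟩
    · rw [h5] at h7
      exact absurd h7 (by norm_num)
    · rw [h5]
      rcases sq_eq_one_iff.1 h4 with h8 | h8 <;> rcases sq_eq_one_iff.1 h6 with h9 | h9 <;>
        rw [h8, h9] <;> norm_num

end

/-- two real characters cannot both have a real zero close to one -/
theorem pair_zero : ∃ c : ℝ, 0 < c ∧ c ≤ 1 / 24 ∧ ∀ (q : ℕ) [NeZero q] (χ ψ : DirichletCharacter ℂ q),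
    χ ^ 2 = 1 → ψ ^ 2 = 1 → χ ≠ 1 → ψ ≠ 1 → ∀ β γ : ℝ, 1 - c / Real.log (q * 3) ≤ β →
    1 - c / Real.log (q * 3) ≤ γ → χ.LFunction β = 0 → ψ.LFunction γ = 0 → β = γ := by
  obtain ⟨C, hC, hLD1, hLD2⟩ := Pool.Agent.Y568.FK.t_LD
  obtain ⟨c1, hc1, hZ⟩ := t_ZFR Pool.Agent.Y568.FK.t_LD
  refine ⟨min (1 / 24) (min c1 (1 / (30 * (C + 1)))), by positivity, min_le_left _ _,
    fun q _ χ ψ h2 h3 hχ hψ β γ hβ hγ zβ zγ => ?_⟩
  set c := min (1 / 24) (min c1 (1 / (30 * (C + 1)))) with hc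
  have hc0 : 0 < c := by positivity
  have hc24 : c ≤ 1 / 24 := min_le_left _ _
  have hcc1 : c ≤ c1 := (min_le_right _ _).trans (min_le_left _ _)
  have hcC : c ≤ 1 / (30 * (C + 1)) := (min_le_right _ _).trans (min_le_right _ _)
  have hq1 : (1 : ℝ) ≤ q := by exact_mod_cast NeZero.one_le
  have hℓ1 : 1 ≤ Real.log (q * 3) := by
    rw [Real.le_log_iff_exp_le (by positivity)]
    have := Real.exp_one_lt_d9
    linarith
  set ℓ := Real.log ((q : ℝ) * 3) with hℓ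
  have hℓ0 : 0 < ℓ := by linarith
  have hβ1 : β < 1 := by
    by_contra hcon
    exact DirichletCharacter.LFunction_ne_zero_of_one_le_re χ (Or.inl hχ) (s := (β : ℂ)) (by simpa using hcon) zβ
  have hγ1 : γ < 1 := by
    by_contra hcon
    exact DirichletCharacter.LFunction_ne_zero_of_one_le_re ψ (Or.inl hψ) (s := (γ : ℂ)) (by simpa using hcon) zγ
  by_cases hne : χ = ψ
  · subst hne
    obtain ⟨b, _, hb⟩ := hZ q χ h2 hχ 3 (by norm_num)
    have e1 : 1 - c1 / ℓ ≤ 1 - c / ℓ := by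
      have := div_le_div_of_nonneg_right hcc1 hℓ0.le
      linarith
    have f1 := (hb (β : ℂ) (by simpa using e1.trans hβ) (by simp) zβ).1
    have f2 := (hb (γ : ℂ) (by simpa using e1.trans hγ) (by simp) zγ).1
    have f3 : β = b := by exact_mod_cast f1
    have f4 : γ = b := by exact_mod_cast f2
    rw [f3, f4]
  exfalso
  have hprod : χ * ψ ≠ 1 := by
    intro h4
    apply hne
    have h5 : χ * ψ = χ * χ := by rw [h4, ← sq, h2]
    exact (mul_left_cancel h5).symm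
  set δ := c / ℓ with hδ
  have hδ0 : 0 < δ := by positivity
  have hδ24 : δ ≤ 1 / 24 := (div_le_self hc0.le hℓ1).trans hc24
  set σ : ℝ := 1 + 2 * δ with hσ
  have hσ1 : 1 < σ := by linarith
  have hs : ((σ : ℂ) + (0 : ℝ) * I) = (σ : ℂ) := by simp
  have hcomb := comb4 h2 h3 hσ1
  rw [hs] at hcomb
  have him : ((σ : ℂ)).im = 0 := by simp
  have hre : ((σ : ℂ)).re = σ := by simp
  have hlog : Real.log (q * (|((σ : ℂ)).im| + 3)) = ℓ := by
    rw [him, abs_zero, zero_add]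
  have a0 := hLD2 q (σ : ℂ) (by simpa using hσ1) (by rw [hre]; linarith)
  have a1 := (hLD1 q χ hχ (σ : ℂ) (by simpa using hσ1) (by rw [hre]; linarith)).2.1 β zβ
  have a2 := (hLD1 q ψ hψ (σ : ℂ) (by simpa using hσ1) (by rw [hre]; linarith)).2.1 γ zγ
  have a3 := (hLD1 q (χ * ψ) hprod (σ : ℂ) (by simpa using hσ1) (by rw [hre]; linarith)).1
  rw [hlog] at a0 a1 a2 a3
  have hdist : ∀ b : ℝ, 1 - δ ≤ b → b < 1 → ‖(σ : ℂ) - (b : ℂ)‖ ≤ 1 / 8 ∧
      1 / (3 * δ) ≤ (1 / ((σ : ℂ) - (b : ℂ))).re := by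
    intro b hb1 hb2
    have e1 : (σ : ℂ) - (b : ℂ) = ((σ - b : ℝ) : ℂ) := by push_cast; ring
    have e2 : 0 < σ - b := by linarith
    constructor
    · rw [e1, Complex.norm_real, Real.norm_eq_abs, abs_of_pos e2]
      linarith
    · rw [e1, ← Complex.ofReal_one, ← Complex.ofReal_div, Complex.ofReal_re]
      apply one_div_le_one_div_of_le e2
      linarith
  obtain ⟨d1, d2⟩ := hdist β hβ hβ1
  obtain ⟨d3, d4⟩ := hdist γ hγ hγ1
  have a1' := a1 d1
  have a2' := a2 d3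
  have a0' : (1 / ((σ : ℂ) - 1)).re = 1 / (2 * δ) := by
    have e1 : (σ : ℂ) - 1 = ((2 * δ : ℝ) : ℂ) := by rw [hσ]; push_cast; ring
    rw [e1, ← Complex.ofReal_one, ← Complex.ofReal_div, Complex.ofReal_re]
  rw [a0'] at a0
  unfold FF at hcomb
  have hkey : 0 ≤ 1 / (2 * δ) - 2 * (1 / (3 * δ)) + 4 * (C * ℓ) := by linarith
  have h5 : 1 / (2 * δ) - 2 * (1 / (3 * δ)) = -(1 / (6 * δ)) := by field_simp; ring
  have h6 : 1 / (6 * δ) = ℓ / (6 * c) := by rw [hδ]; field_simp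
  rw [h5, h6] at hkey
  have h7 : 30 * (C + 1) * c ≤ 1 := by
    have := mul_le_mul_of_nonneg_left hcC (show 0 ≤ 30 * (C + 1) by positivity)
    rw [mul_one_div_cancel (by positivity)] at this
    exact this
  have h8 : ℓ / (6 * c) ≤ 4 * (C * ℓ) := by linarith
  rw [div_le_iff₀ (by positivity)] at h8
  nlinarith

/-- scales without exceptional real zeros -/
theorem good_real : ∃ c : ℝ, 0 < c ∧ c ≤ 1 / 100 ∧ ∀ L0 : ℝ, ∃ l : ℝ, L0 ≤ l ∧ 4 ≤ l ∧
    ∀ (q : ℕ) [NeZero q], (q : ℝ) ≤ Real.exp l → ∀ χ : DirichletCharacter ℂ q, χ ≠ 1 → χ ^ 2 = 1 →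
      ∀ β : ℝ, 1 - c / l < β → χ.LFunction β ≠ 0 := by
  obtain ⟨c2, hc2, hc24, hpair⟩ := pair_zero
  refine ⟨c2 / 12, by positivity, by linarith, fun L0 => ?_⟩
  set c := c2 / 12 with hc
  have hc0 : 0 < c := by positivity
  set l0 := max L0 4 with hl0
  have hl04 : 4 ≤ l0 := le_max_right _ _
  by_contra hcon
  push Not at hcon
  obtain ⟨q1, _, hq1, χ1, hχ1, h21, β1, hβ1, z1⟩ := hcon l0 (le_max_left _ _) hl04
  have hβ11 : β1 < 1 := by
    by_contra hh
    exact DirichletCharacter.LFunction_ne_zero_of_one_le_re χ1 (Or.inl hχ1) (s := (β1 : ℂ)) (by simpa using hh) z1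
  set l1 := c / (1 - β1) with hl1
  have hpos : 0 < 1 - β1 := by linarith
  have hl01 : l0 < l1 := by
    rw [hl1, lt_div_iff₀ hpos]
    have h1 : 1 - β1 < c / l0 := by linarith
    rw [lt_div_iff₀ (by linarith)] at h1
    linarith
  have hl14 : 4 ≤ l1 := by linarith
  have hβ1e : 1 - c / l1 = β1 := by
    rw [hl1]
    field_simp
    ring
  obtain ⟨q2, _, hq2, χ2, hχ2, h22, β2, hβ2, z2⟩ := hcon l1 (le_trans (le_max_left _ _) hl01.le) hl14
  rw [hβ1e] at hβ2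
  have hNZ : NeZero (q1 * q2) := ⟨mul_ne_zero (NeZero.ne q1) (NeZero.ne q2)⟩
  set ψ1 := DirichletCharacter.changeLevel (Nat.dvd_mul_right q1 q2) χ1 with hψ1
  set ψ2 := DirichletCharacter.changeLevel (Nat.dvd_mul_left q2 q1) χ2 with hψ2
  have hn1 : ψ1 ≠ 1 := fun h => hχ1 ((DirichletCharacter.changeLevel_eq_one_iff _).1 h)
  have hn2 : ψ2 ≠ 1 := fun h => hχ2 ((DirichletCharacter.changeLevel_eq_one_iff _).1 h)
  have hs1 : ψ1 ^ 2 = 1 := by rw [hψ1, ← map_pow, h21, map_one]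
  have hs2 : ψ2 ^ 2 = 1 := by rw [hψ2, ← map_pow, h22, map_one]
  have hz1 : ψ1.LFunction β1 = 0 := by
    rw [hψ1, DirichletCharacter.LFunction_changeLevel _ _ (Or.inl hχ1), z1, zero_mul]
  have hz2 : ψ2.LFunction β2 = 0 := by
    rw [hψ2, DirichletCharacter.LFunction_changeLevel _ _ (Or.inl hχ2), z2, zero_mul]
  have hq10 : (1 : ℝ) ≤ q1 := by exact_mod_cast NeZero.one_le
  have hq20 : (1 : ℝ) ≤ q2 := by exact_mod_cast NeZero.one_le
  have hlog : Real.log (((q1 * q2 : ℕ) : ℝ) * 3) ≤ 3 * l1 := by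
    rw [Real.log_le_iff_le_exp (by push_cast; positivity)]
    push_cast
    have e1 : (q1 : ℝ) ≤ Real.exp l1 := hq1.trans (Real.exp_le_exp.2 hl01.le)
    have e3 : (3 : ℝ) ≤ Real.exp l1 := by linarith [Real.add_one_le_exp l1]
    calc (q1 : ℝ) * q2 * 3 ≤ Real.exp l1 * Real.exp l1 * Real.exp l1 := by gcongr
      _ = Real.exp (3 * l1) := by rw [← Real.exp_add, ← Real.exp_add]; congr 1; ring
  have hlog0 : 0 < Real.log (((q1 * q2 : ℕ) : ℝ) * 3) := by
    apply Real.log_pos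
    push_cast
    nlinarith
  have hcc : c / l1 ≤ c2 / Real.log (((q1 * q2 : ℕ) : ℝ) * 3) := by
    rw [div_le_div_iff₀ (by linarith) hlog0, hc]
    have := mul_le_mul_of_nonneg_left hlog (show 0 ≤ c2 / 12 by positivity)
    nlinarith
  have h1 := hpair (q1 * q2) ψ1 ψ2 hs1 hs2 hn1 hn2 β1 β2 (by linarith) (by linarith) hz1 hz2
  linarith

open Pool.Agent.W66L in
open Pool.Agent.W66 in
open H370 H370.Loc in
/-- the classical region for all characters at good scales -/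
theorem region : ∃ c C : ℝ, 0 < c ∧ c ≤ 1 / 8 ∧ 0 < C ∧ ∀ L0 : ℝ, ∃ l : ℝ, L0 ≤ l ∧ 4 ≤ l ∧
    ∀ (q : ℕ) [NeZero q], (q : ℝ) ≤ Real.exp l → ∀ χ : DirichletCharacter ℂ q, χ ≠ 1 →
      ∀ z : ℂ, 1 - c / l ≤ z.re → z.re ≤ 2 → |z.im| ≤ Real.exp l →
        χ.LFunction z ≠ 0 ∧ ‖DX χ z‖ ≤ C * l ^ 2 := by
  obtain ⟨ca, hca, hca1, hreal⟩ := good_real
  obtain ⟨cb, hcb, hcb1, hcomp⟩ := zfl
  obtain ⟨cz, hcz, hZ⟩ := t_ZFR Pool.Agent.Y568.FK.t_LD
  obtain ⟨K0, hK0, hball⟩ := LF_const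
  set c := min ca (min (cb / 3) (cz / 3)) / 2 with hc
  have hc0 : 0 < c := by positivity
  have hcca : 2 * c ≤ ca := by rw [hc]; linarith [min_le_left ca (min (cb / 3) (cz / 3))]
  have hccb : 2 * c ≤ cb / 3 := by
    rw [hc]; linarith [min_le_right ca (min (cb / 3) (cz / 3)), min_le_left (cb / 3) (cz / 3)]
  have hccz : 2 * c ≤ cz / 3 := by
    rw [hc]; linarith [min_le_right ca (min (cb / 3) (cz / 3)), min_le_right (cb / 3) (cz / 3)]
  refine ⟨c, 3 * K0 + 3 * K0 / c, hc0, by linarith, by positivity, fun L0 => ?_⟩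
  obtain ⟨l, hl, hl4, hgood⟩ := hreal L0
  refine ⟨l, hl, hl4, fun q _ hq χ hχ z hz hz2 him => ?_⟩
  have hl0 : 0 < l := by linarith
  have hq1 : (1 : ℝ) ≤ q := by exact_mod_cast NeZero.one_le
  have hel : (5 : ℝ) ≤ Real.exp l := by linarith [Real.add_one_le_exp l]
  have hlogq : Real.log q ≤ l := by
    rw [Real.log_le_iff_le_exp (by linarith)]; exact hq
  have hlqb : ∀ t : ℝ, |t| ≤ Real.exp l + 2 → lq q t ≤ 3 * l := by
    intro t ht
    unfold lq ell
    have h1 : Real.log (|t| + 3) ≤ 2 * l := by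
      rw [Real.log_le_iff_le_exp (by positivity)]
      calc |t| + 3 ≤ Real.exp l + 5 := by linarith
        _ ≤ Real.exp l * Real.exp l := by nlinarith
        _ = _ := by rw [← Real.exp_add]; congr 1; ring
    linarith
  -- the zeros
  have hzero : ∀ ρ : ℂ, |ρ.im| ≤ Real.exp l + 2 → χ.LFunction ρ = 0 → ρ.re ≤ 1 - 2 * c / l := by
    intro ρ hρ h0
    by_cases h2 : χ ^ 2 = 1
    · by_contra hcon
      push Not at hcon
      have hT : (2 : ℝ) ≤ Real.exp (2 * l) := by linarith [Real.add_one_le_exp (2 * l)]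
      obtain ⟨β, _, hβ⟩ := hZ q χ h2 hχ (Real.exp (2 * l)) hT
      have hlog : Real.log (q * Real.exp (2 * l)) ≤ 3 * l := by
        rw [Real.log_mul (by positivity) (Real.exp_pos _).ne', Real.log_exp]
        linarith
      have hlog0 : 0 < Real.log (q * Real.exp (2 * l)) := Real.log_pos (by nlinarith)
      have h3 : 2 * c / l ≤ cz / Real.log (q * Real.exp (2 * l)) := by
        calc 2 * c / l ≤ (cz / 3) / l := div_le_div_of_nonneg_right hccz hl0.le
          _ = cz / (3 * l) := by rw [div_div]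
          _ ≤ _ := div_le_div_of_nonneg_left hcz.le hlog0 hlog
      have h4 := (hβ ρ (by linarith) (by
        refine hρ.trans ?_
        have : Real.exp (2 * l) = Real.exp l * Real.exp l := by rw [← Real.exp_add]; congr 1; ring
        rw [this]; nlinarith) h0).1
      rw [h4] at h0 hcon
      rw [Complex.ofReal_re] at hcon
      apply hgood q hq χ hχ h2 β _ h0
      have : 2 * c / l ≤ ca / l := div_le_div_of_nonneg_right hcca hl0.le
      linarith
    · have h1 := hcomp q χ h2 ρ h0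
      have h3 := hlqb _ hρ
      have h4 := one_le_lq q ρ.im
      have h5 : 2 * c / l ≤ cb / lq q ρ.im := by
        calc 2 * c / l ≤ (cb / 3) / l := div_le_div_of_nonneg_right hccb hl0.le
          _ = cb / (3 * l) := by rw [div_div]
          _ ≤ _ := div_le_div_of_nonneg_left hcb.le (by linarith) h3
      linarith
  set t := z.im with ht
  have hell := one_le_lq q t
  have hell0 : 0 < lq q t := by linarith
  have hlt := hlqb t (by linarith)
  obtain ⟨M, hM1, hMb, hbd2, hbd⟩ := hball q χ hχ t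
  have hcn : χ.LFunction ⟨2, t⟩ ≠ 0 := LF_ne_zero hχ (by norm_num)
  have hcb' : ‖χ.LFunction ⟨2, t⟩‖ ≤ M := hMb _ (mem_closedBall_self (by norm_num))
  have hcl : c / l ≤ 1 / 8 := by
    refine (div_le_self hc0.le (by linarith)).trans (by linarith)
  have hzb : z ∈ closedBall (⟨2, t⟩ : ℂ) (9 / 8) := by
    rw [mem_closedBall, dist_eq_norm]
    have e : z - ⟨2, t⟩ = ((z.re - 2 : ℝ) : ℂ) := by
      apply Complex.ext <;> simp [ht]
    rw [e, Complex.norm_real, Real.norm_eq_abs, abs_le]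
    constructor <;> linarith
  have hdist : ∀ ρ ∈ closedBall (⟨2, t⟩ : ℂ) (3 / 2), χ.LFunction ρ = 0 → c / l ≤ ‖z - ρ‖ := by
    intro ρ hρ h0
    rw [mem_closedBall, dist_eq_norm] at hρ
    have h2 := (Complex.abs_im_le_norm (ρ - ⟨2, t⟩)).trans hρ
    simp only [sub_im] at h2
    have h3 : |ρ.im| ≤ Real.exp l + 2 := by
      have := abs_sub_abs_le_abs_sub ρ.im t
      linarith
    have h1 := hzero ρ h3 h0
    refine le_trans ?_ ((le_abs_self _).trans (Complex.abs_re_le_norm (z - ρ)))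
    rw [sub_re]
    have h7 : 2 * c / l = 2 * (c / l) := by ring
    rw [h7] at h1
    linarith
  obtain ⟨h1, h2⟩ := landau (f := χ.LFunction) (c := ⟨2, t⟩) (r := 3 / 2) (r1 := 11 / 8)
    (r2 := 9 / 8) (R := 7 / 4) (M := M) (by norm_num) (by norm_num) (by norm_num) (by norm_num)
    (by norm_num) hM1 hcb' (fun z _ => (DirichletCharacter.differentiable_LFunction hχ).analyticAt z)
    hcn hMb z hzb (c / l) (by positivity) hdist
  refine ⟨h1, h2.trans ?_⟩
  have hb1 : Real.log (M / ‖χ.LFunction ⟨2, t⟩‖) / Real.log (7 / 4 / (3 / 2)) / (c / l) ≤ 3 * K0 / c * l ^ 2 := by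
    calc _ ≤ (K0 * lq q t) / (c / l) := by gcongr
      _ ≤ (K0 * (3 * l)) / (c / l) := by gcongr
      _ = _ := by field_simp
  have hb2 : K0 * lq q t ≤ 3 * K0 * l ^ 2 := by
    have h3 : K0 * lq q t ≤ K0 * (3 * l) := mul_le_mul_of_nonneg_left hlt hK0.le
    have h4 : K0 * l ≤ K0 * l ^ 2 := mul_le_mul_of_nonneg_left (by nlinarith) hK0.le
    linarith
  calc _ ≤ 3 * K0 * l ^ 2 + 3 * K0 / c * l ^ 2 := by linarith
    _ = _ := by ring

end Pool.Agent.P8H13.GK
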